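import Pool.Agent.Lib.MP_9debf8_pr.Op

set_option autoImplicit false

/-! Hypercontractivity for global functions (sixth moment) and its consequences. -/

open Finset

namespace Pool.Agent.HideZero

lemma one_site_ineq {ρ A B s : ℝ} (h0 : 0 ≤ ρ) (h1 : ρ ≤ 1 / 4) (hA : 0 ≤ A) (hB : 0 ≤ B)
    (hs : s ^ 2 ≤ A * B) :
    (A + 2 * ρ * s + ρ ^ 2 * B) ^ 3 ≤ A ^ 3 + 6 * ρ * A ^ 2 * s + 3 * A ^ 2 * B + 3 * B ^ 3 := by
  set y := 2 * ρ * s + ρ ^ 2 * B with hy
  have hρ2 : ρ ^ 2 ≤ 1 / 16 := by nlinarith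
  have hρ20 : 0 ≤ ρ ^ 2 := sq_nonneg _
  have hAB : 0 ≤ A * B := mul_nonneg hA hB
  -- `|s| ≤ (A + B) / 2`
  have hsabs : |s| ≤ (A + B) / 2 := by
    apply abs_le_of_sq_le_sq _ (by positivity)
    nlinarith [sq_nonneg (A - B)]
  have hy2 : y ^ 2 ≤ (1 / 2) * (A * B) + (1 / 128) * B ^ 2 := by
    have e1 : y ^ 2 ≤ 2 * (2 * ρ * s) ^ 2 + 2 * (ρ ^ 2 * B) ^ 2 := by
      rw [hy]; nlinarith [sq_nonneg (2 * ρ * s - ρ ^ 2 * B)]
    have e2 : (2 * ρ * s) ^ 2 ≤ (1 / 4) * (A * B) := by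
      have : (2 * ρ * s) ^ 2 = 4 * ρ ^ 2 * s ^ 2 := by ring
      rw [this]
      have := mul_le_mul hρ2 hs (sq_nonneg s) (by norm_num)
      nlinarith
    have e3 : (ρ ^ 2 * B) ^ 2 ≤ (1 / 256) * B ^ 2 := by
      have : (ρ ^ 2 * B) ^ 2 = (ρ ^ 2) ^ 2 * B ^ 2 := by ring
      rw [this]
      have : (ρ ^ 2) ^ 2 ≤ 1 / 256 := by nlinarith
      exact mul_le_mul_of_nonneg_right this (sq_nonneg _)
    linarith
  have hyle : y ≤ (1 / 4) * A + (5 / 16) * B := by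
    have e1 : 2 * ρ * s ≤ (1 / 2) * ((A + B) / 2) := by
      have : 2 * ρ * s ≤ 2 * ρ * |s| := mul_le_mul_of_nonneg_left (le_abs_self s) (by linarith)
      have h2 : 2 * ρ * |s| ≤ (1 / 2) * ((A + B) / 2) :=
        mul_le_mul (by linarith) hsabs (abs_nonneg _) (by norm_num)
      linarith
    have e2 : ρ ^ 2 * B ≤ (1 / 16) * B := mul_le_mul_of_nonneg_right hρ2 hB
    rw [hy]; linarith
  have key : (3 * A + y) * y ^ 2
      ≤ ((13 / 4) * A + (5 / 16) * B) * ((1 / 2) * (A * B) + (1 / 128) * B ^ 2) := by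
    calc (3 * A + y) * y ^ 2 ≤ ((13 / 4) * A + (5 / 16) * B) * y ^ 2 :=
          mul_le_mul_of_nonneg_right (by linarith) (sq_nonneg _)
      _ ≤ _ := mul_le_mul_of_nonneg_left hy2 (by positivity)
  have hAB2 : A * B ^ 2 ≤ (A ^ 2 * B + B ^ 3) / 2 := by
    nlinarith [mul_nonneg hB (sq_nonneg (A - B))]
  have hA2B : 0 ≤ A ^ 2 * B := by positivity
  have hB3 : 0 ≤ B ^ 3 := by positivity
  have e4 : ρ ^ 2 * (A ^ 2 * B) ≤ (1 / 16) * (A ^ 2 * B) := mul_le_mul_of_nonneg_right hρ2 hA2B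
  have e5 : (A + 2 * ρ * s + ρ ^ 2 * B) ^ 3
      = A ^ 3 + 6 * ρ * A ^ 2 * s + 3 * (ρ ^ 2 * (A ^ 2 * B)) + (3 * A + y) * y ^ 2 := by
    rw [hy]; ring
  rw [e5]
  nlinarith

variable {ι Ω : Type} [Fintype ι] [DecidableEq ι] [Fintype Ω] [DecidableEq Ω] (W : Wt Ω)

lemma hyper_step {ρ : ℝ} (h0 : 0 ≤ ρ) (h1 : ρ ≤ 1 / 4) (i : ι) (J : Finset ι)
    (H : (ι → Ω) → ℝ) (x : ι → Ω) :
    EE W {i} (fun y => (EE W J ((TT W ρ {i} H) ^ 2) y) ^ 3) x
      ≤ (EE W (insert i J) (H ^ 2) x) ^ 3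
        + 3 * EE W {i} (fun y => (EE W J ((LL W {i} H) ^ 2) y) ^ 3) x := by
  set a := EE W {i} H with ha
  set b := LL W {i} H with hb
  set A := EE W J (a ^ 2) with hA
  set B := EE W J (b ^ 2) with hB
  set s := EE W J (a * b) with hs
  have hinva : Inv i a := Inv_EE W i H
  have hinvA : Inv i A := Inv.EE W (fun x c => by simp [hinva x c]) J
  have hexp : ∀ y, EE W J ((TT W ρ {i} H) ^ 2) y = A y + 2 * ρ * s y + ρ ^ 2 * B y := by
    intro y
    rw [hA, hB, hs, ← EE_cmul, ← EE_cmul, ← EE_add, ← EE_add]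
    refine EE_congr W J (fun z => ?_) y
    simp only [TT_single, Pi.pow_apply, Pi.add_apply, Pi.smul_apply, smul_eq_mul, Pi.mul_apply,
      ← ha, ← hb]
    ring
  have hs0 : EE W {i} s x = 0 := by
    rw [hs, EE_comm]
    refine (EE_congr W J (g := fun _ => 0) (fun y => ?_) x).trans (EE_const W J 0 x)
    have := hinva.EE_mul W b y
    rw [hb, EE_LL_single, mul_zero] at this
    exact this
  have hsum : EE W (insert i J) (H ^ 2) x = A x + EE W {i} B x := by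
    rw [EE_insert', hB, EE_comm W {i} J, hA, ← EE_add]
    refine EE_congr W J (fun y => ?_) x
    rw [pyth]; rfl
  have hA0 : 0 ≤ A x := EE_sq_nonneg W J a x
  have hB0 : 0 ≤ EE W {i} B x := EE_nonneg W _ (fun y => EE_sq_nonneg W J b y) x
  have hinvA2 : Inv i (fun y => A y ^ 2) := fun x c => by simp [hinvA x c]
  have hinvA3 : Inv i (fun y => A y ^ 3) := fun x c => by simp [hinvA x c]
  calc EE W {i} (fun y => (EE W J ((TT W ρ {i} H) ^ 2) y) ^ 3) x
      ≤ EE W {i} (fun y => A y ^ 3 + (6 * ρ) * (A y ^ 2 * s y) + 3 * (A y ^ 2 * B y)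
          + 3 * B y ^ 3) x := by
        refine EE_mono W _ (fun y => ?_) x
        rw [hexp]
        have := one_site_ineq h0 h1 (EE_sq_nonneg W J a y) (EE_sq_nonneg W J b y)
          (EE_cauchy W J a b y)
        rw [← hA, ← hB, ← hs] at this
        linarith
    _ = A x ^ 3 + 3 * (A x ^ 2 * EE W {i} B x) + 3 * EE W {i} (fun y => B y ^ 3) x := by
        rw [EE_add, EE_add, EE_add, EE_cmul, EE_cmul, EE_cmul, hinvA2.EE_mul, hinvA2.EE_mul, hs0,
          hinvA3.EE_eq]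
        ring
    _ ≤ _ := by
        rw [hsum]
        have : A x ^ 3 + 3 * (A x ^ 2 * EE W {i} B x) ≤ (A x + EE W {i} B x) ^ 3 := by
          have h3 : 0 ≤ A x * EE W {i} B x ^ 2 := by positivity
          have h4 : 0 ≤ EE W {i} B x ^ 3 := by positivity
          nlinarith
        linarith

theorem hyper {ρ : ℝ} (h0 : 0 ≤ ρ) (h1 : ρ ≤ 1 / 4) (M : ℝ) (l : Finset ι) :
    ∀ (J : Finset ι) (F : (ι → Ω) → ℝ), Disjoint l J →
      (∀ S ⊆ l, ∀ x, EE W ((l ∪ J) \ S) ((LL W S F) ^ 2) x ≤ M) → ∀ x,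
      EE W l (fun y => (EE W J ((TT W ρ l F) ^ 2) y) ^ 3) x
        ≤ M ^ 2 * EE W (l ∪ J) ((TT W 2 l F) ^ 2) x := by
  induction l using Finset.induction_on with
  | empty =>
    intro J F _ h x
    have h1 := h ∅ Subset.rfl x
    simp only [EE_empty, TT_empty, LL_empty, empty_union, sdiff_empty] at h1 ⊢
    have h2 := EE_sq_nonneg W J F x
    have h3 : EE W J (F ^ 2) x ^ 2 ≤ M ^ 2 := pow_le_pow_left₀ h2 h1 2
    nlinarith
  | insert i l hi ih =>
    intro J F hd h x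
    have hiJ : i ∉ J := disjoint_left.1 hd (mem_insert_self i l)
    have hdl : Disjoint l J := hd.mono_left (subset_insert i l)
    have ih1 := ih (insert i J) F (by simp [hi, hdl]) (by
      intro S hS y
      have := h S (hS.trans (subset_insert i l)) y
      rwa [insert_union, ← union_insert] at this)
    have ih2 := ih J (LL W {i} F) hdl (by
      intro S hS y
      have := h (insert i S) (insert_subset_insert i hS) y
      rw [LL_LL, union_comm S, ← insert_eq]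
      have e : (insert i l ∪ J) \ insert i S = (l ∪ J) \ S := by
        ext j
        simp only [mem_sdiff, mem_union, mem_insert]
        constructor
        · rintro ⟨h1, h2⟩
          push Not at h2
          rcases h1 with (h1 | h1) | h1
          · exact absurd h1 h2.1
          · exact ⟨Or.inl h1, h2.2⟩
          · exact ⟨Or.inr h1, h2.2⟩
        · rintro ⟨h1, h2⟩
          refine ⟨by tauto, ?_⟩
          rintro (rfl | h3)
          · rcases h1 with h1 | h1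
            · exact hi h1
            · exact hiJ h1
          · exact h2 h3
      rwa [e] at this)
    rw [TT_insert W ρ hi, EE_insert']
    calc EE W l (EE W {i} fun y => (EE W J ((TT W ρ {i} (TT W ρ l F)) ^ 2) y) ^ 3) x
        ≤ EE W l (fun y => (EE W (insert i J) ((TT W ρ l F) ^ 2) y) ^ 3
          + 3 * EE W {i} (fun z => (EE W J ((LL W {i} (TT W ρ l F)) ^ 2) z) ^ 3) y) x :=
          EE_mono W l (fun y => hyper_step W h0 h1 i J _ y) x
      _ ≤ M ^ 2 * EE W (l ∪ insert i J) ((TT W 2 l F) ^ 2) x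
          + 3 * (M ^ 2 * EE W {i} (EE W (l ∪ J) ((TT W 2 l (LL W {i} F)) ^ 2)) x) := by
          rw [EE_add, EE_cmul]
          refine add_le_add (ih1 x) (mul_le_mul_of_nonneg_left ?_ (by norm_num))
          have : EE W l (fun y => EE W {i}
              (fun z => (EE W J ((LL W {i} (TT W ρ l F)) ^ 2) z) ^ 3) y) x
              = EE W {i} (EE W l (fun z => (EE W J ((TT W ρ l (LL W {i} F)) ^ 2) z) ^ 3)) x := by
            rw [EE_comm, TT_LL]
          rw [this, ← EE_cmul]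
          exact EE_mono W _ ih2 x
      _ = _ := by
          rw [TT_insert W 2 hi, insert_union, EE_insert', union_insert, EE_insert', EE_comm W {i},
            TT_LL]
          have : EE W {i} ((TT W 2 {i} (TT W 2 l F)) ^ 2)
              = fun y => EE W {i} ((TT W 2 l F) ^ 2) y
                + 3 * EE W {i} ((LL W {i} (TT W 2 l F)) ^ 2) y := by
            funext y
            rw [pyth_T, pyth W i (TT W 2 l F)]; ring
          rw [this, EE_add, EE_cmul]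
          ring

lemma young6 {u y τ K : ℝ} (hτ : 0 < τ) (hu : |u| ≤ K) :
    u * y ≤ τ * |u| + K / τ ^ 5 * (y ^ 2) ^ 3 := by
  have hK : 0 ≤ K := (abs_nonneg u).trans hu
  have h1 : u * y ≤ |u| * |y| := by rw [← abs_mul]; exact le_abs_self _
  have h6 : (y ^ 2) ^ 3 = |y| ^ 6 := by rw [← sq_abs y]; ring
  rcases le_total |y| τ with h | h
  · have : |u| * |y| ≤ |u| * τ := mul_le_mul_of_nonneg_left h (abs_nonneg u)
    have : 0 ≤ K / τ ^ 5 * (y ^ 2) ^ 3 := by positivity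
    linarith
  · have h5 : τ ^ 5 ≤ |y| ^ 5 := pow_le_pow_left₀ hτ.le h 5
    have : |y| ≤ |y| ^ 6 / τ ^ 5 := by
      rw [le_div_iff₀ (by positivity)]
      calc |y| * τ ^ 5 ≤ |y| * |y| ^ 5 := mul_le_mul_of_nonneg_left h5 (abs_nonneg y)
        _ = _ := by ring
    have h7 : |u| * |y| ≤ K * (|y| ^ 6 / τ ^ 5) := mul_le_mul hu this (abs_nonneg y) hK
    have : 0 ≤ τ * |u| := by positivity
    rw [h6]
    calc u * y ≤ K * (|y| ^ 6 / τ ^ 5) := h1.trans h7
      _ = K / τ ^ 5 * |y| ^ 6 := by ring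
      _ ≤ _ := by linarith

lemma LL_TT_LL (r : ℝ) (S S' : Finset ι) (hS : S' ⊆ Sᶜ) (g : (ι → Ω) → ℝ) :
    LL W S' (TT W r Sᶜ (LL W S g)) = r ^ S'.card • TT W r (S ∪ S')ᶜ (LL W (S ∪ S') g) := by
  have hp : r ^ S'.card = ∏ i, sel S' r i := by
    simp [sel, prod_ite_mem]
  rw [hp, TT, TT, LL, LL, LL, U_U, U_U, U_U, ← U_smul]
  congr 2
  · funext i
    by_cases h1 : i ∈ S <;> by_cases h2 : i ∈ S' <;> simp [sel, h1, h2]
  · funext i
    by_cases h2 : i ∈ S'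
    · have := hS h2
      simp only [mem_compl] at this
      simp [sel, h2, this]
    · by_cases h1 : i ∈ S <;> simp [sel, h1, h2]

lemma boot_ineq {ρ : ℝ} (h0 : 0 ≤ ρ) (h1 : ρ ≤ 1 / 8) {g : (ι → Ω) → ℝ} {K Msq : ℝ}
    (hg : ∀ x, |g x| ≤ K)
    (hM : ∀ (S : Finset ι) x, EE W Sᶜ ((TT W ρ Sᶜ (LL W S g)) ^ 2) x ≤ 16 ^ S.card * Msq)
    (S : Finset ι) (x : ι → Ω) {τ : ℝ} (hτ : 0 < τ) :
    EE W Sᶜ ((TT W ρ Sᶜ (LL W S g)) ^ 2) x
      ≤ τ * EE W Sᶜ (fun y => |LL W S g y|) x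
        + 2 ^ S.card * K / τ ^ 5 * ((16 ^ S.card * Msq) ^ 2
          * EE W Sᶜ ((TT W ρ Sᶜ (LL W S g)) ^ 2) x) := by
  set u := LL W S g with hu
  have hMsq : 0 ≤ Msq := by
    have := (EE_sq_nonneg W _ _ x).trans (hM ∅ x)
    simpa using this
  have hK : 0 ≤ K := (abs_nonneg _).trans (hg x)
  have hub : ∀ y, |u y| ≤ 2 ^ S.card * K := by
    intro y
    have := abs_LL_le W S ∅ (g := g) (c := K) (fun z => by simpa [EE_empty] using hg z) y
    simpa [EE_empty] using this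
  set F := TT W (ρ / 2) Sᶜ u with hF
  have hh := hyper W (ρ := 2 * ρ) (by linarith) (by linarith) (16 ^ S.card * Msq) Sᶜ ∅ F
    (by simp) (by
      intro S' hS' y
      have hdisj : Disjoint S S' := by
        rw [disjoint_left]; intro j hj hj'; exact (mem_compl.1 (hS' hj')) hj
      have e : (Sᶜ ∪ ∅) \ S' = (S ∪ S')ᶜ := by ext j; simp
      rw [e, hF, hu, LL_TT_LL W _ S S' hS']
      have e2 : ((ρ / 2) ^ S'.card • TT W (ρ / 2) (S ∪ S')ᶜ (LL W (S ∪ S') g)) ^ 2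
          = fun z => ((ρ / 2) ^ 2) ^ S'.card
            * ((TT W (1 / 2) (S ∪ S')ᶜ (TT W ρ (S ∪ S')ᶜ (LL W (S ∪ S') g))) ^ 2) z := by
        funext z
        rw [TT_TT_same, show 1 / 2 * ρ = ρ / 2 by ring]
        simp only [Pi.pow_apply, Pi.smul_apply, smul_eq_mul]
        rw [mul_pow, ← pow_mul, ← pow_mul, mul_comm 2]
      rw [e2, EE_cmul]
      have e3 := (TT_contr W (r := 1 / 2) (by norm_num) (S ∪ S')ᶜ
        (TT W ρ (S ∪ S')ᶜ (LL W (S ∪ S') g)) y).trans (hM (S ∪ S') y)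
      rw [card_union_of_disjoint hdisj, pow_add] at e3
      have e4 : ((ρ / 2) ^ 2) ^ S'.card * 16 ^ S'.card ≤ 1 := by
        rw [← mul_pow]
        exact pow_le_one₀ (by positivity) (by nlinarith)
      calc _ ≤ ((ρ / 2) ^ 2) ^ S'.card * (16 ^ S.card * 16 ^ S'.card * Msq) :=
            mul_le_mul_of_nonneg_left e3 (by positivity)
        _ = (((ρ / 2) ^ 2) ^ S'.card * 16 ^ S'.card) * (16 ^ S.card * Msq) := by ring
        _ ≤ 1 * (16 ^ S.card * Msq) := mul_le_mul_of_nonneg_right e4 (by positivity)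
        _ = _ := one_mul _) x
  simp only [EE_empty, union_empty] at hh
  rw [hF, TT_TT_same, TT_TT_same, show 2 * (ρ / 2) = ρ by ring,
    show 2 * ρ * (ρ / 2) = ρ * ρ by ring] at hh
  have e1 : EE W Sᶜ ((TT W ρ Sᶜ u) ^ 2) x = EE W Sᶜ (u * TT W (ρ * ρ) Sᶜ u) x := by
    rw [sq, TT_selfadj, TT_TT_same]
  calc EE W Sᶜ ((TT W ρ Sᶜ u) ^ 2) x = EE W Sᶜ (u * TT W (ρ * ρ) Sᶜ u) x := e1
    _ ≤ EE W Sᶜ (fun y => τ * |u y|
        + 2 ^ S.card * K / τ ^ 5 * (((TT W (ρ * ρ) Sᶜ u) ^ 2) y) ^ 3) x :=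
        EE_mono W _ (fun y => young6 hτ (hub y)) x
    _ ≤ _ := by
        rw [EE_add, EE_cmul, EE_cmul]
        exact add_le_add le_rfl (mul_le_mul_of_nonneg_left hh (by positivity))

/-- The level inequality for global functions. -/
theorem global_noise {ρ : ℝ} (h0 : 0 ≤ ρ) (h1 : ρ ≤ 1 / 8) {g : (ι → Ω) → ℝ} {K θ : ℝ}
    (hK : 0 < K) (hθ : 0 < θ) (hg : ∀ x, |g x| ≤ K)
    (hglob : ∀ (S : Finset ι) x, EE W Sᶜ (fun y => |g y|) x ≤ K * θ ^ 6 * 2 ^ S.card)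
    (x : ι → Ω) :
    EE W univ ((TT W ρ univ g) ^ 2) x ≤ 4 * K * θ ^ 4 * EE W univ (fun y => |g y|) x := by
  obtain ⟨⟨S, x₀⟩, -, hmax⟩ := Finset.exists_max_image (univ : Finset (Finset ι × (ι → Ω)))
    (fun p => EE W p.1ᶜ ((TT W ρ p.1ᶜ (LL W p.1 g)) ^ 2) p.2 / 16 ^ p.1.card)
    ⟨(∅, x), mem_univ _⟩
  set Msq := EE W Sᶜ ((TT W ρ Sᶜ (LL W S g)) ^ 2) x₀ / 16 ^ S.card with hMsq
  have hM : ∀ (S : Finset ι) x, EE W Sᶜ ((TT W ρ Sᶜ (LL W S g)) ^ 2) x ≤ 16 ^ S.card * Msq := by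
    intro S' y
    have := hmax (S', y) (mem_univ _)
    rw [div_le_iff₀ (by positivity)] at this
    linarith
  have hN0 := EE_sq_nonneg W Sᶜ (TT W ρ Sᶜ (LL W S g)) x₀
  have hMsq0 : 0 ≤ Msq := by positivity
  have hMle : Msq ≤ (2 * K * θ ^ 5) ^ 2 := by
    obtain ⟨m, hm0, hm⟩ : ∃ m : ℝ, 0 ≤ m ∧ EE W Sᶜ ((TT W ρ Sᶜ (LL W S g)) ^ 2) x₀ = m ^ 2 :=
      ⟨_, Real.sqrt_nonneg _, (Real.sq_sqrt hN0).symm⟩
    have hmM : 16 ^ S.card * Msq = m ^ 2 := by
      rw [hMsq, hm]; field_simp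
    rcases hm0.eq_or_lt with h | h
    · have : Msq = 0 := by rw [hMsq, hm, ← h]; simp
      rw [this]; positivity
    · have hb := boot_ineq W h0 h1 hg hM S x₀ (τ := m / θ) (by positivity)
      have hb2 := abs_LL_le W S Sᶜ (hglob S) x₀
      rw [hmM, hm] at hb
      have hb3 : m ^ 2 ≤ m / θ * (2 ^ S.card * (K * θ ^ 6 * 2 ^ S.card))
          + 2 ^ S.card * K / (m / θ) ^ 5 * ((m ^ 2) ^ 2 * m ^ 2) := by
        refine hb.trans (add_le_add (mul_le_mul_of_nonneg_left hb2 (by positivity)) le_rfl)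
      have e1 : m / θ * (2 ^ S.card * (K * θ ^ 6 * 2 ^ S.card))
          + 2 ^ S.card * K / (m / θ) ^ 5 * ((m ^ 2) ^ 2 * m ^ 2)
          = m * (K * θ ^ 5 * (2 ^ S.card * 2 ^ S.card + 2 ^ S.card)) := by
        field_simp
      rw [e1, sq] at hb3
      have hb4 := le_of_mul_le_mul_left hb3 h
      have h2 : (1 : ℝ) ≤ 2 ^ S.card := one_le_pow₀ (by norm_num)
      have hb5 : m ≤ 2 * K * θ ^ 5 * (2 ^ S.card * 2 ^ S.card) := by
        have : (2 : ℝ) ^ S.card * 2 ^ S.card + 2 ^ S.card ≤ 2 * (2 ^ S.card * 2 ^ S.card) := by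
          nlinarith
        have := mul_le_mul_of_nonneg_left this (show 0 ≤ K * θ ^ 5 by positivity)
        linarith
      have hb6 : m ^ 2 ≤ (2 * K * θ ^ 5 * (2 ^ S.card * 2 ^ S.card)) ^ 2 :=
        pow_le_pow_left₀ hm0 hb5 2
      have e2 : (2 * K * θ ^ 5 * (2 ^ S.card * 2 ^ S.card)) ^ 2
          = 16 ^ S.card * (2 * K * θ ^ 5) ^ 2 := by
        have : (16 : ℝ) ^ S.card = (2 ^ S.card) ^ 4 := by
          rw [← pow_mul, mul_comm, pow_mul]; norm_num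
        rw [this]; ring
      rw [e2, ← hmM] at hb6
      exact le_of_mul_le_mul_left hb6 (by positivity)
  have hb := boot_ineq W h0 h1 hg hM ∅ x (τ := 2 * K * θ ^ 4) (by positivity)
  simp only [compl_empty, LL_empty, card_empty, pow_zero, one_mul] at hb
  have hN := EE_sq_nonneg W univ (TT W ρ univ g) x
  have e3 : K / (2 * K * θ ^ 4) ^ 5 * Msq ^ 2 ≤ 1 / 2 := by
    calc K / (2 * K * θ ^ 4) ^ 5 * Msq ^ 2
        ≤ K / (2 * K * θ ^ 4) ^ 5 * ((2 * K * θ ^ 5) ^ 2) ^ 2 :=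
          mul_le_mul_of_nonneg_left (pow_le_pow_left₀ hMsq0 hMle 2) (by positivity)
      _ = 1 / 2 := by field_simp
  have e4 := mul_le_mul_of_nonneg_right e3 hN
  nlinarith

/-- Log-convexity of the noise stability. -/
lemma logconv (ρ : ℝ) (f : (ι → Ω) → ℝ) (x : ι → Ω) :
    (EE W univ ((TT W ρ univ f) ^ 2) x) ^ 2
      ≤ EE W univ (f ^ 2) x * EE W univ ((TT W (ρ ^ 2) univ f) ^ 2) x := by
  rw [sq (TT W ρ univ f), TT_selfadj, TT_TT_same, ← sq ρ]
  exact EE_cauchy W univ _ _ x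

lemma logconv_iter (f : (ι → Ω) → ℝ) (x : ι → Ω) {A : ℝ} (hA : EE W univ (f ^ 2) x ≤ A) (j : ℕ) :
    ∀ (ρ ε : ℝ), 0 ≤ ε → EE W univ ((TT W (ρ ^ 2 ^ j) univ f) ^ 2) x ≤ ε ^ 2 ^ j * A →
      EE W univ ((TT W ρ univ f) ^ 2) x ≤ ε * A := by
  have hA0 : 0 ≤ A := (EE_sq_nonneg W _ _ x).trans hA
  induction j with
  | zero => intro ρ ε _ h; simpa using h
  | succ j ih =>
    intro ρ ε hε h
    have h2 := ih (ρ ^ 2) (ε ^ 2) (by positivity) (by
      rw [← pow_mul, ← pow_mul, ← pow_succ']; exact h)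
    have h3 := logconv W ρ f x
    refine (pow_le_pow_iff_left₀ (EE_sq_nonneg W _ _ x) (by positivity) two_ne_zero).1 ?_
    calc _ ≤ _ := h3
      _ ≤ A * (ε ^ 2 * A) := mul_le_mul hA h2 (EE_sq_nonneg W _ _ x) hA0
      _ = _ := by ring

lemma TT_const (r : ℝ) (c : ℝ) (J : Finset ι) : TT W r J (fun _ : ι → Ω => c) = fun _ => c := by
  induction J using Finset.induction_on with
  | empty => rw [TT_empty]
  | insert i J hi ih =>
    rw [TT_insert W r hi, ih, TT_single, LL_single]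
    funext x
    simp [EE_const]

lemma EE_univ_const (f : (ι → Ω) → ℝ) (x y : ι → Ω) : EE W univ f x = EE W univ f y := by
  simp [EE_apply]

/-- Noise stability bound for a function all of whose Laplacians are global. -/
theorem noise_small {ρ : ℝ} (h0 : 0 ≤ ρ) (h1 : ρ ≤ 1 / 8) {f : (ι → Ω) → ℝ} {K θ : ℝ}
    (hK : 0 < K) (hθ : 0 < θ) (hg : ∀ i x, |LL W {i} f x| ≤ K)
    (hglob : ∀ i (S : Finset ι) x,
      EE W Sᶜ (fun y => |LL W {i} f y|) x ≤ K * θ ^ 6 * 2 ^ S.card) (x : ι → Ω) :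
    EE W univ ((TT W ρ univ (fun y => f y - EE W univ f x)) ^ 2) x
      ≤ 4 * K * θ ^ 4 * ∑ i, EE W univ (fun y => |LL W {i} f y|) x := by
  have hes := efron_stein W univ (TT W ρ univ f) x
  have e1 : TT W ρ univ (fun y => f y - EE W univ f x)
      = fun y => TT W ρ univ f y - EE W univ f x := by
    have : (fun y => f y - EE W univ f x) = f - fun _ => EE W univ f x := rfl
    rw [this, map_sub, TT_const]; rfl
  have e2 : EE W univ ((TT W ρ univ (fun y => f y - EE W univ f x)) ^ 2) x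
      = EE W univ ((TT W ρ univ f) ^ 2) x - (EE W univ (TT W ρ univ f) x) ^ 2 := by
    rw [e1, EE_TT_same]
    have : (fun y => TT W ρ univ f y - EE W univ f x) ^ 2
        = fun y => ((TT W ρ univ f) ^ 2) y + (-2 * EE W univ f x) * TT W ρ univ f y
          + EE W univ f x ^ 2 := by
      funext y; simp only [Pi.pow_apply]; ring
    rw [this, EE_add, EE_add, EE_cmul, EE_const, EE_TT_same]
    ring
  rw [e2, mul_sum]
  refine hes.trans (sum_le_sum fun i _ => ?_)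
  rw [← TT_LL]
  exact global_noise W h0 h1 hK hθ (hg i) (hglob i) x

end Pool.Agent.HideZero
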