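import Pool.Agent.Lib.MP_9debf8_pr.Scales

set_option autoImplicit false

/-! Encoding of the geometric weights by bits, and explicit lattice paths. -/

open Finset MeasureTheory MeasureTheory.Measure ProbabilityTheory Filter
open scoped ENNReal Topology

namespace Pool.Agent.HideZero

/-- Number of leading ones. -/
noncomputable def lead (β : ℕ → Bool) : ℕ := sInf {k | β k = false}

lemma lead_eq_iff (β : ℕ → Bool) (k : ℕ) : lead β = k ↔
    (β k = false ∧ ∀ i < k, β i = true) ∨ (k = 0 ∧ ∀ i, β i = true) := by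
  unfold lead
  by_cases h : {k | β k = false}.Nonempty
  · constructor
    · rintro rfl
      refine Or.inl ⟨Nat.sInf_mem h, fun i hi => ?_⟩
      simpa using Nat.notMem_of_lt_sInf hi
    · rintro (⟨h1, h2⟩ | ⟨-, h2⟩)
      · refine le_antisymm (Nat.sInf_le h1) (not_lt.1 fun hc => ?_)
        have := Nat.sInf_mem h
        simp [h2 _ hc] at this
      · obtain ⟨i, hi⟩ := h
        simp [h2 i] at hi
  · rw [Set.not_nonempty_iff_eq_empty] at h
    have h2 : ∀ i, β i = true := fun i => by
      have : i ∉ {k | β k = false} := by rw [h]; simp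
      simpa using this
    rw [h, Nat.sInf_empty]
    simp [h2, eq_comm]

lemma measurable_lead : Measurable lead := by
  refine measurable_to_countable' fun k => ?_
  have : lead ⁻¹' {k} = {β | (β k = false ∧ ∀ i < k, β i = true) ∨ (k = 0 ∧ ∀ i, β i = true)} := by
    ext β; exact lead_eq_iff β k
  rw [this]
  measurability

/-- First bit and number of leading ones among the remaining bits. -/
noncomputable def pairf (β : ℕ → Bool) : Bool × ℕ := (β 0, lead fun i => β (i + 1))

lemma measurable_pairf : Measurable pairf :=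
  (measurable_pi_apply 0).prodMk (measurable_lead.comp
    (measurable_pi_lambda _ fun _ => measurable_pi_apply _))

lemma pairf_law {q : ℝ} (h0 : 0 ≤ q) (h1 : q < 1) :
    (infinitePi fun _ : ℕ => bern q).map pairf = (bern q).prod (geo q) := by
  have : IsProbabilityMeasure ((infinitePi fun _ : ℕ => bern q).map pairf) :=
    isProbabilityMeasure_map measurable_pairf.aemeasurable
  symm
  refine Measure.eq_of_le_of_isProbabilityMeasure (Measure.le_iff.2 fun s hs => ?_)
  rw [← tsum_indicator_apply_singleton _ s hs, ← tsum_indicator_apply_singleton _ s hs]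
  refine ENNReal.tsum_le_tsum fun p => Set.indicator_le_indicator ?_
  obtain ⟨b, k⟩ := p
  rw [map_apply measurable_pairf (measurableSet_singleton _), ← Set.singleton_prod_singleton,
    prod_prod, geo_single h0 h1]
  let t : ℕ → Set Bool := fun i => if i = 0 then {b} else if i = k + 1 then {false} else {true}
  have e := infinitePi_pi (fun _ : ℕ => bern q) (s := range (k + 2)) (t := t)
    (fun _ _ => .of_discrete)
  rw [prod_range_succ, prod_range_succ'] at e
  have e2 : ∏ i ∈ range k, bern q (t (i + 1)) = ENNReal.ofReal (q ^ k) := by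
    rw [ENNReal.ofReal_pow h0, ← card_range k, ← prod_const, card_range]
    refine prod_congr rfl fun i hi => ?_
    have : i ≠ k := (mem_range.1 hi).ne
    simp [t, this, bern_single h0 h1.le, bw]
  have e3 : bern q (t (k + 1)) = ENNReal.ofReal (1 - q) := by simp [t, bern_single h0 h1.le, bw]
  have e4 : bern q (t 0) = bern q {b} := by simp [t]
  rw [e2, e3, e4] at e
  rw [ENNReal.ofReal_mul (by linarith)]
  refine le_trans (le_of_eq ?_) (measure_mono (s := Set.pi (range (k + 2)) t) fun β hβ => ?_)
  · rw [e]; ring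
  · have h2 := hβ 0 (by simp)
    have h3 := hβ (k + 1) (by simp)
    simp only [t, if_true, Set.mem_singleton_iff, Nat.add_eq_zero_iff, one_ne_zero, and_false,
      if_false] at h2 h3
    simp only [Set.mem_preimage, pairf, Set.mem_prod, Set.mem_singleton_iff]
    refine ⟨h2, (lead_eq_iff _ _).2 (Or.inl ⟨h3, fun i hi => ?_⟩)⟩
    have h4 := hβ (i + 1) (by simp; omega)
    simpa [t, hi.ne] using h4

lemma all_true_null {q : ℝ} (h0 : 0 ≤ q) (h1 : q < 1) :
    (infinitePi fun _ : ℕ => bern q) {β | ∀ i, β (i + 1) = true} = 0 := by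
  have hk : ∀ k : ℕ, (infinitePi fun _ : ℕ => bern q) {β | ∀ i, β (i + 1) = true}
      ≤ ENNReal.ofReal (q ^ k) := by
    intro k
    have e := infinitePi_pi (fun _ : ℕ => bern q) (s := (range k).image (· + 1))
      (t := fun _ => {true}) (fun _ _ => .of_discrete)
    rw [prod_const, card_image_of_injective _ (add_left_injective 1), card_range,
      bern_single h0 h1.le, ← ENNReal.ofReal_pow (bw_nonneg h0 h1.le _)] at e
    refine le_trans (measure_mono ?_) e.le
    intro β hβ i hi
    obtain ⟨j, -, rfl⟩ := mem_image.1 (mem_coe.1 hi)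
    exact hβ j
  have := ENNReal.tendsto_ofReal (tendsto_pow_atTop_nhds_zero_of_lt_one h0 h1)
  rw [ENNReal.ofReal_zero] at this
  exact le_antisymm (ge_of_tendsto' this hk) zero_le

lemma tsum_bits {x : ℕ → ℝ} (hx : ∀ j, x j = 1 ∨ x j = 0) (h : ¬ ∀ j, decide (x (j + 1) = 1) = true) :
    ∑' i, ∏ j ∈ range (i + 1), x j = wt (pairf fun j => decide (x j = 1)) := by
  set w := wt (pairf fun j => decide (x j = 1)) with hw
  have key : (∀ j < w, x j = 1) ∧ x w = 0 := by
    rcases (lead_eq_iff (fun j => decide (x (j + 1) = 1)) _).1 rfl with ⟨h1, h2⟩ | ⟨-, h2⟩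
    · by_cases h0 : x 0 = 1
      · have : w = lead (fun j => decide (x (j + 1) = 1)) + 1 := by simp [hw, wt, pairf, h0]
        rw [this]
        refine ⟨fun j hj => ?_, (hx _).resolve_left (by simpa using h1)⟩
        cases j with
        | zero => exact h0
        | succ j => simpa using h2 j (by omega)
      · have : w = 0 := by simp [hw, wt, pairf, h0]
        rw [this]
        exact ⟨fun j hj => absurd hj (by omega), (hx 0).resolve_left h0⟩
    · exact absurd h2 h
  rw [tsum_eq_sum (s := range w) fun i hi => prod_eq_zero (i := w)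
    (mem_range.2 (by have := mt mem_range.2 hi; omega)) key.2]
  rw [sum_congr rfl fun i hi => prod_eq_one fun j hj => key.1 j (by
    have := mem_range.1 hi; have := mem_range.1 hj; omega)]
  simp

lemma sup_paths (n : ℕ) (ζ : Fld) (W : ℤ × ℤ → ℝ) (hW : ∀ i j : ℕ, W (i, j) = ζ (i, j)) :
    ⨆ s : {s : Fin (2 * n) → Bool // (univ.filter (fun j => s j = true)).card = n},
      ∑ k : Fin (2 * n + 1),
        W (((univ.filter (fun j : Fin (2 * n) => (j : ℕ) < (k : ℕ) ∧ s.1 j = true)).card : ℤ),
          (k : ℤ) - ((univ.filter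
            (fun j : Fin (2 * n) => (j : ℕ) < (k : ℕ) ∧ s.1 j = true)).card : ℤ))
      = Lp ζ n n := by
  let ex : (Fin (2 * n) → Bool) → ℕ → Bool := fun s i => if h : i < 2 * n then s ⟨i, h⟩ else false
  have hc : ∀ (s : Fin (2 * n) → Bool) (k : ℕ),
      (univ.filter (fun j : Fin (2 * n) => (j : ℕ) < k ∧ s j = true)).card = (pos (ex s) k).1 := by
    intro s k
    rw [pos_fst]
    refine card_bij (fun j _ => (j : ℕ)) (fun j hj => ?_) (fun _ _ _ _ h => Fin.ext h)
      (fun i hi => ?_)
    · simpa [ex] using hj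
    · simp only [mem_filter, mem_range, ex] at hi
      split_ifs at hi with h
      · exact ⟨⟨i, h⟩, by simpa using hi, rfl⟩
      · simp at hi
  have hsum : ∀ s : Fin (2 * n) → Bool, ∑ k : Fin (2 * n + 1),
      W (((univ.filter (fun j : Fin (2 * n) => (j : ℕ) < (k : ℕ) ∧ s j = true)).card : ℤ),
        (k : ℤ) - ((univ.filter
          (fun j : Fin (2 * n) => (j : ℕ) < (k : ℕ) ∧ s j = true)).card : ℤ))
      = ((ζ (0, 0) + val ζ (ex s) (2 * n) : ℕ) : ℝ) := by
    intro s
    rw [Lp_eq_sum, Nat.cast_sum, ← Fin.sum_univ_eq_sum_range (fun k => (ζ (pos (ex s) k) : ℝ))]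
    refine sum_congr rfl fun k _ => ?_
    rw [hc, ← hW]
    congr 2
    have := pos_sum (ex s) k
    omega
  have hend : ∀ s : Fin (2 * n) → Bool, (univ.filter (fun j => s j = true)).card
      = (pos (ex s) (2 * n)).1 := by
    intro s
    rw [← hc]; simp
  obtain ⟨σ, h1, h2⟩ := exists_opt ζ n n
  rw [← two_mul] at h1 h2
  have hσ : ∀ i < 2 * n, ex (fun j => σ j) i = σ i := fun i hi => by simp [ex, hi]
  let s₀ : {s : Fin (2 * n) → Bool // (univ.filter (fun j => s j = true)).card = n} :=
    ⟨fun j => σ j, by rw [hend, pos_congr hσ, h1]⟩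
  have : Nonempty {s : Fin (2 * n) → Bool // (univ.filter (fun j => s j = true)).card = n} := ⟨s₀⟩
  simp only [hsum]
  refine le_antisymm (ciSup_le fun s => ?_) (le_ciSup_of_le (Set.finite_range _).bddAbove s₀ ?_)
  · have e1 := hend s.1
    rw [s.2] at e1
    have e2 := pos_sum (ex s.1) (2 * n)
    have := val_le' ζ (σ := ex s.1) (N := 2 * n) (m := n) (n := n) (Prod.ext e1.symm (by omega))
    exact_mod_cast Nat.add_le_add_left this _
  · simp only [s₀]
    rw [val_congr ζ hσ, h2, Lp]

end Pool.Agent.HideZero
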