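import Pool.Agent.Lib.MP_9debf8_pr.Hyper

set_option autoImplicit false

/-! Averaging over the zero pattern is dominated by site noise. -/

open Finset

namespace Pool.Agent.HideZero

variable {ι Ω : Type} [Fintype ι] [DecidableEq ι] [Fintype Ω] [DecidableEq Ω]

/-- Bernoulli weights. -/
def bw (q : ℝ) (b : Bool) : ℝ := if b then q else 1 - q

/-- Product of Bernoulli weights and given weights. -/
def Wprod {q : ℝ} (h0 : 0 ≤ q) (h1 : q ≤ 1) (W : Wt Ω) : Wt (Bool × Ω) where
  w a := bw q a.1 * W.w a.2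
  nonneg a := mul_nonneg (by unfold bw; split_ifs <;> linarith) (W.nonneg _)
  sum_one := by
    rw [Fintype.sum_prod_type]
    simp [← mul_sum, W.sum_one, bw]

/-- Kernel averaging over the Boolean coordinate. -/
def Pker (q : ℝ) : Matrix (Bool × Ω) (Bool × Ω) ℝ :=
  Matrix.of fun a a' => bw q a'.1 * (if a.2 = a'.2 then 1 else 0)

/-- Averaging over the Boolean coordinates of all sites. -/
noncomputable def PP (q : ℝ) : ((ι → Bool × Ω) → ℝ) →ₗ[ℝ] ((ι → Bool × Ω) → ℝ) :=
  op fun _ => Pker q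

lemma PP_apply (q : ℝ) (f : (ι → Bool × Ω) → ℝ) (x : ι → Bool × Ω) :
    PP q f x = ∑ b : ι → Bool, (∏ i, bw q (b i)) * f (fun i => (b i, (x i).2)) := by
  rw [PP, op_apply]
  symm
  refine Finset.sum_of_injOn (fun (b : ι → Bool) i => (b i, (x i).2)) ?_ (by simp) ?_ ?_
  · intro b _ b' _ h
    funext i
    have := congrFun h i
    simpa using this
  · intro y _ hy
    have : ∃ j, (x j).2 ≠ (y j).2 := by
      by_contra hc
      push Not at hc
      apply hy
      refine ⟨fun i => (y i).1, by simp, ?_⟩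
      funext j
      simp [hc j]
    obtain ⟨j, hj⟩ := this
    rw [Finset.prod_eq_zero (Finset.mem_univ j), zero_mul]
    simp [Pker, hj]
  · intro b _
    simp [Pker]

/-- The function does not see the second coordinate at site `i` when the first is `false`. -/
def Wm (i : ι) (f : (ι → Bool × Ω) → ℝ) : Prop :=
  ∀ x y y', f (Function.update x i (false, y)) = f (Function.update x i (false, y'))

lemma op_update {Ω' : Type} [Fintype Ω'] [DecidableEq Ω'] (κ : ι → Matrix Ω' Ω' ℝ) (i : ι)
    (hi : κ i = 1) (f : (ι → Ω') → ℝ) (x : ι → Ω') (a : Ω') :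
    op κ f (Function.update x i a) = op κ (fun y => f (Function.update y i a)) x := by
  let D : Matrix Ω' Ω' ℝ := Matrix.of fun _ b => if b = a then 1 else 0
  have h : ∀ g : (ι → Ω') → ℝ, (fun y => g (Function.update y i a))
      = op (Function.update 1 i D) g := by
    intro g
    funext y
    rw [op_single]
    simp [D]
  have h1 := congrFun (h (op κ f)) x
  have : Function.update (1 : ι → Matrix Ω' Ω' ℝ) i D * κ
      = κ * Function.update (1 : ι → Matrix Ω' Ω' ℝ) i D := by
    funext j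
    by_cases hj : j = i
    · subst hj; simp [hi]
    · simp [hj]
  rw [h1, h f, op_op, op_op, this]

lemma Wm.op {i : ι} {f : (ι → Bool × Ω) → ℝ} (h : Wm i f)
    (κ : ι → Matrix (Bool × Ω) (Bool × Ω) ℝ) (hi : κ i = 1) : Wm i (op κ f) := by
  intro x y y'
  rw [op_update κ i hi, op_update κ i hi, funext (fun z => h z y y')]

lemma hide_single {q r : ℝ} (h0 : 0 ≤ q) (h1 : q ≤ 1) (hr : r ^ 2 = q) (W : Wt Ω) (i : ι)
    {H : (ι → Bool × Ω) → ℝ} (hH : Wm i H) (x : ι → Bool × Ω) :
    EE (Wprod h0 h1 W) {i} ((op (Function.update 1 i (Pker q)) H) ^ 2) x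
      ≤ EE (Wprod h0 h1 W) {i} ((TT (Wprod h0 h1 W) r {i} H) ^ 2) x := by
  have hp := pyth (Wprod h0 h1 W) i H x
  rw [pyth_T, hr]
  set c := H (Function.update x i (false, (x i).2)) with hc
  set ψ : Ω → ℝ := fun y => H (Function.update x i (true, y)) with hψ
  have hf : ∀ y, H (Function.update x i (false, y)) = c := fun y => hH x y _
  set m := ∑ y, W.w y * ψ y with hm
  set v := ∑ y, W.w y * ψ y ^ 2 with hv
  have e1 : EE (Wprod h0 h1 W) {i} H x = q * m + (1 - q) * c := by
    rw [EE_single, Fintype.sum_prod_type]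
    simp only [Fintype.sum_bool, Wprod, bw, hf, hm, mul_sum, if_true, Bool.false_eq_true, if_false,
      mul_assoc]
    rw [← mul_sum, ← mul_sum, ← sum_mul, W.sum_one, one_mul]
  have e2 : EE (Wprod h0 h1 W) {i} (H ^ 2) x = q * v + (1 - q) * c ^ 2 := by
    rw [EE_single, Fintype.sum_prod_type]
    simp only [Fintype.sum_bool, Wprod, bw, hf, hv, mul_sum, if_true, Bool.false_eq_true, if_false,
      mul_assoc, Pi.pow_apply]
    rw [← mul_sum, ← mul_sum, ← sum_mul, W.sum_one, one_mul]
  have e3 : EE (Wprod h0 h1 W) {i} ((op (Function.update 1 i (Pker q)) H) ^ 2) x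
      = q ^ 2 * v + 2 * q * (1 - q) * c * m + (1 - q) ^ 2 * c ^ 2 := by
    have e : ∀ a : Bool × Ω, op (Function.update 1 i (Pker q)) H (Function.update x i a)
        = q * ψ a.2 + (1 - q) * c := by
      intro a
      rw [op_single, Fintype.sum_prod_type]
      simp [Pker, bw, hf, hψ]
    rw [EE_single, Fintype.sum_prod_type]
    simp only [Pi.pow_apply, e, Fintype.sum_bool, Wprod, bw, if_true, Bool.false_eq_true, if_false]
    rw [← sum_add_distrib]
    have : ∀ y, q * W.w y * (q * ψ y + (1 - q) * c) ^ 2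
        + (1 - q) * W.w y * (q * ψ y + (1 - q) * c) ^ 2
        = q ^ 2 * (W.w y * ψ y ^ 2) + 2 * q * (1 - q) * c * (W.w y * ψ y)
          + (1 - q) ^ 2 * c ^ 2 * W.w y := fun y => by ring
    simp only [this, sum_add_distrib, ← mul_sum, W.sum_one, mul_one, hm, hv]
  rw [e3]
  rw [e1, e2] at hp
  rw [e1]
  have e4 : EE (Wprod h0 h1 W) {i} ((LL (Wprod h0 h1 W) {i} H) ^ 2) x
      = q * v + (1 - q) * c ^ 2 - (q * m + (1 - q) * c) ^ 2 := by linarith
  rw [e4]
  have : 0 ≤ (1 - q) * (q ^ 2 * (m - c) ^ 2) := mul_nonneg (by linarith) (by positivity)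
  nlinarith

theorem hide_le {q r : ℝ} (h0 : 0 ≤ q) (h1 : q ≤ 1) (hr : r ^ 2 = q) (W : Wt Ω)
    {f : (ι → Bool × Ω) → ℝ} (hf : ∀ i, Wm i f) (x : ι → Bool × Ω) :
    EE (Wprod h0 h1 W) univ ((PP q f) ^ 2) x
      ≤ EE (Wprod h0 h1 W) univ ((TT (Wprod h0 h1 W) r univ f) ^ 2) x := by
  set V := Wprod h0 h1 W with hV
  have key : ∀ J : Finset ι, EE V univ
      ((op (fun i => if i ∈ J then Pker q else ker V 1 r) f) ^ 2) x
      ≤ EE V univ ((TT V r univ f) ^ 2) x := by
    intro J
    induction J using Finset.induction_on with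
    | empty =>
      apply le_of_eq
      simp [TT, U, sel]
    | insert i J hi ih =>
      refine le_trans ?_ ih
      set κ : ι → Matrix (Bool × Ω) (Bool × Ω) ℝ :=
        fun j => if j = i then 1 else if j ∈ J then Pker q else ker V 1 r with hκ
      have hH : Wm i (op κ f) := (hf i).op κ (by simp [hκ])
      have e1 : op (fun j => if j ∈ insert i J then Pker q else ker V 1 r) f
          = op (Function.update 1 i (Pker q)) (op κ f) := by
        rw [op_op]
        congr 2
        funext j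
        by_cases hj : j = i
        · subst hj; simp [hκ]
        · simp [hκ, hj]
      have e2 : op (fun j => if j ∈ J then Pker q else ker V 1 r) f = TT V r {i} (op κ f) := by
        rw [TT, U, op_op]
        congr 2
        funext j
        by_cases hj : j = i
        · subst hj; simp [hκ, hi, sel]
        · simp [hκ, hj, sel, ker_one]
      rw [e1, e2, ← insert_eq_of_mem (mem_univ i), EE_insert', EE_insert']
      exact EE_mono V _ (fun y => hide_single h0 h1 hr W i hH y) x
  have := key univ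
  simpa [PP] using this

/-- The finite statement: global Laplacians with small total influence hide the function. -/
theorem hide_main {q : ℝ} (h0 : 0 ≤ q) (h1 : q < 1) {ε : ℝ} (hε : 0 < ε) :
    ∃ η : ℝ, 0 < η ∧ ∀ (ι Ω : Type) [Fintype ι] [DecidableEq ι] [Fintype Ω] [DecidableEq Ω]
      (W : Wt Ω) (f : (ι → Bool × Ω) → ℝ) (K θ A c : ℝ) (x : ι → Bool × Ω),
      0 < K → 0 < θ → (∀ i, Wm i f) → (∀ i x, |LL (Wprod h0 h1.le W) {i} f x| ≤ K) →
      (∀ i (S : Finset ι) x, EE (Wprod h0 h1.le W) Sᶜ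
        (fun y => |LL (Wprod h0 h1.le W) {i} f y|) x ≤ K * θ ^ 6 * 2 ^ S.card) →
      EE (Wprod h0 h1.le W) univ (fun y => (f y - c) ^ 2) x ≤ A →
      4 * K * θ ^ 4 * ∑ i, EE (Wprod h0 h1.le W) univ
        (fun y => |LL (Wprod h0 h1.le W) {i} f y|) x ≤ η * A →
      EE (Wprod h0 h1.le W) univ
        (fun y => (PP q f y - EE (Wprod h0 h1.le W) univ f x) ^ 2) x ≤ ε * A := by
  have hr1 : √q < 1 := by rw [Real.sqrt_lt' one_pos]; simpa using h1
  obtain ⟨j, hj⟩ : ∃ j : ℕ, √q ^ j < 1 / 8 := exists_pow_lt_of_lt_one (by norm_num) hr1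
  have hj2 : √q ^ 2 ^ j ≤ 1 / 8 :=
    (pow_le_pow_of_le_one (Real.sqrt_nonneg _) hr1.le (Nat.lt_two_pow_self).le).trans hj.le
  refine ⟨ε ^ 2 ^ j, by positivity, ?_⟩
  intro ι Ω _ _ _ _ W f K θ A c x hK hθ hWm hL hglob hA hsum
  set V := Wprod h0 h1.le W with hV
  set f₀ : (ι → Bool × Ω) → ℝ := fun y => f y - EE V univ f x with hf₀
  have h2 := (noise_small V (ρ := √q ^ 2 ^ j) (by positivity) hj2 hK hθ hL hglob x).trans hsum
  have h3 : EE V univ (f₀ ^ 2) x ≤ A := by
    refine le_trans ?_ hA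
    have e1 : (fun y => (f y - c) ^ 2) = fun y => (f₀ ^ 2) y
        + (2 * (EE V univ f x - c)) * (f y - EE V univ f x) + (EE V univ f x - c) ^ 2 := by
      funext y; simp only [hf₀, Pi.pow_apply]; ring
    rw [e1, EE_add, EE_add, EE_cmul, EE_sub, EE_const, EE_const]
    nlinarith [sq_nonneg (EE V univ f x - c)]
  have h4 := logconv_iter V f₀ x h3 j √q ε hε.le h2
  have h5 := hide_le h0 h1.le (Real.sq_sqrt h0) W (f := f₀)
    (fun i x y y' => by simp only [hf₀, hWm i x y y']) x
  refine le_trans (le_of_eq ?_) (h5.trans h4)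
  refine EE_congr V _ (fun y => ?_) x
  simp only [Pi.pow_apply, hf₀, PP_apply, mul_sub, sum_sub_distrib, ← sum_mul]
  have : ∑ b : ι → Bool, ∏ i, bw q (b i) = 1 := by
    rw [← Fintype.piFinset_univ, ← Finset.prod_univ_sum]
    simp [bw]
  rw [this, one_mul]

end Pool.Agent.HideZero
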