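import Pool.Agent.Lib.MP_9debf8_pr.Tube
import Pool.Agent.Lib.MP_9debf8_pr.Hide

set_option autoImplicit false

/-! From the geometric field to the finite truncated model. -/

open Finset MeasureTheory MeasureTheory.Measure ProbabilityTheory
open scoped ENNReal

namespace Pool.Agent.HideZero

/-- Bernoulli law on the Booleans. -/
noncomputable def bern (q : ℝ) : Measure Bool :=
  if 0 ≤ q ∧ q ≤ 1 then Measure.sum (fun b => ENNReal.ofReal (bw q b) • .dirac b) else .dirac false

lemma bw_nonneg {q : ℝ} (h0 : 0 ≤ q) (h1 : q ≤ 1) (b : Bool) : 0 ≤ bw q b := by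
  unfold bw; split_ifs <;> linarith

instance (q : ℝ) : IsProbabilityMeasure (bern q) := by
  rw [bern]
  split_ifs with h
  · refine HasSum.isProbabilityMeasure_sum_dirac (bw_nonneg h.1 h.2) ?_
    have := hasSum_fintype (bw q)
    simpa [bw] using this
  · infer_instance

lemma bern_single {q : ℝ} (h0 : 0 ≤ q) (h1 : q ≤ 1) (b : Bool) :
    bern q {b} = ENNReal.ofReal (bw q b) := by
  rw [bern, if_pos ⟨h0, h1⟩, Measure.sum_smul_dirac_singleton]

/-- Fields of pairs (indicator, value). -/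
abbrev PF := ℕ × ℕ → Bool × ℕ

/-- Law of the field of pairs. -/
noncomputable def QQ (q : ℝ) : Measure PF := infinitePi fun _ => (bern q).prod (geo q)

instance (q : ℝ) : IsProbabilityMeasure (QQ q) := by unfold QQ; infer_instance

/-- The weight carried by a pair. -/
def wt (p : Bool × ℕ) : ℕ := if p.1 then p.2 + 1 else 0

/-- The weight field. -/
def wf (Z : PF) : Fld := fun v => wt (Z v)

lemma wt_law {q : ℝ} (h0 : 0 ≤ q) (h1 : q < 1) : ((bern q).prod (geo q)).map wt = geo q := by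
  refine ext_of_singleton fun k => ?_
  rw [map_apply (measurable_of_countable _) (measurableSet_singleton k), geo_single h0 h1]
  cases k with
  | zero =>
    have : wt ⁻¹' {0} = {false} ×ˢ Set.univ := by
      ext ⟨b, y⟩; cases b <;> simp [wt]
    rw [this, prod_prod, bern_single h0 h1.le]; simp [bw]
  | succ k =>
    have : wt ⁻¹' {k + 1} = {true} ×ˢ {k} := by
      ext ⟨b, y⟩; cases b <;> simp [wt]
    rw [this, prod_prod, bern_single h0 h1.le, geo_single h0 h1]
    simp only [bw, if_true]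
    rw [← ENNReal.ofReal_mul h0]
    congr 1; ring

lemma mp_wf {q : ℝ} (h0 : 0 ≤ q) (h1 : q < 1) : MeasurePreserving wf (QQ q) (Pq q) := by
  refine ⟨measurable_pi_lambda _ fun v =>
    (measurable_of_countable wt).comp (measurable_pi_apply v), ?_⟩
  have := infinitePi_map_pi (fun _ : ℕ × ℕ => (bern q).prod (geo q)) (f := fun _ => wt)
    (fun _ => measurable_of_countable _)
  simp only [wt_law h0 h1] at this
  exact this

/-- Truncation. -/
def trunc (K : ℕ) (k : ℕ) : Fin (K + 1) := ⟨min k K, Nat.lt_succ_of_le (min_le_right _ _)⟩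

/-- Weights of the truncated value. -/
noncomputable def W2 (q : ℝ) (K : ℕ) : Wt (Fin (K + 1)) where
  w y := (geo q).real (trunc K ⁻¹' {y})
  nonneg _ := measureReal_nonneg
  sum_one := by
    rw [sum_measureReal_preimage_singleton _ (fun _ _ => .of_discrete)]
    simp

/-- The truncated pairs on a finite set of sites. -/
def cut (B : Finset (ℕ × ℕ)) (K : ℕ) (Z : PF) : B → Bool × Fin (K + 1) :=
  fun i => ((Z i).1, trunc K (Z i).2)

lemma measurable_cut (B : Finset (ℕ × ℕ)) (K : ℕ) : Measurable (cut B K) :=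
  measurable_pi_lambda _ fun _ =>
    (measurable_of_countable fun p : Bool × ℕ => (p.1, trunc K p.2)).comp (measurable_pi_apply _)

lemma bridge {q : ℝ} (h0 : 0 ≤ q) (h1 : q ≤ 1) (B : Finset (ℕ × ℕ)) (K : ℕ)
    (φ : (B → Bool × Fin (K + 1)) → ℝ) :
    ∫ Z, φ (cut B K Z) ∂QQ q = ∑ y : B → Bool × Fin (K + 1),
      (∏ i, (Wprod h0 h1 (W2 q K)).w (y i)) * φ y := by
  let τ : Bool × ℕ → Bool × Fin (K + 1) := fun p => (p.1, trunc K p.2)
  have mτ : Measurable τ := measurable_of_countable _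
  let ν := ((bern q).prod (geo q)).map τ
  have : IsProbabilityMeasure ν := isProbabilityMeasure_map mτ.aemeasurable
  have e1 := infinitePi_map_pi (fun _ : ℕ × ℕ => (bern q).prod (geo q)) (f := fun _ => τ)
    (fun _ => mτ)
  have e2 : (QQ q).map (cut B K) = Measure.pi fun _ : B => ν := by
    have mm : Measurable fun (x : PF) i => τ (x i) :=
      measurable_pi_lambda _ fun v => mτ.comp (measurable_pi_apply v)
    rw [← infinitePi_map_restrict (fun _ : ℕ × ℕ => ν), ← e1, map_map (measurable_restrict _) mm]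
    rfl
  rw [← integral_map (measurable_cut B K).aemeasurable
    (measurable_of_countable φ).aestronglyMeasurable, e2, integral_fintype .of_finite]
  refine sum_congr rfl fun y _ => ?_
  rw [smul_eq_mul, measureReal_def, Measure.pi_singleton, ENNReal.toReal_prod]
  congr 1
  refine prod_congr rfl fun i _ => ?_
  rw [map_apply mτ (measurableSet_singleton _)]
  have : τ ⁻¹' {y i} = {(y i).1} ×ˢ (trunc K ⁻¹' {(y i).2}) := by
    ext p; simp [τ, Prod.ext_iff]
  rw [this, prod_prod, bern_single h0 h1, ENNReal.toReal_mul,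
    ENNReal.toReal_ofReal (bw_nonneg h0 h1 _)]
  rfl

lemma EE_bridge {q : ℝ} (h0 : 0 ≤ q) (h1 : q ≤ 1) (B : Finset (ℕ × ℕ)) (K : ℕ) (J : Finset B)
    (φ : (B → Bool × Fin (K + 1)) → ℝ) (x : B → Bool × Fin (K + 1)) :
    EE (Wprod h0 h1 (W2 q K)) J φ x = ∫ Z, φ (J.piecewise (cut B K Z) x) ∂QQ q := by
  rw [EE_apply, bridge h0 h1 B K (fun y => φ (J.piecewise y x))]

lemma EE_univ_bridge {q : ℝ} (h0 : 0 ≤ q) (h1 : q ≤ 1) (B : Finset (ℕ × ℕ)) (K : ℕ)
    (φ : (B → Bool × Fin (K + 1)) → ℝ) (x : B → Bool × Fin (K + 1)) :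
    EE (Wprod h0 h1 (W2 q K)) univ φ x = ∫ Z, φ (cut B K Z) ∂QQ q := by
  rw [EE_bridge]; simp only [piecewise_univ]

/-- The field built from truncated pairs. -/
def ext {B : Finset (ℕ × ℕ)} {K : ℕ} (x : B → Bool × Fin (K + 1)) : Fld :=
  fun v => if h : v ∈ B then wt ((x ⟨v, h⟩).1, (x ⟨v, h⟩).2) else 0

lemma ext_le {B : Finset (ℕ × ℕ)} {K : ℕ} (x : B → Bool × Fin (K + 1)) (v : ℕ × ℕ) :
    ext x v ≤ K + 1 := by
  unfold ext wt
  split_ifs with h h2
  · exact (x ⟨v, h⟩).2.2
  · omega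
  · omega

lemma ext_update {B : Finset (ℕ × ℕ)} {K : ℕ} (x : B → Bool × Fin (K + 1)) (i : B)
    (a : Bool × Fin (K + 1)) (v : ℕ × ℕ) (hv : v ≠ i) :
    ext (Function.update x i a) v = ext x v := by
  unfold ext
  split_ifs with h
  · rw [Function.update_of_ne (fun hh => hv (congrArg Subtype.val hh))]
  · rfl

/-- The field capped at height `K`. -/
def cap (K : ℕ) (ξ : Fld) : Fld := fun v => min (ξ v) K

lemma ext_cut {B : Finset (ℕ × ℕ)} {K : ℕ} (Z : PF) {v : ℕ × ℕ} (hv : v ∈ B) :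
    ext (cut B K Z) v = cap (K + 1) (wf Z) v := by
  simp only [ext, hv, dif_pos, cut, cap, wf, wt, trunc]
  split_ifs <;> omega

lemma exists_path_set_sh (ζ : Fld) (z : ℕ × ℕ) (n : ℕ) : ∃ P : Finset (ℕ × ℕ),
    P.card ≤ n + n + 1 ∧
    (∀ v ∈ P, ∃ x ≤ n, ∃ y ≤ n, v = (z.1 + x, z.2 + y) ∧ Near 0 (sh z ζ) x y (n - x) (n - y)) ∧
    ∀ (ζ' : Fld) (v : ℕ × ℕ), (∀ u, u ≠ v → ζ' u = ζ u) →
      Lp (sh z ζ) n n ≤ Lp (sh z ζ') n n + if v ∈ P then ζ v else 0 := by
  obtain ⟨P, h1, h2, h3⟩ := exists_path_set (sh z ζ) n n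
  refine ⟨P.image fun u => (z.1 + u.1, z.2 + u.2), card_image_le.trans h1, fun v hv => ?_,
    fun ζ' v hv => ?_⟩
  · obtain ⟨u, hu, rfl⟩ := mem_image.1 hv
    exact ⟨u.1, (h2 u hu).1, u.2, (h2 u hu).2.1, rfl, (h2 u hu).2.2⟩
  · by_cases hz : ∃ u : ℕ × ℕ, (z.1 + u.1, z.2 + u.2) = v
    · obtain ⟨u, rfl⟩ := hz
      have := h3 (sh z ζ') u fun u' hu' => hv _ fun h => hu' (sh_inj z h)
      simp only [(sh_inj z).mem_finset_image]
      exact this
    · push Not at hz
      have : sh z ζ' = sh z ζ := funext fun u => hv _ (hz u)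
      rw [this]; omega

/-- The average of the truncated passage times over antidiagonal shifts. -/
noncomputable def fbar (n m K : ℕ) (x : box (n + m) (n + m) → Bool × Fin (K + 1)) : ℝ :=
  (∑ j ∈ range m, (Lp (sh (j, m - j) (ext x)) n n : ℝ)) / m

section hyp

variable {q : ℝ} (h0 : 0 ≤ q) (h1 : q ≤ 1) {n m K : ℕ}

lemma fbar_Wm (i : box (n + m) (n + m)) : Wm i (fbar n m K) := by
  intro x y y'
  have : ext (Function.update x i (false, y)) = ext (Function.update x i (false, y')) := by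
    funext v
    by_cases hv : v = i
    · subst hv; simp [ext, wt]
    · rw [ext_update _ _ _ _ hv, ext_update _ _ _ _ hv]
  simp only [fbar, this]

lemma LL_fbar (i : box (n + m) (n + m)) (x : box (n + m) (n + m) → Bool × Fin (K + 1)) :
    LL (Wprod h0 h1 (W2 q K)) {i} (fbar n m K) x = (∑ j ∈ range m,
      ∑ b, (Wprod h0 h1 (W2 q K)).w b * ((Lp (sh (j, m - j) (ext x)) n n : ℝ)
        - Lp (sh (j, m - j) (ext (Function.update x i b))) n n)) / m := by
  rw [LL_single, Pi.sub_apply, EE_single]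
  simp only [fbar, mul_sub, sum_sub_distrib, ← sum_mul, Wt.sum_one, one_mul, sub_div]
  congr 1
  rw [Finset.sum_comm, sum_div]
  refine sum_congr rfl fun b _ => ?_
  rw [← mul_sum, mul_div_assoc]

lemma avg_le {Ω : Type} [Fintype Ω] (W : Wt Ω) {f : Ω → ℝ} {c : ℝ} (h : ∀ b, f b ≤ c) :
    ∑ b, W.w b * f b ≤ c := by
  calc ∑ b, W.w b * f b ≤ ∑ b, W.w b * c :=
        sum_le_sum fun b _ => mul_le_mul_of_nonneg_left (h b) (W.nonneg b)
    _ = c := by rw [← sum_mul, W.sum_one, one_mul]

lemma avg_abs_le {Ω : Type} [Fintype Ω] (W : Wt Ω) {f : Ω → ℝ} {c : ℝ} (h : ∀ b, |f b| ≤ c) :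
    |∑ b, W.w b * f b| ≤ c := by
  refine (abs_sum_le_sum_abs _ _).trans (le_trans (le_of_eq ?_) (avg_le W h))
  exact sum_congr rfl fun b _ => by rw [abs_mul, abs_of_nonneg (W.nonneg b)]

lemma Lp_diff_le {B : Finset (ℕ × ℕ)} (z : ℕ × ℕ) (i : B) (x : B → Bool × Fin (K + 1))
    (b : Bool × Fin (K + 1)) :
    |(Lp (sh z (ext x)) n n : ℝ) - Lp (sh z (ext (Function.update x i b))) n n| ≤ K + 1 := by
  obtain ⟨P, -, -, h3⟩ := exists_path_set_sh (ext x) z n
  obtain ⟨P', -, -, h3'⟩ := exists_path_set_sh (ext (Function.update x i b)) z n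
  have e1 := h3 _ i (ext_update x i b)
  have e2 := h3' _ i fun u hu => (ext_update x i b u hu).symm
  have e3 := ext_le x i
  have e4 := ext_le (Function.update x i b) i
  have e5 : Lp (sh z (ext x)) n n ≤ Lp (sh z (ext (Function.update x i b))) n n + (K + 1) := by
    split_ifs at e1 <;> omega
  have e6 : Lp (sh z (ext (Function.update x i b))) n n ≤ Lp (sh z (ext x)) n n + (K + 1) := by
    split_ifs at e2 <;> omega
  have e7 : (Lp (sh z (ext x)) n n : ℝ)
      ≤ Lp (sh z (ext (Function.update x i b))) n n + (K + 1) := by exact_mod_cast e5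
  have e8 : (Lp (sh z (ext (Function.update x i b))) n n : ℝ)
      ≤ Lp (sh z (ext x)) n n + (K + 1) := by exact_mod_cast e6
  rw [abs_le]; constructor <;> linarith

lemma abs_LL_fbar_le (i : box (n + m) (n + m)) (x : box (n + m) (n + m) → Bool × Fin (K + 1))
    (c : ℕ → ℝ) (hc : ∀ j ∈ range m, ∀ b, |(Lp (sh (j, m - j) (ext x)) n n : ℝ)
      - Lp (sh (j, m - j) (ext (Function.update x i b))) n n| ≤ c j) :
    |LL (Wprod h0 h1 (W2 q K)) {i} (fbar n m K) x| ≤ (∑ j ∈ range m, c j) / m := by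
  rw [LL_fbar, abs_div, Nat.abs_cast]
  refine div_le_div_of_nonneg_right ((abs_sum_le_sum_abs _ _).trans ?_) (by positivity)
  exact sum_le_sum fun j hj => avg_abs_le _ (hc j hj)

lemma abs_LL_fbar (hm : 0 < m) (i : box (n + m) (n + m))
    (x : box (n + m) (n + m) → Bool × Fin (K + 1)) :
    |LL (Wprod h0 h1 (W2 q K)) {i} (fbar n m K) x| ≤ K + 1 := by
  refine (abs_LL_fbar_le h0 h1 i x (fun _ => K + 1) fun j _ b => Lp_diff_le _ i x b).trans ?_
  rw [sum_const, card_range, nsmul_eq_mul, mul_div_cancel_left₀ _ (by positivity)]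

lemma total_influence (hm : 0 < m) (x : box (n + m) (n + m) → Bool × Fin (K + 1)) :
    ∑ i, EE (Wprod h0 h1 (W2 q K)) univ
      (fun y => |LL (Wprod h0 h1 (W2 q K)) {i} (fbar n m K) y|) x
      ≤ 2 * ((K + 1) * (n + n + 1)) := by
  set V := Wprod h0 h1 (W2 q K) with hV
  choose P hP1 _ hP3 using fun (y : box (n + m) (n + m) → Bool × Fin (K + 1)) (j : ℕ) =>
    exists_path_set_sh (ext y) (j, m - j) n
  let c : box (n + m) (n + m) → (box (n + m) (n + m) → Bool × Fin (K + 1)) → ℝ :=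
    fun i y => (∑ j ∈ range m, if (i : ℕ × ℕ) ∈ P y j then (K + 1 : ℝ) else 0) / m
  have hc0 : ∀ i y, 0 ≤ c i y := fun i y =>
    div_nonneg (sum_nonneg fun _ _ => by split_ifs <;> positivity) (by positivity)
  have hc1 : ∀ i y, LL V {i} (fbar n m K) y ≤ c i y := by
    intro i y
    rw [LL_fbar]
    refine div_le_div_of_nonneg_right (sum_le_sum fun j _ => avg_le _ fun b => ?_) (by positivity)
    have e1 := hP3 y j _ i (ext_update y i b)
    have e3 := ext_le y i
    split_ifs at e1 ⊢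
    · have : Lp (sh (j, m - j) (ext y)) n n
          ≤ Lp (sh (j, m - j) (ext (Function.update y i b))) n n + (K + 1) := by omega
      have : (Lp (sh (j, m - j) (ext y)) n n : ℝ)
          ≤ Lp (sh (j, m - j) (ext (Function.update y i b))) n n + (K + 1) := by exact_mod_cast this
      linarith
    · rw [sub_nonpos]; exact_mod_cast e1
  have hc2 : ∀ y, ∑ i, c i y ≤ (K + 1) * (n + n + 1) := by
    intro y
    simp only [c]
    rw [← sum_div, Finset.sum_comm, div_le_iff₀ (by positivity)]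
    refine (sum_le_card_nsmul _ _ ((K + 1) * (n + n + 1) : ℝ) fun j _ => ?_).trans
      (by rw [card_range, nsmul_eq_mul, mul_comm])
    rw [← sum_filter, sum_const, nsmul_eq_mul, mul_comm]
    refine mul_le_mul_of_nonneg_left ?_ (by positivity)
    have : (univ.filter fun i : box (n + m) (n + m) => (i : ℕ × ℕ) ∈ P y j).card ≤ n + n + 1 :=
      le_trans (card_le_card_of_injOn Subtype.val (fun i hi => (mem_filter.1 hi).2)
        Subtype.val_injective.injOn) (hP1 y j)
    exact_mod_cast this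
  calc ∑ i, EE V univ (fun y => |LL V {i} (fbar n m K) y|) x
      ≤ ∑ i, EE V univ (fun y => 2 * c i y) x := by
        refine sum_le_sum fun i _ => ?_
        have e0 : EE V univ (LL V {i} (fbar n m K)) x = 0 := by
          rw [← insert_eq_of_mem (mem_univ i), EE_insert']
          exact (EE_congr V _ (g := fun _ => 0) (fun y => EE_LL_single V i _ y) x).trans
            (EE_const V _ 0 x)
        calc _ ≤ EE V univ (fun y => 2 * c i y - LL V {i} (fbar n m K) y) x := by
              refine EE_mono V _ (fun y => ?_) x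
              rw [abs_le]; constructor <;> linarith [hc0 i y, hc1 i y]
          _ = _ := by rw [EE_sub, e0, sub_zero]
    _ ≤ _ := by
        rw [← EE_sum]
        refine EE_le V _ (fun y => ?_) x
        rw [← mul_sum]
        linarith [hc2 y]

end hyp

/-- Some weight in `B` exceeds `K`. -/
def Big (B : Finset (ℕ × ℕ)) (K : ℕ) : Set Fld := ⋃ v ∈ B, {ξ | K ≤ ξ v}

lemma measurableSet_Big (B : Finset (ℕ × ℕ)) (K : ℕ) : MeasurableSet (Big B K) :=
  Finset.measurableSet_biUnion _ fun v _ => measurableSet_le measurable_const (measurable_pi_apply v)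

lemma big_le {q : ℝ} (h0 : 0 < q) (h1 : q < 1) (B : Finset (ℕ × ℕ)) (K : ℕ) :
    (Pq q).real (Big B K) ≤ B.card * q ^ K := by
  refine (measureReal_biUnion_finset_le _ _).trans ?_
  rw [← nsmul_eq_mul]
  refine sum_le_card_nsmul _ _ _ fun v _ => ?_
  have := mp_real (mp_eval (fun _ => q) v) (s := {k | K ≤ k}) .of_discrete
  refine le_trans (le_of_eq this) ?_
  exact ENNReal.toReal_le_of_le_ofReal (by positivity) (geo_tail h0 h1 K)

lemma piv_near {n m K s j : ℕ} (hj : j ≤ m) (S : Finset (box (n + m) (n + m))) (hS : S.card < s)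
    (x : box (n + m) (n + m) → Bool × Fin (K + 1)) (Z : PF)
    (hZ : wf Z ∉ Big (box (n + m) (n + m)) (K + 1)) (i : box (n + m) (n + m))
    (b : Bool × Fin (K + 1))
    (hne : Lp (sh (j, m - j) (ext (Sᶜ.piecewise (cut _ K Z) x))) n n
      ≠ Lp (sh (j, m - j) (ext (Function.update (Sᶜ.piecewise (cut _ K Z) x) i b))) n n) :
    ∃ u ≤ n, ∃ v ≤ n, (i : ℕ × ℕ) = (j + u, m - j + v) ∧
      Near (3 * ((K + 1) * s)) (sh (j, m - j) (wf Z)) u v (n - u) (n - v) := by
  set y := Sᶜ.piecewise (cut _ K Z) x with hy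
  simp only [Big, Set.mem_iUnion, Set.mem_ofPred_eq, not_exists, not_le] at hZ
  have key : ∀ y' : box (n + m) (n + m) → Bool × Fin (K + 1), (∀ k, k ≠ i → y' k = y k) →
      ∀ u ≤ n, ∀ v ≤ n, Near 0 (sh (j, m - j) (ext y')) u v (n - u) (n - v) →
        Near (3 * ((K + 1) * s)) (sh (j, m - j) (wf Z)) u v (n - u) (n - v) := by
    intro y' hy' u hu v hv hn
    let S' : Finset (ℕ × ℕ) := ((insert i S).image Subtype.val).preimage
      (fun w : ℕ × ℕ => (j + w.1, m - j + w.2)) (sh_inj (j, m - j)).injOn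
    have hS' : S'.card ≤ s := by
      refine (card_le_card_of_injOn (t := (insert i S).image Subtype.val) _
        (fun w hw => mem_preimage.1 hw) (sh_inj (j, m - j)).injOn).trans ?_
      exact card_image_le.trans ((card_insert_le _ _).trans hS)
    have hbox : ∀ a ≤ u + (n - u), ∀ c ≤ v + (n - v), (j + a, m - j + c) ∈ box (n + m) (n + m) :=
      fun a ha c hc => mem_box.2 ⟨by simp only; omega, by simp only; omega⟩
    have heq : ∀ a c, (j + a, m - j + c) ∈ box (n + m) (n + m) → (a, c) ∉ S' →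
        ext y' (j + a, m - j + c) = wf Z (j + a, m - j + c) := by
      intro a c hb hS2
      have h3 : (⟨_, hb⟩ : box (n + m) (n + m)) ∉ insert i S :=
        fun h => hS2 (mem_preimage.2 (mem_image.2 ⟨_, h, rfl⟩))
      rw [mem_insert, not_or] at h3
      have h4 : ext y' (j + a, m - j + c)
          = ext (cut (box (n + m) (n + m)) K Z) (j + a, m - j + c) := by
        simp only [ext, hb, dif_pos]
        rw [hy' _ h3.1, hy, piecewise_eq_of_mem _ _ _ (mem_compl.2 h3.2)]
      rw [h4, ext_cut Z hb, cap, min_eq_left (hZ _ hb).le]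
    refine (hn.perturb (K := K + 1) (S := S') (fun a ha c hc => ?_) (fun a ha c hc => ?_)).mono
      (by gcongr)
    · simp only [sh]
      split_ifs with h
      · exact (ext_le _ _).trans (Nat.le_add_left _ _)
      · rw [heq a c (hbox a ha c hc) h]; simp
    · simp only [sh]
      split_ifs with h
      · exact (hZ _ (hbox a ha c hc)).le.trans (Nat.le_add_left _ _)
      · rw [heq a c (hbox a ha c hc) h]; simp
  rcases lt_or_gt_of_ne hne with h | h
  · obtain ⟨P, -, h2, h3⟩ := exists_path_set_sh (ext (Function.update y i b)) (j, m - j) n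
    have e := h3 (ext y) i fun u hu => (ext_update y i b u hu).symm
    have hP : (i : ℕ × ℕ) ∈ P := by
      by_contra hc
      rw [if_neg hc] at e; omega
    obtain ⟨u, hu, v, hv, e1, e2⟩ := h2 _ hP
    exact ⟨u, hu, v, hv, e1, key _ (fun k hk => Function.update_of_ne hk _ _) u hu v hv e2⟩
  · obtain ⟨P, -, h2, h3⟩ := exists_path_set_sh (ext y) (j, m - j) n
    have e := h3 _ i (ext_update y i b)
    have hP : (i : ℕ × ℕ) ∈ P := by
      by_contra hc
      rw [if_neg hc] at e; omega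
    obtain ⟨u, hu, v, hv, e1, e2⟩ := h2 _ hP
    exact ⟨u, hu, v, hv, e1, key _ (fun _ _ => rfl) u hu v hv e2⟩

lemma fbar_global {r : ℝ} (hr0 : 0 < r) (hr1 : r < 1) (h0 : 0 ≤ r ^ 2) (h1 : r ^ 2 ≤ 1)
    {n m K s L w : ℕ} (hm : 0 < m) {lam γ₀ θ : ℝ}
    (H : TubeData r n (3 * ((K + 1) * s)) L w lam γ₀) (hγ0 : 0 ≤ γ₀) (hθ1 : 1 ≤ θ ^ 6 * 2 ^ s)
    (hθ2 : ((n + m + 1) * (n + m + 1) : ℕ) * (r ^ 2) ^ (K + 1) + γ₀
      + 2 * lam * (2 * L + w + 1) / m ≤ θ ^ 6)
    (i : box (n + m) (n + m)) (S : Finset (box (n + m) (n + m)))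
    (x : box (n + m) (n + m) → Bool × Fin (K + 1)) :
    EE (Wprod h0 h1 (W2 (r ^ 2) K)) Sᶜ
      (fun y => |LL (Wprod h0 h1 (W2 (r ^ 2) K)) {i} (fbar n m K) y|) x
      ≤ (K + 1) * θ ^ 6 * 2 ^ S.card := by
  have hθ0 : 0 ≤ θ ^ 6 := by positivity
  have hq1 : r ^ 2 < 1 := by nlinarith
  by_cases hS : s ≤ S.card
  · refine (EE_le _ _ (fun y => abs_LL_fbar h0 h1 hm i y) x).trans ?_
    have : (2 : ℝ) ^ s ≤ 2 ^ S.card := pow_le_pow_right₀ (by norm_num) hS
    rw [mul_assoc]
    exact le_mul_of_one_le_right (by positivity) (by nlinarith)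
  push Not at hS
  classical
  set h := 3 * ((K + 1) * s) with hh
  let J := (range m).filter fun j => ∃ u ≤ n, ∃ v ≤ n, (i : ℕ × ℕ) = (j + u, m - j + v)
  let z : ℕ → ℕ × ℕ := fun j => ((i : ℕ × ℕ).1 - j, (i : ℕ × ℕ).2 - (m - j))
  let E : ℕ → Set Fld := fun j => Big (box (n + m) (n + m)) (K + 1) ∪
    if j ∈ J then sh (j, m - j) ⁻¹' {ξ | Near h ξ (z j).1 (z j).2 (n - (z j).1) (n - (z j).2)}
    else ∅
  have mE : ∀ j, MeasurableSet (E j) := fun j => (measurableSet_Big _ _).union (by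
    split_ifs
    · exact measurable_sh _ (measurableSet_near ..)
    · exact .empty)
  have hwf := mp_wf h0 hq1
  have hJ : ∀ j ∈ J, (z j).1 ≤ n ∧ (z j).2 ≤ n ∧ (z j).1 + (z j).2 = (i : ℕ × ℕ).1 + (i : ℕ × ℕ).2 - m
      ∧ j ≤ (i : ℕ × ℕ).1 := by
    intro j hj
    obtain ⟨hj1, u, hu, v, hv, e⟩ := mem_filter.1 hj
    have := mem_range.1 hj1
    simp only [z, e]; omega
  have hinj : Set.InjOn z J := by
    intro j hj j' hj' e
    have e1 := congrArg Prod.fst e
    have := (hJ j hj).2.2.2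
    have := (hJ j' hj').2.2.2
    simp only [z] at e1; omega
  have hsum := near_sum hr0 hr1 H (J.image z) (s := (i : ℕ × ℕ).1 + (i : ℕ × ℕ).2 - m) (by
    intro z' hz'
    obtain ⟨j, hj, rfl⟩ := mem_image.1 hz'
    exact ⟨(hJ j hj).1, (hJ j hj).2.1, (hJ j hj).2.2.1⟩)
  rw [sum_image hinj, card_image_of_injOn hinj] at hsum
  have hE : ∑ j ∈ range m, (Pq (r ^ 2)).real (E j) ≤ m * θ ^ 6 := by
    have hb := big_le (q := r ^ 2) (by positivity) hq1 (box (n + m) (n + m)) (K + 1)
    rw [card_box] at hb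
    calc ∑ j ∈ range m, (Pq (r ^ 2)).real (E j)
        ≤ ∑ j ∈ range m, (((n + m + 1) * (n + m + 1) : ℕ) * (r ^ 2) ^ (K + 1)
          + if j ∈ J then (Pq (r ^ 2)).real
            {ξ | Near h ξ (z j).1 (z j).2 (n - (z j).1) (n - (z j).2)} else 0) := by
          refine sum_le_sum fun j _ => (measureReal_union_le _ _).trans (add_le_add hb ?_)
          split_ifs
          · rw [mp_real (mp_sh _ _) (measurableSet_near ..)]
          · simp
      _ ≤ m * (((n + m + 1) * (n + m + 1) : ℕ) * (r ^ 2) ^ (K + 1))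
          + (m * γ₀ + 2 * lam * (2 * L + w + 1)) := by
          rw [sum_add_distrib, sum_const, card_range, nsmul_eq_mul, sum_ite_mem,
            inter_eq_right.2 (filter_subset _ _)]
          have : (J.card : ℝ) ≤ m := by
            have := card_filter_le (range m)
              fun j => ∃ u ≤ n, ∃ v ≤ n, (i : ℕ × ℕ) = (j + u, m - j + v)
            rw [card_range] at this
            exact_mod_cast this
          have := mul_le_mul_of_nonneg_right this hγ0
          linarith
      _ = m * (((n + m + 1) * (n + m + 1) : ℕ) * (r ^ 2) ^ (K + 1) + γ₀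
          + 2 * lam * (2 * L + w + 1) / m) := by field_simp; ring
      _ ≤ _ := by gcongr
  rw [EE_bridge]
  calc _ ≤ ∫ Z, (∑ j ∈ range m, (wf ⁻¹' E j).indicator (fun _ => (K + 1 : ℝ)) Z) / m
        ∂QQ (r ^ 2) := by
        refine integral_mono_of_nonneg (ae_of_all _ fun _ => abs_nonneg _)
          ((integrable_finsetSum _ fun j _ =>
            (integrable_const _).indicator (hwf.measurable (mE j))).div_const _)
          (ae_of_all _ fun Z => abs_LL_fbar_le h0 h1 i _ _ fun j hj b => ?_)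
        by_cases hZ : Z ∈ wf ⁻¹' E j
        · rw [Set.indicator_of_mem hZ]; exact Lp_diff_le _ i _ b
        · rw [Set.indicator_of_notMem hZ]
          simp only [Set.mem_preimage, E, Set.mem_union, not_or] at hZ
          by_contra hc
          have hne : Lp (sh (j, m - j) (ext (Sᶜ.piecewise (cut _ K Z) x))) n n
              ≠ Lp (sh (j, m - j) (ext (Function.update (Sᶜ.piecewise (cut _ K Z) x) i b))) n n := by
            intro e; rw [e] at hc; simp at hc
          obtain ⟨u, hu, v, hv, e1, e2⟩ := piv_near (mem_range.1 hj).le S hS x Z hZ.1 i b hne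
          have hjJ : j ∈ J := mem_filter.2 ⟨hj, u, hu, v, hv, e1⟩
          apply hZ.2
          rw [if_pos hjJ]
          simpa [z, e1] using e2
    _ = (K + 1) * ((∑ j ∈ range m, (Pq (r ^ 2)).real (E j)) / m) := by
        rw [integral_div, integral_finsetSum _ fun j _ =>
          (integrable_const _).indicator (hwf.measurable (mE j)), ← mul_div_assoc, mul_sum]
        congr 1
        refine sum_congr rfl fun j _ => ?_
        rw [integral_indicator_const _ (hwf.measurable (mE j)), mp_real hwf (mE j), smul_eq_mul,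
          mul_comm]
    _ ≤ (K + 1) * θ ^ 6 := by
        gcongr
        rw [div_le_iff₀ (by positivity)]; linarith
    _ ≤ _ := le_mul_of_one_le_right (by positivity) (one_le_pow₀ (by norm_num))

end Pool.Agent.HideZero
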