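import Pool.Agent.Lib.MP_9debf8_pr.Meas

set_option autoImplicit false

/-! Stationary last-passage percolation: the Burke property and exit point bounds. -/

open Finset MeasureTheory MeasureTheory.Measure ProbabilityTheory
open scoped ENNReal

namespace Pool.Agent.HideZero

lemma measurable_G (i j : ℕ) : Measurable fun ξ : Fld => G ξ i j := by
  induction i generalizing j with
  | zero =>
    induction j with
    | zero => simp only [G_00]; exact measurable_const
    | succ j ih => simp only [G_0s]; exact ih.add (measurable_pi_apply _)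
  | succ i ihi =>
    induction j with
    | zero => simp only [G_s0]; exact (ihi 0).add (measurable_pi_apply _)
    | succ j ihj => simp only [G_ss]; exact ((ihi _).max ihj).add (measurable_pi_apply _)

lemma measurable_Lp (i j : ℕ) : Measurable fun ξ : Fld => Lp ξ i j :=
  (measurable_pi_apply _).add (measurable_G i j)

lemma measurable_sh (b : ℕ × ℕ) : Measurable (sh b) :=
  measurable_pi_lambda _ fun _ => measurable_pi_apply _

lemma measurable_tr : Measurable tr := measurable_pi_lambda _ fun _ => measurable_pi_apply _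

lemma measurable_rf (m n : ℕ) : Measurable (rf m n) :=
  measurable_pi_lambda _ fun _ => measurable_pi_apply _

lemma measurable_zC : Measurable zC := measurable_pi_lambda _ fun u => by
  unfold zC; split_ifs <;> fun_prop

lemma measurable_zR : Measurable zR := measurable_pi_lambda _ fun u => by
  unfold zR; split_ifs <;> fun_prop

lemma measurable_zA (A : Finset (ℕ × ℕ)) : Measurable (zA A) := measurable_pi_lambda _ fun u => by
  unfold zA; split_ifs <;> fun_prop

lemma measurable_nat2 {α β : Type} [MeasurableSpace α] [MeasurableSpace β] (φ : ℕ → ℕ → β)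
    {f g : α → ℕ} (hf : Measurable f) (hg : Measurable g) : Measurable fun x => φ (f x) (g x) :=
  (measurable_of_countable fun p : ℕ × ℕ => φ p.1 p.2).comp (hf.prodMk hg)

lemma measurable_nest (b : ℕ × ℕ) : Measurable (nest b) := measurable_pi_lambda _ fun u => by
  obtain ⟨i, j⟩ := u
  cases i <;> cases j <;> simp only [nest]
  · exact measurable_pi_apply _
  · exact measurable_nat2 (· - ·) (measurable_G _ _) (measurable_G _ _)
  · exact measurable_nat2 (· - ·) (measurable_G _ _) (measurable_G _ _)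
  · exact measurable_pi_apply _

lemma measurableSet_near (h x y a b : ℕ) : MeasurableSet {ξ | Near h ξ x y a b} :=
  measurableSet_le (measurable_G _ _) (((measurable_G _ _).add
    ((measurable_G _ _).comp (measurable_sh _))).add measurable_const)

/-- Independent geometric weights with site-dependent parameters. -/
noncomputable def Pa (a : ℕ × ℕ → ℝ) : Measure Fld := infinitePi fun v => geo (a v)

instance (a : ℕ × ℕ → ℝ) : IsProbabilityMeasure (Pa a) := by unfold Pa; infer_instance

/-- I.i.d. geometric weights. -/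
noncomputable def Pq (q : ℝ) : Measure Fld := Pa fun _ => q

instance (q : ℝ) : IsProbabilityMeasure (Pq q) := by unfold Pq; infer_instance

/-- Parameters of the model with boundary. -/
def par (q α β : ℝ) : ℕ × ℕ → ℝ
  | (0, 0) => q
  | (_ + 1, 0) => α
  | (0, _ + 1) => β
  | (_ + 1, _ + 1) => q

/-- The model with boundary. -/
noncomputable def Ps (q α β : ℝ) : Measure Fld := Pa (par q α β)

instance (q α β : ℝ) : IsProbabilityMeasure (Ps q α β) := by unfold Ps; infer_instance

lemma mp_reindex (a : ℕ × ℕ → ℝ) {f : ℕ × ℕ → ℕ × ℕ} (hf : Function.Injective f) :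
    MeasurePreserving (fun (ξ : Fld) u => ξ (f u)) (Pa a) (Pa fun u => a (f u)) :=
  ⟨measurable_pi_lambda _ fun _ => measurable_pi_apply _, map_infinitePi_infinitePi_of_inj hf⟩

lemma sh_inj (b : ℕ × ℕ) : Function.Injective fun u : ℕ × ℕ => (b.1 + u.1, b.2 + u.2) := by
  intro u v h
  simp only [Prod.mk.injEq] at h
  exact Prod.ext (by omega) (by omega)

lemma mp_sh (q : ℝ) (b : ℕ × ℕ) : MeasurePreserving (sh b) (Pq q) (Pq q) :=
  mp_reindex _ (sh_inj b)

lemma mp_tr (q : ℝ) : MeasurePreserving tr (Pq q) (Pq q) := mp_reindex _ Prod.swap_injective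

lemma mp_rf (q : ℝ) (m n : ℕ) : MeasurePreserving (rf m n) (Pq q) (Pq q) :=
  mp_reindex _ ((rho_inj m).prodMap (rho_inj n))

lemma mp_sh11 (q α β : ℝ) : MeasurePreserving (sh (1, 1)) (Ps q α β) (Pq q) := by
  have := mp_reindex (par q α β) (sh_inj (1, 1))
  have e : (fun u : ℕ × ℕ => par q α β (1 + u.1, 1 + u.2)) = fun _ => q := by
    funext u; simp [add_comm 1, par]
  rw [e] at this
  exact this

lemma mp_trs (q α β : ℝ) : MeasurePreserving tr (Ps q α β) (Ps q β α) := by
  have := mp_reindex (par q α β) Prod.swap_injective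
  have e : (fun u : ℕ × ℕ => par q α β u.swap) = par q β α := by
    funext u
    obtain ⟨i, j⟩ := u
    cases i <;> cases j <;> simp [par]
  rw [e] at this
  exact this

lemma mp_flipAt {α β q : ℝ} (ha0 : 0 ≤ α) (ha1 : α < 1) (hb0 : 0 ≤ β) (hb1 : β < 1)
    (hq : α * β = q) (i : ℕ) : MeasurePreserving (flipAt i) (Ps q α β) (Ps q α β) := by
  set P := Ps q α β with hP
  set lam := (geo α).prod ((geo β).prod (geo q)) with hlam
  let π : Fld → ℕ × ℕ × ℕ := fun ξ => (ξ (i + 1, 0), ξ (0, 1), ξ (i + 1, 1))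
  let Ψ : (ℕ × ℕ × ℕ) × Fld → Fld := fun p u =>
    if u = (i + 1, 0) then p.1.1 else if u = (0, 1) then p.1.2.1
    else if u = (i + 1, 1) then p.1.2.2 else p.2 u
  have mπ : Measurable π := by fun_prop
  have mΨ : Measurable Ψ := measurable_pi_lambda _ fun u => by
    simp only [Ψ]; split_ifs <;> fun_prop
  have h1 : MeasurePreserving π P lam := by
    refine ⟨mπ, ext_of_singleton fun p => ?_⟩
    obtain ⟨x, y, z⟩ := p
    rw [map_apply mπ (measurableSet_singleton _), hlam, ← Set.singleton_prod_singleton, prod_prod,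
      ← Set.singleton_prod_singleton, prod_prod]
    let t : ℕ × ℕ → Set ℕ := fun u => if u = (i + 1, 0) then {x} else if u = (0, 1) then {y} else {z}
    have := infinitePi_pi (fun v => geo (par q α β v)) (s := {(i + 1, 0), (0, 1), (i + 1, 1)})
      (t := t) (fun _ _ => .of_discrete)
    rw [prod_insert (by simp), prod_insert (by simp), prod_singleton] at this
    simp only [t, par] at this
    simp only [if_true, Prod.mk.injEq, Nat.right_eq_add, one_ne_zero, and_false, if_false,
      Nat.add_eq_zero_iff, false_and] at this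
    rw [← this]
    congr 1
    ext ξ
    simp [π]
  have h2 : MeasurePreserving flip3 lam lam :=
    ⟨measurable_of_countable _, flip3_map ha0 ha1 hb0 hb1 hq⟩
  have h3 : MeasurePreserving Ψ (lam.prod P) P := by
    refine ⟨mΨ, ?_⟩
    have h4 := (h1.prod (MeasurePreserving.id P)).map_eq
    rw [← h4, map_map mΨ (mπ.prodMap measurable_id)]
    have h5 := map_merge (fun v => geo (par q α β v)) (fun v => geo (par q α β v))
      {u | u = (i + 1, 0) ∨ u = (0, 1) ∨ u = (i + 1, 1)}
    simp only [ite_self] at h5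
    refine Eq.trans ?_ h5
    congr 1
    funext p u
    simp only [Function.comp, Ψ, π, Prod.map_fst, Prod.map_snd, id, Set.mem_ofPred_eq]
    split_ifs <;> simp_all
  have h6 : flipAt i ∘ Ψ = Ψ ∘ Prod.map flip3 id := by
    funext p u
    simp only [Function.comp, Ψ, flipAt, Prod.map_fst, Prod.map_snd, id]
    simp only [if_true, Prod.mk.injEq, Nat.right_eq_add, one_ne_zero, and_false, if_false,
      Nat.add_eq_zero_iff, false_and]
    split_ifs <;> simp_all
  have mf : Measurable (flipAt i) := measurable_pi_lambda _ fun u => by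
    have := (measurable_of_countable flip3).comp mπ
    unfold flipAt
    split_ifs
    · exact this.fst
    · exact this.snd.fst
    · exact this.snd.snd
    · fun_prop
  refine ⟨mf, ?_⟩
  calc P.map (flipAt i) = ((lam.prod P).map Ψ).map (flipAt i) := by rw [h3.map_eq]
    _ = (lam.prod P).map (Ψ ∘ Prod.map flip3 id) := by rw [map_map mf mΨ, h6]
    _ = P := (h3.comp (h2.prod (MeasurePreserving.id P))).map_eq

section burke

variable {α β q : ℝ} (ha0 : 0 ≤ α) (ha1 : α < 1) (hb0 : 0 ≤ β) (hb1 : β < 1) (hq : α * β = q)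
include ha0 ha1 hb0 hb1 hq

lemma mp_flips (M : ℕ) : MeasurePreserving (flips M) (Ps q α β) (Ps q α β) := by
  induction M with
  | zero => exact MeasurePreserving.id _
  | succ M ih => exact (mp_flipAt ha0 ha1 hb0 hb1 hq M).comp ih

lemma mp_nest01 : MeasurePreserving (nest (0, 1)) (Ps q α β) (Ps q α β) := by
  refine ⟨measurable_nest _, eq_infinitePi _ fun s t ht => ?_⟩
  have hs : MeasurableSet ((s : Set (ℕ × ℕ)).pi t) := .pi s.countable_toSet fun _ _ => ht _
  have h1 := mp_reindex (par q α β) skip_inj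
  have e : (fun u : ℕ × ℕ => par q α β (skip u)) = par q α β := by
    funext u
    obtain ⟨i, j⟩ := u
    cases i <;> cases j <;> simp [par, skip]
  rw [e] at h1
  have h2 := h1.comp (mp_flips ha0 ha1 hb0 hb1 hq (s.sup Prod.fst))
  rw [map_apply (measurable_nest _) hs, ← infinitePi_pi _ (fun v _ => ht v)]
  refine Eq.trans ?_ (h2.measure_preimage hs.nullMeasurableSet)
  congr 1
  ext ξ
  simp only [Set.mem_preimage, Set.mem_pi, mem_coe, Function.comp]
  refine forall₂_congr fun u hu => ?_
  rw [nest_eq_flips _ ξ u (le_sup (f := Prod.fst) hu)]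

lemma mp_nest10 : MeasurePreserving (nest (1, 0)) (Ps q α β) (Ps q α β) := by
  have := (mp_trs q β α).comp ((mp_nest01 hb0 hb1 ha0 ha1 (by rw [mul_comm, hq])).comp
    (mp_trs q α β))
  have e : tr ∘ nest (0, 1) ∘ tr = nest (1, 0) := by
    funext ξ; simp only [Function.comp, nest_tr, tr_tr]
  rwa [e] at this

lemma mp_nest (x y : ℕ) : MeasurePreserving (nest (x, y)) (Ps q α β) (Ps q α β) := by
  induction x with
  | zero =>
    induction y with
    | zero =>
      have : nest (0, 0) = id := funext nest_zero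
      rw [this]; exact MeasurePreserving.id _
    | succ y ih =>
      have := (mp_nest01 ha0 ha1 hb0 hb1 hq).comp ih
      have e : nest (0, 1) ∘ nest (0, y) = nest (0, y + 1) := by
        funext ξ; simp only [Function.comp, nest_nest]
      rwa [e] at this
  | succ x ih =>
    have := (mp_nest10 ha0 ha1 hb0 hb1 hq).comp ih
    have e : nest (1, 0) ∘ nest (x, y) = nest (x + 1, y) := by
      funext ξ; simp only [Function.comp, nest_nest, add_zero]
    rwa [e] at this

end burke

lemma measurable_pow_nat {α : Type} [MeasurableSpace α] (t : ℝ) {f : α → ℕ} (hf : Measurable f) :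
    Measurable fun x => ENNReal.ofReal (t ^ f x) :=
  (measurable_of_countable fun k : ℕ => ENNReal.ofReal (t ^ k)).comp hf

/-- The exponential moment identity of Rains and of Emrah, Janjigian and Seppalainen. -/
lemma ejs {q α β l : ℝ} (ha0 : 0 < α) (ha1 : α < 1) (hb0 : 0 ≤ β) (hb1 : β < 1) (hq : α * β = q)
    (hl0 : 0 < l) (hl1 : l < 1) (hql : β * (α / l) < 1) (m n : ℕ) :
    ∫⁻ ξ, ENNReal.ofReal ((α / l) ^ G ξ m n) ∂Ps q l β
      = ENNReal.ofReal (((1 - l) / (1 - α)) ^ m * ((1 - β) / (1 - β * (α / l))) ^ n) := by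
  set t := α / l with ht
  have ht0 : 0 < t := by positivity
  let row : Finset (ℕ × ℕ) := (range m).image fun i => (i + 1, 0)
  let a' : ℕ × ℕ → ℝ := fun v => if v ∈ row then α else par q l β v
  let F : Fld → ℝ≥0∞ := fun ξ => ENNReal.ofReal (t ^ G (nest (m, 0) ξ) 0 n)
  have mF : Measurable F := measurable_pow_nat t ((measurable_G _ _).comp (measurable_nest _))
  have hc : 0 < (1 - α) / (1 - l) := div_pos (by linarith) (by linarith)
  have h1 : Pa a' = (Ps q l β).withDensity
      fun ξ => ∏ v ∈ row, ENNReal.ofReal ((1 - α) / (1 - l) * t ^ ξ v) := by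
    refine pi_withDensity (fun v => geo (par q l β v)) (fun v => geo (a' v)) row
      (fun _ k => ENNReal.ofReal ((1 - α) / (1 - l) * t ^ k))
      (fun _ => measurable_of_countable _) (fun v hv => ?_) (fun v hv => by simp [a', hv])
    obtain ⟨i, -, rfl⟩ := mem_image.1 hv
    simp only [a', hv, if_true, par]
    exact geo_withDensity hl0 hl1 ha0.le ha1
  have h2 : ∫⁻ ξ, F ξ ∂Pa a' = ∫⁻ ξ, F ξ ∂Ps q α β := by
    have := map_local (fun v => geo (a' v)) (fun v => geo (par q α β v)) {v | v.1 ≤ m}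
      (fun v hv => by
        obtain ⟨i, j⟩ := v
        have hv' : i ≤ m := hv
        by_cases h : (i, j) ∈ row
        · obtain ⟨k, -, hk⟩ := mem_image.1 h
          simp only [a', h, if_true]
          rw [← hk]; rfl
        · simp only [a', h, if_false]
          cases i <;> cases j <;> try rfl
          exact absurd (mem_image.2 ⟨_, mem_range.2 hv', rfl⟩) h) mF (fun ξ ξ' h => by
        have e1 := G_nest_col m 0 ξ n
        have e2 := G_nest_col m 0 ξ' n
        have e3 : G ξ m 0 = G ξ' m 0 := G_congr_box fun i hi j _ => h _ hi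
        have e4 : G ξ m (0 + n) = G ξ' m (0 + n) := G_congr_box fun i hi j _ => h _ hi
        have : G (nest (m, 0) ξ) 0 n = G (nest (m, 0) ξ') 0 n := by omega
        simp only [F, this])
    have e1 := lintegral_map (μ := Pa a') measurable_id mF
    have e2 := lintegral_map (μ := Ps q α β) measurable_id mF
    simp only [id] at e1 e2
    rw [← e1, ← e2]
    congr 1
  have h3 : ∫⁻ ξ, F ξ ∂Ps q α β = ENNReal.ofReal (((1 - β) / (1 - β * t)) ^ n) := by
    have := (mp_nest ha0.le ha1 hb0 hb1 hq m 0).lintegral_comp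
      (measurable_pow_nat t (measurable_G 0 n))
    simp only [F]
    rw [this]
    have e : ∀ ξ : Fld, ENNReal.ofReal (t ^ G ξ 0 n)
        = ∏ v ∈ (range n).image (fun j => ((0, j + 1) : ℕ × ℕ)), ENNReal.ofReal (t ^ ξ v) := by
      intro ξ
      rw [prod_image (fun _ _ _ _ h => by simpa using h), G_col_sum, ← prod_pow_eq_pow_sum,
        ENNReal.ofReal_prod_of_nonneg (fun _ _ => by positivity)]
    simp only [e]
    rw [Ps, Pa, lintegral_prod_pi _ _ (fun _ k => ENNReal.ofReal (t ^ k))
      (fun _ => measurable_of_countable _), prod_image (fun _ _ _ _ h => by simpa using h)]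
    simp only [par, lintegral_geo_pow hb0 hb1 ht0.le hql, prod_const, card_range]
    rw [ENNReal.ofReal_pow (div_nonneg (by linarith) (by linarith))]
  have h4 : ∫⁻ ξ, F ξ ∂Pa a' = ENNReal.ofReal (((1 - α) / (1 - l)) ^ m)
      * ∫⁻ ξ, ENNReal.ofReal (t ^ G ξ m n) ∂Ps q l β := by
    have mr : Measurable fun ξ : Fld => ∏ v ∈ row, ENNReal.ofReal ((1 - α) / (1 - l) * t ^ ξ v) :=
      Finset.measurable_prod _ fun v _ =>
      (measurable_of_countable fun k : ℕ => ENNReal.ofReal ((1 - α) / (1 - l) * t ^ k)).comp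
        (measurable_pi_apply v)
    rw [h1, lintegral_withDensity_eq_lintegral_mul _ mr mF,
      ← lintegral_const_mul _ (measurable_pow_nat t (measurable_G m n))]
    refine lintegral_congr fun ξ => ?_
    have e1 := G_nest_col m 0 ξ n
    rw [zero_add] at e1
    simp only [Pi.mul_apply, F, row]
    rw [prod_image (fun _ _ _ _ h => by simpa using h),
      ← ENNReal.ofReal_prod_of_nonneg (fun _ _ => by positivity), prod_mul_distrib, prod_const,
      card_range, prod_pow_eq_pow_sum, ← G_row_sum, ← ENNReal.ofReal_mul (by positivity),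
      ← ENNReal.ofReal_mul (by positivity), ← e1, pow_add]
    congr 1; ring
  have h5 : ENNReal.ofReal (((1 - l) / (1 - α)) ^ m) * ENNReal.ofReal (((1 - α) / (1 - l)) ^ m)
      = 1 := by
    have : 0 < 1 - α := by linarith
    have : 0 < 1 - l := by linarith
    rw [← ENNReal.ofReal_mul (by positivity), ← mul_pow, div_mul_div_comm, mul_comm (1 - l),
      div_self (by positivity)]
    simp
  have : 0 < 1 - α := by linarith
  have : 0 < 1 - l := by linarith
  rw [ENNReal.ofReal_mul (by positivity), ← h3, ← h2, h4, ← mul_assoc, h5, one_mul]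

/-- Restriction of a field to a set of sites. -/
def onSet (A : Set (ℕ × ℕ)) [DecidablePred (· ∈ A)] (η : Fld) : Fld :=
  fun v => if v ∈ A then η v else 0

/-- Law of the extra field. -/
noncomputable def Nx (a b : ℕ × ℕ → ℝ) : Measure Fld := infinitePi fun v => extra (a v) (b v)

instance (a b : ℕ × ℕ → ℝ) : IsProbabilityMeasure (Nx a b) := by unfold Nx; infer_instance

lemma mp_add (a b : ℕ × ℕ → ℝ) (A : Set (ℕ × ℕ)) [DecidablePred (· ∈ A)]
    (h1 : ∀ v ∈ A, 0 ≤ a v ∧ a v ≤ b v ∧ b v < 1) (h2 : ∀ v ∉ A, a v = b v) :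
    MeasurePreserving (fun p : Fld × Fld => p.1 + onSet A p.2) ((Pa a).prod (Nx a b)) (Pa b) := by
  have e : (fun p : Fld × Fld => p.1 + onSet A p.2)
      = fun p v => (fun v (x : ℕ × ℕ) => if v ∈ A then x.1 + x.2 else x.1) v (p.1 v, p.2 v) := by
    funext p v
    simp only [Pi.add_apply, onSet]
    split_ifs <;> simp
  rw [e]
  refine ⟨measurable_pi_lambda _ fun v => ?_, ?_⟩
  · simp only; split_ifs <;> fun_prop
  · refine (map_pair_pi (fun v => geo (a v)) (fun v => extra (a v) (b v))
      (fun v (x : ℕ × ℕ) => if v ∈ A then x.1 + x.2 else x.1)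
      (fun _ => measurable_of_countable _)).trans ?_
    rw [Pa]
    congr 1
    funext v
    by_cases hv : v ∈ A
    · simp only [hv, if_true]
      exact geo_conv (h1 v hv).1 (h1 v hv).2.1 (h1 v hv).2.2
    · simp only [hv, if_false]
      rw [← h2 v hv]
      exact measurePreserving_fst.map_eq

/-- Horizontal exit event. -/
def ExH (m n : ℕ) : Set Fld := {ξ | G (zR ξ) m n ≤ G (zC ξ) m n}

/-- Vertical exit event. -/
def ExV (m n : ℕ) : Set Fld := {ξ | G (zC ξ) m n ≤ G (zR ξ) m n}

lemma measurableSet_ExH (m n : ℕ) : MeasurableSet (ExH m n) :=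
  measurableSet_le ((measurable_G _ _).comp measurable_zR) ((measurable_G _ _).comp measurable_zC)

lemma measurableSet_ExV (m n : ℕ) : MeasurableSet (ExV m n) :=
  measurableSet_le ((measurable_G _ _).comp measurable_zC) ((measurable_G _ _).comp measurable_zR)

lemma ExH_mono {q α l β : ℝ} (h0 : 0 ≤ α) (h1 : α ≤ l) (h2 : l < 1) (m n : ℕ) :
    Ps q α β (ExH m n) ≤ Ps q l β (ExH m n) := by
  have h := mp_add (par q α β) (par q l β) {v | v.2 = 0 ∧ v.1 ≠ 0}
    (by
      rintro ⟨i, j⟩ ⟨hj, hi⟩
      cases i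
      · simp at hi
      · simp only at hj; subst hj; exact ⟨h0, h1, h2⟩)
    (by
      rintro ⟨i, j⟩ hv
      cases i <;> cases j <;> first | rfl | simp at hv)
  rw [Ps, Ps, ← h.measure_preimage (measurableSet_ExH m n).nullMeasurableSet,
    ← (measurePreserving_fst (μ := Pa (par q α β)) (ν := Nx (par q α β) (par q l β))).measure_preimage
      (measurableSet_ExH m n).nullMeasurableSet]
  refine measure_mono fun p hp => ?_
  simp only [Set.mem_preimage, ExH, Set.mem_ofPred_eq] at hp ⊢
  have e1 : zR (p.1 + onSet {v | v.2 = 0 ∧ v.1 ≠ 0} p.2) = zR p.1 := by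
    funext u
    simp only [zR, onSet, Pi.add_apply, Set.mem_ofPred_eq]
    split_ifs <;> simp_all
  rw [e1]
  refine hp.trans (G_mono (fun u => ?_) _ _)
  simp only [zC, Pi.add_apply]
  split_ifs <;> simp

lemma exit_real {q α d : ℝ} (hq : 0 < q) (hqa : q < α) (hd : 0 < d) (hl : α + d < 1)
    (hd2 : d ≤ α * (1 - (α + d)) ^ 2 / 8) {m n : ℕ}
    (hmn : m * (α + d - q) ^ 2 * (1 + d) ≤ n * q * (1 - (α + d)) ^ 2) :
    ((1 - (α + d)) / (1 - (α + d) ^ 2 / α)) ^ m
        * ((1 - q * α / (α + d) ^ 2) / (1 - q / (α + d))) ^ n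
      * (((1 - (α + d)) / (1 - α)) ^ m * ((1 - q / α) / (1 - q / (α + d))) ^ n)
      ≤ Real.exp (-(q * n * d ^ 3 / 8)) ^ 2 := by
  set l := α + d with hl'
  have ha : 0 < α := by linarith
  have h1l : 0 < 1 - l := by linarith
  have hl0 : 0 < l := by linarith
  have hlq : 0 < l - q := by linarith
  have h1a : 0 < 1 - α := by linarith
  set u := d ^ 2 / (α * (1 - l) ^ 2) with hu
  set v := q * d ^ 2 / (α * (l - q) ^ 2) with hv
  have hu0 : 0 ≤ u := by positivity
  have hd8 : d ≤ 1 / 8 := by
    have : α * (1 - l) ^ 2 ≤ 1 := by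
      have : (1 - l) ^ 2 ≤ 1 := by nlinarith
      nlinarith
    linarith
  have hud : u ≤ d / 8 := by
    rw [hu, div_le_iff₀ (by positivity)]; nlinarith
  have hu1 : 0 < 1 - u := by linarith
  have hdl : d = l - α := by rw [hl']; ring
  have eu : (1 - α) * (1 - l ^ 2 / α) = (1 - l) ^ 2 * (1 - u) := by
    rw [hu, hdl]; field_simp; ring
  have hla : 0 < 1 - l ^ 2 / α := by
    have : 0 < (1 - α) * (1 - l ^ 2 / α) := by rw [eu]; positivity
    exact (mul_pos_iff_of_pos_left h1a).1 this
  have hql : 0 < 1 - q / l := by rw [sub_pos, div_lt_one hl0]; linarith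
  have e1 : (1 - l) / (1 - l ^ 2 / α) * ((1 - l) / (1 - α)) = 1 / (1 - u) := by
    rw [div_mul_div_comm, mul_comm (1 - l ^ 2 / α), eu]; field_simp
  have e2 : (1 - q * α / l ^ 2) / (1 - q / l) * ((1 - q / α) / (1 - q / l)) = 1 - v := by
    have : 1 - q / l = (l - q) / l := by field_simp
    rw [this, hv, hdl]; field_simp; ring
  have hv1 : 0 ≤ 1 - v := by
    rw [← e2]
    have : 0 ≤ 1 - q * α / l ^ 2 := by
      rw [sub_nonneg, div_le_one (by positivity)]; nlinarith
    have : 0 ≤ 1 - q / α := by rw [sub_nonneg, div_le_one ha]; linarith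
    positivity
  have b1 : 1 / (1 - u) ≤ Real.exp (u * (1 + d / 4)) := by
    refine le_trans ?_ (Real.add_one_le_exp _)
    have : u * (1 + d / 4) ≤ d / 4 := by nlinarith
    rw [div_le_iff₀ hu1]; nlinarith [mul_nonneg hu0 (sub_nonneg.2 this)]
  have b2 : 1 - v ≤ Real.exp (-v) := by linarith [Real.add_one_le_exp (-v)]
  have hmu : m * u * (1 + d) ≤ n * v := by
    rw [hu, hv]
    have : (m : ℝ) * (d ^ 2 / (α * (1 - l) ^ 2)) * (1 + d)
        = (m * (l - q) ^ 2 * (1 + d)) * (d ^ 2 / (α * (1 - l) ^ 2 * (l - q) ^ 2)) := by field_simp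
    rw [this]
    calc _ ≤ (n * q * (1 - l) ^ 2) * (d ^ 2 / (α * (1 - l) ^ 2 * (l - q) ^ 2)) :=
          mul_le_mul_of_nonneg_right hmn (by positivity)
      _ = _ := by field_simp
  have hvq : q * d ^ 2 ≤ v := by
    rw [hv, le_div_iff₀ (by positivity)]
    have : α * (l - q) ^ 2 ≤ 1 := by
      have : (l - q) ^ 2 ≤ 1 := by nlinarith
      nlinarith
    have h3 : 0 ≤ q * d ^ 2 := by positivity
    nlinarith
  calc _ = ((1 - l) / (1 - l ^ 2 / α) * ((1 - l) / (1 - α))) ^ m
        * ((1 - q * α / l ^ 2) / (1 - q / l) * ((1 - q / α) / (1 - q / l))) ^ n := by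
        rw [mul_pow, mul_pow]; ring
    _ ≤ Real.exp (u * (1 + d / 4)) ^ m * Real.exp (-v) ^ n := by
        rw [e1, e2]
        exact mul_le_mul (pow_le_pow_left₀ (by positivity) b1 m) (pow_le_pow_left₀ hv1 b2 n)
          (by positivity) (by positivity)
    _ ≤ _ := by
        rw [← Real.exp_nat_mul, ← Real.exp_nat_mul, ← Real.exp_nat_mul, ← Real.exp_add,
          Real.exp_le_exp]
        have hmu0 : 0 ≤ (m : ℝ) * u := by positivity
        have hnv : (n : ℝ) * (q * d ^ 2) ≤ n * v := mul_le_mul_of_nonneg_left hvq (by positivity)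
        have k1 : (m : ℝ) * u * (1 + d / 4) ≤ m * u * (1 + d) * (1 - d / 2) := by
          rw [mul_assoc ((m : ℝ) * u)]
          exact mul_le_mul_of_nonneg_left (by nlinarith) hmu0
        have k2 : (m : ℝ) * u * (1 + d) * (1 - d / 2) ≤ n * v * (1 - d / 2) :=
          mul_le_mul_of_nonneg_right hmu (by linarith)
        have k3 : (n : ℝ) * (q * d ^ 2) * d ≤ n * v * d := mul_le_mul_of_nonneg_right hnv hd.le
        have k4 : 0 ≤ (n : ℝ) * (q * d ^ 2) * d := by positivity
        push_cast
        nlinarith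

theorem exitH {q α d : ℝ} (hq : 0 < q) (hqa : q < α) (hd : 0 < d) (hl : α + d < 1)
    (hd2 : d ≤ α * (1 - (α + d)) ^ 2 / 8) {m n : ℕ}
    (hmn : m * (α + d - q) ^ 2 * (1 + d) ≤ n * q * (1 - (α + d)) ^ 2) :
    Ps q α (q / α) (ExH m n) ≤ ENNReal.ofReal (Real.exp (-(q * n * d ^ 3 / 8))) := by
  have hr := exit_real hq hqa hd hl hd2 hmn
  set l := α + d with hl'
  have ha : 0 < α := by linarith
  have h1l : 0 < 1 - l := by linarith
  have hl0 : 0 < l := by linarith
  have h1a : 0 < 1 - α := by linarith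
  have hql : q / l < 1 := by rw [div_lt_one hl0]; linarith
  have hla : l ^ 2 / α < 1 := by
    rw [div_lt_one ha]
    have h3 : (1 - l) ^ 2 ≤ (1 - α) := by nlinarith
    have h4 : d ≤ α * (1 - α) / 8 := by nlinarith
    have h5 : d ≤ 1 := by linarith
    nlinarith
  have hb' : q * α / l ^ 2 < 1 := by rw [div_lt_one (by positivity)]; nlinarith
  set A := ((1 - l) / (1 - l ^ 2 / α)) ^ m * ((1 - q * α / l ^ 2) / (1 - q / l)) ^ n with hA
  set B := ((1 - l) / (1 - α)) ^ m * ((1 - q / α) / (1 - q / l)) ^ n with hB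
  set E := Real.exp (-(q * n * d ^ 3 / 8)) with hE
  have hE0 : 0 < E := Real.exp_pos _
  have hA0 : 0 < A := by
    have : 0 < 1 - l ^ 2 / α := by linarith
    have : 0 < 1 - q * α / l ^ 2 := by linarith
    have : 0 < 1 - q / l := by linarith
    positivity
  have hqα : q / α < 1 := by rw [div_lt_one ha]; linarith
  have hB0 : 0 ≤ B := by
    have : 0 < 1 - q / α := by linarith
    have : 0 < 1 - q / l := by linarith
    positivity
  have jB := ejs (q := q) (α := α) (β := q / α) (l := l) ha (by linarith) (by positivity) hqα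
    (by field_simp) hl0 (by linarith) (by rwa [show q / α * (α / l) = q / l by field_simp]) m n
  rw [show q / α * (α / l) = q / l by field_simp, ← hB] at jB
  have jA := ejs (q := q) (α := l ^ 2 / α) (β := q * α / l ^ 2) (l := l) (by positivity) hla
    (by positivity) hb' (by field_simp) hl0 (by linarith)
    (by rwa [show q * α / l ^ 2 * (l ^ 2 / α / l) = q / l by field_simp]) m n
  rw [show q * α / l ^ 2 * (l ^ 2 / α / l) = q / l by field_simp, ← hA,
    show l ^ 2 / α / l = l / α by field_simp] at jA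
  have mH : Measurable fun ξ => ENNReal.ofReal ((l / α) ^ G (zC ξ) m n) :=
    measurable_pow_nat _ ((measurable_G _ _).comp measurable_zC)
  have jA2 : ∫⁻ ξ, ENNReal.ofReal ((l / α) ^ G (zC ξ) m n) ∂Ps q l (q / α) ≤ ENNReal.ofReal A := by
    have := map_local (fun v => geo (par q l (q / α) v)) (fun v => geo (par q l (q * α / l ^ 2) v))
      {v | v.1 ≠ 0} (by
        rintro ⟨i, j⟩ hv
        cases i <;> cases j <;> first | rfl | simp at hv) mH (fun ξ ξ' h => by
        have : zC ξ = zC ξ' := by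
          funext u; unfold zC; split_ifs with hu
          · rfl
          · exact h u hu
        rw [this])
    have e1 := lintegral_map (μ := Ps q l (q / α)) measurable_id mH
    have e2 := lintegral_map (μ := Ps q l (q * α / l ^ 2)) measurable_id mH
    simp only [id] at e1 e2
    rw [← e1, ← jA]
    refine le_trans (le_of_eq (Eq.trans (by congr 1) e2)) (lintegral_mono fun ξ => ?_)
    refine ENNReal.ofReal_le_ofReal (pow_le_pow_right₀ ?_ (G_zC_le ..))
    rw [le_div_iff₀ ha]; linarith
  refine (ExH_mono ha.le (by linarith : α ≤ l) (by linarith) m n).trans ?_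
  calc Ps q l (q / α) (ExH m n) = ∫⁻ ξ, (ExH m n).indicator 1 ξ ∂Ps q l (q / α) :=
        (lintegral_indicator_one (measurableSet_ExH m n)).symm
    _ ≤ ∫⁻ ξ, (ENNReal.ofReal (E / A / 2) * ENNReal.ofReal ((l / α) ^ G (zC ξ) m n)
          + ENNReal.ofReal (A / E / 2) * ENNReal.ofReal ((α / l) ^ G ξ m n)) ∂Ps q l (q / α) := by
        refine lintegral_mono fun ξ => ?_
        by_cases hξ : ξ ∈ ExH m n
        · rw [Set.indicator_of_mem hξ, G_of_exH hξ, ← ENNReal.ofReal_mul (by positivity),
            ← ENNReal.ofReal_mul (by positivity), ← ENNReal.ofReal_add (by positivity)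
            (by positivity), Pi.one_apply, ← ENNReal.ofReal_one]
          refine ENNReal.ofReal_le_ofReal ?_
          set x := E / A * (l / α) ^ G (zC ξ) m n with hx
          have hx0 : 0 < x := by positivity
          have : A / E / 2 * (α / l) ^ G (zC ξ) m n = x⁻¹ / 2 := by
            rw [hx, div_pow, div_pow]; field_simp
          rw [this]
          have h2 : E / A / 2 * (l / α) ^ G (zC ξ) m n = x / 2 := by rw [hx]; ring
          rw [h2]
          have h3 : x * x⁻¹ = 1 := mul_inv_cancel₀ hx0.ne'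
          have h4 : 0 < x⁻¹ := by positivity
          nlinarith [sq_nonneg (x - x⁻¹), sq_nonneg (x + x⁻¹ - 2)]
        · rw [Set.indicator_of_notMem hξ]; exact zero_le
    _ ≤ ENNReal.ofReal (E / A / 2) * ENNReal.ofReal A
          + ENNReal.ofReal (A / E / 2) * ENNReal.ofReal B := by
        rw [lintegral_add_left (mH.const_mul _), lintegral_const_mul _ mH,
          lintegral_const_mul _ (measurable_pow_nat _ (measurable_G m n)), jB]
        gcongr
    _ ≤ _ := by
        rw [← ENNReal.ofReal_mul (by positivity), ← ENNReal.ofReal_mul (by positivity),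
          ← ENNReal.ofReal_add (by positivity) (by positivity)]
        refine ENNReal.ofReal_le_ofReal ?_
        have h1 : E / A / 2 * A = E / 2 := by field_simp
        have h2 : A / E / 2 * B ≤ E / 2 := by
          rw [show A / E / 2 * B = (A * B) / E / 2 by ring]
          refine div_le_div_of_nonneg_right ?_ (by norm_num)
          rw [div_le_iff₀ hE0, ← sq]; exact hr
        linarith

/-- Admissible range of the tilt. -/
noncomputable def d0 (r : ℝ) : ℝ := r * (1 - r) ^ 2 / 100

/-- Slope constant. -/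
noncomputable def C3 (r : ℝ) : ℝ := 42 / (r * (1 - r))

section spec

variable {r d : ℝ} (hr0 : 0 < r) (hr1 : r < 1) (hd : 0 < d) (hd0 : d ≤ d0 r)
include hr0 hr1 hd hd0

omit hd in
lemma d0_facts : 100 * d ≤ r * (1 - r) ^ 2 ∧ 100 * d ≤ r * (1 - r) ∧ 100 * d ≤ r
    ∧ 100 * d ≤ 1 - r := by
  have h1 : 100 * d ≤ r * (1 - r) ^ 2 := by unfold d0 at hd0; linarith
  have h2 : r * (1 - r) ^ 2 ≤ r * (1 - r) := mul_le_mul_of_nonneg_left (by nlinarith) hr0.le
  refine ⟨h1, by linarith, by nlinarith, by nlinarith⟩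

theorem exitH1 {m n : ℕ} (hmn : (m : ℝ) ≤ n * (1 + 2 * d)) :
    Ps (r ^ 2) (r - 3 * d) (r ^ 2 / (r - 3 * d)) (ExH m n)
      ≤ ENNReal.ofReal (Real.exp (-(r ^ 2 * n * d ^ 3 / 8))) := by
  obtain ⟨f1, f2, f3, f4⟩ := d0_facts hr0 hr1 hd0
  refine exitH (by positivity) (by nlinarith) hd (by linarith) ?_ ?_
  · have : (1 - r) ^ 2 ≤ (1 - (r - 3 * d + d)) ^ 2 := by nlinarith
    have h2 : r / 2 * (1 - r) ^ 2 ≤ (r - 3 * d) * (1 - (r - 3 * d + d)) ^ 2 :=
      mul_le_mul (by linarith) this (by positivity) (by linarith)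
    linarith
  · have h1 : (r - 3 * d + d - r ^ 2) ^ 2 ≤ (r * (1 - r)) ^ 2 :=
      pow_le_pow_left₀ (by nlinarith) (by nlinarith) 2
    have h2 : ((1 - r) * (1 + 2 * d)) ^ 2 ≤ (1 - (r - 3 * d + d)) ^ 2 :=
      pow_le_pow_left₀ (by nlinarith) (by nlinarith) 2
    calc (m : ℝ) * (r - 3 * d + d - r ^ 2) ^ 2 * (1 + d)
        ≤ (n * (1 + 2 * d)) * (r * (1 - r)) ^ 2 * (1 + 2 * d) := by gcongr; linarith
      _ = n * r ^ 2 * ((1 - r) * (1 + 2 * d)) ^ 2 := by ring
      _ ≤ _ := by gcongr

lemma beta_facts : r ≤ r ^ 2 / (r - 3 * d) ∧ r ^ 2 / (r - 3 * d) ≤ r + 6 * d := by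
  obtain ⟨f1, f2, f3, f4⟩ := d0_facts hr0 hr1 hd0
  have : 0 < r - 3 * d := by linarith
  constructor
  · rw [le_div_iff₀ this]; nlinarith
  · rw [div_le_iff₀ this]; nlinarith

theorem exitV1 {m n : ℕ} (hmn : (n : ℝ) ≤ m * (1 - C3 r * d)) :
    Ps (r ^ 2) (r - 3 * d) (r ^ 2 / (r - 3 * d)) (ExV m n)
      ≤ ENNReal.ofReal (Real.exp (-(r ^ 2 * m * d ^ 3 / 8))) := by
  obtain ⟨f1, f2, f3, f4⟩ := d0_facts hr0 hr1 hd0
  obtain ⟨g1, g2⟩ := beta_facts hr0 hr1 hd hd0
  set β := r ^ 2 / (r - 3 * d) with hβ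
  have h3 : 0 < r - 3 * d := by linarith
  have e : r - 3 * d = r ^ 2 / β := by rw [hβ]; field_simp
  have hx := (mp_trs (r ^ 2) (r - 3 * d) β).measure_preimage
    (measurableSet_ExH n m).nullMeasurableSet
  have e2 : tr ⁻¹' ExH n m = ExV m n := by
    ext ξ; simp only [Set.mem_preimage, ExH, ExV, Set.mem_ofPred_eq, tr_zC, tr_zR, G_tr]
  rw [← e2, hx, e]
  have h1r : 0 < 1 - r := by linarith
  refine exitH (by positivity) (by nlinarith) hd (by linarith) ?_ ?_
  · have : ((1 - r) / 2) ^ 2 ≤ (1 - (β + d)) ^ 2 := pow_le_pow_left₀ (by positivity) (by linarith) 2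
    have h2 : r * ((1 - r) / 2) ^ 2 ≤ β * (1 - (β + d)) ^ 2 :=
      mul_le_mul g1 this (by positivity) (by linarith)
    nlinarith
  · set x := 7 * d / (r * (1 - r)) with hx'
    have hx0 : 0 ≤ x := by positivity
    have hxd : x * (r * (1 - r)) = 7 * d := by rw [hx']; field_simp
    have hC : C3 r * d = 6 * x := by rw [hx', C3]; field_simp; norm_num
    have hdx : d ≤ x := by
      have : r * (1 - r) ≤ 1 := by nlinarith
      nlinarith
    have hx1 : x ≤ 1 := by
      rw [hx', div_le_one (by positivity)]; linarith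
    have h1 : (β + d - r ^ 2) ^ 2 ≤ (r * (1 - r) * (1 + x)) ^ 2 :=
      pow_le_pow_left₀ (by nlinarith) (by nlinarith) 2
    have h2 : ((1 - r) * (1 - x)) ^ 2 ≤ (1 - (β + d)) ^ 2 := by
      refine pow_le_pow_left₀ (by nlinarith) ?_ 2
      have : 7 * d ≤ x * (1 - r) := by nlinarith
      nlinarith
    have h4 : (1 - 6 * x) * (1 + x) ^ 3 ≤ (1 - x) ^ 2 := by
      have : 0 ≤ x ^ 2 := by positivity
      have : 0 ≤ x ^ 3 := by positivity
      have : 0 ≤ x ^ 4 := by positivity
      nlinarith
    rw [hC] at hmn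
    calc (n : ℝ) * (β + d - r ^ 2) ^ 2 * (1 + d)
        ≤ n * (r * (1 - r) * (1 + x)) ^ 2 * (1 + x) := by gcongr
      _ ≤ (m * (1 - 6 * x)) * (r * (1 - r) * (1 + x)) ^ 2 * (1 + x) := by gcongr
      _ = m * r ^ 2 * (1 - r) ^ 2 * ((1 - 6 * x) * (1 + x) ^ 3) := by ring
      _ ≤ m * r ^ 2 * (1 - r) ^ 2 * (1 - x) ^ 2 := by gcongr
      _ = m * r ^ 2 * ((1 - r) * (1 - x)) ^ 2 := by ring
      _ ≤ _ := by gcongr

end spec

end Pool.Agent.HideZero
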