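import Pool.Agent.Lib.MP_9debf8_pr.Bridge

set_option autoImplicit false

/-! Conditional expectation given the hidden values. -/

open Finset MeasureTheory MeasureTheory.Measure ProbabilityTheory
open scoped ENNReal

namespace Pool.Agent.HideZero

lemma condExp_cut {q : ℝ} (h0 : 0 ≤ q) (h1 : q ≤ 1) {Ω : Type} {F G₀ : MeasurableSpace Ω}
    [mΩ : MeasurableSpace Ω] {μ : Measure Ω} [IsProbabilityMeasure μ] {Z : Ω → PF}
    (hZ : MeasurePreserving Z μ (QQ q)) (hF : F ≤ mΩ) (hG : G₀ ≤ mΩ) (hind : Indep G₀ F μ)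
    (hB : ∀ v, Measurable[G₀] fun ω => (Z ω v).1) (hY : ∀ v, Measurable[F] fun ω => (Z ω v).2)
    (B : Finset (ℕ × ℕ)) (K : ℕ) (f : (B → Bool × Fin (K + 1)) → ℝ) :
    μ[fun ω => f (cut B K (Z ω)) | F] =ᵐ[μ] fun ω => PP q f (cut B K (Z ω)) := by
  let I : (B → Bool) → Ω → ℝ := fun b ω => ∏ i : B, if (Z ω i).1 = b i then 1 else 0
  let φ : (B → Bool) → Ω → ℝ := fun b ω => f fun i => (b i, trunc K (Z ω i).2)
  have mI : ∀ b, Measurable[G₀] (I b) := fun b =>
    (measurable_of_countable fun c : B → Bool => ∏ i : B, if c i = b i then (1 : ℝ) else 0).comp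
      (@measurable_pi_lambda _ _ _ G₀ _ _ fun i => hB i)
  have mφ : ∀ b, Measurable[F] (φ b) := fun b =>
    (measurable_of_countable fun c : B → ℕ => f fun i => (b i, trunc K (c i))).comp
      (@measurable_pi_lambda _ _ _ F _ _ fun i => hY i)
  have hint : ∀ g : (B → Bool × Fin (K + 1)) → ℝ,
      Integrable (fun ω => g (cut B K (Z ω))) μ := by
    intro g
    have hm : Measurable fun ω => cut B K (Z ω) := (measurable_cut B K).comp hZ.measurable
    exact (integrable_map_measure (measurable_of_countable g).aestronglyMeasurable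
      hm.aemeasurable).1 .of_finite
  have iI : ∀ b, Integrable (I b) μ := fun b =>
    hint fun y => ∏ i : B, if (y i).1 = b i then 1 else 0
  have iIφ : ∀ b, Integrable (I b * φ b) μ := fun b =>
    hint fun y => (∏ i : B, if (y i).1 = b i then 1 else 0) * f fun i => (b i, (y i).2)
  have eI : ∀ b, ∫ ω, I b ω ∂μ = ∏ i, bw q (b i) := by
    intro b
    have := mp_integral hZ (f := fun Z => (fun y : B → Bool × Fin (K + 1) =>
      ∏ i : B, if (y i).1 = b i then (1 : ℝ) else 0) (cut B K Z))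
      ((measurable_of_countable fun y : B → Bool × Fin (K + 1) =>
        ∏ i : B, if (y i).1 = b i then (1 : ℝ) else 0).comp (measurable_cut B K))
    refine this.trans ?_
    rw [bridge h0 h1 B K (fun y => ∏ i : B, if (y i).1 = b i then (1 : ℝ) else 0)]
    simp only [← prod_mul_distrib]
    rw [← Fintype.piFinset_univ, ← Finset.prod_univ_sum (fun _ => univ)
      (fun i (a : Bool × Fin (K + 1)) =>
        (Wprod h0 h1 (W2 q K)).w a * if a.1 = b i then (1 : ℝ) else 0)]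
    refine prod_congr rfl fun i _ => ?_
    rw [Fintype.sum_prod_type]
    cases b i <;> simp [Wprod, ← mul_sum, Wt.sum_one]
  have e : (fun ω => f (cut B K (Z ω))) = ∑ b, I b * φ b := by
    funext ω
    rw [Finset.sum_apply, sum_eq_single (fun i : B => (Z ω i).1)]
    · simp [I, φ]; rfl
    · intro b _ hb
      obtain ⟨i, hi⟩ := Function.ne_iff.1 hb
      simp only [Pi.mul_apply, I]
      rw [prod_eq_zero (mem_univ i) (if_neg (Ne.symm hi)), zero_mul]
    · simp
  rw [e]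
  refine (condExp_finsetSum (fun b _ => iIφ b) F).trans ?_
  have hb : ∀ b, μ[I b * φ b | F] =ᵐ[μ] fun ω => (∏ i, bw q (b i)) * φ b ω := by
    intro b
    filter_upwards [condExp_mul_of_stronglyMeasurable_right (mφ b).stronglyMeasurable (iIφ b)
      (iI b), condExp_indep_eq hG hF (mI b).stronglyMeasurable hind] with ω h2 h3
    rw [h2, Pi.mul_apply, h3, eI]
  filter_upwards [ae_all_iff.2 hb] with ω hω
  rw [Finset.sum_apply, PP_apply]
  exact sum_congr rfl fun b _ => hω b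

/-- The average of the capped passage times over antidiagonal shifts. -/
noncomputable def gbar (n m K : ℕ) (ξ : Fld) : ℝ :=
  (∑ j ∈ range m, (Lp (sh (j, m - j) (cap K ξ)) n n : ℝ)) / m

lemma fbar_cut (n m K : ℕ) (Z : PF) : fbar n m K (cut _ K Z) = gbar n m (K + 1) (wf Z) := by
  unfold fbar gbar
  congr 1
  refine sum_congr rfl fun j hj => ?_
  have := mem_range.1 hj
  congr 1
  exact Lp_congr_box fun a ha c hc =>
    ext_cut Z (mem_box.2 ⟨by simp only; omega, by simp only; omega⟩)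

lemma measurable_cap (K : ℕ) : Measurable (cap K) :=
  measurable_pi_lambda _ fun v => (measurable_pi_apply v).min measurable_const

lemma cap_err {r : ℝ} (hr0 : 0 < r) (hr1 : r < 1) {n K N : ℕ} (hN : (n + 1) * (n + 1) ≤ N)
    {lam : ℝ} (hl : 0 < lam) (herr : lam * (N * (r ^ 2) ^ K) + Mo r N / lam ≤ 1) :
    Integrable (fun ξ => ((Lp ξ n n : ℝ) - Lp (cap K ξ) n n) ^ 2) (Pq (r ^ 2)) ∧
    ∫ ξ, ((Lp ξ n n : ℝ) - Lp (cap K ξ) n n) ^ 2 ∂Pq (r ^ 2) ≤ 1 := by
  obtain ⟨x1, x2, -, x4⟩ := Lp_facts hr0 hr1 hN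
  have mX := measurable_cast (measurable_Lp n n)
  have mY := measurable_cast ((measurable_Lp n n).comp (measurable_cap K))
  have hB := measurableSet_Big (box n n) K
  have hpt : ∀ ξ, ((Lp ξ n n : ℝ) - Lp (cap K ξ) n n) ^ 2
      ≤ (Big (box n n) K).indicator (fun ξ => (Lp ξ n n : ℝ) ^ 2) ξ := by
    intro ξ
    by_cases hξ : ξ ∈ Big (box n n) K
    · rw [Set.indicator_of_mem hξ]
      have h1 : Lp (cap K ξ) n n ≤ Lp ξ n n := Lp_mono_box fun _ _ _ _ => min_le_left _ _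
      have h2 : (Lp (cap K ξ) n n : ℝ) ≤ Lp ξ n n := by exact_mod_cast h1
      exact pow_le_pow_left₀ (by linarith) (by linarith [Nat.cast_nonneg (α := ℝ) (Lp (cap K ξ) n n)]) 2
    · rw [Set.indicator_of_notMem hξ]
      simp only [Big, Set.mem_iUnion, Set.mem_ofPred_eq, not_exists, not_le] at hξ
      have : Lp (cap K ξ) n n = Lp ξ n n :=
        Lp_congr_box fun a ha c hc => min_eq_left (hξ _ (mem_box.2 ⟨ha, hc⟩)).le
      simp [this]
  have hi : Integrable (fun ξ => ((Lp ξ n n : ℝ) - Lp (cap K ξ) n n) ^ 2) (Pq (r ^ 2)) := by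
    refine (x1.indicator hB).mono' ((mX.sub mY).pow_const 2).aestronglyMeasurable
      (ae_of_all _ fun ξ => ?_)
    rw [Real.norm_of_nonneg (sq_nonneg _)]; exact hpt ξ
  refine ⟨hi, (integral_mono hi (x1.indicator hB) hpt).trans ?_⟩
  refine (bad_le hB (mX.pow_const 2) x2 hl).trans (le_trans ?_ herr)
  have hb := big_le (q := r ^ 2) (by positivity) (by nlinarith) (box n n) K
  rw [card_box] at hb
  have hN' : (((n + 1) * (n + 1) : ℕ) : ℝ) ≤ N := by exact_mod_cast hN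
  have : (Pq (r ^ 2)).real (Big (box n n) K) ≤ N * (r ^ 2) ^ K := hb.trans (by gcongr)
  gcongr

lemma approx {r : ℝ} (hr0 : 0 < r) (hr1 : r < 1) {n m K N : ℕ} (hm : 0 < m)
    (hN : (n + 1) * (n + 1) ≤ N) {lam : ℝ} (hl : 0 < lam)
    (herr : lam * (N * (r ^ 2) ^ K) + Mo r N / lam ≤ 1) {R : ℝ}
    (hR : ∀ j < m, ∫ ξ, Dk n j ξ ^ 2 ∂Pq (r ^ 2) ≤ R) :
    Integrable (fun ξ => ((Lp (sh (0, m) ξ) n n : ℝ) - gbar n m K ξ) ^ 2) (Pq (r ^ 2)) ∧
    ∫ ξ, ((Lp (sh (0, m) ξ) n n : ℝ) - gbar n m K ξ) ^ 2 ∂Pq (r ^ 2) ≤ 8 * R + 2 := by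
  obtain ⟨c1, c2⟩ := cap_err hr0 hr1 hN hl herr
  have mX : ∀ z, Measurable fun ξ => (Lp (sh z ξ) n n : ℝ) := fun z =>
    measurable_cast ((measurable_Lp n n).comp (measurable_sh z))
  have mY : ∀ z, Measurable fun ξ => (Lp (sh z (cap K ξ)) n n : ℝ) := fun z =>
    (mX z).comp (measurable_cap K)
  have hj : ∀ j ∈ range m, Integrable (fun ξ => ((Lp (sh (0, m) ξ) n n : ℝ)
      - Lp (sh (j, m - j) (cap K ξ)) n n) ^ 2) (Pq (r ^ 2)) ∧
      ∫ ξ, ((Lp (sh (0, m) ξ) n n : ℝ) - Lp (sh (j, m - j) (cap K ξ)) n n) ^ 2 ∂Pq (r ^ 2)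
        ≤ 8 * R + 2 := by
    intro j hj
    obtain ⟨s1, s2⟩ := shift_sq hr0 hr1 n (mem_range.1 hj).le
    have hsh := mp_sh (r ^ 2) (j, m - j)
    have := sq_add_le ((mX (0, m)).sub (mX (j, m - j))).aestronglyMeasurable
      ((mX (j, m - j)).sub (mY (j, m - j))).aestronglyMeasurable s1
      (hsh.integrable_comp_of_integrable c1)
    have e := mp_integral hsh (f := fun ξ => ((Lp ξ n n : ℝ) - Lp (cap K ξ) n n) ^ 2)
      (((measurable_cast (measurable_Lp n n)).sub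
        (measurable_cast ((measurable_Lp n n).comp (measurable_cap K)))).pow_const 2)
    simp only [Pi.sub_apply, sub_add_sub_cancel] at this
    refine ⟨this.1, this.2.trans ?_⟩
    have e2 : ∫ ξ, ((Lp (sh (j, m - j) ξ) n n : ℝ) - Lp (sh (j, m - j) (cap K ξ)) n n) ^ 2
        ∂Pq (r ^ 2) ≤ 1 := le_trans (le_of_eq e) c2
    linarith [hR j (mem_range.1 hj)]
  have hpt : ∀ ξ, ((Lp (sh (0, m) ξ) n n : ℝ) - gbar n m K ξ) ^ 2
      ≤ (∑ j ∈ range m, ((Lp (sh (0, m) ξ) n n : ℝ) - Lp (sh (j, m - j) (cap K ξ)) n n) ^ 2) / m := by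
    intro ξ
    have := sq_sum_le_card_mul_sum_sq (s := range m)
      (f := fun j => (Lp (sh (0, m) ξ) n n : ℝ) - Lp (sh (j, m - j) (cap K ξ)) n n)
    rw [card_range, sum_sub_distrib, sum_const, card_range, nsmul_eq_mul] at this
    have hm' : (0 : ℝ) < m := by positivity
    rw [gbar, le_div_iff₀ hm']
    refine le_of_mul_le_mul_left (le_trans (le_of_eq ?_) this) hm'
    field_simp
  have hs := (integrable_finsetSum _ fun j h => (hj j h).1).div_const (m : ℝ)
  have mg : Measurable (gbar n m K) := (Finset.measurable_sum _ fun j _ => mY _).div_const _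
  have hi : Integrable (fun ξ => ((Lp (sh (0, m) ξ) n n : ℝ) - gbar n m K ξ) ^ 2) (Pq (r ^ 2)) := by
    refine hs.mono' (((mX _).sub mg).pow_const 2).aestronglyMeasurable (ae_of_all _ fun ξ => ?_)
    rw [Real.norm_of_nonneg (sq_nonneg _)]; exact hpt ξ
  refine ⟨hi, (integral_mono hi hs hpt).trans ?_⟩
  rw [integral_div, integral_finsetSum _ fun j h => (hj j h).1, div_le_iff₀ (by positivity)]
  refine (sum_le_card_nsmul _ _ _ fun j h => (hj j h).2).trans ?_
  rw [card_range, nsmul_eq_mul, mul_comm]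

lemma variance_le_sub {Ω : Type} [MeasurableSpace Ω] {μ : Measure Ω} [IsProbabilityMeasure μ]
    {X : Ω → ℝ} (hX : AEStronglyMeasurable X μ) (c : ℝ) :
    variance X μ ≤ ∫ ω, (X ω - c) ^ 2 ∂μ := by
  rw [← variance_sub_const hX c]
  exact variance_le_expectation_sq (hX.sub aestronglyMeasurable_const)

/-- The conditional variance bound with all parameters explicit. -/
theorem cond_small {r : ℝ} (hr0 : 0 < r) (hr1 : r < 1) {ε : ℝ} (hε : 0 < ε) :
    ∃ η : ℝ, 0 < η ∧ ∀ (n m K s L w : ℕ) (lam γ₀ θ η₀ : ℝ), 0 < m → 0 < θ →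
      TubeData r n (3 * ((K + 1) * s)) L w lam γ₀ → 0 ≤ γ₀ → 1 ≤ θ ^ 6 * 2 ^ s →
      ((n + m + 1) * (n + m + 1) : ℕ) * (r ^ 2) ^ (K + 1) + γ₀
        + 2 * lam * (2 * L + w + 1) / m ≤ θ ^ 6 →
      Integrable (fun ξ => ((Lp (sh (0, m) ξ) n n : ℝ) - gbar n m (K + 1) ξ) ^ 2) (Pq (r ^ 2)) →
      ∫ ξ, ((Lp (sh (0, m) ξ) n n : ℝ) - gbar n m (K + 1) ξ) ^ 2 ∂Pq (r ^ 2) ≤ η₀ →
      4 * (K + 1) * θ ^ 4 * (2 * ((K + 1) * (n + n + 1)))
        ≤ η * variance (fun ξ => (Lp ξ n n : ℝ)) (Pq (r ^ 2)) →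
      ∀ (Ω : Type) (F G₀ : MeasurableSpace Ω) [mΩ : MeasurableSpace Ω] (μ : Measure Ω)
        [IsProbabilityMeasure μ] (Z : Ω → PF), MeasurePreserving Z μ (QQ (r ^ 2)) →
        F ≤ mΩ → G₀ ≤ mΩ → Indep G₀ F μ → (∀ v, Measurable[G₀] fun ω => (Z ω v).1) →
        (∀ v, Measurable[F] fun ω => (Z ω v).2) →
        variance (μ[fun ω => (Lp (sh (0, m) (wf (Z ω))) n n : ℝ) | F]) μ
          ≤ 2 * η₀ + 4 * ε * (variance (fun ξ => (Lp ξ n n : ℝ)) (Pq (r ^ 2)) + η₀) := by
  have h0 : 0 ≤ r ^ 2 := by positivity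
  have h1 : r ^ 2 < 1 := by nlinarith
  obtain ⟨η, hη, hmain⟩ := hide_main h0 h1 hε
  refine ⟨η, hη, ?_⟩
  intro n m K s L w lam γ₀ θ η₀ hm hθ H hγ0 hθ1 hθ2 hi hη₀ hsum Ω F G₀ mΩ μ _ Z hZ hF hG hind hB hY
  set V := variance (fun ξ => (Lp ξ n n : ℝ)) (Pq (r ^ 2)) with hV
  have hV0 : 0 ≤ V := variance_nonneg _ _
  have hη₀0 : 0 ≤ η₀ := (integral_nonneg fun _ => sq_nonneg _).trans hη₀
  set c := ∫ ξ, (Lp ξ n n : ℝ) ∂Pq (r ^ 2) with hc
  obtain ⟨x1, -, -, -⟩ := Lp_facts hr0 hr1 (m := n) (n := n) le_rfl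
  have mX := measurable_cast (measurable_Lp n n)
  have hsh := mp_sh (r ^ 2) (0, m)
  have hwf := mp_wf h0 h1
  have mT : Measurable fun ξ => (Lp (sh (0, m) ξ) n n : ℝ) := mX.comp hsh.measurable
  have mg : Measurable (gbar n m (K + 1)) := (Finset.measurable_sum _ fun j _ =>
    (mX.comp (measurable_sh _)).comp (measurable_cap _)).div_const _
  let x₀ : box (n + m) (n + m) → Bool × Fin (K + 1) := fun _ => (false, 0)
  have hA : EE (Wprod h0 h1.le (W2 (r ^ 2) K)) univ (fun y => (fbar n m K y - c) ^ 2) x₀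
      ≤ 2 * V + 2 * η₀ := by
    rw [EE_univ_bridge]
    simp only [fbar_cut]
    rw [mp_integral hwf (f := fun ξ => (gbar n m (K + 1) ξ - c) ^ 2) ((mg.sub_const c).pow_const 2)]
    have := (sq_add_le (f := fun ξ => (Lp (sh (0, m) ξ) n n : ℝ) - c)
      (g := fun ξ => -((Lp (sh (0, m) ξ) n n : ℝ) - gbar n m (K + 1) ξ))
      (mT.sub_const c).aestronglyMeasurable (mT.sub mg).neg.aestronglyMeasurable
      (hsh.integrable_comp_of_integrable (integrable_sq_sub mX x1 c))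
      (by simpa only [neg_sq] using hi)).2
    simp only [neg_sq] at this
    rw [mp_integral hsh (f := fun ξ => ((Lp ξ n n : ℝ) - c) ^ 2) ((mX.sub_const c).pow_const 2),
      ← variance_eq_integral mX.aemeasurable] at this
    have e : ∀ ξ, (Lp (sh (0, m) ξ) n n : ℝ) - c + -((Lp (sh (0, m) ξ) n n : ℝ) - gbar n m (K + 1) ξ)
        = gbar n m (K + 1) ξ - c := fun ξ => by ring
    simp only [e] at this
    linarith
  have hm2 := hmain _ _ (W2 (r ^ 2) K) (fbar n m K) (K + 1) θ (2 * V + 2 * η₀) c x₀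
    (by positivity) hθ fbar_Wm (abs_LL_fbar h0 h1.le hm)
    (fbar_global hr0 hr1 h0 h1.le hm H hγ0 hθ1 hθ2) hA (by
      have := total_influence h0 h1.le (n := n) (K := K) hm x₀
      calc _ ≤ 4 * (K + 1) * θ ^ 4 * (2 * ((K + 1) * (n + n + 1))) := by gcongr
        _ ≤ η * V := hsum
        _ ≤ _ := by gcongr; linarith)
  set c₀ := EE (Wprod h0 h1.le (W2 (r ^ 2) K)) univ (fbar n m K) x₀
  rw [EE_univ_bridge] at hm2
  have mP : Measurable fun Z => PP (r ^ 2) (fbar n m K) (cut _ K Z) :=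
    (measurable_of_countable _).comp (measurable_cut _ K)
  rw [← mp_integral hZ (f := fun Z => (PP (r ^ 2) (fbar n m K) (cut _ K Z) - c₀) ^ 2)
    ((mP.sub_const c₀).pow_const 2)] at hm2
  have hce := condExp_cut h0 h1.le hZ hF hG hind hB hY _ K (fbar n m K)
  have hW := hwf.comp hZ
  let T : Ω → ℝ := fun ω => (Lp (sh (0, m) (wf (Z ω))) n n : ℝ)
  let g : Ω → ℝ := fun ω => fbar n m K (cut _ K (Z ω))
  have eg : g = fun ω => gbar n m (K + 1) (wf (Z ω)) := by funext ω; exact fbar_cut ..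
  have hD : MemLp (T - g) 2 μ := by
    rw [eg]
    exact (memLp_two_iff_integrable_sq ((mT.sub mg).comp hW.measurable).aestronglyMeasurable).2
      (hW.integrable_comp_of_integrable hi)
  have hT : MemLp T 2 μ :=
    (memLp_two_iff_integrable_sq (mT.comp hW.measurable).aestronglyMeasurable).2
      ((hsh.comp hW).integrable_comp_of_integrable x1)
  have hg : MemLp g 2 μ := by
    have := hT.sub hD
    rwa [sub_sub_cancel] at this
  have hDv : variance (μ[T - g | F]) μ ≤ η₀ := by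
    have h2 := integral_condVar_add_variance_condExp hF hD
    have h3 : 0 ≤ μ[Var[T - g; μ | F]] :=
      integral_nonneg_of_ae (condExp_nonneg (ae_of_all _ fun _ => sq_nonneg _))
    have h4 := variance_le_expectation_sq hD.1
    have h5 : ∫ ω, ((T - g) ^ 2) ω ∂μ ≤ η₀ := by
      rw [eg]
      exact le_trans (le_of_eq (mp_integral hW ((mT.sub mg).pow_const 2))) hη₀
    linarith
  have hsplit : μ[T | F] =ᵐ[μ] fun ω => (μ[T - g | F]) ω + (μ[g | F]) ω := by
    have := condExp_add (hD.integrable one_le_two) (hg.integrable one_le_two) F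
    rwa [sub_add_cancel] at this
  have hA2 := hD.condExp (m := F) one_le_two
  have hB2 := hg.condExp (m := F) one_le_two
  set a := ∫ ω, (μ[T - g | F]) ω ∂μ
  have h6 := (sq_add_le (f := fun ω => (μ[T - g | F]) ω - a) (g := fun ω => (μ[g | F]) ω - c₀)
    (hA2.1.sub aestronglyMeasurable_const) (hB2.1.sub aestronglyMeasurable_const)
    (hA2.sub (memLp_const a)).integrable_sq (hB2.sub (memLp_const c₀)).integrable_sq).2
  rw [← variance_eq_integral hA2.1.aemeasurable] at h6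
  have h7 : ∫ ω, ((μ[g | F]) ω - c₀) ^ 2 ∂μ ≤ ε * (2 * V + 2 * η₀) := by
    refine le_trans (le_of_eq (integral_congr_ae ?_)) hm2
    filter_upwards [hce] with ω hω
    rw [← hω]
  have h8 := variance_le_sub (X := fun ω => (μ[T - g | F]) ω + (μ[g | F]) ω)
    (hA2.1.add hB2.1) (a + c₀)
  have e : ∀ ω, (μ[T - g | F]) ω + (μ[g | F]) ω - (a + c₀)
      = (μ[T - g | F]) ω - a + ((μ[g | F]) ω - c₀) := fun ω => by ring
  simp only [e] at h8
  rw [variance_congr hsplit]
  linarith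

end Pool.Agent.HideZero
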