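import Mathlib

set_option autoImplicit false

/-! Deterministic last-passage percolation on the quadrant. -/

open Finset

namespace Pool.Agent.HideZero

/-- Weight fields on the quadrant. -/
abbrev Fld := ℕ × ℕ → ℕ

/-- Last-passage value from the origin, the weight of the origin not counted. -/
def G (ξ : Fld) : ℕ → ℕ → ℕ
  | 0, 0 => 0
  | i + 1, 0 => G ξ i 0 + ξ (i + 1, 0)
  | 0, j + 1 => G ξ 0 j + ξ (0, j + 1)
  | i + 1, j + 1 => max (G ξ i (j + 1)) (G ξ (i + 1) j) + ξ (i + 1, j + 1)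

/-- Last-passage value from the origin. -/
def Lp (ξ : Fld) (m n : ℕ) : ℕ := ξ (0, 0) + G ξ m n

lemma G_00 (ξ : Fld) : G ξ 0 0 = 0 := by rw [G]
lemma G_s0 (ξ : Fld) (i : ℕ) : G ξ (i + 1) 0 = G ξ i 0 + ξ (i + 1, 0) := by rw [G]
lemma G_0s (ξ : Fld) (j : ℕ) : G ξ 0 (j + 1) = G ξ 0 j + ξ (0, j + 1) := by rw [G]
lemma G_ss (ξ : Fld) (i j : ℕ) :
    G ξ (i + 1) (j + 1) = max (G ξ i (j + 1)) (G ξ (i + 1) j) + ξ (i + 1, j + 1) := by rw [G]

lemma G_right (ξ : Fld) (i j : ℕ) : G ξ i j + ξ (i + 1, j) ≤ G ξ (i + 1) j := by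
  cases j with
  | zero => rw [G_s0]
  | succ j => rw [G_ss]; omega

lemma G_up (ξ : Fld) (i j : ℕ) : G ξ i j + ξ (i, j + 1) ≤ G ξ i (j + 1) := by
  cases i with
  | zero => rw [G_0s]
  | succ i => rw [G_ss]; omega

lemma rec_le {F F' : ℕ → ℕ → ℕ} {w : ℕ → ℕ → ℕ}
    (hF : ∀ i j, F (i + 1) (j + 1) ≤ max (F i (j + 1)) (F (i + 1) j) + w i j)
    (hF' : ∀ i j, max (F' i (j + 1)) (F' (i + 1) j) + w i j ≤ F' (i + 1) (j + 1))
    (hr : ∀ i, F i 0 ≤ F' i 0) (hc : ∀ j, F 0 j ≤ F' 0 j) (i j : ℕ) : F i j ≤ F' i j := by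
  induction i generalizing j with
  | zero => exact hc j
  | succ i ihi =>
    induction j with
    | zero => exact hr _
    | succ j ihj =>
      have := hF i j
      have := hF' i j
      have := ihi (j + 1)
      omega

/-- Shift of the field. -/
def sh (b : ℕ × ℕ) (ξ : Fld) : Fld := fun u => ξ (b.1 + u.1, b.2 + u.2)

/-- Transposed field. -/
def tr (ξ : Fld) : Fld := fun u => ξ (u.2, u.1)

/-- The field with its first column set to zero. -/
def zC (ξ : Fld) : Fld := fun u => if u.1 = 0 then 0 else ξ u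

/-- The field with its first row set to zero. -/
def zR (ξ : Fld) : Fld := fun u => if u.2 = 0 then 0 else ξ u

lemma sh_zero (ξ : Fld) : sh (0, 0) ξ = ξ := by funext u; simp [sh]

lemma sh_sh (b b' : ℕ × ℕ) (ξ : Fld) : sh b (sh b' ξ) = sh (b'.1 + b.1, b'.2 + b.2) ξ := by
  funext u; simp [sh, add_assoc]

lemma G_tr (ξ : Fld) (i j : ℕ) : G (tr ξ) i j = G ξ j i := by
  induction i generalizing j with
  | zero =>
    induction j with
    | zero => simp [G_00]
    | succ j ih => rw [G_0s, G_s0, ih]; rfl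
  | succ i ihi =>
    induction j with
    | zero => rw [G_0s, G_s0, ihi]; rfl
    | succ j ihj => rw [G_ss, G_ss, ihi, ihj, max_comm]; rfl

lemma Lp_tr (ξ : Fld) (i j : ℕ) : Lp (tr ξ) i j = Lp ξ j i := by
  rw [Lp, Lp, G_tr]; rfl

lemma tr_zC (ξ : Fld) : zC (tr ξ) = tr (zR ξ) := rfl
lemma tr_zR (ξ : Fld) : zR (tr ξ) = tr (zC ξ) := rfl
lemma tr_tr (ξ : Fld) : tr (tr ξ) = ξ := rfl
lemma sh_tr (x y : ℕ) (ξ : Fld) : sh (x, y) (tr ξ) = tr (sh (y, x) ξ) := rfl

/-! ### Paths -/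

/-- Position after `k` steps. -/
def pos (σ : ℕ → Bool) : ℕ → ℕ × ℕ
  | 0 => (0, 0)
  | k + 1 => if σ k then ((pos σ k).1 + 1, (pos σ k).2) else ((pos σ k).1, (pos σ k).2 + 1)

/-- Weight collected in the first `N` steps. -/
def val (ξ : Fld) (σ : ℕ → Bool) (N : ℕ) : ℕ := ∑ k ∈ range N, ξ (pos σ (k + 1))

lemma pos_sum (σ : ℕ → Bool) (k : ℕ) : (pos σ k).1 + (pos σ k).2 = k := by
  induction k with
  | zero => rfl
  | succ k ih => rw [pos]; split_ifs <;> simp only <;> omega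

lemma pos_add (σ : ℕ → Bool) (k l : ℕ) :
    pos σ (k + l) = ((pos σ k).1 + (pos (fun i => σ (k + i)) l).1,
      (pos σ k).2 + (pos (fun i => σ (k + i)) l).2) := by
  induction l with
  | zero => simp [pos]
  | succ l ih =>
    rw [← add_assoc, pos, pos, ih]
    split_ifs <;> simp [add_assoc]

lemma pos_mono (σ : ℕ → Bool) {k l : ℕ} (h : k ≤ l) :
    (pos σ k).1 ≤ (pos σ l).1 ∧ (pos σ k).2 ≤ (pos σ l).2 := by
  obtain ⟨d, rfl⟩ := Nat.exists_eq_add_of_le h
  rw [pos_add]; simp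

lemma pos_congr {σ σ' : ℕ → Bool} {k : ℕ} (h : ∀ i < k, σ i = σ' i) : pos σ k = pos σ' k := by
  induction k with
  | zero => rfl
  | succ k ih => rw [pos, pos, ih fun i hi => h i (by omega), h k (by omega)]

lemma pos_inj (σ : ℕ → Bool) : Function.Injective (pos σ) := by
  intro k l h
  have := pos_sum σ k
  rw [h, pos_sum] at this
  exact this.symm

lemma pos_fst (σ : ℕ → Bool) (k : ℕ) :
    (pos σ k).1 = ((range k).filter fun i => σ i = true).card := by
  induction k with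
  | zero => rfl
  | succ k ih =>
    rw [pos, range_add_one, filter_insert]
    split_ifs with h
    · rw [card_insert_of_notMem (by simp), ih]
    · exact ih

lemma val_succ (ξ : Fld) (σ : ℕ → Bool) (N : ℕ) :
    val ξ σ (N + 1) = val ξ σ N + ξ (pos σ (N + 1)) := sum_range_succ _ _

lemma val_le (ξ : Fld) (σ : ℕ → Bool) (N : ℕ) : val ξ σ N ≤ G ξ (pos σ N).1 (pos σ N).2 := by
  induction N with
  | zero => simp [val]
  | succ N ih =>
    rw [val_succ, pos]
    split_ifs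
    · have := G_right ξ (pos σ N).1 (pos σ N).2
      simp only; omega
    · have := G_up ξ (pos σ N).1 (pos σ N).2
      simp only; omega

lemma val_le' (ξ : Fld) {σ : ℕ → Bool} {N m n : ℕ} (h : pos σ N = (m, n)) :
    val ξ σ N ≤ G ξ m n := by
  have := val_le ξ σ N
  rwa [h] at this

lemma val_congr (ξ : Fld) {σ σ' : ℕ → Bool} {N : ℕ} (h : ∀ i < N, σ i = σ' i) :
    val ξ σ N = val ξ σ' N :=
  sum_congr rfl fun k hk => by
    rw [pos_congr fun i hi => h i (by have := mem_range.1 hk; omega)]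

lemma exists_opt (ξ : Fld) (m n : ℕ) :
    ∃ σ : ℕ → Bool, pos σ (m + n) = (m, n) ∧ val ξ σ (m + n) = G ξ m n := by
  have ext : ∀ (i j : ℕ) (b : Bool) (σ : ℕ → Bool), pos σ (i + j) = (i, j) →
      pos (Function.update σ (i + j) b) (i + j + 1) = (if b then (i + 1, j) else (i, j + 1)) ∧
      val ξ (Function.update σ (i + j) b) (i + j + 1)
        = val ξ σ (i + j) + ξ (if b then (i + 1, j) else (i, j + 1)) := by
    intro i j b σ h
    have h1 : ∀ k < i + j, Function.update σ (i + j) b k = σ k :=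
      fun k hk => Function.update_of_ne hk.ne _ _
    have h2 : pos (Function.update σ (i + j) b) (i + j + 1)
        = (if b then (i + 1, j) else (i, j + 1)) := by
      rw [pos, pos_congr h1, h]; simp
    exact ⟨h2, by rw [val_succ, h2, val_congr ξ h1]⟩
  induction m generalizing n with
  | zero =>
    induction n with
    | zero => exact ⟨fun _ => true, rfl, by simp [val, G_00]⟩
    | succ n ih =>
      obtain ⟨σ, h1, h2⟩ := ih
      obtain ⟨h3, h4⟩ := ext 0 n false σ h1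
      exact ⟨_, h3, by rw [← add_assoc, h4, h2, G_0s]; rfl⟩
  | succ m ihm =>
    induction n with
    | zero =>
      obtain ⟨σ, h1, h2⟩ := ihm 0
      obtain ⟨h3, h4⟩ := ext m 0 true σ h1
      exact ⟨_, h3, by rw [add_zero] at h4 ⊢; rw [h4, G_s0, ← h2]; rfl⟩
    | succ n ihn =>
      rcases le_total (G ξ m (n + 1)) (G ξ (m + 1) n) with h | h
      · obtain ⟨σ, h1, h2⟩ := ihn
        obtain ⟨h3, h4⟩ := ext (m + 1) n false σ h1
        exact ⟨_, h3, by rw [← add_assoc, h4, h2, G_ss, max_eq_right h]; rfl⟩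
      · obtain ⟨σ, h1, h2⟩ := ihm (n + 1)
        obtain ⟨h3, h4⟩ := ext m (n + 1) true σ h1
        have e : m + 1 + (n + 1) = m + (n + 1) + 1 := by ring
        exact ⟨_, by rw [e]; exact h3, by rw [e, h4, h2, G_ss, max_eq_left h]; rfl⟩

lemma val_add (ξ : Fld) (σ : ℕ → Bool) (k l : ℕ) :
    val ξ σ (k + l) = val ξ σ k + val (sh (pos σ k) ξ) (fun i => σ (k + i)) l := by
  rw [val, sum_range_add]
  congr 1
  refine sum_congr rfl fun i _ => ?_
  rw [add_assoc, pos_add]; rfl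

lemma pos_le {σ : ℕ → Bool} {N m n : ℕ} (h : pos σ N = (m, n)) {k : ℕ} (hk : k ≤ N) :
    (pos σ k).1 ≤ m ∧ (pos σ k).2 ≤ n := by
  have := pos_mono σ hk
  rwa [h] at this

lemma G_mono_box {ξ ξ' : Fld} {m n : ℕ}
    (h : ∀ i ≤ m, ∀ j ≤ n, 0 < i + j → ξ (i, j) ≤ ξ' (i, j)) : G ξ m n ≤ G ξ' m n := by
  obtain ⟨σ, h1, h2⟩ := exists_opt ξ m n
  rw [← h2]
  refine le_trans (sum_le_sum fun k hk => ?_) (val_le' ξ' h1)
  have := pos_le h1 (k := k + 1) (mem_range.1 hk)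
  have h3 := pos_sum σ (k + 1)
  exact h (pos σ (k + 1)).1 this.1 (pos σ (k + 1)).2 this.2 (by omega)

lemma G_mono {ξ ξ' : Fld} (h : ∀ u, ξ u ≤ ξ' u) (m n : ℕ) : G ξ m n ≤ G ξ' m n :=
  G_mono_box fun _ _ _ _ _ => h _

lemma G_congr_box {ξ ξ' : Fld} {m n : ℕ}
    (h : ∀ i ≤ m, ∀ j ≤ n, ξ (i, j) = ξ' (i, j)) : G ξ m n = G ξ' m n :=
  le_antisymm (G_mono_box fun i hi j hj _ => (h i hi j hj).le)
    (G_mono_box fun i hi j hj _ => (h i hi j hj).ge)

lemma Lp_mono_box {ξ ξ' : Fld} {m n : ℕ}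
    (h : ∀ i ≤ m, ∀ j ≤ n, ξ (i, j) ≤ ξ' (i, j)) : Lp ξ m n ≤ Lp ξ' m n :=
  add_le_add (h 0 (Nat.zero_le _) 0 (Nat.zero_le _)) (G_mono_box fun i hi j hj _ => h i hi j hj)

lemma Lp_congr_box {ξ ξ' : Fld} {m n : ℕ}
    (h : ∀ i ≤ m, ∀ j ≤ n, ξ (i, j) = ξ' (i, j)) : Lp ξ m n = Lp ξ' m n :=
  le_antisymm (Lp_mono_box fun i hi j hj => (h i hi j hj).le)
    (Lp_mono_box fun i hi j hj => (h i hi j hj).ge)

lemma G_super (ξ : Fld) (x y a b : ℕ) :
    G ξ x y + G (sh (x, y) ξ) a b ≤ G ξ (x + a) (y + b) := by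
  refine rec_le (F := fun a b => G ξ x y + G (sh (x, y) ξ) a b)
    (F' := fun a b => G ξ (x + a) (y + b)) (w := fun i j => ξ (x + i + 1, y + j + 1))
    ?_ ?_ ?_ ?_ a b
  · intro i j
    simp only [G_ss, sh, add_assoc]; omega
  · intro i j
    simp only [← add_assoc, G_ss]; omega
  · intro i
    induction i with
    | zero => simp [G_00]
    | succ i ih =>
      have := G_right ξ (x + i) y
      simp only [G_s0, sh, add_zero, ← add_assoc] at ih ⊢; omega
  · intro j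
    induction j with
    | zero => simp [G_00]
    | succ j ih =>
      have := G_up ξ x (y + j)
      simp only [G_0s, sh, add_zero, ← add_assoc] at ih ⊢; omega

lemma G_le_right (ξ : Fld) (x y a b : ℕ) : G ξ x y ≤ G ξ (x + a) (y + b) :=
  le_trans (Nat.le_add_right _ _) (G_super ξ x y a b)

/-- `(x, y)` is `h`-nearly on an optimal path to `(x + a, y + b)`. -/
def Near (h : ℕ) (ξ : Fld) (x y a b : ℕ) : Prop :=
  G ξ (x + a) (y + b) ≤ G ξ x y + G (sh (x, y) ξ) a b + h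

lemma near_of_pos {ξ : Fld} {σ : ℕ → Bool} {x y a b : ℕ}
    (h1 : pos σ (x + a + (y + b)) = (x + a, y + b))
    (h2 : val ξ σ (x + a + (y + b)) = G ξ (x + a) (y + b)) {k : ℕ} (hk : pos σ k = (x, y)) :
    Near 0 ξ x y a b := by
  have hk' : k = x + y := by have := pos_sum σ k; rw [hk] at this; exact this.symm
  have e : x + a + (y + b) = k + (a + b) := by omega
  rw [e] at h1 h2
  rw [val_add, hk] at h2
  rw [pos_add, hk] at h1
  have h3 : pos (fun i => σ (k + i)) (a + b) = (a, b) := by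
    simp only [Prod.mk.injEq, add_right_inj] at h1
    exact Prod.ext h1.1 h1.2
  have := val_le' ξ hk
  have := val_le' (sh (x, y) ξ) h3
  unfold Near; omega

lemma Lp_eq_sum (ξ : Fld) (σ : ℕ → Bool) (N : ℕ) :
    ξ (0, 0) + val ξ σ N = ∑ k ∈ range (N + 1), ξ (pos σ k) := by
  rw [sum_range_succ', add_comm]; rfl

lemma pos_rev (σ : ℕ → Bool) (N : ℕ) {k : ℕ} (hk : k ≤ N) :
    (pos (fun i => σ (N - 1 - i)) k).1 + (pos σ (N - k)).1 = (pos σ N).1 ∧
    (pos (fun i => σ (N - 1 - i)) k).2 + (pos σ (N - k)).2 = (pos σ N).2 := by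
  induction k with
  | zero => simp [pos]
  | succ k ih =>
    have ih := ih (by omega)
    have e : N - k = (N - (k + 1)) + 1 := by omega
    have e2 : N - 1 - k = N - (k + 1) := by omega
    rw [e, pos] at ih
    rw [pos, e2]
    split_ifs at ih ⊢ <;> simp only at ih ⊢ <;> omega

lemma Lp_reflect_le {ξ ξ' : Fld} {a b : ℕ}
    (h : ∀ i ≤ a, ∀ j ≤ b, ξ' (i, j) = ξ (a - i, b - j)) : Lp ξ a b ≤ Lp ξ' a b := by
  obtain ⟨σ, h1, h2⟩ := exists_opt ξ a b
  have h3 : pos (fun i => σ (a + b - 1 - i)) (a + b) = (a, b) := by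
    have := pos_rev σ (a + b) le_rfl
    rw [h1, Nat.sub_self] at this
    exact Prod.ext this.1 this.2
  have h4 := val_le' ξ' h3
  unfold Lp
  rw [← h2]
  refine le_trans (le_of_eq ?_) (Nat.add_le_add_left h4 _)
  rw [Lp_eq_sum, Lp_eq_sum, ← sum_range_reflect]
  refine sum_congr rfl fun k hk => ?_
  have hk' : k ≤ a + b := by have := mem_range.1 hk; omega
  have h5 := pos_rev σ (a + b) hk'
  rw [h1] at h5
  simp only at h5
  rw [show a + b + 1 - 1 - k = a + b - k by omega]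
  have := h (pos (fun i => σ (a + b - 1 - i)) k).1 (by omega)
    (pos (fun i => σ (a + b - 1 - i)) k).2 (by omega)
  rw [this]
  congr 1
  exact Prod.ext (by simp only; omega) (by simp only; omega)

lemma Lp_reflect {ξ ξ' : Fld} {a b : ℕ}
    (h : ∀ i ≤ a, ∀ j ≤ b, ξ' (i, j) = ξ (a - i, b - j)) : Lp ξ' a b = Lp ξ a b := by
  refine le_antisymm (Lp_reflect_le fun i hi j hj => ?_) (Lp_reflect_le h)
  rw [h _ (by omega) _ (by omega)]
  congr 2 <;> omega

/-- Reflection of an initial segment of the naturals. -/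
def rho (n i : ℕ) : ℕ := if i ≤ n then n - i else i

/-- Point reflection of the field in the box with corner `(m, n)`. -/
def rf (m n : ℕ) (ξ : Fld) : Fld := fun u => ξ (rho m u.1, rho n u.2)

lemma rho_inj (n : ℕ) : Function.Injective (rho n) := by
  intro i j h
  unfold rho at h
  split_ifs at h <;> omega

lemma Lp_sh_rf (ξ : Fld) {M N x y a b x' y' : ℕ} (h1 : x + a + x' = M) (h2 : y + b + y' = N) :
    Lp (sh (x, y) (rf M N ξ)) a b = Lp (sh (x', y') ξ) a b := by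
  refine Lp_reflect fun i hi j hj => ?_
  simp only [sh, rf, rho]
  rw [if_pos (by omega), if_pos (by omega)]
  congr 2 <;> omega

lemma near_iff (h : ℕ) (ξ : Fld) (x y a b : ℕ) : Near h ξ x y a b ↔
    Lp ξ (x + a) (y + b) + ξ (x, y) ≤ Lp ξ x y + Lp (sh (x, y) ξ) a b + h := by
  simp only [Near, Lp, sh, add_zero]; omega

lemma near_rf (h : ℕ) (ξ : Fld) (x y a b : ℕ) :
    Near h (rf (x + a) (y + b) ξ) a b x y ↔ Near h ξ x y a b := by
  rw [near_iff, near_iff]
  have e1 := Lp_sh_rf ξ (M := x + a) (N := y + b) (x := 0) (y := 0) (a := x + a) (b := y + b)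
    (x' := 0) (y' := 0) (by omega) (by omega)
  have e2 := Lp_sh_rf ξ (M := x + a) (N := y + b) (x := 0) (y := 0) (a := a) (b := b)
    (x' := x) (y' := y) (by omega) (by omega)
  have e3 := Lp_sh_rf ξ (M := x + a) (N := y + b) (x := a) (y := b) (a := x) (b := y)
    (x' := 0) (y' := 0) (by omega) (by omega)
  have e4 : rf (x + a) (y + b) ξ (a, b) = ξ (x, y) := by simp [rf, rho]
  simp only [sh_zero] at e1 e2 e3
  rw [add_comm a x, add_comm b y, e1, e2, e3, e4]
  omega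

lemma near_tr (h : ℕ) (ξ : Fld) (x y a b : ℕ) : Near h (tr ξ) x y a b ↔ Near h ξ y x b a := by
  simp only [Near, sh_tr, G_tr]

/-! ### Perturbation lemmas -/

lemma G_lip {ζ ξ : Fld} {z : ℕ × ℕ} {a b K : ℕ} {S : Finset (ℕ × ℕ)}
    (h : ∀ i ≤ a, ∀ j ≤ b, ζ (z.1 + i, z.2 + j)
      ≤ ξ (z.1 + i, z.2 + j) + if (z.1 + i, z.2 + j) ∈ S then K else 0) :
    G (sh z ζ) a b ≤ G (sh z ξ) a b + K * S.card := by
  obtain ⟨σ, h1, h2⟩ := exists_opt (sh z ζ) a b
  have h3 := val_le' (sh z ξ) h1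
  rw [← h2]
  have h4 : val (sh z ζ) σ (a + b) ≤ val (sh z ξ) σ (a + b) + ∑ k ∈ range (a + b),
      if (z.1 + (pos σ (k + 1)).1, z.2 + (pos σ (k + 1)).2) ∈ S then K else 0 := by
    rw [val, val, ← sum_add_distrib]
    refine sum_le_sum fun k hk => ?_
    have := pos_le h1 (k := k + 1) (mem_range.1 hk)
    exact h _ this.1 _ this.2
  have h5 : (∑ k ∈ range (a + b),
      if (z.1 + (pos σ (k + 1)).1, z.2 + (pos σ (k + 1)).2) ∈ S then K else 0) ≤ K * S.card := by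
    rw [← sum_filter, sum_const, smul_eq_mul, mul_comm]
    refine Nat.mul_le_mul_left _ (card_le_card_of_injOn
      (fun k => (z.1 + (pos σ (k + 1)).1, z.2 + (pos σ (k + 1)).2)) ?_ ?_)
    · intro k hk
      exact (mem_filter.1 hk).2
    · intro k _ l _ hkl
      simp only [Prod.mk.injEq, add_right_inj] at hkl
      have := pos_inj σ (Prod.ext hkl.1 hkl.2)
      omega
  omega

lemma Near.perturb {ζ ξ : Fld} {x y a b K : ℕ} {S : Finset (ℕ × ℕ)} (hn : Near 0 ζ x y a b)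
    (h1 : ∀ i ≤ x + a, ∀ j ≤ y + b, ζ (i, j) ≤ ξ (i, j) + if (i, j) ∈ S then K else 0)
    (h2 : ∀ i ≤ x + a, ∀ j ≤ y + b, ξ (i, j) ≤ ζ (i, j) + if (i, j) ∈ S then K else 0) :
    Near (3 * (K * S.card)) ξ x y a b := by
  have e1 := G_lip (ζ := ξ) (ξ := ζ) (z := (0, 0)) (a := x + a) (b := y + b) (K := K) (S := S)
    (by simpa using h2)
  have e2 := G_lip (ζ := ζ) (ξ := ξ) (z := (0, 0)) (a := x) (b := y) (K := K) (S := S)
    (fun i hi j hj => by simpa using h1 i (by omega) j (by omega))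
  have e3 := G_lip (ζ := ζ) (ξ := ξ) (z := (x, y)) (a := a) (b := b) (K := K) (S := S)
    (fun i hi j hj => h1 _ (by simpa using hi) _ (by simpa using hj))
  simp only [sh_zero] at e1 e2
  unfold Near at hn ⊢
  omega

lemma Near.mono {h h' : ℕ} {ξ : Fld} {x y a b : ℕ} (hn : Near h ξ x y a b) (hh : h ≤ h') :
    Near h' ξ x y a b := by
  unfold Near at hn ⊢; omega

lemma exists_path_set (ζ : Fld) (m n : ℕ) : ∃ P : Finset (ℕ × ℕ), P.card ≤ m + n + 1 ∧
    (∀ v ∈ P, v.1 ≤ m ∧ v.2 ≤ n ∧ Near 0 ζ v.1 v.2 (m - v.1) (n - v.2)) ∧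
    ∀ (ζ' : Fld) (v : ℕ × ℕ), (∀ u, u ≠ v → ζ' u = ζ u) →
      Lp ζ m n ≤ Lp ζ' m n + if v ∈ P then ζ v else 0 := by
  obtain ⟨σ, h1, h2⟩ := exists_opt ζ m n
  refine ⟨(range (m + n + 1)).image (pos σ), card_image_le.trans (by simp), ?_, ?_⟩
  · intro v hv
    obtain ⟨k, hk, rfl⟩ := mem_image.1 hv
    have := pos_le h1 (k := k) (by have := mem_range.1 hk; omega)
    refine ⟨this.1, this.2, near_of_pos (σ := σ) ?_ ?_ (k := k) rfl⟩
    · rw [Nat.add_sub_cancel' this.1, Nat.add_sub_cancel' this.2, h1]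
    · rw [Nat.add_sub_cancel' this.1, Nat.add_sub_cancel' this.2, h2]
  · intro ζ' v hv
    have h3 := val_le' ζ' h1
    have h4 : ζ (0, 0) + val ζ σ (m + n) ≤ ζ' (0, 0) + val ζ' σ (m + n)
        + if v ∈ (range (m + n + 1)).image (pos σ) then ζ v else 0 := by
      rw [Lp_eq_sum, Lp_eq_sum, ← sum_image (f := ζ) (fun k _ l _ h => pos_inj σ h),
        ← sum_image (f := ζ') (fun k _ l _ h => pos_inj σ h), ← sum_ite_eq', ← sum_add_distrib]
      refine sum_le_sum fun u _ => ?_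
      by_cases hu : u = v
      · simp [hu]
      · simp [hu, hv u hu]
    unfold Lp
    omega

lemma near_add_site {h : ℕ} {ξ : Fld} {x y a b : ℕ} (hxy : 0 < x + y) (hn : Near h ξ x y a b) :
    Near 0 (Function.update ξ (x, y) (ξ (x, y) + h)) x y a b := by
  set ξ' := Function.update ξ (x, y) (ξ (x, y) + h) with hξ'
  have hle : ∀ u, ξ u ≤ ξ' u := by
    intro u
    by_cases hu : u = (x, y)
    · simp [hξ', hu]
    · simp [hξ', hu]
  obtain ⟨σ, h1, h2⟩ := exists_opt ξ' (x + a) (y + b)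
  by_cases hk : ∃ k, pos σ k = (x, y)
  · obtain ⟨k, hk⟩ := hk
    exact near_of_pos h1 h2 hk
  · push Not at hk
    have e1 : val ξ' σ (x + a + (y + b)) = val ξ σ (x + a + (y + b)) :=
      sum_congr rfl fun k _ => by simp [hξ', hk]
    have e2 := val_le' ξ h1
    have e3 : G (sh (x, y) ξ) a b ≤ G (sh (x, y) ξ') a b := G_mono (fun u => hle _) _ _
    have e4 : G ξ x y + h ≤ G ξ' x y := by
      obtain ⟨τ, h3, h4⟩ := exists_opt ξ x y
      obtain ⟨N, hN⟩ : ∃ N, x + y = N + 1 := ⟨x + y - 1, by omega⟩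
      have h5 := val_le' ξ' h3
      rw [hN] at h3 h4 h5
      rw [val_succ, h3] at h4 h5
      have h6 : val ξ τ N ≤ val ξ' τ N := sum_le_sum fun k _ => hle _
      simp only [hξ', Function.update_self] at h5
      rw [← hξ'] at h5
      omega
    unfold Near at hn ⊢
    omega

lemma tube_gain {h : ℕ} {ξ η : Fld} {x y a b L : ℕ} (hn : Near h ξ x y a b) {σ : ℕ → Bool}
    (h1 : pos σ (a + b) = (a, b)) (h2 : val (sh (x, y) ξ) σ (a + b) = G (sh (x, y) ξ) a b)
    (hL : L ≤ a + b) (hη : h < val (sh (x, y) η) σ L) :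
    G ξ (x + a) (y + b) < G (ξ + η) (x + a) (y + b) := by
  have e1 := G_super (ξ + η) x y a b
  have e2 : G ξ x y ≤ G (ξ + η) x y := G_mono (fun u => by simp) _ _
  have e3 := val_le' (sh (x, y) (ξ + η)) h1
  have e4 : val (sh (x, y) (ξ + η)) σ (a + b)
      = val (sh (x, y) ξ) σ (a + b) + val (sh (x, y) η) σ (a + b) := by
    simp [val, sh, sum_add_distrib]
  have e5 : val (sh (x, y) η) σ L ≤ val (sh (x, y) η) σ (a + b) :=
    sum_le_sum_of_subset (range_mono hL)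
  unfold Near at hn
  omega

/-- The field set to zero on `A`. -/
def zA (A : Finset (ℕ × ℕ)) (ζ : Fld) : Fld := fun u => if u ∈ A then 0 else ζ u

lemma hit_path {A : Finset (ℕ × ℕ)} {ζ : Fld} {m n : ℕ} {σ : ℕ → Bool}
    (h1 : pos σ (m + n) = (m, n)) (h2 : val ζ σ (m + n) = G ζ m n)
    (h : G (zA A ζ) m n < G ζ m n) : ∃ k, pos σ k ∈ A := by
  by_contra hc
  push Not at hc
  have e1 : val (zA A ζ) σ (m + n) = val ζ σ (m + n) :=
    sum_congr rfl fun k _ => by simp [zA, hc]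
  have := val_le' (zA A ζ) h1
  omega

lemma Lp_le_box (ξ : Fld) (z : ℕ × ℕ) (a b : ℕ) {B : Finset (ℕ × ℕ)}
    (hB : ∀ i ≤ a, ∀ j ≤ b, (z.1 + i, z.2 + j) ∈ B) : Lp (sh z ξ) a b ≤ ∑ u ∈ B, ξ u := by
  obtain ⟨σ, h1, h2⟩ := exists_opt (sh z ξ) a b
  rw [Lp, ← h2, Lp_eq_sum]
  have := sum_image (s := range (a + b + 1)) (f := ξ)
    (g := fun k => (z.1 + (pos σ k).1, z.2 + (pos σ k).2)) (fun k _ l _ hkl => by
      simp only [Prod.mk.injEq, add_right_inj] at hkl
      exact pos_inj σ (Prod.ext hkl.1 hkl.2))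
  refine le_trans (le_of_eq this.symm) (sum_le_sum_of_subset fun u hu => ?_)
  obtain ⟨k, hk, rfl⟩ := mem_image.1 hu
  have := pos_le h1 (k := k) (by have := mem_range.1 hk; omega)
  exact hB _ this.1 _ this.2

end Pool.Agent.HideZero
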