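import Pool.Agent.Lib.MP_9debf8_pr.Det

set_option autoImplicit false

/-! Boundary comparisons, nested fields and local flips. -/

open Finset

namespace Pool.Agent.HideZero

lemma attract {ξ ξ' : Fld} (hb : ∀ i j, ξ (i + 1, j + 1) = ξ' (i + 1, j + 1))
    (hr : ∀ i, ξ (i + 1, 0) ≤ ξ' (i + 1, 0)) (hc : ∀ j, ξ' (0, j + 1) ≤ ξ (0, j + 1)) (N : ℕ) :
    ∀ i j, i + j = N → G ξ (i + 1) j + G ξ' i j ≤ G ξ' (i + 1) j + G ξ i j ∧
      G ξ' i (j + 1) + G ξ i j ≤ G ξ i (j + 1) + G ξ' i j := by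
  induction N with
  | zero =>
    intro i j h
    obtain ⟨rfl, rfl⟩ : i = 0 ∧ j = 0 := by omega
    have := hr 0
    have := hc 0
    simp only [G_s0, G_0s, G_00] at *
    omega
  | succ N ih =>
    intro i j h
    constructor
    · cases j with
      | zero =>
        have := hr i
        simp only [G_s0]; omega
      | succ j =>
        have := ih i j (by omega)
        have := hb i j
        rw [G_ss ξ i j, G_ss ξ' i j]; omega
    · cases i with
      | zero =>
        have := hc j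
        simp only [G_0s]; omega
      | succ i =>
        have := ih i j (by omega)
        have := hb i j
        rw [G_ss ξ i j, G_ss ξ' i j]; omega

lemma attract_row {ξ ξ' : Fld} (hb : ∀ i j, ξ (i + 1, j + 1) = ξ' (i + 1, j + 1))
    (hr : ∀ i, ξ (i + 1, 0) ≤ ξ' (i + 1, 0)) (hc : ∀ j, ξ' (0, j + 1) ≤ ξ (0, j + 1))
    (i j k : ℕ) : G ξ (i + k) j + G ξ' i j ≤ G ξ' (i + k) j + G ξ i j := by
  induction k with
  | zero => simp [add_comm]
  | succ k ih =>
    have := (attract hb hr hc _ (i + k) j rfl).1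
    rw [← add_assoc]; omega

lemma G_zR_row (ξ : Fld) (i : ℕ) : G (zR ξ) i 0 = 0 := by
  induction i with
  | zero => exact G_00 _
  | succ i ih => rw [G_s0, ih]; simp [zR]

lemma G_zC_col (ξ : Fld) (j : ℕ) : G (zC ξ) 0 j = 0 := by
  induction j with
  | zero => exact G_00 _
  | succ i ih => rw [G_0s, ih]; simp [zC]

lemma G_zR_col (ξ : Fld) (j : ℕ) : G (zR ξ) 0 j = G ξ 0 j := by
  induction j with
  | zero => simp [G_00]
  | succ i ih => rw [G_0s, G_0s, ih]; simp [zR]

lemma G_zC_row (ξ : Fld) (i : ℕ) : G (zC ξ) i 0 = G ξ i 0 := by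
  induction i with
  | zero => simp [G_00]
  | succ i ih => rw [G_s0, G_s0, ih]; simp [zC]

lemma G_zC_le (ξ : Fld) (i j : ℕ) : G (zC ξ) i j ≤ G ξ i j :=
  G_mono (fun u => by unfold zC; split_ifs <;> simp) _ _

lemma G_zR_le (ξ : Fld) (i j : ℕ) : G (zR ξ) i j ≤ G ξ i j :=
  G_mono (fun u => by unfold zR; split_ifs <;> simp) _ _

lemma G_eq_max (ξ : Fld) (i j : ℕ) : G ξ i j = max (G (zC ξ) i j) (G (zR ξ) i j) := by
  refine le_antisymm ?_ (max_le (G_zC_le ..) (G_zR_le ..))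
  refine rec_le (F := G ξ) (F' := fun i j => max (G (zC ξ) i j) (G (zR ξ) i j))
    (w := fun i j => ξ (i + 1, j + 1)) (fun i j => (G_ss ..).le) ?_ ?_ ?_ i j
  · intro i j
    simp only [G_ss (zC ξ) i j, G_ss (zR ξ) i j, zC, zR]
    simp only [Nat.add_eq_zero_iff, one_ne_zero, and_false, if_false]
    omega
  · intro i; simp [G_zC_row]
  · intro j; simp [G_zR_col]

lemma G_of_exV {ξ : Fld} {i j : ℕ} (h : G (zC ξ) i j ≤ G (zR ξ) i j) :
    G ξ i j = G (zR ξ) i j := by rw [G_eq_max, max_eq_right h]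

lemma G_of_exH {ξ : Fld} {i j : ℕ} (h : G (zR ξ) i j ≤ G (zC ξ) i j) :
    G ξ i j = G (zC ξ) i j := by rw [G_eq_max, max_eq_left h]

lemma G_zRC (ξ : Fld) (i j : ℕ) : G (zR (zC ξ)) (i + 1) (j + 1) = Lp (sh (1, 1) ξ) i j := by
  have hr : ∀ i, G (zR (zC ξ)) i 0 = 0 := G_zR_row _
  have hc : ∀ j, G (zR (zC ξ)) 0 j = 0 := fun j => by rw [G_zR_col, G_zC_col]
  induction i generalizing j with
  | zero =>
    induction j with
    | zero => rw [G_ss, hr, hc]; simp [Lp, G_00, sh, zR, zC]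
    | succ j ih =>
      rw [G_ss, hc, ih]; simp [Lp, G_0s, sh, zR, zC, add_assoc, add_comm 1]
  | succ i ihi =>
    induction j with
    | zero => rw [G_ss, hr, ihi]; simp [Lp, G_s0, sh, zR, zC, add_assoc, add_comm 1]
    | succ j ihj =>
      rw [G_ss, ihi, ihj]
      simp only [Lp, G_ss, sh, zR, zC, add_comm 1]
      simp only [Nat.add_eq_zero_iff, one_ne_zero, and_false, if_false]
      omega

lemma sandwich_low {ξ : Fld} {i j k : ℕ}
    (h1 : G (zC ξ) (i + 1) (j + 1) ≤ G (zR ξ) (i + 1) (j + 1))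
    (h2 : G (zC ξ) (i + 1 + k) (j + 1) ≤ G (zR ξ) (i + 1 + k) (j + 1)) :
    G ξ (i + 1 + k) (j + 1) + Lp (sh (1, 1) ξ) i j
      ≤ Lp (sh (1, 1) ξ) (i + k) j + G ξ (i + 1) (j + 1) := by
  rw [G_of_exV h1, G_of_exV h2, ← G_zRC, ← G_zRC, show i + k + 1 = i + 1 + k by ring]
  exact attract_row (ξ := zR ξ) (ξ' := zR (zC ξ)) (by simp [zR, zC]) (by simp [zR])
    (by simp [zR, zC]) _ _ _

lemma sandwich_up {ξ : Fld} {i j k : ℕ}
    (h1 : G (zR ξ) (i + 1) (j + 1) ≤ G (zC ξ) (i + 1) (j + 1))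
    (h2 : G (zR ξ) (i + 1 + k) (j + 1) ≤ G (zC ξ) (i + 1 + k) (j + 1)) :
    Lp (sh (1, 1) ξ) (i + k) j + G ξ (i + 1) (j + 1)
      ≤ G ξ (i + 1 + k) (j + 1) + Lp (sh (1, 1) ξ) i j := by
  rw [G_of_exH h1, G_of_exH h2, ← G_zRC, ← G_zRC, show i + k + 1 = i + 1 + k by ring]
  exact attract_row (ξ := zR (zC ξ)) (ξ' := zC ξ) (by simp [zR, zC]) (by simp [zR])
    (by simp [zR, zC]) _ _ _

/-- The field seen from `b`, with the increments of the passage values as boundary weights. -/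
def nest (b : ℕ × ℕ) (ξ : Fld) : Fld
  | (0, 0) => ξ (0, 0)
  | (i + 1, 0) => G ξ (b.1 + i + 1) b.2 - G ξ (b.1 + i) b.2
  | (0, j + 1) => G ξ b.1 (b.2 + j + 1) - G ξ b.1 (b.2 + j)
  | (i + 1, j + 1) => ξ (b.1 + i + 1, b.2 + j + 1)

lemma G_nest_row (x y : ℕ) (ξ : Fld) (i : ℕ) :
    G (nest (x, y) ξ) i 0 + G ξ x y = G ξ (x + i) y := by
  induction i with
  | zero => simp [G_00]
  | succ i ih =>
    have := G_right ξ (x + i) y
    rw [G_s0, nest, ← add_assoc]; simp only; omega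

lemma G_nest_col (x y : ℕ) (ξ : Fld) (j : ℕ) :
    G (nest (x, y) ξ) 0 j + G ξ x y = G ξ x (y + j) := by
  induction j with
  | zero => simp [G_00]
  | succ j ih =>
    have := G_up ξ x (y + j)
    rw [G_0s, nest, ← add_assoc]; simp only; omega

lemma G_nest (x y : ℕ) (ξ : Fld) (i j : ℕ) :
    G (nest (x, y) ξ) i j + G ξ x y = G ξ (x + i) (y + j) := by
  induction i generalizing j with
  | zero => exact G_nest_col x y ξ j
  | succ i ihi =>
    induction j with
    | zero => exact G_nest_row x y ξ _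
    | succ j ihj =>
      have := ihi (j + 1)
      rw [G_ss, nest]
      simp only [← add_assoc] at *
      rw [G_ss ξ (x + i) (y + j)]
      omega

lemma sh_nest (x y : ℕ) (ξ : Fld) : sh (1, 1) (nest (x, y) ξ) = sh (x + 1, y + 1) ξ := by
  funext u
  simp only [sh, add_comm 1, nest]
  congr 2 <;> ring

lemma nest_nest (x y x' y' : ℕ) (ξ : Fld) :
    nest (x', y') (nest (x, y) ξ) = nest (x + x', y + y') ξ := by
  funext u
  obtain ⟨i, j⟩ := u
  cases i <;> cases j
  · simp [nest]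
  · rename_i j
    have h1 := G_nest x y ξ x' (y' + j + 1)
    have h2 := G_nest x y ξ x' (y' + j)
    simp only [nest, add_assoc] at *
    omega
  · rename_i i
    have h1 := G_nest x y ξ (x' + i + 1) y'
    have h2 := G_nest x y ξ (x' + i) y'
    simp only [nest, add_assoc] at *
    omega
  · simp [nest, add_assoc]

lemma nest_zero (ξ : Fld) : nest (0, 0) ξ = ξ := by
  funext u
  obtain ⟨i, j⟩ := u
  cases i <;> cases j <;> simp [nest, G_s0, G_0s]

lemma nest_tr (x y : ℕ) (ξ : Fld) : nest (x, y) (tr ξ) = tr (nest (y, x) ξ) := by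
  funext u
  obtain ⟨i, j⟩ := u
  cases i <;> cases j <;> simp [nest, G_tr, tr]

lemma G_row_sum (ξ : Fld) (k : ℕ) : G ξ k 0 = ∑ l ∈ range k, ξ (l + 1, 0) := by
  induction k with
  | zero => simp [G_00]
  | succ k ih => rw [G_s0, sum_range_succ, ih]

lemma G_col_sum (ξ : Fld) (k : ℕ) : G ξ 0 k = ∑ l ∈ range k, ξ (0, l + 1) := by
  induction k with
  | zero => simp [G_00]
  | succ k ih => rw [G_0s, sum_range_succ, ih]

lemma transversal_det {ξ : Fld} {x y a b : ℕ} (hn : Near 0 (sh (1, 1) ξ) x y a b)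
    (hV : G (zC ξ) (x + 1 + a) (y + (b + 1)) ≤ G (zR ξ) (x + 1 + a) (y + (b + 1))) :
    G (zC (nest (x + 1, y) ξ)) a (b + 1) ≤ G (zR (nest (x + 1, y) ξ)) a (b + 1) := by
  set ξ₀ := zR (zC ξ) with hξ₀
  set ν₀ := nest (x + 1, y) ξ₀ with hν₀
  set νV := nest (x + 1, y) (zR ξ) with hνV
  set ν := nest (x + 1, y) ξ with hν
  have s1 : G (zC ν₀) a (b + 1) ≤ G (zR ν₀) a (b + 1) := by
    have e1 := G_zC_le ν₀ a (b + 1)
    have e2 : G ν₀ a (b + 1) + G ξ₀ (x + 1) y = Lp (sh (1, 1) ξ) (x + a) (y + b) := by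
      rw [hν₀, G_nest, ← G_zRC]; congr 1; ring
    have e3 : G ν₀ 0 1 + G ξ₀ (x + 1) y = Lp (sh (1, 1) ξ) x y := by
      rw [hν₀, G_nest, ← G_zRC]
    have e4 := G_super (zR ν₀) 0 1 a b
    rw [G_zR_col, zero_add, add_comm 1] at e4
    have e5 : G (sh (x, y) (sh (1, 1) ξ)) a b ≤ G (sh (0, 1) (zR ν₀)) a b := by
      refine G_mono (fun u => ?_) _ _
      obtain ⟨i, j⟩ := u
      cases i with
      | zero =>
        have := G_up ξ₀ (x + 1) (y + j)
        simp only [sh, zR, hν₀, add_comm 1, nest, add_zero]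
        simp only [hξ₀, zR, zC] at this ⊢
        simp only [Nat.add_eq_zero_iff, one_ne_zero, and_false, if_false] at this ⊢
        omega
      | succ i =>
        simp only [sh, zR, hν₀, add_comm 1, nest, zero_add, hξ₀, zC]
        simp only [Nat.add_eq_zero_iff, one_ne_zero, and_false, if_false]
        apply le_of_eq
        congr 2; ring
    unfold Near Lp at *
    omega
  have hat := fun i j => attract (ξ := zR ξ) (ξ' := ξ₀) (by simp [hξ₀, zR, zC])
    (by simp [hξ₀, zR]) (by simp [hξ₀, zR, zC]) _ i j rfl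
  have s2 : G (zC νV) a (b + 1) ≤ G (zC ν₀) a (b + 1) := by
    refine G_mono (fun u => ?_) _ _
    obtain ⟨i, j⟩ := u
    cases i <;> cases j
    · simp [zC]
    · simp [zC]
    · rename_i i
      have := (hat (x + 1 + i) y).1
      have := G_right ξ₀ (x + 1 + i) y
      simp only [zC, hνV, hν₀, nest]
      simp only [Nat.add_eq_zero_iff, one_ne_zero, and_false, if_false]
      omega
    · simp [zC, hνV, hν₀, nest, hξ₀, zR]
  have s3 : G (zR ν₀) a (b + 1) ≤ G (zR νV) a (b + 1) := by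
    refine G_mono (fun u => ?_) _ _
    obtain ⟨i, j⟩ := u
    cases i <;> cases j
    · simp [zR]
    · rename_i j
      have := (hat (x + 1) (y + j)).2
      have := G_up (zR ξ) (x + 1) (y + j)
      simp only [zR, hνV, hν₀, nest]
      simp only [Nat.add_eq_zero_iff, one_ne_zero, and_false, if_false]
      omega
    · simp [zR]
    · simp [zC, hνV, hν₀, nest, hξ₀, zR]
  have s4 : G νV a (b + 1) = G (zR νV) a (b + 1) := G_of_exV (by omega)
  have s5 : G (zR ξ) (x + 1) y + G (zR νV) a (b + 1) ≤ G ξ (x + 1) y + G (zR ν) a (b + 1) := by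
    refine rec_le (F := fun i j => G (zR ξ) (x + 1) y + G (zR νV) i j)
      (F' := fun i j => G ξ (x + 1) y + G (zR ν) i j)
      (w := fun i j => ξ (x + 1 + i + 1, y + j + 1)) ?_ ?_ ?_ ?_ a (b + 1)
    · intro i j
      simp only [G_ss (zR νV) i j]
      simp only [zR, hνV, nest]
      simp only [Nat.add_eq_zero_iff, one_ne_zero, and_false, if_false]
      omega
    · intro i j
      simp only [G_ss (zR ν) i j]
      simp only [zR, hν, nest]
      simp only [Nat.add_eq_zero_iff, one_ne_zero, and_false, if_false]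
      omega
    · intro i
      simp only [G_zR_row, add_zero]
      exact G_zR_le ..
    · intro j
      simp only [G_zR_col]
      have h1 := G_nest_col (x + 1) y ξ j
      have h2 := G_nest_col (x + 1) y (zR ξ) j
      have h3 := G_zR_le ξ (x + 1) (y + j)
      rw [← hν] at h1
      rw [← hνV] at h2
      omega
  have s6 := G_nest (x + 1) y ξ a (b + 1)
  have s7 := G_nest (x + 1) y (zR ξ) a (b + 1)
  have s8 := G_of_exV hV
  have s9 := G_zC_le ν a (b + 1)
  rw [← hν] at s6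
  rw [← hνV] at s7
  omega

/-- The local three-site flip. -/
def flip3 (p : ℕ × ℕ × ℕ) : ℕ × ℕ × ℕ :=
  (p.2.2 + (p.1 - p.2.1), p.2.2 + (p.2.1 - p.1), min p.1 p.2.1)

lemma flip3_flip3 (p : ℕ × ℕ × ℕ) : flip3 (flip3 p) = p := by
  obtain ⟨a, b, c⟩ := p
  simp only [flip3, Prod.mk.injEq]
  omega

/-- The flip acting on the sites `(i + 1, 0)`, `(0, 1)`, `(i + 1, 1)`. -/
def flipAt (i : ℕ) (ξ : Fld) : Fld := fun u =>
  if u = (i + 1, 0) then (flip3 (ξ (i + 1, 0), ξ (0, 1), ξ (i + 1, 1))).1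
  else if u = (0, 1) then (flip3 (ξ (i + 1, 0), ξ (0, 1), ξ (i + 1, 1))).2.1
  else if u = (i + 1, 1) then (flip3 (ξ (i + 1, 0), ξ (0, 1), ξ (i + 1, 1))).2.2
  else ξ u

/-- The first `M` flips. -/
def flips : ℕ → Fld → Fld
  | 0, ξ => ξ
  | M + 1, ξ => flipAt M (flips M ξ)

lemma flips_spec (M : ℕ) (ξ : Fld) :
    (∀ i < M, flips M ξ (i + 1, 0) = G ξ (i + 1) 1 - G ξ i 1) ∧
    (flips M ξ (0, 1) + G ξ M 0 = G ξ M 1) ∧
    (∀ i j, M ≤ i → flips M ξ (i + 1, j) = ξ (i + 1, j)) ∧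
    (∀ i j, flips M ξ (i, j + 2) = ξ (i, j + 2)) ∧ flips M ξ (0, 0) = ξ (0, 0) := by
  induction M with
  | zero => simp [flips, G_00, G_0s]
  | succ M ih =>
    obtain ⟨h1, h2, h3, h4, h5⟩ := ih
    have e1 := h3 M 0 le_rfl
    have e2 := h3 M 1 le_rfl
    have g1 := G_ss ξ M 0
    have g2 := G_s0 ξ M
    simp only [zero_add] at g1
    refine ⟨fun i hi => ?_, ?_, fun i j hi => ?_, fun i j => ?_, ?_⟩
    · by_cases hiM : i = M
      · subst hiM
        simp only [flips, flipAt, if_true, flip3, e1, e2]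
        omega
      · rw [← h1 i (by omega)]
        simp [flips, flipAt, hiM]
    · have : flips (M + 1) ξ (0, 1)
          = ξ (M + 1, 1) + (flips M ξ (0, 1) - ξ (M + 1, 0)) := by
        simp [flips, flipAt, flip3, e1, e2]
      omega
    · rw [← h3 i j (by omega)]
      have : i ≠ M := by omega
      simp [flips, flipAt, this]
    · rw [← h4 i j]
      simp [flips, flipAt]
    · rw [← h5]
      simp [flips, flipAt]

/-- Removing the row of index one. -/
def skip (u : ℕ × ℕ) : ℕ × ℕ := if u.2 = 0 then u else (u.1, u.2 + 1)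

lemma skip_inj : Function.Injective skip := by
  rintro ⟨i, j⟩ ⟨i', j'⟩ h
  simp only [skip] at h
  split_ifs at h <;> simp only [Prod.mk.injEq] at h ⊢ <;> omega

lemma nest_eq_flips (M : ℕ) (ξ : Fld) (u : ℕ × ℕ) (hu : u.1 ≤ M) :
    nest (0, 1) ξ u = flips M ξ (skip u) := by
  obtain ⟨h1, h2, h3, h4, h5⟩ := flips_spec M ξ
  obtain ⟨i, j⟩ := u
  cases i <;> cases j
  · simp [nest, skip, h5]
  · rename_i j
    simp only [nest, skip, add_comm 1]
    simp only [Nat.add_eq_zero_iff, one_ne_zero, and_false, if_false, h4, G_0s ξ (j + 1)]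
    simp [add_assoc]
  · rename_i i
    simp only [nest, skip, zero_add, if_true]
    rw [h1 i hu]
  · rename_i i j
    simp only [nest, skip, add_comm 1, zero_add]
    simp only [Nat.add_eq_zero_iff, one_ne_zero, and_false, if_false, h4]

end Pool.Agent.HideZero
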