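import Pool.Agent.Lib.MP_9debf8_pr.Mom

set_option autoImplicit false

/-! Local fluctuations of the passage time. -/

open Finset MeasureTheory MeasureTheory.Measure ProbabilityTheory
open scoped ENNReal

namespace Pool.Agent.HideZero

/-- The box with corner `(m, n)`. -/
def box (m n : ℕ) : Finset (ℕ × ℕ) := range (m + 1) ×ˢ range (n + 1)

lemma card_box (m n : ℕ) : (box m n).card = (m + 1) * (n + 1) := by simp [box]

lemma mem_box {m n : ℕ} {u : ℕ × ℕ} : u ∈ box m n ↔ u.1 ≤ m ∧ u.2 ≤ n := by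
  simp [box]

lemma Lp_le_SS (ξ : Fld) (m n : ℕ) : (Lp ξ m n : ℝ) ≤ SS (box m n) ξ := by
  have := Lp_le_box ξ (0, 0) m n (B := box m n) (fun i hi j hj => by simp [mem_box, hi, hj])
  rw [sh_zero] at this
  unfold SS
  exact_mod_cast this

/-- Horizontal increment of the passage time. -/
def Xi (i j k : ℕ) (ξ : Fld) : ℝ := (Lp ξ (i + k) j : ℝ) - Lp ξ i j

lemma Xi_nonneg (i j k : ℕ) (ξ : Fld) : 0 ≤ Xi i j k ξ := by
  have := G_le_right ξ i j k 0
  unfold Xi Lp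
  rw [sub_nonneg]
  exact_mod_cast Nat.add_le_add_left this _

lemma Xi_le (i j k : ℕ) (ξ : Fld) : Xi i j k ξ ≤ SS (box (i + k) j) ξ := by
  have := Lp_le_SS ξ (i + k) j
  unfold Xi
  linarith [Nat.cast_nonneg (α := ℝ) (Lp ξ i j)]

lemma measurable_Xi (i j k : ℕ) : Measurable (Xi i j k) :=
  (measurable_cast (measurable_Lp _ _)).sub (measurable_cast (measurable_Lp _ _))

/-- Crude moment bound. -/
noncomputable def Mo (r : ℝ) (N : ℕ) : ℝ := N ^ 4 * (Cm ((1 + r) / 2) 2 + Cm ((1 + r) / 2) 4)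

lemma dom_pow {a : ℕ × ℕ → ℝ} {B : Finset (ℕ × ℕ)} {b : ℝ} (hb : b < 1)
    (h : ∀ v ∈ B, 0 ≤ a v ∧ a v ≤ b) {f : Fld → ℝ} (hf : Measurable f) (h0 : ∀ ξ, 0 ≤ f ξ)
    (h1 : ∀ ξ, f ξ ≤ SS B ξ) (p : ℕ) : Integrable (fun ξ => f ξ ^ (p + 1)) (Pa a) ∧
      ∫ ξ, f ξ ^ (p + 1) ∂Pa a ≤ (B.card : ℝ) ^ (p + 1) * Cm b (p + 1) := by
  have h' : ∀ v ∈ B, 0 ≤ a v ∧ a v < 1 := fun v hv => ⟨(h v hv).1, (h v hv).2.trans_lt hb⟩
  have hi : Integrable (fun ξ => f ξ ^ (p + 1)) (Pa a) := by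
    refine Integrable.mono' (integrable_SS_pow h' p) (hf.pow_const _).aestronglyMeasurable
      (ae_of_all _ fun ξ => ?_)
    rw [Real.norm_of_nonneg (pow_nonneg (h0 ξ) _)]
    exact pow_le_pow_left₀ (h0 ξ) (h1 ξ) _
  exact ⟨hi, (integral_mono hi (integrable_SS_pow h' p)
    fun ξ => pow_le_pow_left₀ (h0 ξ) (h1 ξ) _).trans (integral_SS_pow_le hb h p)⟩

lemma dom_Mo {r : ℝ} (hr0 : 0 ≤ r) (hr1 : r < 1) {a : ℕ × ℕ → ℝ} {B : Finset (ℕ × ℕ)}
    (h : ∀ v ∈ B, 0 ≤ a v ∧ a v ≤ (1 + r) / 2) {N : ℕ} (hN : B.card ≤ N)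
    {f : Fld → ℝ} (hf : Measurable f) (h0 : ∀ ξ, 0 ≤ f ξ) (h1 : ∀ ξ, f ξ ≤ SS B ξ) :
    Integrable (fun ξ => f ξ ^ 2) (Pa a) ∧ Integrable (fun ξ => (f ξ ^ 2) ^ 2) (Pa a) ∧
      ∫ ξ, f ξ ^ 2 ∂Pa a ≤ Mo r N ∧ ∫ ξ, (f ξ ^ 2) ^ 2 ∂Pa a ≤ Mo r N := by
  obtain ⟨i2, j2⟩ := dom_pow (by linarith) h hf h0 h1 1
  obtain ⟨i4, j4⟩ := dom_pow (by linarith) h hf h0 h1 3
  have c2 := Cm_nonneg (b := (1 + r) / 2) (by linarith) 2
  have c4 := Cm_nonneg (b := (1 + r) / 2) (by linarith) 4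
  have hN' : (B.card : ℝ) ≤ N := by exact_mod_cast hN
  have e4 : (B.card : ℝ) ^ 4 ≤ N ^ 4 := by gcongr
  have e2 : (B.card : ℝ) ^ 2 ≤ N ^ 4 := by
    refine le_trans ?_ e4
    have : B.card ^ 2 ≤ B.card ^ 4 := by
      rw [show 4 = 2 * 2 by rfl, pow_mul]; exact Nat.le_self_pow (by norm_num) _
    exact_mod_cast this
  simp only [← pow_mul]
  refine ⟨i2, i4, j2.trans ?_, j4.trans ?_⟩
  · unfold Mo
    exact mul_le_mul e2 (by linarith) c2 (by positivity)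
  · unfold Mo
    exact mul_le_mul e4 (by linarith) c4 (by positivity)

/-- The first `k` boundary sites of the row. -/
def rowset (k : ℕ) : Finset (ℕ × ℕ) := (range k).image fun l => (l + 1, 0)

lemma card_rowset (k : ℕ) : (rowset k).card = k := by
  rw [rowset, card_image_of_injective _ (fun _ _ h => by simpa using h), card_range]

lemma par_rowset (q α β : ℝ) (k : ℕ) : ∀ v ∈ rowset k, par q α β v = α := by
  intro v hv
  obtain ⟨l, -, rfl⟩ := mem_image.1 hv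
  rfl

lemma G_add_row (ξ : Fld) (x y k : ℕ) :
    (G ξ (x + k) y : ℝ) = G ξ x y + SS (rowset k) (nest (x, y) ξ) := by
  rw [← G_nest_row, G_row_sum, SS, rowset, sum_image (fun _ _ _ _ h => by simpa using h)]
  push_cast; ring

lemma mean_diff {r x y : ℝ} (hr1 : r < 1) (hxy : x ≤ y) (hy : y ≤ (1 + r) / 2) :
    0 ≤ y / (1 - y) - x / (1 - x) ∧ y / (1 - y) - x / (1 - x) ≤ 4 * (y - x) / (1 - r) ^ 2 := by
  have h1 : 0 < 1 - y := by linarith
  have h2 : 0 < 1 - x := by linarith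
  have h3 : 0 < 1 - r := by linarith
  have e : y / (1 - y) - x / (1 - x) = (y - x) / ((1 - x) * (1 - y)) := by field_simp; ring
  rw [e]
  have h4 : 0 ≤ y - x := by linarith
  refine ⟨by positivity, ?_⟩
  rw [div_le_div_iff₀ (by positivity) (by positivity)]
  have : (1 - r) ^ 2 ≤ 4 * ((1 - x) * (1 - y)) := by nlinarith
  nlinarith

section

variable {r d : ℝ} (hr0 : 0 < r) (hr1 : r < 1) (hd : 0 < d) (hd0 : d ≤ d0 r) {n₀ : ℕ} {ε : ℝ}
  (hε : Real.exp (-(r ^ 2 * n₀ * d ^ 3 / 8)) ≤ ε)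
include hr0 hr1 hd hd0

lemma model_facts : 0 ≤ r - 3 * d ∧ r - 3 * d < 1 ∧ 0 ≤ r ^ 2 / (r - 3 * d) ∧
    r ^ 2 / (r - 3 * d) < 1 ∧ (r - 3 * d) * (r ^ 2 / (r - 3 * d)) = r ^ 2 ∧
    r ^ 2 / (r - 3 * d) ≤ (1 + r) / 2 ∧ r - 3 * d ≤ (1 + r) / 2 ∧ r ^ 2 ≤ (1 + r) / 2 := by
  obtain ⟨f1, f2, f3, f4⟩ := d0_facts hr0 hr1 hd0
  obtain ⟨g1, g2⟩ := beta_facts hr0 hr1 hd hd0
  have : 0 < r - 3 * d := by linarith
  exact ⟨by linarith, by linarith, by linarith, by linarith, by field_simp, by linarith,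
    by linarith, by nlinarith⟩

include hε

omit hr1 hd0 in
lemma tiny_le {n : ℕ} (hn : n₀ ≤ n) {p : ℝ≥0∞}
    (h : p ≤ ENNReal.ofReal (Real.exp (-(r ^ 2 * n * d ^ 3 / 8)))) : p.toReal ≤ ε := by
  refine ENNReal.toReal_le_of_le_ofReal ((Real.exp_pos _).le.trans hε) (h.trans ?_)
  refine ENNReal.ofReal_le_ofReal (le_trans (Real.exp_le_exp.2 ?_) hε)
  have : (n₀ : ℝ) ≤ n := by exact_mod_cast hn
  have : r ^ 2 * n₀ * d ^ 3 ≤ r ^ 2 * n * d ^ 3 := by gcongr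
  linarith

lemma exH_real {m n : ℕ} (hmn : (m : ℝ) ≤ n * (1 + 2 * d)) (hn : n₀ ≤ n) :
    (Ps (r ^ 2) (r - 3 * d) (r ^ 2 / (r - 3 * d))).real (ExH m n) ≤ ε :=
  tiny_le hr0 hd hε hn (exitH1 hr0 hr1 hd hd0 hmn)

lemma exV_real {m n : ℕ} (hmn : (n : ℝ) ≤ m * (1 - C3 r * d)) (hn : n₀ ≤ m) :
    (Ps (r ^ 2) (r - 3 * d) (r ^ 2 / (r - 3 * d))).real (ExV m n) ≤ ε :=
  tiny_le hr0 hd hε hn (exitV1 hr0 hr1 hd hd0 hmn)

lemma exV_real' {m n : ℕ} (hmn : (n : ℝ) ≤ m * (1 + 2 * d)) (hn : n₀ ≤ m) :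
    (Ps (r ^ 2) (r ^ 2 / (r - 3 * d)) (r - 3 * d)).real (ExV m n) ≤ ε := by
  have e2 : tr ⁻¹' ExH n m = ExV m n := by
    ext ξ; simp only [Set.mem_preimage, ExH, ExV, Set.mem_ofPred_eq, tr_zC, tr_zR, G_tr]
  rw [← e2, mp_real (mp_trs _ _ _) (measurableSet_ExH _ _)]
  exact exH_real hr0 hr1 hd hd0 hε hmn hn

lemma low_event {i j k : ℕ} (hc : (i + 1 + k : ℝ) ≤ (j + 1) * (1 + 2 * d)) (hn : n₀ ≤ j + 1) :
    ∃ B : Set Fld, MeasurableSet B ∧
      (Ps (r ^ 2) (r - 3 * d) (r ^ 2 / (r - 3 * d))).real B ≤ 2 * ε ∧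
      ∀ ξ, ξ ∉ B → SS (rowset k) (nest (i + 1, j + 1) ξ) ≤ Xi i j k (sh (1, 1) ξ) := by
  refine ⟨ExH (i + 1) (j + 1) ∪ ExH (i + 1 + k) (j + 1),
    (measurableSet_ExH _ _).union (measurableSet_ExH _ _), ?_, fun ξ hξ => ?_⟩
  · have h1 := exH_real hr0 hr1 hd hd0 hε (m := i + 1) (n := j + 1)
      (by push_cast; linarith [Nat.cast_nonneg (α := ℝ) k]) hn
    have h2 := exH_real hr0 hr1 hd hd0 hε (m := i + 1 + k) (n := j + 1) (by push_cast; linarith) hn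
    linarith [measureReal_union_le (μ := Ps (r ^ 2) (r - 3 * d) (r ^ 2 / (r - 3 * d)))
      (ExH (i + 1) (j + 1)) (ExH (i + 1 + k) (j + 1))]
  · simp only [Set.mem_union, ExH, Set.mem_ofPred_eq, not_or, not_le] at hξ
    have h1 := sandwich_low hξ.1.le hξ.2.le
    have h2 := G_add_row ξ (i + 1) (j + 1) k
    have h3 : (G ξ (i + 1 + k) (j + 1) : ℝ) + Lp (sh (1, 1) ξ) i j
      ≤ Lp (sh (1, 1) ξ) (i + k) j + G ξ (i + 1) (j + 1) := by exact_mod_cast h1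
    unfold Xi; linarith

omit hr0 hr1 hd hd0 hε in
lemma up_det {ξ : Fld} {i j k : ℕ} (hξ : ξ ∉ ExV (i + 1) (j + 1) ∪ ExV (i + 1 + k) (j + 1)) :
    Xi i j k (sh (1, 1) ξ) ≤ SS (rowset k) (nest (i + 1, j + 1) ξ) := by
  simp only [Set.mem_union, ExV, Set.mem_ofPred_eq, not_or, not_le] at hξ
  have h1 := sandwich_up hξ.1.le hξ.2.le
  have h2 := G_add_row ξ (i + 1) (j + 1) k
  have h3 : (Lp (sh (1, 1) ξ) (i + k) j : ℝ) + G ξ (i + 1) (j + 1)
    ≤ G ξ (i + 1 + k) (j + 1) + Lp (sh (1, 1) ξ) i j := by exact_mod_cast h1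
  unfold Xi; linarith

lemma up_event {i j k : ℕ} (hc : (j + 1 : ℝ) ≤ (i + 1) * (1 + 2 * d)) (hn : n₀ ≤ i + 1) :
    ∃ B : Set Fld, MeasurableSet B ∧
      (Ps (r ^ 2) (r ^ 2 / (r - 3 * d)) (r - 3 * d)).real B ≤ 2 * ε ∧
      ∀ ξ, ξ ∉ B → Xi i j k (sh (1, 1) ξ) ≤ SS (rowset k) (nest (i + 1, j + 1) ξ) := by
  refine ⟨ExV (i + 1) (j + 1) ∪ ExV (i + 1 + k) (j + 1),
    (measurableSet_ExV _ _).union (measurableSet_ExV _ _), ?_, fun ξ hξ => up_det hξ⟩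
  have h1 := exV_real' hr0 hr1 hd hd0 hε (m := i + 1) (n := j + 1) (by push_cast; linarith) hn
  have h2 := exV_real' hr0 hr1 hd hd0 hε (m := i + 1 + k) (n := j + 1)
    (by push_cast; nlinarith [Nat.cast_nonneg (α := ℝ) k]) (by omega)
  linarith [measureReal_union_le (μ := Ps (r ^ 2) (r ^ 2 / (r - 3 * d)) (r - 3 * d))
    (ExV (i + 1) (j + 1)) (ExV (i + 1 + k) (j + 1))]

end

lemma Xi_facts {r : ℝ} (hr0 : 0 < r) (hr1 : r < 1) {i j k N : ℕ}
    (hN : (i + k + 1) * (j + 1) ≤ N) :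
    Integrable (fun ξ => Xi i j k ξ ^ 2) (Pq (r ^ 2)) ∧
      Integrable (fun ξ => (Xi i j k ξ ^ 2) ^ 2) (Pq (r ^ 2)) ∧
      ∫ ξ, Xi i j k ξ ^ 2 ∂Pq (r ^ 2) ≤ Mo r N ∧
      ∫ ξ, (Xi i j k ξ ^ 2) ^ 2 ∂Pq (r ^ 2) ≤ Mo r N :=
  dom_Mo hr0.le hr1 (B := box (i + k) j) (fun _ _ => ⟨by positivity, by nlinarith⟩)
    (by rwa [card_box]) (measurable_Xi i j k) (Xi_nonneg i j k) (Xi_le i j k)

lemma Z_facts {r : ℝ} (hr0 : 0 < r) (hr1 : r < 1) {α β : ℝ} (ha0 : 0 ≤ α) (ha : α ≤ (1 + r) / 2)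
    (hb0 : 0 ≤ β) (hb1 : β < 1) (hq : α * β = r ^ 2) (x y : ℕ) {k N : ℕ} (hN : k ≤ N) :
    Integrable (fun ξ => SS (rowset k) (nest (x, y) ξ) ^ 2) (Ps (r ^ 2) α β) ∧
    ∫ ξ, SS (rowset k) (nest (x, y) ξ) ^ 2 ∂Ps (r ^ 2) α β ≤ Mo r N ∧
    ∫ ξ, SS (rowset k) (nest (x, y) ξ) ∂Ps (r ^ 2) α β = k * (α / (1 - α)) ∧
    (∀ c, ∫ ξ, (SS (rowset k) (nest (x, y) ξ) - c) ^ 2 ∂Ps (r ^ 2) α β
      ≤ k * Cm ((1 + r) / 2) 2 + (k * (α / (1 - α)) - c) ^ 2) ∧
    ∀ s : ℝ, s ^ 2 * k = 1 →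
      ‖∫ ξ, Complex.exp (Complex.I * s * SS (rowset k) (nest (x, y) ξ)) ∂Ps (r ^ 2) α β‖
        ≤ 1 - α / 20 := by
  have ha1 : α < 1 := by linarith
  have hmp := mp_nest ha0 ha1 hb0 hb1 hq x y
  obtain ⟨i2, -, j2, -⟩ := dom_Mo hr0.le hr1 (a := par (r ^ 2) α β) (B := rowset k) (N := N)
    (fun v hv => by rw [par_rowset _ _ _ _ v hv]; exact ⟨ha0, ha⟩) (by rwa [card_rowset])
    (measurable_SS _) (SS_nonneg _) (fun _ => le_rfl)
  refine ⟨hmp.integrable_comp_of_integrable i2, ?_, ?_, fun c => ?_, fun s hs => ?_⟩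
  · rw [mp_integral hmp (f := fun ξ => SS (rowset k) ξ ^ 2) ((measurable_SS _).pow_const _)]
    exact j2
  · rw [mp_integral hmp (measurable_SS _), Ps, SS_mean ha0 ha1 (par_rowset _ _ _ _), card_rowset]
  · rw [mp_integral hmp (f := fun ξ => (SS (rowset k) ξ - c) ^ 2)
      (((measurable_SS _).sub_const _).pow_const _)]
    have := SS_sq ha0 ha1 (par_rowset (r ^ 2) α β k) ha (by linarith) c
    rwa [card_rowset] at this
  · have hm := measurable_SS (rowset k)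
    rw [mp_integral hmp (f := fun ξ => Complex.exp (Complex.I * s * SS (rowset k) ξ))
      (by fun_prop), Ps, SS_char ha0 ha1 (par_rowset _ _ _ _), card_rowset]
    exact char_norm_le ha0 ha1 hs

lemma integrable_sq_sub {Ω : Type} [MeasurableSpace Ω] {μ : Measure Ω} [IsProbabilityMeasure μ]
    {f : Ω → ℝ} (hm : Measurable f) (h2 : Integrable (fun ω => f ω ^ 2) μ) (c : ℝ) :
    Integrable (fun ω => (f ω - c) ^ 2) μ :=
  (memLp_two_iff_integrable_sq (hm.sub_const c).aestronglyMeasurable).1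
    (((memLp_two_iff_integrable_sq hm.aestronglyMeasurable).2 h2).sub (memLp_const c))

section

variable {r d : ℝ} (hr0 : 0 < r) (hr1 : r < 1) (hd : 0 < d) (hd0 : d ≤ d0 r) {n₀ : ℕ} {ε : ℝ}
  (hε : Real.exp (-(r ^ 2 * n₀ * d ^ 3 / 8)) ≤ ε) {lam : ℝ} (hl : 0 < lam) {N : ℕ}
  (herr : 4 * lam * ε + Mo r N / lam ≤ 1)
include hr0 hr1 hd hd0 hε hl herr

omit hr0 hr1 hd hd0 hε in
lemma err_le {p M : ℝ} (hp : p ≤ 4 * ε) (hM : M ≤ Mo r N) : lam * p + M / lam ≤ 1 := by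
  have h1 : lam * p ≤ lam * (4 * ε) := by gcongr
  have h2 : M / lam ≤ Mo r N / lam := by gcongr
  linarith

lemma mean_low {i j k : ℕ} (hc : (i + 1 + k : ℝ) ≤ (j + 1) * (1 + 2 * d)) (hn : n₀ ≤ j + 1)
    (hN : (i + k + 1) * (j + 1) ≤ N) :
    k * ((r - 3 * d) / (1 - (r - 3 * d))) ≤ ∫ ξ, Xi i j k ξ ∂Pq (r ^ 2) + 2 := by
  obtain ⟨m1, m2, m3, m4, m5, m6, m7, m8⟩ := model_facts hr0 hr1 hd hd0
  obtain ⟨B, hB, hB2, hB3⟩ := low_event hr0 hr1 hd hd0 hε hc hn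
  obtain ⟨z1, z2, z3, -, -⟩ := Z_facts hr0 hr1 m1 m7 m3 m4 m5 (i + 1) (j + 1) (k := k) (N := N)
    (by nlinarith)
  obtain ⟨x1, -, -, -⟩ := Xi_facts hr0 hr1 hN
  have hmp := mp_sh11 (r ^ 2) (r - 3 * d) (r ^ 2 / (r - 3 * d))
  have := sand_mean hB ((measurable_SS _).comp (measurable_nest _)) z1
    (hmp.integrable_comp_of_integrable (integrable_of_sq (measurable_Xi _ _ _) x1))
    (fun _ => Xi_nonneg ..) (fun _ => SS_nonneg ..) hB3 hl
  have h2 := err_le hl herr (hB2.trans (by linarith [(Real.exp_pos _).le.trans hε])) z2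
  have h3 := mp_integral hmp (measurable_Xi i j k)
  simp only [Function.comp] at this
  linarith

lemma mean_up {i j k : ℕ} (hc : (j + 1 : ℝ) ≤ (i + 1) * (1 + 2 * d)) (hn : n₀ ≤ i + 1)
    (hN : (i + k + 1) * (j + 1) ≤ N) :
    ∫ ξ, Xi i j k ξ ∂Pq (r ^ 2)
      ≤ k * ((r ^ 2 / (r - 3 * d)) / (1 - r ^ 2 / (r - 3 * d))) + 2 := by
  obtain ⟨m1, m2, m3, m4, m5, m6, m7, m8⟩ := model_facts hr0 hr1 hd hd0
  obtain ⟨B, hB, hB2, hB3⟩ := up_event hr0 hr1 hd hd0 hε (k := k) hc hn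
  obtain ⟨z1, z2, z3, -, -⟩ := Z_facts hr0 hr1 m3 m6 m1 m2 (by rw [mul_comm, m5]) (i + 1) (j + 1)
    (k := k) (N := N) (by nlinarith)
  obtain ⟨x1, -, x3, -⟩ := Xi_facts hr0 hr1 hN
  have hmp := mp_sh11 (r ^ 2) (r ^ 2 / (r - 3 * d)) (r - 3 * d)
  have := sand_mean hB ((measurable_Xi i j k).comp (measurable_sh _))
    (hmp.integrable_comp_of_integrable x1)
    (integrable_of_sq ((measurable_SS _).comp (measurable_nest _)) z1)
    (fun _ => SS_nonneg ..) (fun _ => Xi_nonneg ..) hB3 hl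
  have h3 := mp_integral hmp (measurable_Xi i j k)
  have h4 := mp_integral hmp ((measurable_Xi i j k).pow_const 2)
  have h2 := err_le hl herr (hB2.trans (by linarith [(Real.exp_pos _).le.trans hε])) x3
  simp only [Function.comp] at this
  rw [h3, h4] at this
  linarith

lemma Xi_sq {n k : ℕ} (hc : (n + 1 + k : ℝ) ≤ (n + 1) * (1 + 2 * d)) (hn : n₀ ≤ n + 1)
    (hN : (n + k + 1) * (n + 1) ≤ N) (hk : (k * (r / (1 - r))) ^ 2 ≤ lam) :
    ∫ ξ, (Xi n n k ξ - k * (r / (1 - r))) ^ 2 ∂Pq (r ^ 2)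
      ≤ 2 * (k * Cm ((1 + r) / 2) 2 + (k * (24 * d / (1 - r) ^ 2)) ^ 2) + 2 := by
  obtain ⟨m1, m2, m3, m4, m5, m6, m7, m8⟩ := model_facts hr0 hr1 hd hd0
  obtain ⟨g1, g2⟩ := beta_facts hr0 hr1 hd hd0
  have hε0 : 0 ≤ ε := (Real.exp_pos _).le.trans hε
  have h1r : 0 < 1 - r := by linarith
  set c := k * (r / (1 - r)) with hc'
  have hc0 : 0 ≤ c := by positivity
  obtain ⟨x1, x2, x3, x4⟩ := Xi_facts hr0 hr1 hN
  have mX := measurable_Xi n n k
  have iX := integrable_sq_sub mX x1 c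
  have mlo : Measurable fun ξ => (max (c - Xi n n k ξ) 0) ^ 2 := by fun_prop
  have mup : Measurable fun ξ => (max (Xi n n k ξ - c) 0) ^ 2 := by fun_prop
  have ilo : Integrable (fun ξ => (max (c - Xi n n k ξ) 0) ^ 2) (Pq (r ^ 2)) := by
    refine iX.mono' mlo.aestronglyMeasurable (ae_of_all _ fun ξ => ?_)
    rw [Real.norm_of_nonneg (by positivity)]
    rcases le_total (c - Xi n n k ξ) 0 with h | h
    · rw [max_eq_right h]; simp; positivity
    · rw [max_eq_left h]; nlinarith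
  have iup : Integrable (fun ξ => (max (Xi n n k ξ - c) 0) ^ 2) (Pq (r ^ 2)) := by
    refine iX.mono' mup.aestronglyMeasurable (ae_of_all _ fun ξ => ?_)
    rw [Real.norm_of_nonneg (by positivity)]
    rcases le_total (Xi n n k ξ - c) 0 with h | h
    · rw [max_eq_right h]; simp; positivity
    · rw [max_eq_left h]
  have hsplit : ∫ ξ, (Xi n n k ξ - c) ^ 2 ∂Pq (r ^ 2)
      = ∫ ξ, (max (c - Xi n n k ξ) 0) ^ 2 ∂Pq (r ^ 2)
        + ∫ ξ, (max (Xi n n k ξ - c) 0) ^ 2 ∂Pq (r ^ 2) := by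
    rw [← integral_add ilo iup]
    congr 1
    funext ξ
    rcases le_total (Xi n n k ξ - c) 0 with h | h
    · rw [max_eq_right h, max_eq_left (by linarith)]; ring
    · rw [max_eq_left h, max_eq_right (by linarith)]; ring
  have hlo : ∫ ξ, (max (c - Xi n n k ξ) 0) ^ 2 ∂Pq (r ^ 2)
      ≤ k * Cm ((1 + r) / 2) 2 + (k * (24 * d / (1 - r) ^ 2)) ^ 2 + 1 := by
    obtain ⟨B, hB, hB2, hB3⟩ := low_event hr0 hr1 hd hd0 hε hc hn
    obtain ⟨z1, z2, -, z4, -⟩ := Z_facts hr0 hr1 m1 m7 m3 m4 m5 (n + 1) (n + 1) (k := k) (N := N)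
      (by nlinarith)
    have hmp := mp_sh11 (r ^ 2) (r - 3 * d) (r ^ 2 / (r - 3 * d))
    have iZ := integrable_sq_sub (f := fun ξ => SS (rowset k) (nest (n + 1, n + 1) ξ))
      ((measurable_SS _).comp (measurable_nest _)) z1 c
    rw [← mp_integral hmp mlo]
    calc _ ≤ ∫ ξ, ((SS (rowset k) (nest (n + 1, n + 1) ξ) - c) ^ 2
          + B.indicator (fun _ => c ^ 2) ξ) ∂Ps (r ^ 2) (r - 3 * d) (r ^ 2 / (r - 3 * d)) := by
          refine integral_mono (hmp.integrable_comp_of_integrable ilo)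
            (iZ.add ((integrable_const _).indicator hB)) fun ξ => ?_
          have h0 := Xi_nonneg n n k (sh (1, 1) ξ)
          by_cases hξ : ξ ∈ B
          · simp only [Set.indicator_of_mem hξ]
            have : (max (c - Xi n n k (sh (1, 1) ξ)) 0) ^ 2 ≤ c ^ 2 :=
              pow_le_pow_left₀ (le_max_right _ _) (max_le (by linarith) hc0) 2
            nlinarith [sq_nonneg (SS (rowset k) (nest (n + 1, n + 1) ξ) - c)]
          · simp only [Set.indicator_of_notMem hξ, add_zero]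
            have := hB3 ξ hξ
            rcases le_total (c - Xi n n k (sh (1, 1) ξ)) 0 with h | h
            · rw [max_eq_right h]; simp; positivity
            · rw [max_eq_left h]; nlinarith
      _ ≤ _ := by
          rw [integral_add iZ ((integrable_const _).indicator hB), integral_indicator_const _ hB]
          have h1 := z4 c
          obtain ⟨d1, d2⟩ := mean_diff hr1 (x := r - 3 * d) (y := r) (by linarith) (by linarith)
          have h2 : (k * ((r - 3 * d) / (1 - (r - 3 * d))) - c) ^ 2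
              ≤ (k * (24 * d / (1 - r) ^ 2)) ^ 2 := by
            rw [hc', ← mul_sub, mul_pow, mul_pow]
            refine mul_le_mul_of_nonneg_left ?_ (by positivity)
            rw [← neg_sq, neg_sub]
            refine pow_le_pow_left₀ d1 (d2.trans ?_) 2
            exact div_le_div_of_nonneg_right (by linarith) (by positivity)
          have h3 := err_le hl herr (hB2.trans (by linarith)) z2
          have h4 : 0 ≤ (∫ ξ, SS (rowset k) (nest (n + 1, n + 1) ξ) ^ 2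
              ∂Ps (r ^ 2) (r - 3 * d) (r ^ 2 / (r - 3 * d))) / lam :=
            div_nonneg (integral_nonneg fun _ => by positivity) hl.le
          have h5 : (Ps (r ^ 2) (r - 3 * d) (r ^ 2 / (r - 3 * d))).real B * c ^ 2
              ≤ (Ps (r ^ 2) (r - 3 * d) (r ^ 2 / (r - 3 * d))).real B * lam := by gcongr
          simp only [smul_eq_mul]
          linarith
  have hup : ∫ ξ, (max (Xi n n k ξ - c) 0) ^ 2 ∂Pq (r ^ 2)
      ≤ k * Cm ((1 + r) / 2) 2 + (k * (24 * d / (1 - r) ^ 2)) ^ 2 + 1 := by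
    obtain ⟨B, hB, hB2, hB3⟩ := up_event hr0 hr1 hd hd0 hε (i := n) (j := n) (k := k)
      (by nlinarith [Nat.cast_nonneg (α := ℝ) n]) hn
    obtain ⟨z1, z2, -, z4, -⟩ := Z_facts hr0 hr1 m3 m6 m1 m2 (by rw [mul_comm, m5]) (n + 1) (n + 1)
      (k := k) (N := N) (by nlinarith)
    have hmp := mp_sh11 (r ^ 2) (r ^ 2 / (r - 3 * d)) (r - 3 * d)
    have iZ := integrable_sq_sub (f := fun ξ => SS (rowset k) (nest (n + 1, n + 1) ξ))
      ((measurable_SS _).comp (measurable_nest _)) z1 c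
    have iX2 : Integrable (fun ξ => Xi n n k (sh (1, 1) ξ) ^ 2) _ :=
      hmp.integrable_comp_of_integrable x1
    rw [← mp_integral hmp mup]
    calc _ ≤ ∫ ξ, ((SS (rowset k) (nest (n + 1, n + 1) ξ) - c) ^ 2
          + B.indicator (fun ξ => Xi n n k (sh (1, 1) ξ) ^ 2) ξ)
            ∂Ps (r ^ 2) (r ^ 2 / (r - 3 * d)) (r - 3 * d) := by
          refine integral_mono (hmp.integrable_comp_of_integrable iup)
            (iZ.add (iX2.indicator hB)) fun ξ => ?_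
          have h0 := Xi_nonneg n n k (sh (1, 1) ξ)
          by_cases hξ : ξ ∈ B
          · simp only [Set.indicator_of_mem hξ]
            have : (max (Xi n n k (sh (1, 1) ξ) - c) 0) ^ 2 ≤ Xi n n k (sh (1, 1) ξ) ^ 2 :=
              pow_le_pow_left₀ (le_max_right _ _) (max_le (by linarith) h0) 2
            nlinarith [sq_nonneg (SS (rowset k) (nest (n + 1, n + 1) ξ) - c)]
          · simp only [Set.indicator_of_notMem hξ, add_zero]
            have := hB3 ξ hξ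
            rcases le_total (Xi n n k (sh (1, 1) ξ) - c) 0 with h | h
            · rw [max_eq_right h]; simp; positivity
            · rw [max_eq_left h]; nlinarith
      _ ≤ _ := by
          rw [integral_add iZ (iX2.indicator hB)]
          have h1 := z4 c
          obtain ⟨d1, d2⟩ := mean_diff hr1 (x := r) (y := r ^ 2 / (r - 3 * d)) g1 m6
          have h2 : (k * ((r ^ 2 / (r - 3 * d)) / (1 - r ^ 2 / (r - 3 * d))) - c) ^ 2
              ≤ (k * (24 * d / (1 - r) ^ 2)) ^ 2 := by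
            rw [hc', ← mul_sub, mul_pow, mul_pow]
            refine mul_le_mul_of_nonneg_left ?_ (by positivity)
            refine pow_le_pow_left₀ d1 (d2.trans ?_) 2
            exact div_le_div_of_nonneg_right (by linarith) (by positivity)
          have h3 := bad_le hB (((measurable_Xi n n k).comp (measurable_sh (1, 1))).pow_const 2)
            (hmp.integrable_comp_of_integrable x2) hl
          have h4 := mp_integral hmp (((measurable_Xi n n k).pow_const 2).pow_const 2)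
          have h5 := err_le hl herr (hB2.trans (by linarith)) x4
          simp only [Function.comp_def] at h3
          rw [h4] at h3
          linarith
  linarith

end

end Pool.Agent.HideZero
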