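import Pool.Agent.Lib.MP_9debf8_pr.Det2

set_option autoImplicit false

/-! Product measures and geometric laws. -/

open Finset MeasureTheory MeasureTheory.Measure ProbabilityTheory
open scoped ENNReal

namespace Pool.Agent.HideZero

section general

variable {ι α β γ : Type} [MeasurableSpace α] [MeasurableSpace β] [MeasurableSpace γ]

lemma lintegral_prod_pi (μ : ι → Measure α) [∀ v, IsProbabilityMeasure (μ v)] (s : Finset ι)
    (f : ι → α → ℝ≥0∞) (hf : ∀ v, Measurable (f v)) :
    ∫⁻ ω, ∏ v ∈ s, f v (ω v) ∂infinitePi μ = ∏ v ∈ s, ∫⁻ x, f v x ∂μ v := by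
  refine (lintegral_prod_eq_prod_lintegral_of_indepFun s (fun v (ω : ι → α) => f v (ω v))
    (iIndepFun_infinitePi hf) (fun v => (hf v).comp (measurable_pi_apply v))).trans ?_
  refine prod_congr rfl fun v _ => ?_
  rw [← infinitePi_map_eval μ v, lintegral_map (hf v) (measurable_pi_apply v)]

lemma integral_prod_pi (μ : ι → Measure α) [∀ v, IsProbabilityMeasure (μ v)] (s : Finset ι)
    (f : ι → α → ℂ) (hf : ∀ v, Measurable (f v)) :
    ∫ ω, ∏ v ∈ s, f v (ω v) ∂infinitePi μ = ∏ v ∈ s, ∫ x, f v x ∂μ v := by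
  have h := integral_restrict_infinitePi μ (s := s) (f := fun y => ∏ v : s, f v (y v))
    (Finset.measurable_prod (f := fun (v : s) (y : s → α) => f v (y v)) _ fun v _ =>
      (hf v).comp (measurable_pi_apply v)).aestronglyMeasurable
  rw [integral_fintype_prod_eq_prod (fun (v : s) => f v)] at h
  rw [← prod_coe_sort s (fun v => ∫ x, f v x ∂μ v), ← h]
  congr 1
  funext ω
  rw [← prod_coe_sort s (fun v => f v (ω v))]
  rfl

lemma map_pair_pi (μ : ι → Measure α) (ν : ι → Measure β) [∀ v, IsProbabilityMeasure (μ v)]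
    [∀ v, IsProbabilityMeasure (ν v)] (φ : ι → α × β → γ) (hφ : ∀ v, Measurable (φ v)) :
    ((infinitePi μ).prod (infinitePi ν)).map (fun p v => φ v (p.1 v, p.2 v))
      = infinitePi (fun v => ((μ v).prod (ν v)).map (φ v)) := by
  have (v : ι) : IsProbabilityMeasure (((μ v).prod (ν v)).map (φ v)) :=
    isProbabilityMeasure_map (hφ v).aemeasurable
  refine eq_infinitePi _ fun s t ht => ?_
  have hm : Measurable (fun (p : (ι → α) × (ι → β)) v => φ v (p.1 v, p.2 v)) :=
    measurable_pi_lambda _ fun v => (hφ v).comp (by fun_prop)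
  have hs : MeasurableSet ((s : Set ι).pi t) := .pi s.countable_toSet fun _ _ => ht _
  rw [map_apply hm hs, Measure.prod_apply (hm hs)]
  have e : ∀ ω : ι → α, infinitePi ν (Prod.mk ω ⁻¹' ((fun (p : (ι → α) × (ι → β)) v =>
      φ v (p.1 v, p.2 v)) ⁻¹' (s : Set ι).pi t))
      = ∏ v ∈ s, ν v (Prod.mk (ω v) ⁻¹' (φ v ⁻¹' t v)) := by
    intro ω
    rw [← infinitePi_pi ν (fun v _ => measurable_prodMk_left (hφ v (ht v)))]
    rfl
  simp only [e]
  rw [lintegral_prod_pi μ s (fun v x => ν v (Prod.mk x ⁻¹' (φ v ⁻¹' t v)))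
    (fun v => measurable_measure_prodMk_left (hφ v (ht v)))]
  refine prod_congr rfl fun v _ => ?_
  rw [map_apply (hφ v) (ht v), Measure.prod_apply (hφ v (ht v))]

lemma map_merge (μ ν : ι → Measure α) [∀ v, IsProbabilityMeasure (μ v)]
    [∀ v, IsProbabilityMeasure (ν v)] (S : Set ι) [DecidablePred (· ∈ S)] :
    ((infinitePi μ).prod (infinitePi ν)).map (fun p v => if v ∈ S then p.1 v else p.2 v)
      = infinitePi (fun v => if v ∈ S then μ v else ν v) := by
  have := map_pair_pi μ ν (fun v p => if v ∈ S then p.1 else p.2)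
    (fun v => by split_ifs <;> fun_prop)
  rw [this]
  congr 1
  funext v
  split_ifs
  · exact (measurePreserving_fst).map_eq
  · exact (measurePreserving_snd).map_eq

lemma measurable_merge (S : Set ι) [DecidablePred (· ∈ S)] :
    Measurable (fun (p : (ι → α) × (ι → α)) v => if v ∈ S then p.1 v else p.2 v) :=
  measurable_pi_lambda _ fun v => by split_ifs <;> fun_prop

lemma map_local (μ ν : ι → Measure α) [∀ v, IsProbabilityMeasure (μ v)]
    [∀ v, IsProbabilityMeasure (ν v)] (S : Set ι) (hS : ∀ v ∈ S, μ v = ν v)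
    {f : (ι → α) → β} (hf : Measurable f)
    (hdep : ∀ ω ω', (∀ v ∈ S, ω v = ω' v) → f ω = f ω') :
    (infinitePi μ).map f = (infinitePi ν).map f := by
  classical
  have h := map_merge μ ν S
  have e : (fun v => if v ∈ S then μ v else ν v) = ν := by
    funext v; split_ifs with hv
    · exact hS v hv
    · rfl
  rw [e] at h
  rw [← h, map_map hf (measurable_merge S)]
  have : (f ∘ fun (p : (ι → α) × (ι → α)) v => if v ∈ S then p.1 v else p.2 v) = f ∘ Prod.fst := by
    funext p
    exact hdep _ _ fun v hv => by simp [hv]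
  rw [this, ← map_map hf measurable_fst, measurePreserving_fst.map_eq]

lemma pi_withDensity (μ ν : ι → Measure α) [∀ v, IsProbabilityMeasure (μ v)]
    [∀ v, IsProbabilityMeasure (ν v)] (s : Finset ι) (r : ι → α → ℝ≥0∞)
    (hr : ∀ v, Measurable (r v)) (h1 : ∀ v ∈ s, ν v = (μ v).withDensity (r v))
    (h2 : ∀ v ∉ s, ν v = μ v) :
    infinitePi ν = (infinitePi μ).withDensity (fun ω => ∏ v ∈ s, r v (ω v)) := by
  classical
  symm
  refine eq_infinitePi _ fun s' t ht => ?_
  have hs : MeasurableSet ((s' : Set ι).pi t) := .pi s'.countable_toSet fun _ _ => ht _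
  rw [withDensity_apply _ hs, ← lintegral_indicator hs]
  let f : ι → α → ℝ≥0∞ := fun v =>
    (if v ∈ s' then t v else Set.univ).indicator (if v ∈ s then r v else 1)
  have hfm : ∀ v, Measurable (f v) := fun v => by
    refine Measurable.indicator ?_ ?_
    · split_ifs
      · exact hr v
      · exact measurable_one
    · split_ifs
      · exact ht v
      · exact .univ
  have e : ∀ ω : ι → α, ((s' : Set ι).pi t).indicator (fun ω => ∏ v ∈ s, r v (ω v)) ω
      = ∏ v ∈ s ∪ s', f v (ω v) := by
    intro ω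
    by_cases hω : ω ∈ (s' : Set ι).pi t
    · rw [Set.indicator_of_mem hω]
      rw [← prod_subset (s₁ := s) subset_union_left]
      · refine prod_congr rfl fun v hv => ?_
        simp only [f, hv, if_true]
        rw [Set.indicator_of_mem]
        split_ifs with h
        · exact hω v h
        · trivial
      · intro v hv hvs
        have hv' : v ∈ s' := by simpa [hvs] using hv
        simp only [f, hvs, hv', if_true, if_false]
        rw [Set.indicator_of_mem (hω v hv')]; rfl
    · rw [Set.indicator_of_notMem hω]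
      simp only [Set.mem_pi, mem_coe, not_forall] at hω
      obtain ⟨v, hv, hvt⟩ := hω
      rw [prod_eq_zero (mem_union_right s hv)]
      simp only [f, hv, if_true]
      rw [Set.indicator_of_notMem hvt]
  simp only [e]
  rw [lintegral_prod_pi μ _ f hfm]
  rw [← prod_subset (s₁ := s') subset_union_right]
  · refine prod_congr rfl fun v hv => ?_
    simp only [f, hv, if_true]
    rw [lintegral_indicator (ht v)]
    split_ifs with h
    · rw [h1 v h, withDensity_apply _ (ht v)]
    · rw [h2 v h]; simp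
  · intro v hv hvs
    have hv' : v ∈ s := by simpa [hvs] using hv
    simp only [f, hv', hvs, if_true, if_false, Set.indicator_univ]
    have := measure_univ (μ := ν v)
    rwa [h1 v hv', withDensity_apply _ .univ, restrict_univ] at this

end general

/-- The geometric law `(1 - a) a ^ k`. -/
noncomputable def geo (a : ℝ) : Measure ℕ :=
  if 0 ≤ a ∧ a < 1 then Measure.sum (fun k => ENNReal.ofReal ((1 - a) * a ^ k) • .dirac k)
  else .dirac 0

lemma geo_eq {a : ℝ} (h0 : 0 ≤ a) (h1 : a < 1) :
    geo a = Measure.sum (fun k => ENNReal.ofReal ((1 - a) * a ^ k) • .dirac k) := if_pos ⟨h0, h1⟩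

instance (a : ℝ) : IsProbabilityMeasure (geo a) := by
  rw [geo]
  split_ifs with h
  · refine HasSum.isProbabilityMeasure_sum_dirac (fun k => ?_) ?_
    · exact mul_nonneg (by linarith [h.2]) (pow_nonneg h.1 _)
    · have := (hasSum_geometric_of_lt_one h.1 h.2).mul_left (1 - a)
      rwa [mul_inv_cancel₀ (by linarith [h.2])] at this
  · infer_instance

lemma geo_single {a : ℝ} (h0 : 0 ≤ a) (h1 : a < 1) (k : ℕ) :
    geo a {k} = ENNReal.ofReal ((1 - a) * a ^ k) := by
  rw [geo_eq h0 h1, Measure.sum_smul_dirac_singleton]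

lemma lintegral_geo {a : ℝ} (h0 : 0 ≤ a) (h1 : a < 1) (f : ℕ → ℝ≥0∞) :
    ∫⁻ k, f k ∂geo a = ∑' k, f k * ENNReal.ofReal ((1 - a) * a ^ k) := by
  rw [lintegral_countable']
  simp only [geo_single h0 h1]

lemma lintegral_geo_pow {a t : ℝ} (h0 : 0 ≤ a) (h1 : a < 1) (ht : 0 ≤ t) (hat : a * t < 1) :
    ∫⁻ k, ENNReal.ofReal (t ^ k) ∂geo a = ENNReal.ofReal ((1 - a) / (1 - a * t)) := by
  rw [lintegral_geo h0 h1]
  have hs := (hasSum_geometric_of_lt_one (mul_nonneg h0 ht) hat).mul_left (1 - a)
  rw [div_eq_mul_inv, ← hs.tsum_eq, ENNReal.ofReal_tsum_of_nonneg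
    (fun k => mul_nonneg (by linarith) (by positivity)) hs.summable]
  congr 1
  funext k
  rw [← ENNReal.ofReal_mul (by positivity), mul_pow]
  congr 1; ring

lemma integrable_geo {E : Type} [NormedAddCommGroup E] {a : ℝ} (h0 : 0 ≤ a) (h1 : a < 1)
    {f : ℕ → E} (h : Summable fun k => a ^ k * ‖f k‖) : Integrable f (geo a) := by
  rw [geo_eq h0 h1, integrable_sum_dirac_iff (by simp)]
  refine (h.mul_left (1 - a)).congr fun k => ?_
  rw [ENNReal.toReal_ofReal (mul_nonneg (by linarith) (by positivity)), mul_assoc]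

lemma integral_geo {E : Type} [NormedAddCommGroup E] [NormedSpace ℝ E] [FiniteDimensional ℝ E]
    {a : ℝ} (h0 : 0 ≤ a) (h1 : a < 1) (f : ℕ → E) :
    ∫ k, f k ∂geo a = ∑' k, ((1 - a) * a ^ k) • f k := by
  rw [geo_eq h0 h1, integral_sum_dirac (by simp)]
  congr with k
  rw [ENNReal.toReal_ofReal (mul_nonneg (by linarith) (by positivity))]

lemma summable_geo_pow {a : ℝ} (h0 : 0 ≤ a) (h1 : a < 1) (p : ℕ) :
    Summable fun k : ℕ => a ^ k * (k : ℝ) ^ p := by
  have := summable_pow_mul_geometric_of_norm_lt_one (R := ℝ) p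
    (r := a) (by rwa [Real.norm_of_nonneg h0])
  exact this.congr fun k => mul_comm _ _

lemma integrable_geo_pow {a : ℝ} (h0 : 0 ≤ a) (h1 : a < 1) (p : ℕ) :
    Integrable (fun k : ℕ => (k : ℝ) ^ p) (geo a) :=
  integrable_geo h0 h1 ((summable_geo_pow h0 h1 p).congr fun k => by simp)

lemma geo_mean {a : ℝ} (h0 : 0 ≤ a) (h1 : a < 1) : ∫ k, (k : ℝ) ∂geo a = a / (1 - a) := by
  rw [integral_geo h0 h1]
  have := (hasSum_coe_mul_geometric_of_norm_lt_one (r := a)
    (by rwa [Real.norm_of_nonneg h0])).mul_left (1 - a)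
  have h2 : 1 - a ≠ 0 := by linarith
  rw [show a / (1 - a) = (1 - a) * (a / (1 - a) ^ 2) by field_simp, ← this.tsum_eq]
  congr 1; funext k; simp only [smul_eq_mul]; ring

lemma geo_pow_le {a b : ℝ} (h0 : 0 ≤ a) (hab : a ≤ b) (h1 : b < 1) (p : ℕ) :
    ∫ k, (k : ℝ) ^ p ∂geo a ≤ ∑' k : ℕ, b ^ k * (k : ℝ) ^ p := by
  rw [integral_geo h0 (hab.trans_lt h1)]
  refine Summable.tsum_le_tsum (fun k => ?_) ?_ (summable_geo_pow (h0.trans hab) h1 p)
  · simp only [smul_eq_mul]
    refine mul_le_mul_of_nonneg_right ?_ (by positivity)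
    have := pow_le_pow_left₀ h0 hab k
    have h2 : 0 ≤ a ^ k := by positivity
    nlinarith
  · exact ((summable_geo_pow h0 (hab.trans_lt h1) p).mul_left (1 - a)).congr
      fun k => by simp [mul_assoc]

lemma geo_char {a : ℝ} (h0 : 0 ≤ a) (h1 : a < 1) (s : ℝ) :
    ∫ k, Complex.exp (Complex.I * s * (k : ℕ)) ∂geo a
      = (1 - a) / (1 - a * Complex.exp (Complex.I * s)) := by
  rw [integral_geo h0 h1]
  have hn : ‖(a : ℂ) * Complex.exp (Complex.I * s)‖ < 1 := by
    rw [norm_mul, Complex.norm_exp_I_mul_ofReal]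
    simpa [abs_of_nonneg h0] using h1
  have := (hasSum_geometric_of_norm_lt_one hn).mul_left (1 - a : ℂ)
  rw [div_eq_mul_inv, ← this.tsum_eq]
  congr 1; funext k
  rw [mul_pow, ← Complex.exp_nat_mul]
  simp only [Complex.real_smul, Complex.ofReal_mul, Complex.ofReal_sub, Complex.ofReal_one,
    Complex.ofReal_pow]
  rw [mul_assoc, mul_comm (k : ℂ)]

lemma geo_withDensity {a b : ℝ} (h0 : 0 < a) (h1 : a < 1) (hb0 : 0 ≤ b) (hb1 : b < 1) :
    geo b = (geo a).withDensity fun k => ENNReal.ofReal ((1 - b) / (1 - a) * (b / a) ^ k) := by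
  refine ext_of_singleton fun k => ?_
  have : 0 < 1 - a := by linarith
  have : 0 < 1 - b := by linarith
  rw [withDensity_apply _ (measurableSet_singleton k), lintegral_singleton, geo_single hb0 hb1,
    geo_single h0.le h1, ← ENNReal.ofReal_mul (by positivity)]
  congr 1
  rw [div_pow]; field_simp

lemma geo_shift {a : ℝ} (h0 : 0 < a) (h1 : a < 1) (h : ℕ) :
    (geo a).map (· + h) = (geo a).withDensity
      fun k => if h ≤ k then ENNReal.ofReal ((a ^ h)⁻¹) else 0 := by
  refine ext_of_singleton fun k => ?_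
  rw [withDensity_apply _ (measurableSet_singleton k), lintegral_singleton,
    map_apply (measurable_of_countable _) (measurableSet_singleton k)]
  split_ifs with hk
  · obtain ⟨l, rfl⟩ := Nat.exists_eq_add_of_le' hk
    have : (· + h) ⁻¹' {l + h} = {l} := by ext x; simp
    rw [this, geo_single h0.le h1, geo_single h0.le h1, ← ENNReal.ofReal_mul (by positivity)]
    congr 1
    rw [pow_add]; field_simp
  · have : (· + h) ⁻¹' {k} = ∅ := by
      ext x; simp only [Set.mem_preimage, Set.mem_singleton_iff, Set.mem_empty_iff_false]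
      constructor
      · intro hx; omega
      · exact False.elim
    simp [this]

lemma geo_tail {a : ℝ} (h0 : 0 < a) (h1 : a < 1) (K : ℕ) :
    geo a {k | K ≤ k} ≤ ENNReal.ofReal (a ^ K) := by
  have h := geo_shift h0 h1 K
  have h2 : ((geo a).map (· + K)) Set.univ = 1 := by
    rw [map_apply (measurable_of_countable _) .univ]; simp
  rw [h, withDensity_apply _ .univ, restrict_univ] at h2
  have h3 : (fun k => if K ≤ k then ENNReal.ofReal ((a ^ K)⁻¹) else 0)
      = Set.indicator {k | K ≤ k} fun _ => ENNReal.ofReal ((a ^ K)⁻¹) := by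
    funext k; simp [Set.indicator]
  rw [h3, lintegral_indicator_const (.of_discrete)] at h2
  have h4 : ENNReal.ofReal (a ^ K) * ENNReal.ofReal ((a ^ K)⁻¹) = 1 := by
    rw [← ENNReal.ofReal_mul (by positivity), mul_inv_cancel₀ (by positivity)]; simp
  apply le_of_eq
  calc geo a {k | K ≤ k} = ENNReal.ofReal (a ^ K) * ENNReal.ofReal ((a ^ K)⁻¹)
        * geo a {k | K ≤ k} := by rw [h4, one_mul]
    _ = _ := by rw [mul_assoc, h2, mul_one]

/-- Weights of the extra variable turning a geometric law of parameter `a` into parameter `b`. -/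
noncomputable def extw (a b : ℝ) : ℕ → ℝ
  | 0 => (1 - b) / (1 - a)
  | k + 1 => (1 - b) / (1 - a) * ((b - a) * b ^ k)

/-- The law of the extra variable. -/
noncomputable def extra (a b : ℝ) : Measure ℕ :=
  if 0 ≤ a ∧ a ≤ b ∧ b < 1 then Measure.sum (fun k => ENNReal.ofReal (extw a b k) • .dirac k)
  else .dirac 0

lemma extw_nonneg {a b : ℝ} (h0 : 0 ≤ a) (hab : a ≤ b) (h1 : b < 1) (k : ℕ) : 0 ≤ extw a b k := by
  have : 0 < 1 - a := by linarith
  have : 0 < 1 - b := by linarith
  have : 0 ≤ b - a := by linarith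
  have : 0 ≤ b := by linarith
  cases k <;> simp only [extw] <;> positivity

instance (a b : ℝ) : IsProbabilityMeasure (extra a b) := by
  rw [extra]
  split_ifs with h
  · obtain ⟨h0, hab, h1⟩ := h
    refine HasSum.isProbabilityMeasure_sum_dirac (extw_nonneg h0 hab h1) ?_
    rw [← hasSum_nat_add_iff' 1]
    have := ((hasSum_geometric_of_lt_one (h0.trans hab) h1).mul_left (b - a)).mul_left
      ((1 - b) / (1 - a))
    have h2 : 1 - a ≠ 0 := by linarith
    have h3 : 1 - b ≠ 0 := by linarith
    have e : (1 - b) / (1 - a) * ((b - a) * (1 - b)⁻¹) = 1 - ∑ i ∈ range 1, extw a b i := by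
      simp only [range_one, sum_singleton, extw]; field_simp; ring
    rw [e] at this
    exact this
  · infer_instance

lemma extra_single {a b : ℝ} (h0 : 0 ≤ a) (hab : a ≤ b) (h1 : b < 1) (k : ℕ) :
    extra a b {k} = ENNReal.ofReal (extw a b k) := by
  rw [extra, if_pos ⟨h0, hab, h1⟩, Measure.sum_smul_dirac_singleton]

lemma geo_conv {a b : ℝ} (h0 : 0 ≤ a) (hab : a ≤ b) (h1 : b < 1) :
    ((geo a).prod (extra a b)).map (fun p => p.1 + p.2) = geo b := by
  refine ext_of_singleton fun k => ?_
  have ha1 : a < 1 := hab.trans_lt h1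
  rw [map_apply (measurable_of_countable _) (measurableSet_singleton k)]
  have : (fun p : ℕ × ℕ => p.1 + p.2) ⁻¹' {k} = ↑(antidiagonal k) := by ext p; simp
  rw [this, ← sum_measure_singleton, geo_single (h0.trans hab) h1]
  have e : ∀ p : ℕ × ℕ, ((geo a).prod (extra a b)) {p}
      = ENNReal.ofReal ((1 - a) * a ^ p.1 * extw a b p.2) := by
    intro p
    rw [← Set.singleton_prod_singleton, prod_prod, geo_single h0 ha1, extra_single h0 hab h1,
      ← ENNReal.ofReal_mul (mul_nonneg (by linarith) (by positivity))]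
  simp only [e]
  rw [← ENNReal.ofReal_sum_of_nonneg fun p _ =>
    mul_nonneg (mul_nonneg (by linarith) (by positivity)) (extw_nonneg h0 hab h1 _)]
  congr 1
  have h2 : 1 - a ≠ 0 := by linarith
  clear this
  induction k with
  | zero => simp [extw]; field_simp
  | succ k ih =>
    rw [Nat.antidiagonal_succ, sum_cons, sum_map]
    have : ∑ p ∈ antidiagonal k, (1 - a) * a ^ (p.1 + 1) * extw a b p.2
        = a * ((1 - b) * b ^ k) := by
      rw [← ih, mul_sum]
      exact sum_congr rfl fun p _ => by ring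
    refine Eq.trans (congrArg₂ (· + ·) rfl this) ?_
    simp only [extw]
    field_simp; ring

lemma extra_half {a b : ℝ} (h0 : 0 ≤ a) (hab : a ≤ b) (h1 : b < 1) :
    ∫⁻ k, ENNReal.ofReal ((1 / 2) ^ k) ∂extra a b ≤ ENNReal.ofReal (1 - (b - a) / 2) := by
  have ha : 0 < 1 - a := by linarith
  calc ∫⁻ k, ENNReal.ofReal ((1 / 2) ^ k) ∂extra a b
      ≤ ∫⁻ k, (ENNReal.ofReal (1 / 2)
          + Set.indicator {0} (fun _ => ENNReal.ofReal (1 / 2)) k) ∂extra a b := by
        refine lintegral_mono fun k => ?_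
        cases k with
        | zero =>
          simp only [pow_zero, Set.indicator_of_mem (Set.mem_singleton 0)]
          rw [← ENNReal.ofReal_add (by norm_num) (by norm_num)]; norm_num
        | succ k =>
          refine le_trans (ENNReal.ofReal_le_ofReal ?_) le_self_add
          rw [pow_succ]
          have : (1 / 2 : ℝ) ^ k ≤ 1 := pow_le_one₀ (by norm_num) (by norm_num)
          linarith
    _ = ENNReal.ofReal (1 / 2 + 1 / 2 * ((1 - b) / (1 - a))) := by
        rw [lintegral_add_left measurable_const, lintegral_indicator_const (.of_discrete),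
          extra_single h0 hab h1, lintegral_const, measure_univ, mul_one,
          ← ENNReal.ofReal_mul (by norm_num), ← ENNReal.ofReal_add (by norm_num)]
        · rfl
        · have := extw_nonneg h0 hab h1 0
          positivity
    _ ≤ _ := by
        refine ENNReal.ofReal_le_ofReal ?_
        have : (1 - b) / (1 - a) ≤ 1 - (b - a) := by
          rw [div_le_iff₀ ha]; nlinarith
        linarith

lemma flip3_map {α β q : ℝ} (ha0 : 0 ≤ α) (ha1 : α < 1) (hb0 : 0 ≤ β) (hb1 : β < 1)
    (hq : α * β = q) :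
    ((geo α).prod ((geo β).prod (geo q))).map flip3 = (geo α).prod ((geo β).prod (geo q)) := by
  have hq0 : 0 ≤ q := hq ▸ mul_nonneg ha0 hb0
  have hq1 : q < 1 := by nlinarith
  have e : ∀ p : ℕ × ℕ × ℕ, ((geo α).prod ((geo β).prod (geo q))) {p} = ENNReal.ofReal
      ((1 - α) * (1 - β) * (1 - q) * (α ^ p.1 * β ^ p.2.1 * q ^ p.2.2)) := by
    rintro ⟨i, j, k⟩
    rw [← Set.singleton_prod_singleton, prod_prod, ← Set.singleton_prod_singleton, prod_prod,
      geo_single ha0 ha1, geo_single hb0 hb1, geo_single hq0 hq1,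
      ← ENNReal.ofReal_mul (mul_nonneg (by linarith) (by positivity)),
      ← ENNReal.ofReal_mul (mul_nonneg (by linarith) (by positivity))]
    congr 1; ring
  refine ext_of_singleton fun p => ?_
  rw [map_apply (measurable_of_countable _) (measurableSet_singleton p)]
  have : flip3 ⁻¹' {p} = {flip3 p} := by
    ext x
    simp only [Set.mem_preimage, Set.mem_singleton_iff]
    constructor
    · rintro rfl; rw [flip3_flip3]
    · rintro rfl; rw [flip3_flip3]
  rw [this, e, e]
  congr 2
  obtain ⟨i, j, k⟩ := p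
  simp only [flip3, ← hq, mul_pow]
  rcases le_total i j with h | h
  · obtain ⟨l, rfl⟩ := Nat.exists_eq_add_of_le h
    simp only [Nat.sub_eq_zero_of_le h, Nat.add_sub_cancel_left, min_eq_left h, pow_add, add_zero]
    ring
  · obtain ⟨l, rfl⟩ := Nat.exists_eq_add_of_le h
    simp only [Nat.sub_eq_zero_of_le h, Nat.add_sub_cancel_left, min_eq_right h, pow_add, add_zero]
    ring

end Pool.Agent.HideZero
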