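import Pool.Agent.Lib.MP_9debf8_pr.Burke

set_option autoImplicit false

/-! Moments of sums of geometric weights and abstract sandwich lemmas. -/

open Finset MeasureTheory MeasureTheory.Measure ProbabilityTheory
open scoped ENNReal

namespace Pool.Agent.HideZero

/-- Uniform moment bound. -/
noncomputable def Cm (b : ℝ) (p : ℕ) : ℝ := ∑' k : ℕ, b ^ k * (k : ℝ) ^ p

lemma Cm_nonneg {b : ℝ} (hb : 0 ≤ b) (p : ℕ) : 0 ≤ Cm b p := tsum_nonneg fun _ => by positivity

/-- Sum of the weights over a finite set. -/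
def SS (B : Finset (ℕ × ℕ)) (ξ : Fld) : ℝ := ∑ u ∈ B, (ξ u : ℝ)

lemma SS_nonneg (B : Finset (ℕ × ℕ)) (ξ : Fld) : 0 ≤ SS B ξ := sum_nonneg fun _ _ => by positivity

lemma measurable_cast {α : Type} [MeasurableSpace α] {f : α → ℕ} (hf : Measurable f) :
    Measurable fun x => (f x : ℝ) := (measurable_of_countable fun k : ℕ => (k : ℝ)).comp hf

lemma measurable_SS (B : Finset (ℕ × ℕ)) : Measurable (SS B) :=
  Finset.measurable_sum _ fun v _ => measurable_cast (measurable_pi_apply v)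

lemma mp_eval (a : ℕ × ℕ → ℝ) (v : ℕ × ℕ) :
    MeasurePreserving (fun ξ : Fld => ξ v) (Pa a) (geo (a v)) :=
  measurePreserving_eval_infinitePi (fun v => geo (a v)) v

lemma mp_integral {α β E : Type} [MeasurableSpace α] [MeasurableSpace β] {μ : Measure α}
    {ν : Measure β} {φ : α → β} (h : MeasurePreserving φ μ ν) [NormedAddCommGroup E]
    [NormedSpace ℝ E] [MeasurableSpace E] [BorelSpace E] [SecondCountableTopology E]
    {f : β → E} (hf : Measurable f) : ∫ x, f (φ x) ∂μ = ∫ y, f y ∂ν := by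
  rw [← h.map_eq, integral_map h.measurable.aemeasurable hf.aestronglyMeasurable]

lemma mp_real {α β : Type} [MeasurableSpace α] [MeasurableSpace β] {μ : Measure α}
    {ν : Measure β} {φ : α → β} (h : MeasurePreserving φ μ ν) {s : Set β} (hs : MeasurableSet s) :
    μ.real (φ ⁻¹' s) = ν.real s := by
  rw [measureReal_def, h.measure_preimage hs.nullMeasurableSet, measureReal_def]

lemma integrable_eval_pow {a : ℕ × ℕ → ℝ} {v : ℕ × ℕ} (h0 : 0 ≤ a v) (h1 : a v < 1) (p : ℕ) :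
    Integrable (fun ξ : Fld => (ξ v : ℝ) ^ p) (Pa a) :=
  (mp_eval a v).integrable_comp_of_integrable (integrable_geo_pow h0 h1 p)

lemma SS_pow_le (B : Finset (ℕ × ℕ)) (ξ : Fld) (p : ℕ) :
    SS B ξ ^ (p + 1) ≤ (B.card : ℝ) ^ p * ∑ u ∈ B, (ξ u : ℝ) ^ (p + 1) :=
  pow_sum_le_card_mul_sum_pow (fun _ _ => by positivity) p

lemma integrable_SS_pow {a : ℕ × ℕ → ℝ} {B : Finset (ℕ × ℕ)} (h : ∀ v ∈ B, 0 ≤ a v ∧ a v < 1)
    (p : ℕ) : Integrable (fun ξ => SS B ξ ^ (p + 1)) (Pa a) := by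
  refine Integrable.mono' (g := fun ξ => (B.card : ℝ) ^ p * ∑ u ∈ B, (ξ u : ℝ) ^ (p + 1))
    ((integrable_finsetSum _ fun v hv => integrable_eval_pow (h v hv).1 (h v hv).2 _).const_mul _)
    ((measurable_SS B).pow_const _).aestronglyMeasurable (ae_of_all _ fun ξ => ?_)
  rw [Real.norm_of_nonneg (pow_nonneg (SS_nonneg B ξ) _)]
  exact SS_pow_le B ξ p

lemma integral_SS_pow_le {a : ℕ × ℕ → ℝ} {B : Finset (ℕ × ℕ)} {b : ℝ} (hb : b < 1)
    (h : ∀ v ∈ B, 0 ≤ a v ∧ a v ≤ b) (p : ℕ) :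
    ∫ ξ, SS B ξ ^ (p + 1) ∂Pa a ≤ (B.card : ℝ) ^ (p + 1) * Cm b (p + 1) := by
  have h' : ∀ v ∈ B, 0 ≤ a v ∧ a v < 1 := fun v hv => ⟨(h v hv).1, (h v hv).2.trans_lt hb⟩
  have hi := fun v hv => integrable_eval_pow (h' v hv).1 (h' v hv).2 (p + 1)
  calc ∫ ξ, SS B ξ ^ (p + 1) ∂Pa a
      ≤ ∫ ξ, (B.card : ℝ) ^ p * ∑ u ∈ B, (ξ u : ℝ) ^ (p + 1) ∂Pa a :=
        integral_mono (integrable_SS_pow h' p) ((integrable_finsetSum _ hi).const_mul _)
          fun ξ => SS_pow_le B ξ p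
    _ ≤ (B.card : ℝ) ^ p * ∑ u ∈ B, Cm b (p + 1) := by
        rw [integral_const_mul, integral_finsetSum _ hi]
        refine mul_le_mul_of_nonneg_left (sum_le_sum fun v hv => ?_) (by positivity)
        rw [mp_integral (mp_eval a v) (f := fun k : ℕ => (k : ℝ) ^ (p + 1))
          (measurable_of_countable _)]
        exact geo_pow_le (h v hv).1 (h v hv).2 hb _
    _ = _ := by rw [sum_const, nsmul_eq_mul]; ring

section const

variable {a : ℕ × ℕ → ℝ} {B : Finset (ℕ × ℕ)} {α : ℝ} (h0 : 0 ≤ α) (h1 : α < 1)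
  (h : ∀ v ∈ B, a v = α)
include h0 h1 h

lemma SS_mean : ∫ ξ, SS B ξ ∂Pa a = B.card * (α / (1 - α)) := by
  have hi : ∀ v ∈ B, Integrable (fun ξ : Fld => (ξ v : ℝ)) (Pa a) := fun v hv => by
    simpa using integrable_eval_pow (a := a) (v := v) (by rwa [h v hv]) (by rwa [h v hv]) 1
  unfold SS
  rw [integral_finsetSum _ hi, ← nsmul_eq_mul, ← sum_const]
  refine sum_congr rfl fun v hv => ?_
  rw [mp_integral (mp_eval a v) (f := fun k : ℕ => (k : ℝ)) (measurable_of_countable _), h v hv,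
    geo_mean h0 h1]

lemma SS_sq {b : ℝ} (hab : α ≤ b) (hb : b < 1) (c : ℝ) :
    ∫ ξ, (SS B ξ - c) ^ 2 ∂Pa a ≤ B.card * Cm b 2 + (B.card * (α / (1 - α)) - c) ^ 2 := by
  have hm : ∀ v ∈ B, MemLp (fun ξ : Fld => (ξ v : ℝ)) 2 (Pa a) := fun v hv =>
    (memLp_two_iff_integrable_sq
      (measurable_cast (measurable_pi_apply v)).aestronglyMeasurable).2
      (integrable_eval_pow (by rwa [h v hv]) (by rwa [h v hv]) 2)
  have hind : iIndepFun (fun v (ξ : Fld) => (ξ v : ℝ)) (Pa a) :=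
    iIndepFun_infinitePi (X := fun _ (k : ℕ) => (k : ℝ)) fun _ => measurable_of_countable _
  have hv := IndepFun.variance_sum hm (fun i _ j _ hij => hind.indepFun hij)
  have e : ∑ i ∈ B, (fun ξ : Fld => (ξ i : ℝ)) = SS B := by
    funext ξ; simp [SS]
  rw [e] at hv
  have hS : MemLp (SS B) 2 (Pa a) := e ▸ memLp_finsetSum' _ hm
  have h2 : variance (SS B) (Pa a) ≤ B.card * Cm b 2 := by
    rw [hv, ← nsmul_eq_mul, ← sum_const]
    refine sum_le_sum fun v hv => (variance_le_expectation_sq (hm v hv).1).trans ?_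
    have := mp_integral (mp_eval a v) (f := fun k : ℕ => (k : ℝ) ^ 2) (measurable_of_countable _)
    refine le_trans (le_of_eq this) ?_
    rw [h v hv]
    exact geo_pow_le h0 hab hb 2
  have h3 := variance_eq_sub (hS.sub (memLp_const c))
  have h4 : variance (SS B - fun _ => c) (Pa a) = variance (SS B) (Pa a) :=
    variance_sub_const hS.1 c
  have h5 : ∫ ξ, (SS B - fun _ => c : Fld → ℝ) ξ ∂Pa a = B.card * (α / (1 - α)) - c := by
    simp only [Pi.sub_apply]
    rw [integral_sub (hS.integrable (by norm_num)) (integrable_const c), SS_mean h0 h1 h]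
    simp
  rw [h4, h5] at h3
  have h6 : ∫ ξ, (SS B ξ - c) ^ 2 ∂Pa a = ∫ ξ, ((SS B - fun _ => c) ^ 2 : Fld → ℝ) ξ ∂Pa a := rfl
  linarith

lemma SS_char (s : ℝ) : ∫ ξ, Complex.exp (Complex.I * s * SS B ξ) ∂Pa a
    = ((1 - α) / (1 - α * Complex.exp (Complex.I * s))) ^ B.card := by
  have e : ∀ ξ : Fld, Complex.exp (Complex.I * s * SS B ξ)
      = ∏ v ∈ B, Complex.exp (Complex.I * s * (ξ v : ℕ)) := by
    intro ξ
    rw [← Complex.exp_sum, ← mul_sum]
    simp [SS]
  simp only [e]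
  rw [Pa, integral_prod_pi _ B (fun _ (k : ℕ) => Complex.exp (Complex.I * s * k))
    (fun _ => measurable_of_countable _), ← prod_const]
  exact prod_congr rfl fun v hv => by rw [h v hv, geo_char h0 h1]

end const

lemma char_norm_le {α s : ℝ} (h0 : 0 ≤ α) (h1 : α < 1) {k : ℕ} (hs : s ^ 2 * k = 1) :
    ‖((1 - α : ℂ) / (1 - α * Complex.exp (Complex.I * s))) ^ k‖ ≤ 1 - α / 20 := by
  have hk : (1 : ℝ) ≤ k := by
    rcases Nat.eq_zero_or_pos k with h | h
    · simp [h] at hs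
    · exact_mod_cast h
  have hs1 : s ^ 2 ≤ 1 := by nlinarith [sq_nonneg s]
  have hs2 : |s| ≤ Real.pi := by
    have : |s| ≤ 1 := by rwa [← sq_le_one_iff_abs_le_one]
    linarith [Real.pi_gt_three]
  have hcos := Real.cos_le_one_sub_mul_cos_sq hs2
  have hpi : 1 / 5 ≤ 2 / Real.pi ^ 2 := by
    rw [div_le_div_iff₀ (by norm_num) (by positivity)]
    nlinarith [Real.pi_lt_d2, Real.pi_pos]
  have hcos2 : Real.cos s ≤ 1 - s ^ 2 / 5 := by nlinarith [sq_nonneg s]
  have hden : ‖(1 - α * Complex.exp (Complex.I * s) : ℂ)‖ ^ 2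
      = (1 - α) ^ 2 + 2 * α * (1 - Real.cos s) := by
    rw [Complex.sq_norm, Complex.normSq_apply, mul_comm Complex.I, Complex.exp_mul_I]
    simp only [Complex.sub_re, Complex.one_re, Complex.mul_re, Complex.ofReal_re, Complex.add_re,
      Complex.cos_ofReal_re, Complex.sin_ofReal_re, Complex.I_re, Complex.sin_ofReal_im,
      Complex.I_im, Complex.ofReal_im, Complex.add_im, Complex.cos_ofReal_im, Complex.mul_im,
      Complex.sub_im, Complex.one_im]
    nlinarith [Real.sin_sq_add_cos_sq s]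
  have h1a : 0 < 1 - α := by linarith
  have hq : ‖((1 - α : ℂ) / (1 - α * Complex.exp (Complex.I * s)))‖ ^ 2
      ≤ 1 / (1 + α * s ^ 2 * (2 / 5)) := by
    rw [norm_div, div_pow, hden]
    have : ‖(1 - α : ℂ)‖ = 1 - α := by
      rw [← Complex.ofReal_one, ← Complex.ofReal_sub, Complex.norm_real, Real.norm_of_nonneg h1a.le]
    rw [this]
    have h3 : 0 ≤ α * s ^ 2 := by positivity
    have h4 : α * s ^ 2 * (2 / 5) ≤ 2 * α * (1 - Real.cos s) := by nlinarith
    rw [div_le_div_iff₀ (by nlinarith) (by positivity)]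
    have h5 : (1 - α) ^ 2 ≤ 1 := by nlinarith
    nlinarith
  have hb : 1 + α * (2 / 5) ≤ (1 + α * s ^ 2 * (2 / 5)) ^ k := by
    have := one_add_mul_le_pow (a := α * s ^ 2 * (2 / 5)) (by nlinarith [sq_nonneg s]) k
    calc 1 + α * (2 / 5) = 1 + k * (α * s ^ 2 * (2 / 5)) := by
          rw [show (k : ℝ) * (α * s ^ 2 * (2 / 5)) = (s ^ 2 * k) * (α * (2 / 5)) by ring, hs,
            one_mul]
      _ ≤ _ := this
  refine (pow_le_pow_iff_left₀ (norm_nonneg _) (by linarith) two_ne_zero).1 ?_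
  rw [norm_pow, ← pow_mul, mul_comm k, pow_mul]
  calc _ ≤ (1 / (1 + α * s ^ 2 * (2 / 5))) ^ k := pow_le_pow_left₀ (by positivity) hq k
    _ ≤ 1 / (1 + α * (2 / 5)) := by
        rw [one_div_pow]
        exact one_div_le_one_div_of_le (by positivity) hb
    _ ≤ _ := by
        rw [div_le_iff₀ (by positivity)]
        nlinarith [mul_nonneg h0 h0, mul_nonneg h0 (mul_nonneg h0 h0)]

section abstract

variable {Ω : Type} [MeasurableSpace Ω] {μ : Measure Ω} [IsProbabilityMeasure μ]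

lemma integrable_of_sq {f : Ω → ℝ} (hm : Measurable f) (h2 : Integrable (fun ω => f ω ^ 2) μ) :
    Integrable f μ :=
  ((memLp_two_iff_integrable_sq hm.aestronglyMeasurable).2 h2).integrable (by norm_num)

lemma bad_le {B : Set Ω} (hB : MeasurableSet B) {f : Ω → ℝ} (hm : Measurable f)
    (h2 : Integrable (fun ω => f ω ^ 2) μ) {lam : ℝ} (hl : 0 < lam) :
    ∫ ω, B.indicator f ω ∂μ ≤ lam * μ.real B + (∫ ω, f ω ^ 2 ∂μ) / lam := by
  have h1 := integrable_of_sq hm h2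
  calc ∫ ω, B.indicator f ω ∂μ ≤ ∫ ω, (B.indicator (fun _ => lam) ω + f ω ^ 2 / lam) ∂μ := by
        refine integral_mono (h1.indicator hB)
          (((integrable_const lam).indicator hB).add (h2.div_const _)) fun ω => ?_
        by_cases hω : ω ∈ B
        · simp only [Set.indicator_of_mem hω]
          rw [← sub_le_iff_le_add', le_div_iff₀ hl]
          nlinarith [sq_nonneg (f ω - lam), sq_nonneg (f ω)]
        · simp only [Set.indicator_of_notMem hω, zero_add]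
          positivity
    _ = _ := by
        rw [integral_add ((integrable_const lam).indicator hB) (h2.div_const _),
          integral_indicator_const _ hB, integral_div, smul_eq_mul, mul_comm]

lemma sand_abs {B : Set Ω} (hB : MeasurableSet B) {X Z : Ω → ℝ} (hm : Measurable X)
    (h2 : Integrable (fun ω => X ω ^ 2) μ) (hZ : Integrable Z μ) (hZ0 : ∀ ω, 0 ≤ Z ω)
    (hX0 : ∀ ω, 0 ≤ X ω) (hle : ∀ ω, ω ∉ B → X ω ≤ Z ω) {lam : ℝ} (hl : 0 < lam) :
    ∫ ω, |Z ω - X ω| ∂μ ≤ ∫ ω, Z ω ∂μ - ∫ ω, X ω ∂μ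
      + 2 * (lam * μ.real B + (∫ ω, X ω ^ 2 ∂μ) / lam) := by
  have h1 := integrable_of_sq hm h2
  have h3 := bad_le hB hm h2 hl
  calc ∫ ω, |Z ω - X ω| ∂μ ≤ ∫ ω, (Z ω - X ω + 2 * B.indicator X ω) ∂μ := by
        refine integral_mono (hZ.sub h1).abs ((hZ.sub h1).add ((h1.indicator hB).const_mul _))
          fun ω => ?_
        by_cases hω : ω ∈ B
        · simp only [Set.indicator_of_mem hω]
          rw [abs_le]; constructor <;> linarith [hZ0 ω, hX0 ω]
        · simp only [Set.indicator_of_notMem hω]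
          rw [abs_of_nonneg (by linarith [hle ω hω])]; linarith
    _ ≤ _ := by
        rw [integral_add (f := fun ω => Z ω - X ω) (hZ.sub h1) ((h1.indicator hB).const_mul _),
          integral_sub hZ h1,
          integral_const_mul]
        linarith

lemma sand_mean {B : Set Ω} (hB : MeasurableSet B) {X Z : Ω → ℝ} (hm : Measurable X)
    (h2 : Integrable (fun ω => X ω ^ 2) μ) (hZ : Integrable Z μ) (hZ0 : ∀ ω, 0 ≤ Z ω)
    (hX0 : ∀ ω, 0 ≤ X ω) (hle : ∀ ω, ω ∉ B → X ω ≤ Z ω) {lam : ℝ} (hl : 0 < lam) :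
    ∫ ω, X ω ∂μ ≤ ∫ ω, Z ω ∂μ + 2 * (lam * μ.real B + (∫ ω, X ω ^ 2 ∂μ) / lam) := by
  have := sand_abs hB hm h2 hZ hZ0 hX0 hle hl
  have h3 : 0 ≤ ∫ ω, |Z ω - X ω| ∂μ := integral_nonneg fun _ => abs_nonneg _
  linarith

lemma char_close {X Y : Ω → ℝ} (hX : Measurable X) (hY : Measurable Y)
    (hi : Integrable (fun ω => X ω - Y ω) μ) {s : ℝ} (hs : 0 ≤ s) :
    ‖∫ ω, Complex.exp (Complex.I * s * X ω) ∂μ‖
      ≤ ‖∫ ω, Complex.exp (Complex.I * s * Y ω) ∂μ‖ + s * ∫ ω, |X ω - Y ω| ∂μ := by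
  have hint : ∀ {X : Ω → ℝ}, Measurable X →
      Integrable (fun ω => Complex.exp (Complex.I * s * X ω)) μ := by
    intro X hX
    refine Integrable.of_bound (C := 1) (by fun_prop) (ae_of_all _ fun ω => ?_)
    rw [mul_assoc, ← Complex.ofReal_mul, Complex.norm_exp_I_mul_ofReal]
  have h1 : ‖∫ ω, Complex.exp (Complex.I * s * X ω) ∂μ
      - ∫ ω, Complex.exp (Complex.I * s * Y ω) ∂μ‖ ≤ s * ∫ ω, |X ω - Y ω| ∂μ := by
    rw [← integral_sub (hint hX) (hint hY), ← integral_const_mul]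
    refine norm_integral_le_of_norm_le (hi.abs.const_mul _) (ae_of_all _ fun ω => ?_)
    have : Complex.exp (Complex.I * s * X ω) - Complex.exp (Complex.I * s * Y ω)
        = Complex.exp (Complex.I * (s * Y ω : ℝ))
          * (Complex.exp (Complex.I * (s * (X ω - Y ω) : ℝ)) - 1) := by
      rw [mul_sub, ← Complex.exp_add]
      push_cast
      ring_nf
    rw [this, norm_mul, Complex.norm_exp_I_mul_ofReal, one_mul]
    refine Real.norm_exp_I_mul_ofReal_sub_one_le.trans (le_of_eq ?_)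
    rw [Real.norm_eq_abs, abs_mul, abs_of_nonneg hs]
  linarith [norm_le_norm_add_norm_sub' (∫ ω, Complex.exp (Complex.I * s * X ω) ∂μ)
    (∫ ω, Complex.exp (Complex.I * s * Y ω) ∂μ)]

lemma char_lower {D : Ω → ℝ} (hD : Measurable D) (h2 : Integrable (fun ω => D ω ^ 2) μ) (s : ℝ) :
    1 - ‖∫ ω, Complex.exp (Complex.I * s * D ω) ∂μ‖ ≤ s ^ 2 / 2 * ∫ ω, D ω ^ 2 ∂μ := by
  have hint : Integrable (fun ω => Complex.exp (Complex.I * s * D ω)) μ := by
    refine Integrable.of_bound (C := 1) (by fun_prop) (ae_of_all _ fun ω => ?_)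
    rw [mul_assoc, ← Complex.ofReal_mul, Complex.norm_exp_I_mul_ofReal]
  have h1 := Complex.re_le_norm (∫ ω, Complex.exp (Complex.I * s * D ω) ∂μ)
  have h3 := integral_re hint
  simp only [RCLike.re_to_complex] at h3
  have h4 : ∫ ω, (1 - s ^ 2 / 2 * D ω ^ 2) ∂μ
      ≤ ∫ ω, (Complex.exp (Complex.I * s * D ω)).re ∂μ := by
    refine integral_mono ((integrable_const _).sub (h2.const_mul _)) hint.re fun ω => ?_
    simp only
    rw [mul_assoc, ← Complex.ofReal_mul, mul_comm Complex.I, Complex.exp_ofReal_mul_I_re]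
    have := Real.one_sub_sq_div_two_le_cos (x := s * D ω)
    nlinarith
  rw [integral_sub (integrable_const _) (h2.const_mul _), integral_const_mul] at h4
  simp only [integral_const, probReal_univ, smul_eq_mul, mul_one] at h4
  linarith

end abstract

lemma indep_mul (q : ℝ) (S : Set (ℕ × ℕ)) {f g : Fld → ℂ} (hf : Measurable f) (hg : Measurable g)
    (hfS : ∀ ω ω', (∀ v ∈ S, ω v = ω' v) → f ω = f ω')
    (hgS : ∀ ω ω', (∀ v ∉ S, ω v = ω' v) → g ω = g ω') :
    ∫ ξ, f ξ * g ξ ∂Pq q = (∫ ξ, f ξ ∂Pq q) * ∫ ξ, g ξ ∂Pq q := by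
  classical
  have h := map_merge (fun _ : ℕ × ℕ => geo q) (fun _ => geo q) S
  simp only [ite_self] at h
  have hmp : MeasurePreserving (fun (p : Fld × Fld) v => if v ∈ S then p.1 v else p.2 v)
      ((Pq q).prod (Pq q)) (Pq q) := ⟨measurable_merge S, h⟩
  rw [← mp_integral hmp (f := fun ξ => f ξ * g ξ) (hf.mul hg), ← integral_prod_mul]
  congr 1
  funext p
  rw [hfS _ p.1 (fun v hv => by simp [hv]), hgS _ p.2 (fun v hv => by simp [hv])]

end Pool.Agent.HideZero
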