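import Mathlib

set_option autoImplicit false

/-! Tensor operators on functions of finitely many independent finite variables. -/

open Finset

namespace Pool.Agent.HideZero

/-- Probability weights on a finite type. -/
structure Wt (Ω : Type) [Fintype Ω] where
  w : Ω → ℝ
  nonneg : ∀ a, 0 ≤ w a
  sum_one : ∑ a, w a = 1

variable {ι Ω : Type} [Fintype ι] [DecidableEq ι] [Fintype Ω] [DecidableEq Ω]

/-- The tensor product of one-site kernels, acting on functions. -/
noncomputable def op (κ : ι → Matrix Ω Ω ℝ) : ((ι → Ω) → ℝ) →ₗ[ℝ] ((ι → Ω) → ℝ) :=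
  Matrix.mulVecLin (Matrix.of fun x y : ι → Ω => ∏ i, κ i (x i) (y i))

omit [DecidableEq Ω] in
lemma op_apply (κ : ι → Matrix Ω Ω ℝ) (f : (ι → Ω) → ℝ) (x : ι → Ω) :
    op κ f x = ∑ y : ι → Ω, (∏ i, κ i (x i) (y i)) * f y := rfl

omit [DecidableEq Ω] in
lemma op_op (κ κ' : ι → Matrix Ω Ω ℝ) (f : (ι → Ω) → ℝ) :
    op κ (op κ' f) = op (κ * κ') f := by
  funext x
  simp only [op_apply, mul_sum]
  rw [sum_comm]
  refine sum_congr rfl fun z _ => ?_
  simp only [← mul_assoc]
  rw [← sum_mul]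
  congr 1
  simp only [← prod_mul_distrib, Pi.mul_apply, Matrix.mul_apply]
  rw [Finset.prod_univ_sum]
  simp

lemma op_single (i : ι) (A : Matrix Ω Ω ℝ) (f : (ι → Ω) → ℝ) (x : ι → Ω) :
    op (Function.update 1 i A) f x = ∑ b, A (x i) b * f (Function.update x i b) := by
  rw [op_apply]
  symm
  refine Finset.sum_of_injOn (fun b => Function.update x i b) ?_ (by simp) ?_ ?_
  · intro b _ b' _ h
    have := congrFun h i
    simpa using this
  · intro y _ hy
    have : ∃ j, j ≠ i ∧ y j ≠ x j := by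
      by_contra hc
      push Not at hc
      apply hy
      refine ⟨y i, by simp, ?_⟩
      funext j
      by_cases hj : j = i
      · subst hj; simp
      · simp [Function.update_of_ne hj, hc j hj]
    obtain ⟨j, hj, hyj⟩ := this
    rw [Finset.prod_eq_zero (Finset.mem_univ j), zero_mul]
    rw [Function.update_of_ne hj]
    simp [hyj.symm]
  · intro b _
    congr 1
    rw [Finset.prod_eq_single i]
    · simp
    · intro j _ hj
      simp [Function.update_of_ne hj]
    · simp

lemma op_one (f : (ι → Ω) → ℝ) : op (1 : ι → Matrix Ω Ω ℝ) f = f := by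
  funext x
  rw [op_apply, Finset.sum_eq_single x]
  · simp
  · intro y _ hy
    obtain ⟨j, hj⟩ := Function.ne_iff.1 hy
    rw [Finset.prod_eq_zero (Finset.mem_univ j), zero_mul]
    simp [Ne.symm hj]
  · simp

omit [DecidableEq Ω] in
lemma op_smul_ker (t : ι → ℝ) (κ : ι → Matrix Ω Ω ℝ) (f : (ι → Ω) → ℝ) :
    op (fun i => t i • κ i) f = (∏ i, t i) • op κ f := by
  funext x
  simp only [op_apply, Pi.smul_apply, smul_eq_mul, mul_sum, Matrix.smul_apply,
    prod_mul_distrib, mul_assoc]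

variable (W : Wt Ω)

/-- The kernel `a E + c (I - E)`. -/
def ker (a c : ℝ) : Matrix Ω Ω ℝ :=
  Matrix.of fun x y => (a - c) * W.w y + c * (if x = y then 1 else 0)

lemma ker_mul (a c a' c' : ℝ) : ker W a c * ker W a' c' = ker W (a * a') (c * c') := by
  ext x z
  simp only [ker, Matrix.mul_apply, Matrix.of_apply, add_mul, mul_add, sum_add_distrib]
  have h1 : ∑ y, (a - c) * W.w y * ((a' - c') * W.w z) = (a - c) * (a' - c') * W.w z := by
    have : ∀ y, (a - c) * W.w y * ((a' - c') * W.w z) = ((a - c) * (a' - c') * W.w z) * W.w y :=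
      fun y => by ring
    simp only [this, ← mul_sum, W.sum_one, mul_one]
  rw [h1]
  simp only [mul_ite, mul_one, mul_zero, ite_mul, zero_mul, sum_ite_eq, sum_ite_eq', mem_univ,
    if_true]
  split_ifs <;> ring

lemma ker_one : ker W 1 1 = 1 := by
  ext x y
  simp [ker, Matrix.one_apply]

lemma ker_smul (t a c : ℝ) : ker W (t * a) (t * c) = t • ker W a c := by
  ext x y
  simp only [ker, Matrix.of_apply, Matrix.smul_apply, smul_eq_mul]
  ring

/-- The operator with eigenvalue `a i` on constants and `c i` on centred functions at site `i`. -/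
noncomputable def U (a c : ι → ℝ) : ((ι → Ω) → ℝ) →ₗ[ℝ] ((ι → Ω) → ℝ) :=
  op fun i => ker W (a i) (c i)

lemma U_U (a c a' c' : ι → ℝ) (f : (ι → Ω) → ℝ) :
    U W a c (U W a' c' f) = U W (a * a') (c * c') f := by
  unfold U
  rw [op_op]
  congr 2
  funext i
  simp [ker_mul]

lemma U_comm (a c a' c' : ι → ℝ) (f : (ι → Ω) → ℝ) :
    U W a c (U W a' c' f) = U W a' c' (U W a c f) := by
  rw [U_U, U_U, mul_comm a, mul_comm c]

lemma U_one (f : (ι → Ω) → ℝ) : U W 1 1 f = f := by
  unfold U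
  have : (fun i : ι => ker W ((1 : ι → ℝ) i) ((1 : ι → ℝ) i)) = 1 := by
    funext i; simp [ker_one]
  rw [this, op_one]

lemma U_smul (t a c : ι → ℝ) (f : (ι → Ω) → ℝ) :
    U W (t * a) (t * c) f = (∏ i, t i) • U W a c f := by
  unfold U
  rw [← op_smul_ker]
  congr 2
  funext i
  simp [ker_smul]

/-- The function equal to `r` on `J` and to `1` off `J`. -/
def sel (J : Finset ι) (r : ℝ) : ι → ℝ := fun i => if i ∈ J then r else 1

/-- Noise operator with parameter `r` on the sites of `J`. -/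
noncomputable def TT (r : ℝ) (J : Finset ι) : ((ι → Ω) → ℝ) →ₗ[ℝ] ((ι → Ω) → ℝ) :=
  U W 1 (sel J r)

/-- Averaging over the sites of `J`. -/
noncomputable def EE (J : Finset ι) : ((ι → Ω) → ℝ) →ₗ[ℝ] ((ι → Ω) → ℝ) := U W 1 (sel J 0)

/-- Iterated Laplacian over the sites of `S`. -/
noncomputable def LL (S : Finset ι) : ((ι → Ω) → ℝ) →ₗ[ℝ] ((ι → Ω) → ℝ) := U W (sel S 0) 1

omit [Fintype ι] in
lemma sel_empty (r : ℝ) : sel (∅ : Finset ι) r = 1 := by funext i; simp [sel]

omit [Fintype ι] in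
lemma sel_mul_same (J : Finset ι) (r r' : ℝ) : sel J r * sel J r' = sel J (r * r') := by
  funext i; simp only [sel, Pi.mul_apply]; split_ifs <;> simp

omit [Fintype ι] in
lemma sel_mul_disj {J J' : Finset ι} (h : Disjoint J J') (r : ℝ) :
    sel J r * sel J' r = sel (J ∪ J') r := by
  funext i
  simp only [sel, Pi.mul_apply, mem_union]
  by_cases h1 : i ∈ J
  · have : i ∉ J' := disjoint_left.1 h h1
    simp [h1, this]
  · simp [h1]

omit [Fintype ι] in
lemma sel_mul_zero (J J' : Finset ι) : sel J 0 * sel J' 0 = sel (J ∪ J') 0 := by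
  funext i
  simp only [sel, Pi.mul_apply, mem_union]
  by_cases h1 : i ∈ J <;> by_cases h2 : i ∈ J' <;> simp [h1, h2]

lemma TT_empty (r : ℝ) (f : (ι → Ω) → ℝ) : TT W r ∅ f = f := by
  rw [TT, sel_empty, U_one]

lemma EE_empty (f : (ι → Ω) → ℝ) : EE W ∅ f = f := by
  rw [EE, sel_empty, U_one]

lemma LL_empty (f : (ι → Ω) → ℝ) : LL W ∅ f = f := by
  rw [LL, sel_empty, U_one]

lemma EE_EE (J J' : Finset ι) (f : (ι → Ω) → ℝ) : EE W J (EE W J' f) = EE W (J ∪ J') f := by
  rw [EE, EE, EE, U_U, sel_mul_zero, mul_one]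

lemma LL_LL (J J' : Finset ι) (f : (ι → Ω) → ℝ) : LL W J (LL W J' f) = LL W (J ∪ J') f := by
  rw [LL, LL, LL, U_U, sel_mul_zero, mul_one]

lemma TT_TT_same (r r' : ℝ) (J : Finset ι) (f : (ι → Ω) → ℝ) :
    TT W r J (TT W r' J f) = TT W (r * r') J f := by
  rw [TT, TT, TT, U_U, sel_mul_same, mul_one]

lemma TT_TT_disj (r : ℝ) {J J' : Finset ι} (h : Disjoint J J') (f : (ι → Ω) → ℝ) :
    TT W r J (TT W r J' f) = TT W r (J ∪ J') f := by
  rw [TT, TT, TT, U_U, sel_mul_disj h, mul_one]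

lemma EE_comm (J J' : Finset ι) (f : (ι → Ω) → ℝ) : EE W J (EE W J' f) = EE W J' (EE W J f) :=
  U_comm ..

lemma TT_LL (r : ℝ) (J S : Finset ι) (f : (ι → Ω) → ℝ) :
    TT W r J (LL W S f) = LL W S (TT W r J f) := U_comm ..

lemma EE_LL (J S : Finset ι) (f : (ι → Ω) → ℝ) :
    EE W J (LL W S f) = LL W S (EE W J f) := U_comm ..

lemma TT_EE (r : ℝ) (J S : Finset ι) (f : (ι → Ω) → ℝ) :
    TT W r J (EE W S f) = EE W S (TT W r J f) := U_comm ..

lemma EE_TT_same (r : ℝ) (J : Finset ι) (f : (ι → Ω) → ℝ) :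
    EE W J (TT W r J f) = EE W J f := by
  rw [EE, TT, U_U, sel_mul_same, mul_one, zero_mul]

lemma TT_insert (r : ℝ) {J : Finset ι} {i : ι} (h : i ∉ J) (f : (ι → Ω) → ℝ) :
    TT W r (insert i J) f = TT W r {i} (TT W r J f) := by
  rw [TT_TT_disj W r (by simpa using h), ← insert_eq]

lemma EE_insert (J : Finset ι) (i : ι) (f : (ι → Ω) → ℝ) :
    EE W (insert i J) f = EE W {i} (EE W J f) := by
  rw [EE_EE, ← insert_eq]

lemma EE_insert' (J : Finset ι) (i : ι) (f : (ι → Ω) → ℝ) :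
    EE W (insert i J) f = EE W J (EE W {i} f) := by
  rw [EE_insert, EE_comm]

lemma LL_insert (J : Finset ι) (i : ι) (f : (ι → Ω) → ℝ) :
    LL W (insert i J) f = LL W {i} (LL W J f) := by
  rw [LL_LL, ← insert_eq]

lemma U_single (i : ι) (a c : ℝ) (f : (ι → Ω) → ℝ) (x : ι → Ω) :
    U W (sel {i} a) (sel {i} c) f x
      = (a - c) * (∑ b, W.w b * f (Function.update x i b)) + c * f x := by
  have : (fun j : ι => ker W (sel {i} a j) (sel {i} c j))
      = Function.update (1 : ι → Matrix Ω Ω ℝ) i (ker W a c) := by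
    funext j
    by_cases hj : j = i
    · subst hj; simp [sel]
    · simp [sel, hj, ker_one]
  rw [U, this, op_single]
  simp only [ker, Matrix.of_apply, add_mul, sum_add_distrib, mul_sum, mul_assoc]
  congr 1
  simp

omit [Fintype ι] in
lemma sel_one (J : Finset ι) : sel J 1 = 1 := by funext i; simp [sel]

lemma EE_single (i : ι) (f : (ι → Ω) → ℝ) (x : ι → Ω) :
    EE W {i} f x = ∑ b, W.w b * f (Function.update x i b) := by
  rw [EE, ← sel_one {i}, U_single]; simp

lemma LL_single (i : ι) (f : (ι → Ω) → ℝ) : LL W {i} f = f - EE W {i} f := by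
  funext x
  rw [LL, ← sel_one {i}, U_single, Pi.sub_apply, EE_single]; ring

lemma TT_single (r : ℝ) (i : ι) (f : (ι → Ω) → ℝ) :
    TT W r {i} f = EE W {i} f + r • LL W {i} f := by
  funext x
  rw [TT, ← sel_one {i}, U_single, LL_single]
  simp only [Pi.add_apply, Pi.smul_apply, Pi.sub_apply, EE_single, smul_eq_mul]
  ring

lemma EE_apply (J : Finset ι) (f : (ι → Ω) → ℝ) (x : ι → Ω) :
    EE W J f x = ∑ y : ι → Ω, (∏ i, W.w (y i)) * f (J.piecewise y x) := by
  have h : ∀ y : ι → Ω, f (J.piecewise y x)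
      = ∑ z : ι → Ω, (∏ i, if J.piecewise y x i = z i then (1 : ℝ) else 0) * f z := by
    intro y
    have := congrFun (op_one f) (J.piecewise y x)
    rw [op_apply] at this
    simpa [Matrix.one_apply] using this.symm
  simp only [h, mul_sum]
  rw [sum_comm, EE, U, op_apply]
  refine sum_congr rfl fun z _ => ?_
  simp only [← mul_assoc]
  rw [← sum_mul]
  congr 1
  simp only [← prod_mul_distrib]
  have : ∀ y : ι → Ω, (∏ i, W.w (y i) * if J.piecewise y x i = z i then (1 : ℝ) else 0)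
      = ∏ i, (fun i a => W.w a * if (if i ∈ J then a else x i) = z i then (1 : ℝ) else 0) i (y i) := by
    intro y
    refine prod_congr rfl fun i _ => ?_
    simp [Finset.piecewise]
  rw [Finset.sum_congr rfl (fun y _ => this y), ← Fintype.piFinset_univ,
    ← Finset.prod_univ_sum (fun _ => univ)
      (fun i a => W.w a * if (if i ∈ J then a else x i) = z i then (1 : ℝ) else 0)]
  refine prod_congr rfl fun i _ => ?_
  by_cases hi : i ∈ J
  · simp [ker, sel, hi]
  · simp [ker, sel, hi, ← sum_mul, W.sum_one]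

omit [DecidableEq Ω] [DecidableEq ι] in
lemma prodw_nonneg (y : ι → Ω) : 0 ≤ ∏ i, W.w (y i) := prod_nonneg fun _ _ => W.nonneg _

omit [DecidableEq Ω] in
lemma prodw_sum : ∑ y : ι → Ω, ∏ i, W.w (y i) = 1 := by
  rw [← Fintype.piFinset_univ, ← Finset.prod_univ_sum]
  simp [W.sum_one]

lemma EE_mono (J : Finset ι) {f g : (ι → Ω) → ℝ} (h : ∀ x, f x ≤ g x) (x : ι → Ω) :
    EE W J f x ≤ EE W J g x := by
  rw [EE_apply, EE_apply]
  exact sum_le_sum fun y _ => mul_le_mul_of_nonneg_left (h _) (prodw_nonneg W y)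

lemma EE_congr (J : Finset ι) {f g : (ι → Ω) → ℝ} (h : ∀ x, f x = g x) (x : ι → Ω) :
    EE W J f x = EE W J g x := by rw [funext h]

lemma EE_const (J : Finset ι) (c : ℝ) (x : ι → Ω) : EE W J (fun _ => c) x = c := by
  rw [EE_apply, ← sum_mul, prodw_sum, one_mul]

lemma EE_le (J : Finset ι) {f : (ι → Ω) → ℝ} {c : ℝ} (h : ∀ x, f x ≤ c) (x : ι → Ω) :
    EE W J f x ≤ c := (EE_mono W J h x).trans_eq (EE_const W J c x)

lemma EE_nonneg (J : Finset ι) {f : (ι → Ω) → ℝ} (h : ∀ x, 0 ≤ f x) (x : ι → Ω) :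
    0 ≤ EE W J f x := (EE_const W J 0 x).symm.trans_le (EE_mono W J h x)

lemma EE_sq_nonneg (J : Finset ι) (f : (ι → Ω) → ℝ) (x : ι → Ω) :
    0 ≤ EE W J (f ^ 2) x := EE_nonneg W J (fun _ => by simp [sq_nonneg]) x

lemma EE_add (J : Finset ι) (f g : (ι → Ω) → ℝ) (x : ι → Ω) :
    EE W J (fun y => f y + g y) x = EE W J f x + EE W J g x := by
  have := congrFun (map_add (EE W J) f g) x
  exact this

lemma EE_sub (J : Finset ι) (f g : (ι → Ω) → ℝ) (x : ι → Ω) :
    EE W J (fun y => f y - g y) x = EE W J f x - EE W J g x := by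
  have := congrFun (map_sub (EE W J) f g) x
  exact this

lemma EE_cmul (J : Finset ι) (c : ℝ) (f : (ι → Ω) → ℝ) (x : ι → Ω) :
    EE W J (fun y => c * f y) x = c * EE W J f x := by
  have := congrFun (map_smul (EE W J) c f) x
  exact this

lemma EE_sum {α : Type} (s : Finset α) (J : Finset ι) (f : α → (ι → Ω) → ℝ) (x : ι → Ω) :
    EE W J (fun y => ∑ a ∈ s, f a y) x = ∑ a ∈ s, EE W J (f a) x := by
  have := congrFun (map_sum (EE W J) f s) x
  rw [Finset.sum_apply] at this
  rw [← this]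
  refine EE_congr W J (fun y => ?_) x
  rw [Finset.sum_apply]

lemma EE_cauchy (J : Finset ι) (f g : (ι → Ω) → ℝ) (x : ι → Ω) :
    (EE W J (f * g) x) ^ 2 ≤ EE W J (f ^ 2) x * EE W J (g ^ 2) x := by
  simp only [EE_apply]
  refine Finset.sum_sq_le_sum_mul_sum_of_sq_le_mul _ (fun y _ => ?_) (fun y _ => ?_)
    (fun y _ => ?_)
  · exact mul_nonneg (prodw_nonneg W y) (by simp [sq_nonneg])
  · exact mul_nonneg (prodw_nonneg W y) (by simp [sq_nonneg])
  · simp only [Pi.mul_apply, Pi.pow_apply]; apply le_of_eq; ring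

lemma EE_jensen (J : Finset ι) (f : (ι → Ω) → ℝ) (x : ι → Ω) :
    (EE W J f x) ^ 2 ≤ EE W J (f ^ 2) x := by
  have := EE_cauchy W J f (fun _ => 1) x
  have h1 : f * (fun _ => (1 : ℝ)) = f := by funext y; simp
  have h2 : (fun _ : ι → Ω => (1 : ℝ)) ^ 2 = fun _ => 1 := by funext y; simp
  rwa [h1, h2, EE_const, mul_one] at this

lemma EE_abs (J : Finset ι) (f : (ι → Ω) → ℝ) (x : ι → Ω) :
    |EE W J f x| ≤ EE W J (fun y => |f y|) x := by
  rw [abs_le]
  constructor
  · have := EE_mono W J (f := fun y => (-1) * |f y|) (g := f)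
      (fun y => by simpa using neg_abs_le (f y)) x
    rw [EE_cmul] at this
    linarith
  · exact EE_mono W J (fun y => le_abs_self _) x

/-- Independence of the coordinate `i`. -/
def Inv (i : ι) (f : (ι → Ω) → ℝ) : Prop := ∀ x b, f (Function.update x i b) = f x

lemma Inv_EE (i : ι) (f : (ι → Ω) → ℝ) : Inv i (EE W {i} f) := by
  intro x b
  simp [EE_single]

lemma Inv.EE_eq {i : ι} {f : (ι → Ω) → ℝ} (h : Inv i f) : EE W {i} f = f := by
  funext x
  rw [EE_single]
  simp only [h x, ← sum_mul, W.sum_one, one_mul]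

lemma Inv.EE {i : ι} {f : (ι → Ω) → ℝ} (h : Inv i f) (J : Finset ι) : Inv i (EE W J f) := by
  rw [← h.EE_eq W, EE_comm]
  exact Inv_EE W i _

lemma Inv.EE_mul {i : ι} {a : (ι → Ω) → ℝ} (h : Inv i a) (g : (ι → Ω) → ℝ) (x : ι → Ω) :
    HideZero.EE W {i} (fun y => a y * g y) x = a x * HideZero.EE W {i} g x := by
  simp only [EE_single, h x, mul_sum]
  exact sum_congr rfl fun _ _ => by ring

lemma EE_LL_single (i : ι) (f : (ι → Ω) → ℝ) (x : ι → Ω) : EE W {i} (LL W {i} f) x = 0 := by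
  rw [LL_single, map_sub, EE_EE]
  simp

lemma pyth_T (r : ℝ) (i : ι) (f : (ι → Ω) → ℝ) (x : ι → Ω) :
    EE W {i} ((TT W r {i} f) ^ 2) x
      = (EE W {i} f x) ^ 2 + r ^ 2 * EE W {i} ((LL W {i} f) ^ 2) x := by
  have h : (TT W r {i} f) ^ 2 = fun y => (EE W {i} f y * EE W {i} f y
      + EE W {i} f y * ((2 * r) * LL W {i} f y)) + r ^ 2 * ((LL W {i} f) ^ 2) y := by
    funext y
    simp only [TT_single, Pi.pow_apply, Pi.add_apply, Pi.smul_apply, smul_eq_mul]
    ring
  rw [h, EE_add, EE_add, EE_cmul, (Inv_EE W i f).EE_mul, (Inv_EE W i f).EE_mul, EE_cmul,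
    EE_LL_single, EE_EE]
  simp [sq]

lemma pyth (i : ι) (f : (ι → Ω) → ℝ) (x : ι → Ω) :
    EE W {i} (f ^ 2) x = (EE W {i} f x) ^ 2 + EE W {i} ((LL W {i} f) ^ 2) x := by
  have := pyth_T W 1 i f x
  rwa [TT, sel_one, U_one, one_pow, one_mul] at this

lemma TT_contr {r : ℝ} (hr : r ^ 2 ≤ 1) (J : Finset ι) (f : (ι → Ω) → ℝ) (x : ι → Ω) :
    EE W J ((TT W r J f) ^ 2) x ≤ EE W J (f ^ 2) x := by
  induction J using Finset.induction_on generalizing x with
  | empty => rw [TT_empty]
  | insert i J hi ih =>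
    rw [TT_insert W r hi, EE_insert']
    calc EE W J (EE W {i} ((TT W r {i} (TT W r J f)) ^ 2)) x
        ≤ EE W J (EE W {i} ((TT W r J f) ^ 2)) x := by
          refine EE_mono W J (fun y => ?_) x
          rw [pyth_T, pyth W i (TT W r J f)]
          have := EE_sq_nonneg W {i} (LL W {i} (TT W r J f)) y
          nlinarith
      _ = EE W {i} (EE W J ((TT W r J f) ^ 2)) x := by rw [EE_comm]
      _ ≤ EE W {i} (EE W J (f ^ 2)) x := EE_mono W _ ih x
      _ = _ := by rw [EE_insert]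

lemma efron_stein (J : Finset ι) (f : (ι → Ω) → ℝ) (x : ι → Ω) :
    EE W J (f ^ 2) x - (EE W J f x) ^ 2 ≤ ∑ i ∈ J, EE W J ((LL W {i} f) ^ 2) x := by
  induction J using Finset.induction_on generalizing f x with
  | empty => simp [EE_empty]
  | insert i J hi ih =>
    rw [sum_insert hi]
    have h1 : EE W (insert i J) (f ^ 2) x
        = EE W J ((EE W {i} f) ^ 2) x + EE W (insert i J) ((LL W {i} f) ^ 2) x := by
      rw [EE_insert', EE_insert', ← EE_add]
      refine EE_congr W J (fun y => ?_) x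
      rw [pyth]; rfl
    have h2 := ih (EE W {i} f) x
    have h3 : ∑ j ∈ J, EE W J ((LL W {j} (EE W {i} f)) ^ 2) x
        ≤ ∑ j ∈ J, EE W (insert i J) ((LL W {j} f) ^ 2) x := by
      refine sum_le_sum fun j _ => ?_
      rw [EE_insert', ← EE_LL]
      exact EE_mono W J (fun y => EE_jensen W {i} _ y) x
    rw [h1, EE_insert' W J i f]
    linarith

lemma TT_selfadj (r : ℝ) (J : Finset ι) (f g : (ι → Ω) → ℝ) (x : ι → Ω) :
    EE W J (TT W r J f * g) x = EE W J (f * TT W r J g) x := by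
  simp only [EE, TT, U, op_apply, Pi.mul_apply, mul_sum, sum_mul]
  rw [sum_comm]
  refine sum_congr rfl fun y _ => sum_congr rfl fun z _ => ?_
  have : (∏ i, ker W ((1 : ι → ℝ) i) (sel J 0 i) (x i) (z i))
        * ∏ i, ker W ((1 : ι → ℝ) i) (sel J r i) (z i) (y i)
      = (∏ i, ker W ((1 : ι → ℝ) i) (sel J 0 i) (x i) (y i))
        * ∏ i, ker W ((1 : ι → ℝ) i) (sel J r i) (y i) (z i) := by
    rw [← prod_mul_distrib, ← prod_mul_distrib]
    refine prod_congr rfl fun i _ => ?_
    by_cases hi : i ∈ J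
    · by_cases h : z i = y i
      · simp [ker, sel, hi, h]
      · simp [ker, sel, hi, h, Ne.symm h]; ring
    · by_cases h : z i = y i
      · simp [ker, sel, hi, h]
      · simp [ker, sel, hi, h, Ne.symm h]
  calc _ = ((∏ i, ker W ((1 : ι → ℝ) i) (sel J 0 i) (x i) (z i))
        * ∏ i, ker W ((1 : ι → ℝ) i) (sel J r i) (z i) (y i)) * (f y * g z) := by ring
    _ = _ := by rw [this]; ring

lemma abs_LL_le (S J : Finset ι) {g : (ι → Ω) → ℝ} {c : ℝ}
    (h : ∀ x, EE W J (fun y => |g y|) x ≤ c) (x : ι → Ω) :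
    EE W J (fun y => |LL W S g y|) x ≤ 2 ^ S.card * c := by
  induction S using Finset.induction_on generalizing x with
  | empty => simpa [LL_empty] using h x
  | insert i S hi ih =>
    rw [LL_insert, card_insert_of_notMem hi, LL_single]
    calc EE W J (fun y => |(LL W S g - EE W {i} (LL W S g)) y|) x
        ≤ EE W J (fun y => |LL W S g y| + EE W {i} (fun z => |LL W S g z|) y) x := by
          refine EE_mono W J (fun y => ?_) x
          have := EE_abs W {i} (LL W S g) y
          have h2 := abs_sub (LL W S g y) (EE W {i} (LL W S g) y)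
          simp only [Pi.sub_apply]
          linarith
      _ ≤ 2 ^ S.card * c + 2 ^ S.card * c := by
          rw [EE_add]
          refine add_le_add (ih x) ?_
          have : EE W J (fun y => EE W {i} (fun z => |LL W S g z|) y) x
              = EE W {i} (EE W J (fun z => |LL W S g z|)) x := by rw [EE_comm]
          rw [this]
          exact EE_le W _ ih x
      _ = _ := by ring

end Pool.Agent.HideZero
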