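import Pool.Agent.Lib.MP_9debf8_pr.Bits

set_option autoImplicit false

/-! The same chain as `hide_main`, `cond_small`, `scales`, with the dependence on the small
parameter kept: a power saving. -/

open Finset MeasureTheory MeasureTheory.Measure ProbabilityTheory Filter
open scoped ENNReal

namespace Pool.Agent.HideZero

theorem hide_rate {q : ℝ} (h0 : 0 ≤ q) (h1 : q < 1) :
    ∃ J : ℕ, 0 < J ∧ ∀ ε : ℝ, 0 < ε →
      ∀ (ι Ω : Type) [Fintype ι] [DecidableEq ι] [Fintype Ω] [DecidableEq Ω]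
      (W : Wt Ω) (f : (ι → Bool × Ω) → ℝ) (K θ A c : ℝ) (x : ι → Bool × Ω),
      0 < K → 0 < θ → (∀ i, Wm i f) → (∀ i x, |LL (Wprod h0 h1.le W) {i} f x| ≤ K) →
      (∀ i (S : Finset ι) x, EE (Wprod h0 h1.le W) Sᶜ
        (fun y => |LL (Wprod h0 h1.le W) {i} f y|) x ≤ K * θ ^ 6 * 2 ^ S.card) →
      EE (Wprod h0 h1.le W) univ (fun y => (f y - c) ^ 2) x ≤ A →
      4 * K * θ ^ 4 * ∑ i, EE (Wprod h0 h1.le W) univ
        (fun y => |LL (Wprod h0 h1.le W) {i} f y|) x ≤ ε ^ J * A →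
      EE (Wprod h0 h1.le W) univ
        (fun y => (PP q f y - EE (Wprod h0 h1.le W) univ f x) ^ 2) x ≤ ε * A := by
  have hr1 : √q < 1 := by rw [Real.sqrt_lt' one_pos]; simpa using h1
  obtain ⟨j, hj⟩ : ∃ j : ℕ, √q ^ j < 1 / 8 := exists_pow_lt_of_lt_one (by norm_num) hr1
  have hj2 : √q ^ 2 ^ j ≤ 1 / 8 :=
    (pow_le_pow_of_le_one (Real.sqrt_nonneg _) hr1.le (Nat.lt_two_pow_self).le).trans hj.le
  refine ⟨2 ^ j, by positivity, ?_⟩
  intro ε hε ι Ω _ _ _ _ W f K θ A c x hK hθ hWm hL hglob hA hsum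
  set V := Wprod h0 h1.le W with hV
  set f₀ : (ι → Bool × Ω) → ℝ := fun y => f y - EE V univ f x with hf₀
  have h2 := (noise_small V (ρ := √q ^ 2 ^ j) (by positivity) hj2 hK hθ hL hglob x).trans hsum
  have h3 : EE V univ (f₀ ^ 2) x ≤ A := by
    refine le_trans ?_ hA
    have e1 : (fun y => (f y - c) ^ 2) = fun y => (f₀ ^ 2) y
        + (2 * (EE V univ f x - c)) * (f y - EE V univ f x) + (EE V univ f x - c) ^ 2 := by
      funext y; simp only [hf₀, Pi.pow_apply]; ring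
    rw [e1, EE_add, EE_add, EE_cmul, EE_sub, EE_const, EE_const]
    nlinarith [sq_nonneg (EE V univ f x - c)]
  have h4 := logconv_iter V f₀ x h3 j √q ε hε.le h2
  have h5 := hide_le h0 h1.le (Real.sq_sqrt h0) W (f := f₀)
    (fun i x y y' => by simp only [hf₀, hWm i x y y']) x
  refine le_trans (le_of_eq ?_) (h5.trans h4)
  refine EE_congr V _ (fun y => ?_) x
  simp only [Pi.pow_apply, hf₀, PP_apply, mul_sub, sum_sub_distrib, ← sum_mul]
  have : ∑ b : ι → Bool, ∏ i, bw q (b i) = 1 := by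
    rw [← Fintype.piFinset_univ, ← Finset.prod_univ_sum]
    simp [bw]
  rw [this, one_mul]

theorem cond_rate {r : ℝ} (hr0 : 0 < r) (hr1 : r < 1) :
    ∃ J : ℕ, 0 < J ∧ ∀ ε : ℝ, 0 < ε → ∀ (n m K s L w : ℕ) (lam γ₀ θ η₀ : ℝ), 0 < m → 0 < θ →
      TubeData r n (3 * ((K + 1) * s)) L w lam γ₀ → 0 ≤ γ₀ → 1 ≤ θ ^ 6 * 2 ^ s →
      ((n + m + 1) * (n + m + 1) : ℕ) * (r ^ 2) ^ (K + 1) + γ₀
        + 2 * lam * (2 * L + w + 1) / m ≤ θ ^ 6 →
      Integrable (fun ξ => ((Lp (sh (0, m) ξ) n n : ℝ) - gbar n m (K + 1) ξ) ^ 2) (Pq (r ^ 2)) →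
      ∫ ξ, ((Lp (sh (0, m) ξ) n n : ℝ) - gbar n m (K + 1) ξ) ^ 2 ∂Pq (r ^ 2) ≤ η₀ →
      4 * (K + 1) * θ ^ 4 * (2 * ((K + 1) * (n + n + 1)))
        ≤ ε ^ J * variance (fun ξ => (Lp ξ n n : ℝ)) (Pq (r ^ 2)) →
      ∀ (Ω : Type) (F G₀ : MeasurableSpace Ω) [mΩ : MeasurableSpace Ω] (μ : Measure Ω)
        [IsProbabilityMeasure μ] (Z : Ω → PF), MeasurePreserving Z μ (QQ (r ^ 2)) →
        F ≤ mΩ → G₀ ≤ mΩ → Indep G₀ F μ → (∀ v, Measurable[G₀] fun ω => (Z ω v).1) →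
        (∀ v, Measurable[F] fun ω => (Z ω v).2) →
        variance (μ[fun ω => (Lp (sh (0, m) (wf (Z ω))) n n : ℝ) | F]) μ
          ≤ 2 * η₀ + 4 * ε * (variance (fun ξ => (Lp ξ n n : ℝ)) (Pq (r ^ 2)) + η₀) := by
  have h0 : 0 ≤ r ^ 2 := by positivity
  have h1 : r ^ 2 < 1 := by nlinarith
  obtain ⟨J, hJ, hmain⟩ := hide_rate h0 h1
  refine ⟨J, hJ, ?_⟩
  intro ε hε n m K s L w lam γ₀ θ η₀ hm hθ H hγ0 hθ1 hθ2 hi hη₀ hsum Ω F G₀ mΩ μ _ Z hZ hF hG hind hB hY
  set V := variance (fun ξ => (Lp ξ n n : ℝ)) (Pq (r ^ 2)) with hV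
  have hV0 : 0 ≤ V := variance_nonneg _ _
  have hη₀0 : 0 ≤ η₀ := (integral_nonneg fun _ => sq_nonneg _).trans hη₀
  set c := ∫ ξ, (Lp ξ n n : ℝ) ∂Pq (r ^ 2) with hc
  obtain ⟨x1, -, -, -⟩ := Lp_facts hr0 hr1 (m := n) (n := n) le_rfl
  have mX := measurable_cast (measurable_Lp n n)
  have hsh := mp_sh (r ^ 2) (0, m)
  have hwf := mp_wf h0 h1
  have mT : Measurable fun ξ => (Lp (sh (0, m) ξ) n n : ℝ) := mX.comp hsh.measurable
  have mg : Measurable (gbar n m (K + 1)) := (Finset.measurable_sum _ fun j _ =>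
    (mX.comp (measurable_sh _)).comp (measurable_cap _)).div_const _
  let x₀ : box (n + m) (n + m) → Bool × Fin (K + 1) := fun _ => (false, 0)
  have hA : EE (Wprod h0 h1.le (W2 (r ^ 2) K)) univ (fun y => (fbar n m K y - c) ^ 2) x₀
      ≤ 2 * V + 2 * η₀ := by
    rw [EE_univ_bridge]
    simp only [fbar_cut]
    rw [mp_integral hwf (f := fun ξ => (gbar n m (K + 1) ξ - c) ^ 2) ((mg.sub_const c).pow_const 2)]
    have := (sq_add_le (f := fun ξ => (Lp (sh (0, m) ξ) n n : ℝ) - c)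
      (g := fun ξ => -((Lp (sh (0, m) ξ) n n : ℝ) - gbar n m (K + 1) ξ))
      (mT.sub_const c).aestronglyMeasurable (mT.sub mg).neg.aestronglyMeasurable
      (hsh.integrable_comp_of_integrable (integrable_sq_sub mX x1 c))
      (by simpa only [neg_sq] using hi)).2
    simp only [neg_sq] at this
    rw [mp_integral hsh (f := fun ξ => ((Lp ξ n n : ℝ) - c) ^ 2) ((mX.sub_const c).pow_const 2),
      ← variance_eq_integral mX.aemeasurable] at this
    have e : ∀ ξ, (Lp (sh (0, m) ξ) n n : ℝ) - c + -((Lp (sh (0, m) ξ) n n : ℝ) - gbar n m (K + 1) ξ)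
        = gbar n m (K + 1) ξ - c := fun ξ => by ring
    simp only [e] at this
    linarith
  have hm2 := hmain ε hε _ _ (W2 (r ^ 2) K) (fbar n m K) (K + 1) θ (2 * V + 2 * η₀) c x₀
    (by positivity) hθ fbar_Wm (abs_LL_fbar h0 h1.le hm)
    (fbar_global hr0 hr1 h0 h1.le hm H hγ0 hθ1 hθ2) hA (by
      have := total_influence h0 h1.le (n := n) (K := K) hm x₀
      calc _ ≤ 4 * (K + 1) * θ ^ 4 * (2 * ((K + 1) * (n + n + 1))) := by gcongr
        _ ≤ ε ^ J * V := hsum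
        _ ≤ _ := by gcongr; linarith)
  set c₀ := EE (Wprod h0 h1.le (W2 (r ^ 2) K)) univ (fbar n m K) x₀
  rw [EE_univ_bridge] at hm2
  have mP : Measurable fun Z => PP (r ^ 2) (fbar n m K) (cut _ K Z) :=
    (measurable_of_countable _).comp (measurable_cut _ K)
  rw [← mp_integral hZ (f := fun Z => (PP (r ^ 2) (fbar n m K) (cut _ K Z) - c₀) ^ 2)
    ((mP.sub_const c₀).pow_const 2)] at hm2
  have hce := condExp_cut h0 h1.le hZ hF hG hind hB hY _ K (fbar n m K)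
  have hW := hwf.comp hZ
  let T : Ω → ℝ := fun ω => (Lp (sh (0, m) (wf (Z ω))) n n : ℝ)
  let g : Ω → ℝ := fun ω => fbar n m K (cut _ K (Z ω))
  have eg : g = fun ω => gbar n m (K + 1) (wf (Z ω)) := by funext ω; exact fbar_cut ..
  have hD : MemLp (T - g) 2 μ := by
    rw [eg]
    exact (memLp_two_iff_integrable_sq ((mT.sub mg).comp hW.measurable).aestronglyMeasurable).2
      (hW.integrable_comp_of_integrable hi)
  have hT : MemLp T 2 μ :=
    (memLp_two_iff_integrable_sq (mT.comp hW.measurable).aestronglyMeasurable).2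
      ((hsh.comp hW).integrable_comp_of_integrable x1)
  have hg : MemLp g 2 μ := by
    have := hT.sub hD
    rwa [sub_sub_cancel] at this
  have hDv : variance (μ[T - g | F]) μ ≤ η₀ := by
    have h2 := integral_condVar_add_variance_condExp hF hD
    have h3 : 0 ≤ μ[Var[T - g; μ | F]] :=
      integral_nonneg_of_ae (condExp_nonneg (ae_of_all _ fun _ => sq_nonneg _))
    have h4 := variance_le_expectation_sq hD.1
    have h5 : ∫ ω, ((T - g) ^ 2) ω ∂μ ≤ η₀ := by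
      rw [eg]
      exact le_trans (le_of_eq (mp_integral hW ((mT.sub mg).pow_const 2))) hη₀
    linarith
  have hsplit : μ[T | F] =ᵐ[μ] fun ω => (μ[T - g | F]) ω + (μ[g | F]) ω := by
    have := condExp_add (hD.integrable one_le_two) (hg.integrable one_le_two) F
    rwa [sub_add_cancel] at this
  have hA2 := hD.condExp (m := F) one_le_two
  have hB2 := hg.condExp (m := F) one_le_two
  set a := ∫ ω, (μ[T - g | F]) ω ∂μ
  have h6 := (sq_add_le (f := fun ω => (μ[T - g | F]) ω - a) (g := fun ω => (μ[g | F]) ω - c₀)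
    (hA2.1.sub aestronglyMeasurable_const) (hB2.1.sub aestronglyMeasurable_const)
    (hA2.sub (memLp_const a)).integrable_sq (hB2.sub (memLp_const c₀)).integrable_sq).2
  rw [← variance_eq_integral hA2.1.aemeasurable] at h6
  have h7 : ∫ ω, ((μ[g | F]) ω - c₀) ^ 2 ∂μ ≤ ε * (2 * V + 2 * η₀) := by
    refine le_trans (le_of_eq (integral_congr_ae ?_)) hm2
    filter_upwards [hce] with ω hω
    rw [← hω]
  have h8 := variance_le_sub (X := fun ω => (μ[T - g | F]) ω + (μ[g | F]) ω)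
    (hA2.1.add hB2.1) (a + c₀)
  have e : ∀ ω, (μ[T - g | F]) ω + (μ[g | F]) ω - (a + c₀)
      = (μ[T - g | F]) ω - a + ((μ[g | F]) ω - c₀) := fun ω => by ring
  simp only [e] at h8
  rw [variance_congr hsplit]
  linarith

theorem scales_rate {r : ℝ} (hr0 : 0 < r) (hr1 : r < 1) :
    ∃ c : ℝ, 0 < c ∧ ∀ᶠ n : ℕ in atTop, ∃ m : ℕ,
    ∀ (Ω : Type) (F G₀ : MeasurableSpace Ω) [mΩ : MeasurableSpace Ω] (μ : Measure Ω)
      [IsProbabilityMeasure μ] (Z : Ω → PF), MeasurePreserving Z μ (QQ (r ^ 2)) →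
      F ≤ mΩ → G₀ ≤ mΩ → Indep G₀ F μ → (∀ v, Measurable[G₀] fun ω => (Z ω v).1) →
      (∀ v, Measurable[F] fun ω => (Z ω v).2) →
      variance (μ[fun ω => (Lp (sh (0, m) (wf (Z ω))) n n : ℝ) | F]) μ
        ≤ (n : ℝ) ^ (-c) * variance (fun ξ => (Lp ξ n n : ℝ)) (Pq (r ^ 2)) := by
  have hq0 : 0 < r ^ 2 := by positivity
  have hq1 : r ^ 2 < 1 := by nlinarith
  obtain ⟨J, hJ, hmain⟩ := cond_rate hr0 hr1
  obtain ⟨C, hC⟩ := shift_scales hr0 hr1
  have hJ0 : (0 : ℝ) < J := by exact_mod_cast hJ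
  have hJ1 : (1 : ℝ) ≤ J := by exact_mod_cast hJ
  set c : ℝ := 1 / (820 * J) with hc
  have hc0 : 0 < c := by positivity
  refine ⟨c, hc0, ?_⟩
  set B : ℝ := |C| / (r / 160) with hB'
  have hB0 : 0 ≤ B := by positivity
  have hbig : ∀ᶠ t : ℕ in atTop, 6 * B + 4 ≤ (t : ℝ) ^ c :=
    ((tendsto_rpow_atTop hc0).comp tendsto_natCast_atTop_atTop).eventually (eventually_ge_atTop _)
  set Cγ := 2 + 2 * Real.exp (C8 (r ^ 2) * 1176) with hCγ
  have hev : ∀ᶠ t : ℕ in atTop, ∀ n : ℕ, t ^ 409 ≤ n → n ≤ t ^ 410 → ∃ m : ℕ,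
    ∀ (Ω : Type) (F G₀ : MeasurableSpace Ω) [mΩ : MeasurableSpace Ω] (μ : Measure Ω)
      [IsProbabilityMeasure μ] (Z : Ω → PF), MeasurePreserving Z μ (QQ (r ^ 2)) →
      F ≤ mΩ → G₀ ≤ mΩ → Indep G₀ F μ → (∀ v, Measurable[G₀] fun ω => (Z ω v).1) →
      (∀ v, Measurable[F] fun ω => (Z ω v).2) →
      variance (μ[fun ω => (Lp (sh (0, m) (wf (Z ω))) n n : ℝ) | F]) μ
        ≤ (n : ℝ) ^ (-c) * variance (fun ξ => (Lp ξ n n : ℝ)) (Pq (r ^ 2)) := by
    filter_upwards [eventually_ge_atTop 8, tube_scales hr0 hr1, var_scales hr0 hr1, hC,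
      ev_geom (q := 1 / 2) (by norm_num) (by norm_num) 216, ev_geom hq0 hq1 1039,
      ev_ge (Cγ + 2), ev_ge (96 / (r / 160)), hbig] with t h8 h1 h2 h3 h4 h5 h6 h7 h9
    intro n hn1 hn2
    refine ⟨t ^ 269, ?_⟩
    intro Ω F G₀ mΩ μ _ Z hZ hF hG hind hB hY
    set T : ℝ := (t : ℝ) with hT
    have T8 : 8 ≤ T := by rw [hT]; exact_mod_cast h8
    have T1 : 1 ≤ T := by linarith
    have T0 : 0 < T := by linarith
    have Tp : ∀ {a b : ℕ}, a ≤ b → T ^ a ≤ T ^ b := fun h => pow_le_pow_right₀ T1 h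
    have hV := h2 n hn1 hn2
    set V := variance (fun ξ => (Lp ξ n n : ℝ)) (Pq (r ^ 2)) with hV'
    have hn' : (n : ℝ) ≤ T ^ 410 := by rw [hT]; exact_mod_cast hn2
    have hTn : T ≤ n := by
      rw [hT]; exact_mod_cast (Nat.le_self_pow (by norm_num) t).trans hn1
    have n1 : (1 : ℝ) ≤ n := T1.trans hTn
    have n0 : (0 : ℝ) < n := by linarith
    set ε : ℝ := (n : ℝ) ^ (-(2 * c)) with hε'
    have hε : 0 < ε := Real.rpow_pos_of_pos n0 _
    have hε1 : ε ≤ 1 := Real.rpow_le_one_of_one_le_of_nonpos n1 (by linarith)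
    have hη : 1 ≤ ε ^ J * T := by
      have e1 : ε ^ J = (n : ℝ) ^ (-(1 / 410 : ℝ)) := by
        rw [hε', ← Real.rpow_natCast, ← Real.rpow_mul n0.le]
        congr 1
        rw [hc]; field_simp; norm_num
      have e2 : (n : ℝ) ^ (1 / 410 : ℝ) ≤ T := by
        calc (n : ℝ) ^ (1 / 410 : ℝ) ≤ (T ^ 410) ^ (1 / 410 : ℝ) :=
              Real.rpow_le_rpow n0.le hn' (by norm_num)
          _ = T := by
              rw [← Real.rpow_natCast, ← Real.rpow_mul T0.le]; norm_num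
      rw [e1, Real.rpow_neg n0.le, inv_mul_eq_div, one_le_div (Real.rpow_pos_of_pos n0 _)]
      exact e2
    have key := hmain ε hε n (t ^ 269) t t (t ^ 20) (t ^ 16) (T ^ 31) (Cγ / T ^ 217) (1 / T ^ 36)
      (C * T ^ 269) (by positivity) (by positivity) (h1 n hn1) (by positivity) (by
        rw [one_div_pow, mul_one_div, div_le_one (by positivity)] at h4
        have e : (1 / T ^ 36) ^ 6 * 2 ^ t = 2 ^ t / T ^ 216 := by field_simp
        rw [e, le_div_iff₀ (by positivity), one_mul]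
        exact h4) (by
        have e1 : ((n + t ^ 269 + 1) * (n + t ^ 269 + 1) : ℕ) * (r ^ 2) ^ (t + 1) ≤ 1 / T ^ 217 := by
          have e2 : (n + T ^ 269 + 1 : ℝ) ≤ T ^ 411 := by
            have := Tp (show 269 ≤ 410 by norm_num)
            have := Tp (show 0 ≤ 410 by norm_num)
            have : 8 * T ^ 410 ≤ T ^ 411 := by rw [pow_succ' T 410]; gcongr
            linarith
          have e3 : (r ^ 2) ^ (t + 1) ≤ (r ^ 2) ^ t := pow_le_pow_of_le_one hq0.le hq1.le (by omega)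
          push_cast
          rw [← hT, le_div_iff₀ (by positivity)]
          calc _ ≤ T ^ 411 * T ^ 411 * (r ^ 2) ^ t * T ^ 217 := by gcongr
            _ = T ^ 1039 * (r ^ 2) ^ t := by ring
            _ ≤ 1 := h5
        have e4 : 2 * T ^ 31 * (2 * (t ^ 20 : ℕ) + (t ^ 16 : ℕ) + 1) / (t ^ 269 : ℕ)
            ≤ 1 / T ^ 217 := by
          push_cast
          rw [← hT, div_le_div_iff₀ (by positivity) (by positivity)]
          have := Tp (show 16 ≤ 20 by norm_num)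
          have := Tp (show 0 ≤ 20 by norm_num)
          calc 2 * T ^ 31 * (2 * T ^ 20 + T ^ 16 + 1) * T ^ 217
              ≤ 2 * T ^ 31 * (4 * T ^ 20) * T ^ 217 := by gcongr; linarith
            _ = 8 * T ^ 268 := by ring
            _ ≤ T * T ^ 268 := by gcongr
            _ = _ := by ring
        calc _ ≤ 1 / T ^ 217 + Cγ / T ^ 217 + 1 / T ^ 217 := by linarith
          _ = (Cγ + 2) / T ^ 217 := by ring
          _ ≤ T / T ^ 217 := by gcongr
          _ = _ := by field_simp) (h3 n hn1 hn2).1 (h3 n hn1 hn2).2 (by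
        rw [div_le_iff₀ (by positivity)] at h7
        have e1 : (n + n + 1 : ℝ) ≤ 3 * T ^ 410 := by linarith [Tp (show 0 ≤ 410 by norm_num)]
        have e2 : T + 1 ≤ 2 * T := by linarith
        calc 4 * (T + 1) * (1 / T ^ 36) ^ 4 * (2 * ((T + 1) * (n + n + 1)))
            ≤ 4 * (2 * T) * (1 / T ^ 36) ^ 4 * (2 * ((2 * T) * (3 * T ^ 410))) := by gcongr
          _ = 96 * T ^ 268 := by field_simp; norm_num
          _ ≤ T * (r / 160) * T ^ 268 := by gcongr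
          _ = 1 * (r / 160 * T ^ 269) := by ring
          _ ≤ ε ^ J * T * (r / 160 * T ^ 269) := by gcongr
          _ = ε ^ J * (r / 160 * T ^ 270) := by ring
          _ ≤ ε ^ J * V := by gcongr) Ω F G₀ μ Z hZ hF hG hind hB hY
    have hV0 : 0 ≤ V := le_trans (by positivity) hV
    have hδ : (n : ℝ) ^ (-c) * (n : ℝ) ^ (-c) = ε := by
      rw [hε', ← Real.rpow_add n0]; congr 1; ring
    set δ : ℝ := (n : ℝ) ^ (-c) with hδ'
    have hδ0 : 0 < δ := Real.rpow_pos_of_pos n0 _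
    have hδ1 : (6 * B + 4) * δ ≤ 1 := by
      have e1 : 6 * B + 4 ≤ (n : ℝ) ^ c := h9.trans (Real.rpow_le_rpow T0.le hTn hc0.le)
      rw [hδ', Real.rpow_neg n0.le, ← div_eq_mul_inv, div_le_one (by linarith)]
      exact e1
    have hεT : 1 ≤ ε * T :=
      hη.trans (mul_le_mul_of_nonneg_right (pow_le_of_le_one hε.le hε1 hJ.ne') T0.le)
    have e1 : C * T ^ 269 ≤ B * ε * V := by
      calc C * T ^ 269 ≤ |C| * T ^ 269 := by gcongr; exact le_abs_self C
        _ = B * 1 * (r / 160 * T ^ 269) := by rw [hB']; field_simp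
        _ ≤ B * (ε * T) * (r / 160 * T ^ 269) := by gcongr
        _ = B * ε * (r / 160 * T ^ 270) := by ring
        _ ≤ _ := by gcongr
    have e2 : ε * (C * T ^ 269) ≤ B * ε * V := by
      calc ε * (C * T ^ 269) ≤ ε * (B * ε * V) := by gcongr
        _ ≤ 1 * (B * ε * V) := by gcongr
        _ = _ := one_mul _
    calc _ ≤ 2 * (C * T ^ 269) + 4 * ε * (V + C * T ^ 269) := key
      _ ≤ (6 * B + 4) * ε * V := by nlinarith
      _ = (6 * B + 4) * δ * (δ * V) := by rw [← hδ]; ring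
      _ ≤ 1 * (δ * V) := by gcongr
      _ = δ * V := one_mul _
  obtain ⟨t₀, ht₀⟩ := eventually_atTop.1 (hev.and (eventually_ge_atTop (2 ^ 409)))
  filter_upwards [eventually_ge_atTop (t₀ ^ 409)] with n hn
  have hex : ∃ t, n < (t + 1) ^ 409 :=
    ⟨n, lt_of_lt_of_le (Nat.lt_succ_self n) (Nat.le_self_pow (by norm_num) _)⟩
  set t := Nat.find hex with ht
  have h1 : n < (t + 1) ^ 409 := Nat.find_spec hex
  have h2 : t₀ ≤ t := by
    have := lt_of_pow_lt_pow_left₀ 409 (Nat.zero_le _) (lt_of_le_of_lt hn h1)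
    omega
  have h3 : t ^ 409 ≤ n := by
    rcases Nat.eq_zero_or_pos t with h | h
    · rw [h]; simp
    · have := Nat.find_min hex (m := t - 1) (by omega)
      rwa [Nat.sub_add_cancel h, not_lt] at this
  obtain ⟨h4, h5⟩ := ht₀ t h2
  refine h4 n h3 (h1.le.trans ?_)
  have h6 : 1 ≤ t := le_trans Nat.one_le_two_pow h5
  calc (t + 1) ^ 409 ≤ (2 * t) ^ 409 := Nat.pow_le_pow_left (by omega) _
    _ = 2 ^ 409 * t ^ 409 := mul_pow _ _ _
    _ ≤ t * t ^ 409 := Nat.mul_le_mul_right _ h5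
    _ = _ := (pow_succ' _ _).symm


end Pool.Agent.HideZero
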