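import Pool.Agent.Lib.MP_9debf8_pr.Cond

set_option autoImplicit false

/-! Choice of scales. -/

open Finset MeasureTheory MeasureTheory.Measure ProbabilityTheory Filter
open scoped ENNReal

namespace Pool.Agent.HideZero

lemma ev_ge (C : ℝ) : ∀ᶠ t : ℕ in atTop, C ≤ t :=
  tendsto_natCast_atTop_atTop.eventually (eventually_ge_atTop C)

lemma ev_exp {c : ℝ} (hc : 0 < c) (a : ℕ) :
    ∀ᶠ t : ℕ in atTop, (t : ℝ) ^ a * Real.exp (-(c * t)) ≤ 1 := by
  have h := (isLittleO_pow_exp_pos_mul_atTop a hc).def one_pos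
  filter_upwards [tendsto_natCast_atTop_atTop.eventually h] with t ht
  rw [Real.norm_of_nonneg (by positivity), Real.norm_of_nonneg (by positivity), one_mul] at ht
  rw [Real.exp_neg, ← div_eq_mul_inv, div_le_one (Real.exp_pos _)]
  exact ht

lemma ev_geom {q : ℝ} (h0 : 0 < q) (h1 : q < 1) (a : ℕ) :
    ∀ᶠ t : ℕ in atTop, (t : ℝ) ^ a * q ^ t ≤ 1 := by
  filter_upwards [ev_exp (c := -Real.log q) (by linarith [Real.log_neg h0 h1]) a] with t ht
  rwa [neg_mul, neg_neg, mul_comm (Real.log q), Real.exp_nat_mul, Real.exp_log h0] at ht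

section

variable {r : ℝ} (hr0 : 0 < r) (hr1 : r < 1)
include hr0 hr1

lemma C3_pos : 0 < C3 r := by
  have : 0 < 1 - r := by linarith
  unfold C3; positivity

lemma d0_pos : 0 < d0 r := by
  have : 0 < 1 - r := by linarith
  unfold d0; positivity

lemma tube_scales : ∀ᶠ t : ℕ in atTop, ∀ n : ℕ, t ^ 409 ≤ n →
    TubeData r n (3 * ((t + 1) * t)) (t ^ 20) (t ^ 16) (t ^ 31)
      ((2 + 2 * Real.exp (C8 (r ^ 2) * 1176)) / t ^ 217) := by
  have hC := C3_pos hr0 hr1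
  have hd := d0_pos hr0 hr1
  have hq0 : 0 < r ^ 2 := by positivity
  have hq1 : r ^ 2 < 1 := by nlinarith
  have hδ0 : 0 < r ^ 2 * (1 - r ^ 2) / 1000 := by
    have : 0 < 1 - r ^ 2 := by linarith
    positivity
  have ha : 0 < -Real.log (r ^ 2) := by linarith [Real.log_neg hq0 hq1]
  filter_upwards [ev_ge 8, ev_ge (1 / d0 r), ev_ge (4 * C3 r),
    ev_ge (14 / (r ^ 2 * (1 - r ^ 2) / 1000)), ev_ge (8 * (6 * (-Real.log (r ^ 2)) + 1) / r ^ 2),
    ev_exp one_pos 218, ev_exp (c := r ^ 2 / 8) (by positivity) 258] with t h8 h1 h2 h3 h4 h5 h6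
  intro n hn
  set T : ℝ := (t : ℝ) with hT
  have T1 : 1 ≤ T := by linarith
  have T0 : 0 < T := by linarith
  have Tp : ∀ {a b : ℕ}, a ≤ b → T ^ a ≤ T ^ b := fun h => pow_le_pow_right₀ T1 h
  have Tq : ∀ {a b : ℕ}, a < b → 8 * T ^ a ≤ T ^ b := fun {a b} h =>
    le_trans (by rw [pow_succ']; gcongr) (Tp (a := a + 1) h)
  have hn' : T ^ 409 ≤ n := by rw [hT]; exact_mod_cast hn
  have hinv : ∀ {a : ℕ}, 1 ≤ a → 1 / T ^ a ≤ d0 r := fun {a} h => by
    rw [div_le_iff₀ (by positivity)]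
    rw [div_le_iff₀ hd] at h1
    have := Tp h
    nlinarith
  set D := ⌈C3 r * (1 / T ^ 6) * n⌉₊ with hD
  have hD1 : (D : ℝ) ≤ C3 r * (1 / T ^ 6) * n + 1 := (Nat.ceil_lt_add_one (by positivity)).le
  have hD2 : 2 * (D : ℝ) ≤ 1 / T ^ 5 * n := by
    have e1 : 4 * (C3 r * (1 / T ^ 6) * n) ≤ 1 / T ^ 5 * n := by
      calc 4 * (C3 r * (1 / T ^ 6) * n) = (4 * C3 r) * (1 / T ^ 6 * n) := by ring
        _ ≤ T * (1 / T ^ 6 * n) := by gcongr
        _ = _ := by field_simp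
    have e2 : 4 ≤ 1 / T ^ 5 * n := by
      rw [one_div_mul_eq_div, le_div_iff₀ (by positivity)]
      linarith [Tq (show 5 < 409 by norm_num), pow_pos T0 5]
    linarith
  have hd2 : 1 / T ^ 5 ≤ 1 := by rw [div_le_one (by positivity)]; exact one_le_pow₀ T1
  have hD3 : 2 * (D : ℝ) ≤ n := hD2.trans (mul_le_of_le_one_left (by positivity) hd2)
  refine ⟨1 / T ^ 6, 1 / T ^ 5, Real.exp (-(r ^ 2 / 8 * T ^ 390)), Real.exp (-(r ^ 2 / 8 * T)),
    14 / T ^ 18, t ^ 408, t ^ 16, D, by positivity, hinv (by norm_num), by positivity,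
    hinv (by norm_num), ?_, ?_, Nat.le_ceil _, ?_, ?_, le_rfl, ?_, ?_, ?_, by positivity, ?_, ?_,
    by positivity, ?_⟩
  · apply le_of_eq; congr 1; push_cast; rw [← hT]; field_simp
  · apply le_of_eq; congr 1; push_cast; rw [← hT]; field_simp
  · have : 2 * T ^ 408 ≤ n := by linarith [Tq (show 408 < 409 by norm_num), pow_pos T0 408]
    rw [hT] at this
    exact_mod_cast this
  · have : (D : ℝ) * (1 / T ^ 5) ≤ D := mul_le_of_le_one_right (by positivity) hd2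
    nlinarith
  · have : 2 * T ^ 16 + D ≤ n := by linarith [Tq (show 16 < 409 by norm_num), pow_pos T0 16]
    rw [hT] at this
    exact_mod_cast this
  · push_cast; rw [← hT]
    calc C3 r * (1 / T ^ 5) * T ^ 20 = C3 r * T ^ 15 := by field_simp
      _ ≤ T * T ^ 15 := by gcongr; linarith
      _ = _ := by ring
  · exact le_trans (Nat.pow_le_pow_right (Nat.cast_pos.1 (hT ▸ T0)) (by norm_num)) hn
  · rw [div_le_iff₀ (by positivity)]
    rw [div_le_iff₀ hδ0] at h3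
    have := Tp (show 1 ≤ 18 by norm_num)
    nlinarith
  · have e1 : (1 - 14 / T ^ 18 / 2) ^ t ^ 20 ≤ Real.exp (-(7 * T ^ 2)) := by
      have e2 : 14 / T ^ 18 / 2 ≤ 1 := by
        rw [div_div, div_le_one (by positivity)]
        linarith [Tq (show 0 < 18 by norm_num)]
      calc (1 - 14 / T ^ 18 / 2) ^ t ^ 20 ≤ Real.exp (-(14 / T ^ 18 / 2)) ^ t ^ 20 :=
            pow_le_pow_left₀ (by linarith) (by linarith [Real.add_one_le_exp (-(14 / T ^ 18 / 2))]) _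
        _ = _ := by
            rw [← Real.exp_nat_mul]; congr 1; push_cast; rw [← hT]; field_simp; norm_num
    have e3 : (2 : ℝ) ^ (3 * ((t + 1) * t) + 1) ≤ Real.exp (7 * T ^ 2) := by
      calc (2 : ℝ) ^ (3 * ((t + 1) * t) + 1) ≤ Real.exp 1 ^ (3 * ((t + 1) * t) + 1) :=
            pow_le_pow_left₀ (by norm_num) (by linarith [Real.add_one_le_exp 1]) _
        _ ≤ _ := by
            rw [← Real.exp_nat_mul, Real.exp_le_exp]; push_cast; rw [← hT]; nlinarith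
    rw [pow_succ] at e3
    have e4 : Real.exp (7 * T ^ 2) * Real.exp (-(7 * T ^ 2)) = 1 := by
      rw [← Real.exp_add]; simp
    have e5 := mul_le_mul_of_nonneg_left e1 (show (0 : ℝ) ≤ 2 ^ (3 * ((t + 1) * t)) by positivity)
    have e6 := mul_le_mul_of_nonneg_right e3 (Real.exp_pos (-(7 * T ^ 2))).le
    linarith
  · have p1 : ((r ^ 2) ^ (3 * ((t + 1) * t)))⁻¹ * (2 * Real.exp (-(r ^ 2 / 8 * T ^ 390)))
        ≤ 1 / T ^ 217 := by
      have e1 : ((r ^ 2) ^ (3 * ((t + 1) * t)))⁻¹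
          = Real.exp ((3 * ((T + 1) * T)) * (-Real.log (r ^ 2))) := by
        rw [← Real.exp_log (x := r ^ 2) hq0, ← Real.exp_nat_mul, ← Real.exp_neg, Real.exp_log hq0]
        congr 1; push_cast; ring
      have e2 : (3 * ((T + 1) * T)) * (-Real.log (r ^ 2)) + -(r ^ 2 / 8 * T ^ 390) ≤ -(1 * T) := by
        rw [div_le_iff₀ hq0] at h4
        have e3 : T ^ 3 ≤ T ^ 390 := Tp (by norm_num)
        have e4 : 3 * ((T + 1) * T) ≤ 6 * T ^ 2 := by nlinarith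
        have e5 := mul_le_mul_of_nonneg_right e4 ha.le
        have e6 := mul_le_mul_of_nonneg_right h4 (sq_nonneg T)
        have e7 := mul_le_mul_of_nonneg_left e3 hq0.le
        nlinarith
      rw [e1, mul_left_comm, ← Real.exp_add, le_div_iff₀ (by positivity)]
      calc 2 * Real.exp _ * T ^ 217 ≤ T * Real.exp (-(1 * T)) * T ^ 217 := by
            gcongr; linarith
        _ = T ^ 218 * Real.exp (-(1 * T)) := by ring
        _ ≤ 1 := h5
    have p2 : ((t ^ 20 : ℕ) + 1 : ℝ) ^ 2 * (2 * Real.exp (-(r ^ 2 / 8 * T))) ≤ 1 / T ^ 217 := by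
      push_cast; rw [← hT, le_div_iff₀ (by positivity)]
      have : T ^ 20 + 1 ≤ 2 * T ^ 20 := by linarith [one_le_pow₀ (n := 20) T1]
      calc (T ^ 20 + 1) ^ 2 * (2 * Real.exp (-(r ^ 2 / 8 * T))) * T ^ 217
          ≤ (2 * T ^ 20) ^ 2 * (2 * Real.exp (-(r ^ 2 / 8 * T))) * T ^ 217 := by gcongr
        _ = 8 * (T ^ 257 * Real.exp (-(r ^ 2 / 8 * T))) := by ring
        _ ≤ T * (T ^ 257 * Real.exp (-(r ^ 2 / 8 * T))) := by gcongr
        _ = T ^ 258 * Real.exp (-(r ^ 2 / 8 * T)) := by ring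
        _ ≤ 1 := h6
    have p3 : Real.exp (C8 (r ^ 2) * (14 / T ^ 18) ^ 2
        * (((t ^ 20 : ℕ) + 1) * (2 * (t ^ 16 : ℕ) + 1))) / (T ^ 31) ^ 7
        ≤ Real.exp (C8 (r ^ 2) * 1176) / T ^ 217 := by
      have hC8 : 0 ≤ C8 (r ^ 2) := by unfold C8; positivity
      rw [← pow_mul]
      refine div_le_div_of_nonneg_right (Real.exp_le_exp.2 ?_) (by positivity)
      rw [mul_assoc]
      refine mul_le_mul_of_nonneg_left ?_ hC8
      push_cast; rw [← hT]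
      have e1 : T ^ 20 + 1 ≤ 2 * T ^ 20 := by linarith [one_le_pow₀ (n := 20) T1]
      have e2 : 2 * T ^ 16 + 1 ≤ 3 * T ^ 16 := by linarith [one_le_pow₀ (n := 16) T1]
      calc (14 / T ^ 18) ^ 2 * ((T ^ 20 + 1) * (2 * T ^ 16 + 1))
          ≤ (14 / T ^ 18) ^ 2 * ((2 * T ^ 20) * (3 * T ^ 16)) := by gcongr
        _ = 1176 := by field_simp; norm_num
    have e : (2 + 2 * Real.exp (C8 (r ^ 2) * 1176)) / T ^ 217
        = 1 / T ^ 217 + 1 / T ^ 217 + 2 * (Real.exp (C8 (r ^ 2) * 1176) / T ^ 217) := by ring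
    rw [e]
    linarith

lemma err_scales : ∀ᶠ t : ℕ in atTop,
    4 * (t : ℝ) ^ 3289 * Real.exp (-(r ^ 2 / 24 * t)) + Mo r (t ^ 822) / (t : ℝ) ^ 3289 ≤ 1 ∧
    (t : ℝ) ^ 3289 * ((t ^ 822 : ℕ) * (r ^ 2) ^ (t + 1)) + Mo r (t ^ 822) / (t : ℝ) ^ 3289 ≤ 1 := by
  have hq0 : 0 < r ^ 2 := by positivity
  have hq1 : r ^ 2 < 1 := by nlinarith
  filter_upwards [ev_ge 8, ev_ge (2 * (Cm ((1 + r) / 2) 2 + Cm ((1 + r) / 2) 4)),
    ev_exp (c := r ^ 2 / 24) (by positivity) 3290, ev_geom hq0 hq1 4112] with t h8 h1 h2 h3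
  set T : ℝ := (t : ℝ) with hT
  have T0 : 0 < T := by linarith
  have e1 : Mo r (t ^ 822) / T ^ 3289 ≤ 1 / 2 := by
    rw [div_le_iff₀ (by positivity), Mo]
    push_cast; rw [← hT, ← pow_mul]
    calc T ^ (822 * 4) * (Cm ((1 + r) / 2) 2 + Cm ((1 + r) / 2) 4)
        ≤ T ^ (822 * 4) * (T / 2) := by gcongr; linarith
      _ = _ := by ring
  have e2 : 8 * (T ^ 3289 * Real.exp (-(r ^ 2 / 24 * T))) ≤ 1 := by
    calc _ ≤ T * (T ^ 3289 * Real.exp (-(r ^ 2 / 24 * T))) := by gcongr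
      _ = T ^ 3290 * Real.exp (-(r ^ 2 / 24 * T)) := by ring
      _ ≤ 1 := h2
  have e3 : 2 * (T ^ 3289 * ((t ^ 822 : ℕ) * (r ^ 2) ^ (t + 1))) ≤ 1 := by
    push_cast; rw [← hT]
    have : (r ^ 2) ^ (t + 1) ≤ (r ^ 2) ^ t := pow_le_pow_of_le_one hq0.le hq1.le (by omega)
    calc _ ≤ T * (T ^ 3289 * (T ^ 822 * (r ^ 2) ^ t)) := by gcongr; linarith
      _ = T ^ 4112 * (r ^ 2) ^ t := by ring
      _ ≤ 1 := h3
  constructor <;> linarith

omit hr0 hr1 in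
lemma basic_scales {t n : ℕ} (ht : 8 ≤ t) (h1 : t ^ 409 ≤ n) (h2 : n ≤ t ^ 410) :
    Real.exp (-(r ^ 2 * (n / 3 + 1 : ℕ) * (1 / (t : ℝ) ^ 136) ^ 3 / 8))
      ≤ Real.exp (-(r ^ 2 / 24 * t)) ∧
    (∀ k ≤ t ^ 270, (n + k + 1) * (n + 1) ≤ t ^ 822) ∧
    (t : ℝ) ^ 270 + 1 ≤ 2 * (1 / (t : ℝ) ^ 136) * (n / 3 + 1 : ℕ) := by
  have T0 : (0 : ℝ) < t := by exact_mod_cast (show 0 < t by omega)
  have T8 : (8 : ℝ) ≤ t := by exact_mod_cast ht
  have e1 : (t : ℝ) ^ 409 ≤ 3 * (n / 3 + 1 : ℕ) := by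
    exact_mod_cast (show t ^ 409 ≤ 3 * (n / 3 + 1) by omega)
  refine ⟨Real.exp_le_exp.2 ?_, fun k hk => ?_, ?_⟩
  · have : (t : ℝ) / 3 ≤ (n / 3 + 1 : ℕ) * (1 / (t : ℝ) ^ 136) ^ 3 := by
      rw [one_div_pow, mul_one_div, ← pow_mul, div_le_div_iff₀ (by norm_num) (by positivity)]
      calc (t : ℝ) * t ^ (136 * 3) = t ^ 409 := by ring
        _ ≤ _ := by linarith
    have := mul_le_mul_of_nonneg_left this (sq_nonneg r)
    linarith
  · have e2 : t ^ 270 ≤ t ^ 410 := Nat.pow_le_pow_right (by omega) (by norm_num)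
    have e3 : 1 ≤ t ^ 410 := Nat.one_le_pow _ _ (by omega)
    have e4 : 3 * t ^ 410 ≤ t ^ 411 := by rw [pow_succ' t 410]; gcongr; omega
    calc (n + k + 1) * (n + 1) ≤ t ^ 411 * t ^ 411 := Nat.mul_le_mul (by omega) (by omega)
      _ = _ := by rw [← pow_add]
  · have e2 : (1 : ℝ) ≤ t ^ 270 := one_le_pow₀ (by linarith)
    have e3 : 3 * (t : ℝ) ^ 270 ≤ 1 / (t : ℝ) ^ 136 * t ^ 409 := by
      calc 3 * (t : ℝ) ^ 270 ≤ t ^ 3 * t ^ 270 := by
            gcongr; nlinarith [pow_le_pow_left₀ (by norm_num) T8 3]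
        _ = _ := by field_simp
    have e4 := mul_le_mul_of_nonneg_left e1 (show 0 ≤ 1 / (t : ℝ) ^ 136 by positivity)
    linarith

lemma var_scales : ∀ᶠ t : ℕ in atTop, ∀ n : ℕ, t ^ 409 ≤ n → n ≤ t ^ 410 →
    r / 160 * (t : ℝ) ^ 270 ≤ variance (fun ξ => (Lp ξ n n : ℝ)) (Pq (r ^ 2)) := by
  have hC := C3_pos hr0 hr1
  have hd := d0_pos hr0 hr1
  have h1r : 0 < 1 - r := by linarith
  filter_upwards [eventually_ge_atTop 8, err_scales hr0 hr1, ev_ge ((C3 r + 1) / d0 r),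
    ev_ge (2 * C3 r), ev_ge (80 / r * (108 * (C3 r + 1) / (1 - r) ^ 2 + 16))]
    with t h8 herr h1 h2 h3
  intro n hn1 hn2
  obtain ⟨b1, b2, b3⟩ := basic_scales (r := r) h8 hn1 hn2
  set T : ℝ := (t : ℝ) with hT
  have T8 : 8 ≤ T := by rw [hT]; exact_mod_cast h8
  have T1 : 1 ≤ T := by linarith
  have T0 : 0 < T := by linarith
  have Tp : ∀ {a b : ℕ}, a ≤ b → T ^ a ≤ T ^ b := fun h => pow_le_pow_right₀ T1 h
  set d := 1 / T ^ 136 with hd'
  have hd0 : 0 < d := by positivity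
  have hdT : d * T ≤ 1 := by
    rw [hd', one_div_mul_eq_div, div_le_one (by positivity)]
    simpa using Tp (show 1 ≤ 136 by norm_num)
  have hCd : C3 r * d ≤ 1 / 2 := by nlinarith
  set j := n / 3 with hj
  set g := ⌈2 * C3 r * d * (j + 1)⌉₊ with hg
  have hg1 : 2 * C3 r * d * (j + 1) ≤ g := Nat.le_ceil _
  have hg2 : (g : ℝ) ≤ 2 * C3 r * d * (j + 1) + 1 := (Nat.ceil_lt_add_one (by positivity)).le
  have hg3 : g ≤ j + 2 := by
    have : (g : ℝ) ≤ j + 2 := by nlinarith [Nat.cast_nonneg (α := ℝ) j]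
    exact_mod_cast this
  have hn8 : 8 ≤ n := le_trans (le_trans h8 (Nat.le_self_pow (by norm_num) t)) hn1
  have hjn : ((j + 1 : ℕ) : ℝ) ≤ n + 1 := by exact_mod_cast (show j + 1 ≤ n + 1 by omega)
  push_cast at b3 hjn
  have key := var_lower hr0 hr1 (d := d) (d' := (C3 r + 1) * d) hd0 (by nlinarith)
    (by rw [div_le_iff₀ hd] at h1; nlinarith) b1 (lam := T ^ 3289) (by positivity) herr.1
    (n := n) (k := t ^ 270) (i := j + g) (j := j) (x := n - (j + g)) (y := n - j)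
    (by omega) (by omega) (by omega) (by omega) le_rfl (b2 _ le_rfl)
    (by push_cast; nlinarith) (by push_cast; nlinarith [Nat.cast_nonneg (α := ℝ) g])
    (by push_cast; nlinarith) (s := 1 / T ^ 135) (by positivity)
    (by push_cast; rw [← hT]; field_simp)
  have e1 : 1 / T ^ 135 * (3 * ((t ^ 270 : ℕ) * (36 * ((C3 r + 1) * d) / (1 - r) ^ 2)) + 16)
      ≤ r / 80 := by
    have e2 : 1 / T ^ 135 * (3 * ((t ^ 270 : ℕ) * (36 * ((C3 r + 1) * d) / (1 - r) ^ 2)) + 16)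
        = (108 * (C3 r + 1) / (1 - r) ^ 2) / T + 16 / T ^ 135 := by
      push_cast; rw [← hT, hd']; field_simp; ring
    have e3 : 16 / T ^ 135 ≤ 16 / T :=
      div_le_div_of_nonneg_left (by norm_num) T0 (by simpa using Tp (show 1 ≤ 135 by norm_num))
    have e4 : (108 * (C3 r + 1) / (1 - r) ^ 2 + 16) / T ≤ r / 80 := by
      rw [div_le_iff₀ T0]
      rw [div_mul_eq_mul_div, div_le_iff₀ hr0] at h3
      linarith
    rw [e2]; rw [add_div] at e4; linarith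
  have e5 : r / 80 ≤ 2 * (1 / T ^ 135) ^ 2 * variance (fun ξ => (Lp ξ n n : ℝ)) (Pq (r ^ 2)) := by
    linarith
  calc r / 160 * T ^ 270 = r / 80 * (T ^ 270 / 2) := by ring
    _ ≤ 2 * (1 / T ^ 135) ^ 2 * variance (fun ξ => (Lp ξ n n : ℝ)) (Pq (r ^ 2)) * (T ^ 270 / 2) := by
        gcongr
    _ = _ := by field_simp

lemma shift_scales : ∃ C : ℝ, ∀ᶠ t : ℕ in atTop, ∀ n : ℕ, t ^ 409 ≤ n → n ≤ t ^ 410 →
    Integrable (fun ξ => ((Lp (sh (0, t ^ 269) ξ) n n : ℝ) - gbar n (t ^ 269) (t + 1) ξ) ^ 2)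
      (Pq (r ^ 2)) ∧
    ∫ ξ, ((Lp (sh (0, t ^ 269) ξ) n n : ℝ) - gbar n (t ^ 269) (t + 1) ξ) ^ 2 ∂Pq (r ^ 2)
      ≤ C * (t : ℝ) ^ 269 := by
  have hd := d0_pos hr0 hr1
  have h1r : 0 < 1 - r := by linarith
  have c2 := Cm_nonneg (b := (1 + r) / 2) (by linarith) 2
  refine ⟨8 * (4 * (2 * (Cm ((1 + r) / 2) 2 + (24 / (1 - r) ^ 2) ^ 2) + 2)) + 2, ?_⟩
  filter_upwards [eventually_ge_atTop 8, err_scales hr0 hr1, ev_ge (1 / d0 r),
    ev_ge (r / (1 - r))] with t h8 herr h1 h2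
  intro n hn1 hn2
  obtain ⟨b1, b2, b3⟩ := basic_scales (r := r) h8 hn1 hn2
  set T : ℝ := (t : ℝ) with hT
  have T8 : 8 ≤ T := by rw [hT]; exact_mod_cast h8
  have T1 : 1 ≤ T := by linarith
  have T0 : 0 < T := by linarith
  have Tp : ∀ {a b : ℕ}, a ≤ b → T ^ a ≤ T ^ b := fun h => pow_le_pow_right₀ T1 h
  set d := 1 / T ^ 136 with hd'
  have hd0 : 0 < d := by positivity
  have hdT : d * T ≤ 1 := by
    rw [hd', one_div_mul_eq_div, div_le_one (by positivity)]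
    simpa using Tp (show 1 ≤ 136 by norm_num)
  have hjn : ((n / 3 + 1 : ℕ) : ℝ) ≤ n + 1 := by exact_mod_cast (show n / 3 + 1 ≤ n + 1 by omega)
  have h269 : 1 ≤ T ^ 269 := one_le_pow₀ T1
  have := approx hr0 hr1 (n := n) (m := t ^ 269) (K := t + 1) (N := t ^ 822) (by positivity)
    (b2 0 (by positivity)) (lam := T ^ 3289) (by positivity) herr.2
    (R := 4 * (2 * (Cm ((1 + r) / 2) 2 + (24 / (1 - r) ^ 2) ^ 2) + 2) * T ^ 269) (fun j hj => by
      have hj' : (j : ℝ) ≤ T ^ 269 := by rw [hT]; exact_mod_cast hj.le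
      have hj2 : j ≤ t ^ 270 := hj.le.trans (Nat.pow_le_pow_right (by omega) (by norm_num))
      have e1 := Xi_sq hr0 hr1 hd0 (by rw [div_le_iff₀ hd] at h1; nlinarith) b1
        (lam := T ^ 3289) (by positivity) herr.1 (n := n) (k := j)
        (by nlinarith [Tp (show 269 ≤ 270 by norm_num)]) (by omega) (b2 j hj2) (by
          calc (j * (r / (1 - r))) ^ 2 ≤ (T ^ 269 * T) ^ 2 := by gcongr
            _ = T ^ 540 := by ring
            _ ≤ _ := Tp (by norm_num))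
      have e2 : (j * (24 * d / (1 - r) ^ 2)) ^ 2 ≤ (24 / (1 - r) ^ 2) ^ 2 * T ^ 269 := by
        calc (j * (24 * d / (1 - r) ^ 2)) ^ 2 ≤ (T ^ 269 * (24 * d / (1 - r) ^ 2)) ^ 2 := by gcongr
          _ = (24 / (1 - r) ^ 2) ^ 2 * T ^ 266 := by rw [hd']; field_simp
          _ ≤ _ := mul_le_mul_of_nonneg_left (Tp (by norm_num)) (by positivity)
      have e3 : j * Cm ((1 + r) / 2) 2 ≤ T ^ 269 * Cm ((1 + r) / 2) 2 := by gcongr
      linarith [(Dk_sq hr0 hr1 n j (j * (r / (1 - r)))).2])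
  exact ⟨this.1, this.2.trans (by linarith)⟩

theorem scales {ε : ℝ} (hε : 0 < ε) : ∀ᶠ n : ℕ in atTop, ∃ m : ℕ,
    ∀ (Ω : Type) (F G₀ : MeasurableSpace Ω) [mΩ : MeasurableSpace Ω] (μ : Measure Ω)
      [IsProbabilityMeasure μ] (Z : Ω → PF), MeasurePreserving Z μ (QQ (r ^ 2)) →
      F ≤ mΩ → G₀ ≤ mΩ → Indep G₀ F μ → (∀ v, Measurable[G₀] fun ω => (Z ω v).1) →
      (∀ v, Measurable[F] fun ω => (Z ω v).2) →
      variance (μ[fun ω => (Lp (sh (0, m) (wf (Z ω))) n n : ℝ) | F]) μ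
        ≤ ε * variance (fun ξ => (Lp ξ n n : ℝ)) (Pq (r ^ 2)) := by
  have hq0 : 0 < r ^ 2 := by positivity
  have hq1 : r ^ 2 < 1 := by nlinarith
  obtain ⟨η, hη, hmain⟩ := cond_small hr0 hr1 (ε := ε / 10) (by positivity)
  obtain ⟨C, hC⟩ := shift_scales hr0 hr1
  set Cγ := 2 + 2 * Real.exp (C8 (r ^ 2) * 1176) with hCγ
  have hev : ∀ᶠ t : ℕ in atTop, ∀ n : ℕ, t ^ 409 ≤ n → n ≤ t ^ 410 → ∃ m : ℕ,
    ∀ (Ω : Type) (F G₀ : MeasurableSpace Ω) [mΩ : MeasurableSpace Ω] (μ : Measure Ω)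
      [IsProbabilityMeasure μ] (Z : Ω → PF), MeasurePreserving Z μ (QQ (r ^ 2)) →
      F ≤ mΩ → G₀ ≤ mΩ → Indep G₀ F μ → (∀ v, Measurable[G₀] fun ω => (Z ω v).1) →
      (∀ v, Measurable[F] fun ω => (Z ω v).2) →
      variance (μ[fun ω => (Lp (sh (0, m) (wf (Z ω))) n n : ℝ) | F]) μ
        ≤ ε * variance (fun ξ => (Lp ξ n n : ℝ)) (Pq (r ^ 2)) := by
    filter_upwards [eventually_ge_atTop 8, tube_scales hr0 hr1, var_scales hr0 hr1, hC,
      ev_geom (q := 1 / 2) (by norm_num) (by norm_num) 216, ev_geom hq0 hq1 1039,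
      ev_ge (Cγ + 2), ev_ge (96 / (η * (r / 160))), ev_ge (C / (ε / 10 * (r / 160))),
      ev_ge (C / (r / 160))] with t h8 h1 h2 h3 h4 h5 h6 h7 h9 h10
    intro n hn1 hn2
    refine ⟨t ^ 269, ?_⟩
    intro Ω F G₀ mΩ μ _ Z hZ hF hG hind hB hY
    set T : ℝ := (t : ℝ) with hT
    have T8 : 8 ≤ T := by rw [hT]; exact_mod_cast h8
    have T1 : 1 ≤ T := by linarith
    have T0 : 0 < T := by linarith
    have Tp : ∀ {a b : ℕ}, a ≤ b → T ^ a ≤ T ^ b := fun h => pow_le_pow_right₀ T1 h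
    have hV := h2 n hn1 hn2
    set V := variance (fun ξ => (Lp ξ n n : ℝ)) (Pq (r ^ 2)) with hV'
    have hn' : (n : ℝ) ≤ T ^ 410 := by rw [hT]; exact_mod_cast hn2
    have key := hmain n (t ^ 269) t t (t ^ 20) (t ^ 16) (T ^ 31) (Cγ / T ^ 217) (1 / T ^ 36)
      (C * T ^ 269) (by positivity) (by positivity) (h1 n hn1) (by positivity) (by
        rw [one_div_pow, mul_one_div, div_le_one (by positivity)] at h4
        have e : (1 / T ^ 36) ^ 6 * 2 ^ t = 2 ^ t / T ^ 216 := by field_simp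
        rw [e, le_div_iff₀ (by positivity), one_mul]
        exact h4) (by
        have e1 : ((n + t ^ 269 + 1) * (n + t ^ 269 + 1) : ℕ) * (r ^ 2) ^ (t + 1) ≤ 1 / T ^ 217 := by
          have e2 : (n + T ^ 269 + 1 : ℝ) ≤ T ^ 411 := by
            have := Tp (show 269 ≤ 410 by norm_num)
            have := Tp (show 0 ≤ 410 by norm_num)
            have : 8 * T ^ 410 ≤ T ^ 411 := by rw [pow_succ' T 410]; gcongr
            linarith
          have e3 : (r ^ 2) ^ (t + 1) ≤ (r ^ 2) ^ t := pow_le_pow_of_le_one hq0.le hq1.le (by omega)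
          push_cast
          rw [← hT, le_div_iff₀ (by positivity)]
          calc _ ≤ T ^ 411 * T ^ 411 * (r ^ 2) ^ t * T ^ 217 := by gcongr
            _ = T ^ 1039 * (r ^ 2) ^ t := by ring
            _ ≤ 1 := h5
        have e4 : 2 * T ^ 31 * (2 * (t ^ 20 : ℕ) + (t ^ 16 : ℕ) + 1) / (t ^ 269 : ℕ)
            ≤ 1 / T ^ 217 := by
          push_cast
          rw [← hT, div_le_div_iff₀ (by positivity) (by positivity)]
          have := Tp (show 16 ≤ 20 by norm_num)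
          have := Tp (show 0 ≤ 20 by norm_num)
          calc 2 * T ^ 31 * (2 * T ^ 20 + T ^ 16 + 1) * T ^ 217
              ≤ 2 * T ^ 31 * (4 * T ^ 20) * T ^ 217 := by gcongr; linarith
            _ = 8 * T ^ 268 := by ring
            _ ≤ T * T ^ 268 := by gcongr
            _ = _ := by ring
        calc _ ≤ 1 / T ^ 217 + Cγ / T ^ 217 + 1 / T ^ 217 := by linarith
          _ = (Cγ + 2) / T ^ 217 := by ring
          _ ≤ T / T ^ 217 := by gcongr
          _ = _ := by field_simp) (h3 n hn1 hn2).1 (h3 n hn1 hn2).2 (by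
        rw [div_le_iff₀ (by positivity)] at h7
        have e1 : (n + n + 1 : ℝ) ≤ 3 * T ^ 410 := by linarith [Tp (show 0 ≤ 410 by norm_num)]
        have e2 : T + 1 ≤ 2 * T := by linarith
        calc 4 * (T + 1) * (1 / T ^ 36) ^ 4 * (2 * ((T + 1) * (n + n + 1)))
            ≤ 4 * (2 * T) * (1 / T ^ 36) ^ 4 * (2 * ((2 * T) * (3 * T ^ 410))) := by gcongr
          _ = 96 * T ^ 268 := by field_simp; norm_num
          _ ≤ T * (η * (r / 160)) * T ^ 269 := by gcongr; norm_num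
          _ = η * (r / 160 * T ^ 270) := by ring
          _ ≤ η * V := by gcongr) Ω F G₀ μ Z hZ hF hG hind hB hY
    have e1 : C * T ^ 269 ≤ ε / 10 * V := by
      rw [div_le_iff₀ (by positivity)] at h9
      calc C * T ^ 269 ≤ T * (ε / 10 * (r / 160)) * T ^ 269 := by gcongr
        _ = ε / 10 * (r / 160 * T ^ 270) := by ring
        _ ≤ _ := by gcongr
    have e2 : C * T ^ 269 ≤ V := by
      rw [div_le_iff₀ (by positivity)] at h10
      calc C * T ^ 269 ≤ T * (r / 160) * T ^ 269 := by gcongr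
        _ = r / 160 * T ^ 270 := by ring
        _ ≤ _ := hV
    have e3 := mul_le_mul_of_nonneg_left e2 hε.le
    linarith
  obtain ⟨t₀, ht₀⟩ := eventually_atTop.1 (hev.and (eventually_ge_atTop (2 ^ 409)))
  filter_upwards [eventually_ge_atTop (t₀ ^ 409)] with n hn
  have hex : ∃ t, n < (t + 1) ^ 409 :=
    ⟨n, lt_of_lt_of_le (Nat.lt_succ_self n) (Nat.le_self_pow (by norm_num) _)⟩
  set t := Nat.find hex with ht
  have h1 : n < (t + 1) ^ 409 := Nat.find_spec hex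
  have h2 : t₀ ≤ t := by
    have := lt_of_pow_lt_pow_left₀ 409 (Nat.zero_le _) (lt_of_le_of_lt hn h1)
    omega
  have h3 : t ^ 409 ≤ n := by
    rcases Nat.eq_zero_or_pos t with h | h
    · rw [h]; simp
    · have := Nat.find_min hex (m := t - 1) (by omega)
      rwa [Nat.sub_add_cancel h, not_lt] at this
  obtain ⟨h4, h5⟩ := ht₀ t h2
  refine h4 n h3 (h1.le.trans ?_)
  have h6 : 1 ≤ t := le_trans Nat.one_le_two_pow h5
  calc (t + 1) ^ 409 ≤ (2 * t) ^ 409 := Nat.pow_le_pow_left (by omega) _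
    _ = 2 ^ 409 * t ^ 409 := mul_pow _ _ _
    _ ≤ t * t ^ 409 := Nat.mul_le_mul_right _ h5
    _ = _ := (pow_succ' _ _).symm

end

end Pool.Agent.HideZero
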