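import Pool.Agent.Lib.MP_9debf8_pr.Var

set_option autoImplicit false

/-! Nearly optimal sites are rare: transversal bounds and a tilt along a tube. -/

open Finset MeasureTheory MeasureTheory.Measure ProbabilityTheory
open scoped ENNReal

namespace Pool.Agent.HideZero

section

variable {r d : ℝ} (hr0 : 0 < r) (hr1 : r < 1) (hd : 0 < d) (hd0 : d ≤ d0 r) {n₀ : ℕ} {ε : ℝ}
  (hε : Real.exp (-(r ^ 2 * n₀ * d ^ 3 / 8)) ≤ ε)
include hr0 hr1 hd hd0 hε

lemma transversal {x y a b : ℕ} (c1 : (x + a + 1 : ℝ) ≤ (y + b + 1) * (1 + 2 * d))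
    (c2 : (b + 1 : ℝ) ≤ a * (1 - C3 r * d)) (h1 : n₀ ≤ y + b + 1) (h2 : n₀ ≤ a) :
    (Pq (r ^ 2)).real {ξ | Near 0 ξ x y a b} ≤ 2 * ε := by
  obtain ⟨m1, m2, m3, m4, m5, -, -, -⟩ := model_facts hr0 hr1 hd hd0
  have h11 := mp_sh11 (r ^ 2) (r - 3 * d) (r ^ 2 / (r - 3 * d))
  have hnest := mp_nest m1 m2 m3 m4 m5 (x + 1) y
  rw [← mp_real h11 (measurableSet_near 0 x y a b)]
  have e1 := exH_real hr0 hr1 hd hd0 hε (m := x + 1 + a) (n := y + (b + 1))
    (by push_cast; linarith) h1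
  have e2 := exV_real hr0 hr1 hd hd0 hε (m := a) (n := b + 1) (by push_cast; linarith) h2
  rw [← mp_real hnest (measurableSet_ExV _ _)] at e2
  refine le_trans (measureReal_mono (s₂ := ExH (x + 1 + a) (y + (b + 1))
    ∪ nest (x + 1, y) ⁻¹' ExV a (b + 1)) fun ξ hξ => ?_) ((measureReal_union_le _ _).trans
      (by linarith))
  by_cases h : ξ ∈ ExH (x + 1 + a) (y + (b + 1))
  · exact Or.inl h
  · exact Or.inr (transversal_det hξ (not_le.1 h).le)

lemma transversal' {x y a b : ℕ} (c1 : (y + b + 1 : ℝ) ≤ (x + a + 1) * (1 + 2 * d))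
    (c2 : (a + 1 : ℝ) ≤ b * (1 - C3 r * d)) (h1 : n₀ ≤ x + a + 1) (h2 : n₀ ≤ b) :
    (Pq (r ^ 2)).real {ξ | Near 0 ξ x y a b} ≤ 2 * ε := by
  have := transversal hr0 hr1 hd hd0 hε c1 c2 h1 h2
  rw [← mp_real (mp_tr _) (measurableSet_near 0 y x b a)] at this
  simpa only [Set.preimage_ofPred_eq, near_tr] using this

end

lemma near_real_rf (q : ℝ) (h x y a b : ℕ) :
    (Pq q).real {ξ | Near h ξ a b x y} = (Pq q).real {ξ | Near h ξ x y a b} := by
  rw [← mp_real (mp_rf q (x + a) (y + b)) (measurableSet_near h a b x y)]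
  simp only [Set.preimage_ofPred_eq, near_rf]

lemma near_h_le {q : ℝ} (h0 : 0 < q) (h1 : q < 1) (h : ℕ) {x y : ℕ} (a b : ℕ) (hxy : 0 < x + y) :
    (Pq q).real {ξ | Near h ξ x y a b} ≤ (q ^ h)⁻¹ * (Pq q).real {ξ | Near 0 ξ x y a b} := by
  let f : ℕ × ℕ → ℕ → ℕ := fun v k => if v = (x, y) then k + h else k
  have hf : ∀ v, Measurable (f v) := fun _ => measurable_of_countable _
  have (v : ℕ × ℕ) : IsProbabilityMeasure ((geo q).map (f v)) :=
    isProbabilityMeasure_map (hf v).aemeasurable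
  have e1 := infinitePi_map_pi (fun _ : ℕ × ℕ => geo q) hf
  have e2 := pi_withDensity (fun _ : ℕ × ℕ => geo q) (fun v => (geo q).map (f v)) {(x, y)}
    (fun _ k => if h ≤ k then ENNReal.ofReal ((q ^ h)⁻¹) else 0)
    (fun _ => measurable_of_countable _) (fun v hv => by
      rw [mem_singleton.1 hv, ← geo_shift h0 h1]; simp [f]) (fun v hv => by
      have : f v = id := by funext k; simp [f, notMem_singleton.1 hv]
      rw [this, Measure.map_id])
  have hB := measurableSet_near 0 x y a b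
  have key : Pq q {ξ | Near h ξ x y a b}
      ≤ ENNReal.ofReal ((q ^ h)⁻¹) * Pq q {ξ | Near 0 ξ x y a b} := by
    calc Pq q {ξ | Near h ξ x y a b}
        ≤ Pq q ((fun (ξ : Fld) v => f v (ξ v)) ⁻¹' {ξ | Near 0 ξ x y a b}) := by
          refine measure_mono fun ξ hξ => ?_
          have : (fun v => f v (ξ v)) = Function.update ξ (x, y) (ξ (x, y) + h) := by
            funext v
            by_cases hv : v = (x, y)
            · simp [f, hv]
            · simp [f, hv]
          simp only [Set.mem_preimage, Set.mem_ofPred_eq, this]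
          exact near_add_site hxy hξ
      _ = ∫⁻ ξ in {ξ | Near 0 ξ x y a b},
            (if h ≤ ξ (x, y) then ENNReal.ofReal ((q ^ h)⁻¹) else 0) ∂Pq q := by
          have mf : Measurable fun (ξ : Fld) v => f v (ξ v) :=
            measurable_pi_lambda _ fun v => (hf v).comp (measurable_pi_apply v)
          rw [← map_apply mf hB]
          have : (Pq q).map (fun (ξ : Fld) v => f v (ξ v)) = _ := e1.trans e2
          rw [this, withDensity_apply _ hB]
          simp only [prod_singleton]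
          rfl
      _ ≤ ∫⁻ _ in {ξ | Near 0 ξ x y a b}, ENNReal.ofReal ((q ^ h)⁻¹) ∂Pq q := by
          refine lintegral_mono fun ξ => ?_
          simp only; split_ifs <;> simp
      _ = _ := by rw [setLIntegral_const]
  rw [measureReal_def, measureReal_def, ← ENNReal.toReal_ofReal (r := (q ^ h)⁻¹) (by positivity),
    ← ENNReal.toReal_mul]
  exact ENNReal.toReal_mono (ENNReal.mul_ne_top ENNReal.ofReal_ne_top (measure_ne_top _ _)) key

/-- The tube of length `L` and half-width `w` issued from `(x, y)`. -/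
def tube (L w x y : ℕ) : Finset (ℕ × ℕ) :=
  (range (L + 1) ×ˢ range (2 * w + 1)).image fun p => (x + p.1, y + (p.1 + p.2 - w))

lemma card_tube (L w x y : ℕ) : (tube L w x y).card ≤ (L + 1) * (2 * w + 1) :=
  card_image_le.trans (by simp)

/-- All optimal paths meet `A`. -/
def Hit (A : Finset (ℕ × ℕ)) (m n : ℕ) : Set Fld := {ζ | G (zA A ζ) m n < G ζ m n}

lemma measurableSet_Hit (A : Finset (ℕ × ℕ)) (m n : ℕ) : MeasurableSet (Hit A m n) :=
  measurableSet_lt ((measurable_G _ _).comp (measurable_zA A)) (measurable_G _ _)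

/-- Some optimal path leaves the tube. -/
def Bent (L w a b : ℕ) : Set Fld :=
  ⋃ p ∈ (range (L + 1) ×ˢ range (L + 1)).filter
      (fun p => p.1 ≤ a ∧ p.2 ≤ b ∧ (p.2 + w < p.1 ∨ p.1 + w < p.2)),
    {ζ | Near 0 ζ p.1 p.2 (a - p.1) (b - p.2)}

lemma measurableSet_Bent (L w a b : ℕ) : MeasurableSet (Bent L w a b) :=
  Finset.measurableSet_biUnion _ fun _ _ => measurableSet_near ..

lemma bent_le {r d : ℝ} (hr0 : 0 < r) (hr1 : r < 1) (hd : 0 < d) (hd0 : d ≤ d0 r) {n₀ : ℕ} {ε : ℝ}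
    (hε : Real.exp (-(r ^ 2 * n₀ * d ^ 3 / 8)) ≤ ε) {L w a b : ℕ}
    (c1 : (a + 1 : ℝ) ≤ (b + 1) * (1 + 2 * d)) (c2 : (b + 1 : ℝ) ≤ (a + 1) * (1 + 2 * d))
    (c3 : C3 r * d * L ≤ w) (h1 : n₀ ≤ a + 1) (h2 : n₀ ≤ b + 1) (h3 : n₀ ≤ w) :
    (Pq (r ^ 2)).real (Bent L w a b) ≤ (L + 1) ^ 2 * (2 * ε) := by
  have hε0 : 0 ≤ ε := (Real.exp_pos _).le.trans hε
  have hC : 0 ≤ C3 r * d := by
    have : 0 < 1 - r := by linarith
    unfold C3; positivity
  refine (measureReal_biUnion_finset_le _ _).trans ?_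
  refine (sum_le_card_nsmul _ _ (2 * ε) fun p hp => ?_).trans ?_
  · obtain ⟨u, v⟩ := p
    simp only [mem_filter, mem_product, mem_range] at hp
    obtain ⟨⟨hu, hv⟩, hua, hvb, huv⟩ := hp
    have hu' : (u : ℝ) ≤ L := by exact_mod_cast Nat.lt_succ_iff.1 hu
    have hv' : (v : ℝ) ≤ L := by exact_mod_cast Nat.lt_succ_iff.1 hv
    have ea : ((a - u : ℕ) : ℝ) + u = a := by exact_mod_cast Nat.sub_add_cancel hua
    have eb : ((b - v : ℕ) : ℝ) + v = b := by exact_mod_cast Nat.sub_add_cancel hvb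
    simp only
    rw [near_real_rf]
    rcases huv with h | h
    · have h' : (v + w + 1 : ℝ) ≤ u := by exact_mod_cast h
      refine transversal hr0 hr1 hd hd0 hε (by rw [ea, eb]; exact c1) ?_ (by omega) (by omega)
      nlinarith [mul_le_mul_of_nonneg_left hu' hC]
    · have h' : (u + w + 1 : ℝ) ≤ v := by exact_mod_cast h
      refine transversal' hr0 hr1 hd hd0 hε (by rw [ea, eb]; exact c2) ?_ (by omega) (by omega)
      nlinarith [mul_le_mul_of_nonneg_left hv' hC]
  · rw [nsmul_eq_mul]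
    refine mul_le_mul_of_nonneg_right ?_ (by positivity)
    have := card_filter_le (range (L + 1) ×ˢ range (L + 1))
      (fun p => p.1 ≤ a ∧ p.2 ≤ b ∧ (p.2 + w < p.1 ∨ p.1 + w < p.2))
    rw [card_product, card_range, ← sq] at this
    exact_mod_cast this

lemma extra_sum_small {q δ : ℝ} (h0 : 0 ≤ q) (hδ : 0 ≤ δ) (h1 : q + δ < 1) (b : ℕ × ℕ → ℝ)
    (γ : Finset (ℕ × ℕ)) (hb : ∀ v ∈ γ, b v = q + δ) (h : ℕ) :
    Nx (fun _ => q) b {η | ∑ u ∈ γ, η u ≤ h} ≤ ENNReal.ofReal (2 ^ h * (1 - δ / 2) ^ γ.card) := by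
  have hm : MeasurableSet {η : Fld | ∑ u ∈ γ, η u ≤ h} :=
    measurableSet_le (Finset.measurable_sum _ fun v _ => measurable_pi_apply v) measurable_const
  calc Nx (fun _ => q) b {η | ∑ u ∈ γ, η u ≤ h}
      = ∫⁻ η, {η : Fld | ∑ u ∈ γ, η u ≤ h}.indicator 1 η ∂Nx (fun _ => q) b :=
        (lintegral_indicator_one hm).symm
    _ ≤ ∫⁻ η, ENNReal.ofReal (2 ^ h) * ∏ u ∈ γ, ENNReal.ofReal ((1 / 2) ^ η u)
          ∂Nx (fun _ => q) b := by
        refine lintegral_mono fun η => ?_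
        by_cases hη : η ∈ {η : Fld | ∑ u ∈ γ, η u ≤ h}
        · rw [Set.indicator_of_mem hη, ← ENNReal.ofReal_prod_of_nonneg (fun _ _ => by positivity),
            prod_pow_eq_pow_sum, ← ENNReal.ofReal_mul (by positivity), Pi.one_apply,
            ← ENNReal.ofReal_one]
          refine ENNReal.ofReal_le_ofReal ?_
          rw [one_div_pow, mul_one_div, le_div_iff₀ (by positivity), one_mul]
          exact pow_le_pow_right₀ (by norm_num) hη
        · rw [Set.indicator_of_notMem hη]; exact zero_le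
    _ ≤ _ := by
        have mf : Measurable fun η : Fld => ∏ u ∈ γ, ENNReal.ofReal ((1 / 2) ^ η u) :=
          Finset.measurable_prod _ fun v _ => measurable_pow_nat _ (measurable_pi_apply v)
        rw [lintegral_const_mul _ mf, Nx, lintegral_prod_pi _ γ
          (fun _ k => ENNReal.ofReal ((1 / 2) ^ k)) (fun _ => measurable_of_countable _),
          ENNReal.ofReal_mul (by positivity), 
          ENNReal.ofReal_pow (p := 1 - δ / 2) (by linarith),
          ← prod_const (ENNReal.ofReal (1 - δ / 2))]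
        gcongr with v hv
        rw [hb v hv]
        simpa using extra_half h0 (by linarith : q ≤ q + δ) h1

lemma tube_couple {q δ : ℝ} (h0 : 0 ≤ q) (hδ : 0 ≤ δ) (h1 : q + δ < 1) {h L w x y a b : ℕ}
    (hL : L ≤ a + b) (hh : 2 ^ h * (1 - δ / 2) ^ L ≤ 1 / 2) :
    (Pq q).real {ξ | Near h ξ x y a b} ≤ (Pq q).real (Bent L w a b)
      + 2 * (Pa fun v => if v ∈ tube L w x y then q + δ else q).real
        (Hit (tube L w x y) (x + a) (y + b)) := by
  set A := tube L w x y with hA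
  set b' : ℕ × ℕ → ℝ := fun v => if v ∈ A then q + δ else q with hb'
  have hmp := mp_add (fun _ => q) b' (A : Set (ℕ × ℕ))
    (fun v hv => by simp only [hb', mem_coe.1 hv, if_true]; exact ⟨h0, by linarith, h1⟩)
    (fun v hv => by simp only [hb', mt mem_coe.2 hv, if_false])
  have hH := measurableSet_Hit A (x + a) (y + b)
  set E := {ξ | Near h ξ x y a b} \ sh (x, y) ⁻¹' Bent L w a b with hE
  have mE : MeasurableSet E :=
    (measurableSet_near ..).diff (measurable_sh _ (measurableSet_Bent ..))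
  have key : 2⁻¹ * Pq q E ≤ Pa b' (Hit A (x + a) (y + b)) := by
    rw [← hmp.measure_preimage hH.nullMeasurableSet, Measure.prod_apply (hmp.measurable hH),
      ← lintegral_indicator_const mE]
    refine lintegral_mono fun ξ => ?_
    by_cases hξ : ξ ∈ E
    swap
    · rw [Set.indicator_of_notMem hξ]; exact zero_le
    rw [Set.indicator_of_mem hξ]
    obtain ⟨hn, hs⟩ := hξ
    obtain ⟨σ, s1, s2⟩ := exists_opt (sh (x, y) ξ) a b
    let g : ℕ → ℕ × ℕ := fun k => (x + (pos σ (k + 1)).1, y + (pos σ (k + 1)).2)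
    have ginj : Function.Injective g := by
      intro k l hkl
      simp only [g, Prod.mk.injEq] at hkl
      have := pos_inj σ (a₁ := k + 1) (a₂ := l + 1) (Prod.ext (by omega) (by omega))
      omega
    have gA : ∀ k < L, g k ∈ A := by
      intro k hk
      have hp := pos_le s1 (k := k + 1) (by omega)
      have hsum := pos_sum σ (k + 1)
      have : ¬ ((pos σ (k + 1)).2 + w < (pos σ (k + 1)).1
          ∨ (pos σ (k + 1)).1 + w < (pos σ (k + 1)).2) := by
        intro hc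
        apply hs
        simp only [Set.mem_preimage, Bent, Set.mem_iUnion]
        refine ⟨pos σ (k + 1), by
          simp only [mem_filter, mem_product, mem_range]
          exact ⟨⟨by omega, by omega⟩, hp.1, hp.2, hc⟩, ?_⟩
        refine near_of_pos (σ := σ) ?_ ?_ (k := k + 1) rfl
        · rw [Nat.add_sub_cancel' hp.1, Nat.add_sub_cancel' hp.2, s1]
        · rw [Nat.add_sub_cancel' hp.1, Nat.add_sub_cancel' hp.2, s2]
      refine mem_image.2 ⟨((pos σ (k + 1)).1, (pos σ (k + 1)).2 + w - (pos σ (k + 1)).1), ?_, ?_⟩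
      · simp only [mem_product, mem_range]; omega
      · simp only [g, Prod.mk.injEq, true_and]; omega
    have hsm := extra_sum_small h0 hδ h1 b' ((range L).image g) (fun v hv => by
      obtain ⟨k, hk, rfl⟩ := mem_image.1 hv
      simp only [hb', gA k (mem_range.1 hk), if_true]) h
    rw [card_image_of_injective _ ginj, card_range] at hsm
    have hm : MeasurableSet {η : Fld | ∑ u ∈ (range L).image g, η u ≤ h} :=
      measurableSet_le (Finset.measurable_sum _ fun v _ => measurable_pi_apply v) measurable_const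
    have h2 : Nx (fun _ => q) b' {η | ∑ u ∈ (range L).image g, η u ≤ h} ≤ 2⁻¹ := by
      refine hsm.trans ((ENNReal.ofReal_le_ofReal hh).trans ?_)
      rw [one_div, ENNReal.ofReal_inv_of_pos (by norm_num)]; simp
    calc (2⁻¹ : ℝ≥0∞) = 1 - 2⁻¹ := by simp
      _ ≤ Nx (fun _ => q) b' {η | ∑ u ∈ (range L).image g, η u ≤ h}ᶜ := by
          rw [prob_compl_eq_one_sub hm]; exact tsub_le_tsub_left h2 _
      _ ≤ _ := by
          refine measure_mono fun η hη => ?_
          simp only [Set.mem_compl_iff, Set.mem_ofPred_eq, not_le] at hη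
          rw [sum_image (fun _ _ _ _ h => ginj h)] at hη
          have e1 : val (sh (x, y) (onSet (A : Set (ℕ × ℕ)) η)) σ L = ∑ k ∈ range L, η (g k) := by
            refine sum_congr rfl fun k hk => ?_
            have := gA k (mem_range.1 hk)
            simp only [sh, onSet, mem_coe]
            exact if_pos this
          have e2 := tube_gain (η := onSet (A : Set (ℕ × ℕ)) η) hn s1 s2 hL (by rwa [e1])
          simp only [Set.mem_preimage, Hit, Set.mem_ofPred_eq]
          refine lt_of_le_of_lt (G_mono (fun u => ?_) _ _) e2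
          simp only [zA, onSet, Pi.add_apply, mem_coe]
          split_ifs <;> simp
  have k2 : (Pq q).real E ≤ 2 * (Pa b').real (Hit A (x + a) (y + b)) := by
    have := ENNReal.toReal_mono (measure_ne_top _ _) key
    rw [ENNReal.toReal_mul] at this
    simp only [ENNReal.toReal_inv, ENNReal.toReal_ofNat] at this
    rw [measureReal_def, measureReal_def]
    linarith
  rw [← mp_real (mp_sh q (x, y)) (measurableSet_Bent L w a b)]
  refine le_trans (measureReal_mono (s₂ := sh (x, y) ⁻¹' Bent L w a b ∪ E) fun ξ hξ => ?_)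
    ((measureReal_union_le _ _).trans (by linarith))
  by_cases h : ξ ∈ sh (x, y) ⁻¹' Bent L w a b
  · exact Or.inl h
  · exact Or.inr ⟨hξ, h⟩

lemma one_sub_pow_le {x : ℝ} (h1 : x ≤ 1) (h0 : 0 ≤ x) (n : ℕ) :
    (1 - x) ^ n ≤ 1 - n * x + n ^ 2 / 2 * x ^ 2 := by
  induction n with
  | zero => simp
  | succ n ih =>
    rw [pow_succ]
    have := mul_le_mul_of_nonneg_right ih (sub_nonneg.2 h1)
    have h3 : 0 ≤ (n : ℝ) ^ 2 * x ^ 3 := by positivity
    push_cast
    nlinarith [sq_nonneg x]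

/-- Constant in the density moment bound. -/
noncomputable def C8 (q : ℝ) : ℝ := 560 / (q * (1 - q) ^ 2)

lemma dens_real {q δ : ℝ} (h0 : 0 < q) (h1 : q < 1) (hδ : 0 ≤ δ) (hδ0 : δ ≤ q * (1 - q) / 1000) :
    q * ((q + δ) / q) ^ 8 < 1 ∧
    ((1 - (q + δ)) / (1 - q)) ^ 8 * ((1 - q) / (1 - q * ((q + δ) / q) ^ 8))
      ≤ Real.exp (C8 q * δ ^ 2) := by
  have hq : 0 < 1 - q := by linarith
  set x := δ / (1 - q) with hx
  set e := δ / q with he
  set y := 247 * δ ^ 2 / (q * (1 - q)) with hy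
  have hx0 : 0 ≤ x := by positivity
  have he0 : 0 ≤ e := by positivity
  have hy0 : 0 ≤ y := by positivity
  have hx1 : x ≤ 1 / 1000 := by rw [hx, div_le_iff₀ hq]; nlinarith
  have he1 : e ≤ 1 := by rw [he, div_le_iff₀ h0]; nlinarith
  have hy1 : y ≤ 1 / 4 := by
    rw [hy, div_le_iff₀ (by positivity)]
    have : δ ≤ 1 / 1000 := by nlinarith
    nlinarith
  have e1 : (q + δ) / q = 1 + e := by rw [he]; field_simp
  have e2 : (1 - (q + δ)) / (1 - q) = 1 - x := by rw [hx]; field_simp; ring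
  have e3 : (1 + e) ^ 8 ≤ 1 + 8 * e + 247 * e ^ 2 := by
    have p := fun k (hk : 2 ≤ k) => pow_le_pow_of_le_one he0 he1 hk
    have p3 := p 3 (by norm_num)
    have p4 := p 4 (by norm_num)
    have p5 := p 5 (by norm_num)
    have p6 := p 6 (by norm_num)
    have p7 := p 7 (by norm_num)
    have p8 := p 8 (by norm_num)
    have : (1 + e) ^ 8 = 1 + 8 * e + 28 * e ^ 2 + 56 * e ^ 3 + 70 * e ^ 4 + 56 * e ^ 5
      + 28 * e ^ 6 + 8 * e ^ 7 + e ^ 8 := by ring
    linarith
  have e4 : (1 - q) * (1 - 8 * x - y) ≤ 1 - q * (1 + e) ^ 8 := by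
    have : (1 - q) * (1 - 8 * x - y) = 1 - q * (1 + 8 * e + 247 * e ^ 2) := by
      rw [hx, hy, he]; field_simp; ring
    rw [this]; nlinarith
  have e5 : 1 / 2 ≤ 1 - 8 * x - y := by linarith
  have e6 : 0 < 1 - q * (1 + e) ^ 8 := lt_of_lt_of_le (by positivity) e4
  rw [e1, e2]
  refine ⟨by linarith, ?_⟩
  have e7 := one_sub_pow_le (x := x) (by linarith) hx0 8
  have e8 : (1 - q) / (1 - q * (1 + e) ^ 8) ≤ 1 / (1 - 8 * x - y) := by
    rw [div_le_div_iff₀ e6 (by linarith)]; linarith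
  have e9 : 2 * (32 * x ^ 2 + y) ≤ C8 q * δ ^ 2 := by
    rw [hx, hy, C8]
    have : 2 * (32 * (δ / (1 - q)) ^ 2 + 247 * δ ^ 2 / (q * (1 - q)))
        = (64 * q + 494 * (1 - q)) / (q * (1 - q) ^ 2) * δ ^ 2 := by field_simp; ring
    rw [this]
    gcongr; linarith
  calc (1 - x) ^ 8 * ((1 - q) / (1 - q * (1 + e) ^ 8))
      ≤ (1 - 8 * x + 32 * x ^ 2) * (1 / (1 - 8 * x - y)) := by
        refine mul_le_mul (by norm_num at e7 ⊢; linarith) e8 (by positivity) (by nlinarith)
    _ ≤ C8 q * δ ^ 2 + 1 := by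
        rw [mul_one_div, div_le_iff₀ (by linarith)]
        have : 0 ≤ 32 * x ^ 2 + y := by positivity
        nlinarith
    _ ≤ _ := Real.add_one_le_exp _

lemma tilt_le {q δ : ℝ} (h0 : 0 < q) (h1 : q < 1) (hδ : 0 ≤ δ) (hδ0 : δ ≤ q * (1 - q) / 1000)
    (A : Finset (ℕ × ℕ)) {B : Set Fld} (hB : MeasurableSet B) {lam : ℝ} (hl : 0 < lam) :
    (Pa fun v => if v ∈ A then q + δ else q).real B
      ≤ lam * (Pq q).real B + Real.exp (C8 q * δ ^ 2 * A.card) / lam ^ 7 := by
  obtain ⟨d1, d2⟩ := dens_real h0 h1 hδ hδ0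
  have hq : 0 < 1 - q := by linarith
  have hqδ : q + δ < 1 := by nlinarith
  set c := (1 - (q + δ)) / (1 - q) with hc
  set t := (q + δ) / q with ht
  have hc0 : 0 ≤ c := div_nonneg (by linarith) hq.le
  have ht0 : 0 ≤ t := by positivity
  have e1 : (Pa fun v => if v ∈ A then q + δ else q)
      = (Pq q).withDensity fun ξ => ∏ v ∈ A, ENNReal.ofReal (c * t ^ ξ v) :=
    pi_withDensity (fun _ => geo q) (fun v => geo (if v ∈ A then q + δ else q)) A
      (fun _ k => ENNReal.ofReal (c * t ^ k)) (fun _ => measurable_of_countable _)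
      (fun v hv => by simp only [hv, if_true]; exact geo_withDensity h0 h1 (by linarith) hqδ)
      (fun v hv => by simp [hv])
  have mf : Measurable fun ξ : Fld => ∏ v ∈ A, ENNReal.ofReal (c ^ 8 * (t ^ 8) ^ ξ v) :=
    Finset.measurable_prod _ fun v _ =>
      (measurable_of_countable fun k : ℕ => ENNReal.ofReal (c ^ 8 * (t ^ 8) ^ k)).comp
        (measurable_pi_apply v)
  have e2 : ∫⁻ ξ, ∏ v ∈ A, ENNReal.ofReal (c ^ 8 * (t ^ 8) ^ ξ v) ∂Pq q
      ≤ ENNReal.ofReal (Real.exp (C8 q * δ ^ 2 * A.card)) := by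
    rw [Pq, Pa, lintegral_prod_pi _ A (fun _ k => ENNReal.ofReal (c ^ 8 * (t ^ 8) ^ k))
      (fun _ => measurable_of_countable _), prod_const, mul_comm _ (A.card : ℝ), Real.exp_nat_mul,
      ENNReal.ofReal_pow (Real.exp_pos _).le]
    refine pow_le_pow_left' ?_ _
    simp only [ENNReal.ofReal_mul (show 0 ≤ c ^ 8 by positivity)]
    rw [lintegral_const_mul _ (measurable_of_countable _),
      lintegral_geo_pow h0.le h1 (by positivity) d1, ← ENNReal.ofReal_mul (by positivity)]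
    exact ENNReal.ofReal_le_ofReal d2
  have key : (Pa fun v => if v ∈ A then q + δ else q) B ≤ ENNReal.ofReal lam * Pq q B
      + ENNReal.ofReal (1 / lam ^ 7) * ENNReal.ofReal (Real.exp (C8 q * δ ^ 2 * A.card)) := by
    rw [e1, withDensity_apply _ hB]
    calc _ ≤ ∫⁻ ξ in B, (ENNReal.ofReal lam + ENNReal.ofReal (1 / lam ^ 7)
          * ∏ v ∈ A, ENNReal.ofReal (c ^ 8 * (t ^ 8) ^ ξ v)) ∂Pq q := by
          refine lintegral_mono fun ξ => ?_
          rw [← ENNReal.ofReal_prod_of_nonneg (fun _ _ => by positivity),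
            ← ENNReal.ofReal_prod_of_nonneg (fun _ _ => by positivity),
            ← ENNReal.ofReal_mul (by positivity), ← ENNReal.ofReal_add hl.le
              (mul_nonneg (by positivity) (prod_nonneg fun _ _ => by positivity))]
          refine ENNReal.ofReal_le_ofReal ?_
          have : ∏ v ∈ A, c ^ 8 * (t ^ 8) ^ ξ v = (∏ v ∈ A, c * t ^ ξ v) ^ 8 := by
            rw [← prod_pow]
            exact prod_congr rfl fun v _ => by rw [mul_pow, ← pow_mul, ← pow_mul, mul_comm 8]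
          rw [this]
          set R := ∏ v ∈ A, c * t ^ ξ v
          have hR : 0 ≤ R := prod_nonneg fun _ _ => by positivity
          rcases le_total R lam with h | h
          · have : 0 ≤ 1 / lam ^ 7 * R ^ 8 := by positivity
            linarith
          · have h7 : lam ^ 7 ≤ R ^ 7 := pow_le_pow_left₀ hl.le h 7
            have : R ≤ 1 / lam ^ 7 * R ^ 8 := by
              rw [one_div_mul_eq_div, le_div_iff₀ (by positivity)]
              calc R * lam ^ 7 ≤ R * R ^ 7 := mul_le_mul_of_nonneg_left h7 hR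
                _ = _ := by ring
            linarith
      _ ≤ _ := by
          rw [lintegral_add_left measurable_const, setLIntegral_const, lintegral_const_mul _ mf]
          gcongr
          exact (setLIntegral_le_lintegral _ _).trans e2
  have := ENNReal.toReal_mono (ENNReal.add_ne_top.2 ⟨ENNReal.mul_ne_top ENNReal.ofReal_ne_top
    (measure_ne_top _ _), ENNReal.mul_ne_top ENNReal.ofReal_ne_top ENNReal.ofReal_ne_top⟩) key
  rw [ENNReal.toReal_add (ENNReal.mul_ne_top ENNReal.ofReal_ne_top (measure_ne_top _ _))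
    (ENNReal.mul_ne_top ENNReal.ofReal_ne_top ENNReal.ofReal_ne_top), ENNReal.toReal_mul,
    ENNReal.toReal_mul, ENNReal.toReal_ofReal hl.le, ENNReal.toReal_ofReal (by positivity),
    ENNReal.toReal_ofReal (Real.exp_pos _).le, one_div_mul_eq_div] at this
  exact this

lemma hit_count (q : ℝ) (L w n s : ℕ) (Zs : Finset (ℕ × ℕ)) (hZ : ∀ z ∈ Zs, z.1 + z.2 = s) :
    ∑ z ∈ Zs, (Pq q).real (Hit (tube L w z.1 z.2) n n) ≤ 2 * L + w + 1 := by
  have e : ∀ z : ℕ × ℕ, (Pq q).real (Hit (tube L w z.1 z.2) n n)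
      = ∫ ζ, (Hit (tube L w z.1 z.2) n n).indicator (fun _ => (1 : ℝ)) ζ ∂Pq q := fun z => by
    rw [integral_indicator_const _ (measurableSet_Hit ..)]; simp
  simp only [e]
  rw [← integral_finsetSum _ fun z _ => (integrable_const _).indicator (measurableSet_Hit ..)]
  refine le_trans (integral_mono_of_nonneg (g := fun _ => (2 * L + w + 1 : ℝ))
    (ae_of_all _ fun ζ => sum_nonneg fun _ _ => Set.indicator_nonneg (fun _ _ => zero_le_one) _)
    (integrable_const _) (ae_of_all _ fun ζ => ?_)) (by simp)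
  classical
  obtain ⟨σ, s1, s2⟩ := exists_opt ζ n n
  simp only [Set.indicator_apply]
  rw [← sum_filter, sum_const, nsmul_eq_mul, mul_one]
  have : (Zs.filter fun z => ζ ∈ Hit (tube L w z.1 z.2) n n).card
      ≤ (Icc ((pos σ s).1 - L) ((pos σ s).1 + L + w)).card := by
    refine card_le_card_of_injOn Prod.fst (fun z hz => ?_) (fun z hz z' hz' h => ?_)
    · obtain ⟨hz1, hz2⟩ := mem_filter.1 (mem_coe.1 hz)
      obtain ⟨k, hk⟩ := hit_path s1 s2 hz2
      obtain ⟨p, hp, hpk⟩ := mem_image.1 hk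
      simp only [mem_product, mem_range] at hp
      have h1 := pos_sum σ k
      have h2 := pos_sum σ s
      have h3 := hZ z hz1
      rw [← hpk] at h1
      simp only at h1
      have h4 := pos_mono σ (k := s) (l := k) (by omega)
      rw [← hpk] at h4
      simp only [coe_Icc, Set.mem_Icc] at h4 ⊢
      omega
    · have h1 := hZ z (mem_filter.1 (mem_coe.1 hz)).1
      have h2 := hZ z' (mem_filter.1 (mem_coe.1 hz')).1
      exact Prod.ext h (by omega)
  rw [Nat.card_Icc] at this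
  have h5 : (Zs.filter fun z => ζ ∈ Hit (tube L w z.1 z.2) n n).card ≤ 2 * L + w + 1 := by omega
  exact_mod_cast h5

/-- Parameters of the near-optimality bound. -/
structure TubeData (r : ℝ) (n h L w : ℕ) (lam γ₀ : ℝ) : Prop where
  ex : ∃ (d₁ d₂ ε₁ ε₂ δ : ℝ) (n₁ n₂ D : ℕ), 0 < d₁ ∧ d₁ ≤ d0 r ∧ 0 < d₂ ∧ d₂ ≤ d0 r ∧
    Real.exp (-(r ^ 2 * n₁ * d₁ ^ 3 / 8)) ≤ ε₁ ∧ Real.exp (-(r ^ 2 * n₂ * d₂ ^ 3 / 8)) ≤ ε₂ ∧
    C3 r * d₁ * n ≤ D ∧ 2 * n₁ ≤ n ∧ D ≤ d₂ * (n - D) ∧ n₂ ≤ w ∧ 2 * n₂ + D ≤ n ∧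
    C3 r * d₂ * L ≤ w ∧ L ≤ n ∧ 0 ≤ δ ∧ δ ≤ r ^ 2 * (1 - r ^ 2) / 1000 ∧
    2 ^ h * (1 - δ / 2) ^ L ≤ 1 / 2 ∧ 0 < lam ∧
    ((r ^ 2) ^ h)⁻¹ * (2 * ε₁) + (L + 1) ^ 2 * (2 * ε₂)
      + 2 * (Real.exp (C8 (r ^ 2) * δ ^ 2 * ((L + 1) * (2 * w + 1))) / lam ^ 7) ≤ γ₀

lemma near_site {r : ℝ} (hr0 : 0 < r) (hr1 : r < 1) {n h L w : ℕ} {lam γ₀ : ℝ}
    (H : TubeData r n h L w lam γ₀) {x y : ℕ} (hxy : x + y ≤ n) :
    (Pq (r ^ 2)).real {ξ | Near h ξ x y (n - x) (n - y)}
      ≤ γ₀ + 2 * lam * (Pq (r ^ 2)).real (Hit (tube L w x y) n n) := by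
  obtain ⟨d₁, d₂, ε₁, ε₂, δ, n₁, n₂, D, h1, h2, h3, h4, h5, h6, h7, h8, h9, h10, h11, h12, h13,
    h14, h15, h16, h17, h18⟩ := H.ex
  have hq0 : 0 < r ^ 2 := by positivity
  have hq1 : r ^ 2 < 1 := by nlinarith
  have hε₁ : 0 ≤ ε₁ := (Real.exp_pos _).le.trans h5
  have hε₂ : 0 ≤ ε₂ := (Real.exp_pos _).le.trans h6
  have hC : 0 ≤ C3 r * d₁ := by
    have : 0 < 1 - r := by linarith
    unfold C3; positivity
  have p1 : 0 ≤ ((r ^ 2) ^ h)⁻¹ * (2 * ε₁) := by positivity
  have p2 : 0 ≤ ((L : ℝ) + 1) ^ 2 * (2 * ε₂) := by positivity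
  have p3 : 0 ≤ 2 * (Real.exp (C8 (r ^ 2) * δ ^ 2 * ((L + 1) * (2 * w + 1))) / lam ^ 7) := by
    positivity
  have p4 : 0 ≤ 2 * lam * (Pq (r ^ 2)).real (Hit (tube L w x y) n n) := by positivity
  obtain ⟨a, ha⟩ : ∃ a, n = x + a := ⟨n - x, by omega⟩
  obtain ⟨b, hb⟩ : ∃ b, n = y + b := ⟨n - y, by omega⟩
  have ha' : n - x = a := by omega
  have hb' : n - y = b := by omega
  have haR : (n : ℝ) = x + a := by exact_mod_cast ha
  have hbR : (n : ℝ) = y + b := by exact_mod_cast hb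
  have hxyR : (x + y : ℝ) ≤ n := by exact_mod_cast hxy
  have hn0 : (0 : ℝ) ≤ n := by positivity
  rw [ha', hb']
  by_cases hA : x + D < y ∨ y + D < x
  · have e1 := near_h_le hq0 hq1 h a b (x := x) (y := y) (by omega)
    have e2 : (Pq (r ^ 2)).real {ξ | Near 0 ξ x y a b} ≤ 2 * ε₁ := by
      rcases hA with hA | hA
      · have hA' : (x + D + 1 : ℝ) ≤ y := by exact_mod_cast hA
        have : (a : ℝ) ≤ n := by linarith [Nat.cast_nonneg (α := ℝ) x]
        refine transversal hr0 hr1 h1 h2 h5 (by rw [← haR, ← hbR]; nlinarith) ?_ (by omega)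
          (by omega)
        nlinarith [mul_le_mul_of_nonneg_left this hC]
      · have hA' : (y + D + 1 : ℝ) ≤ x := by exact_mod_cast hA
        have : (b : ℝ) ≤ n := by linarith [Nat.cast_nonneg (α := ℝ) y]
        refine transversal' hr0 hr1 h1 h2 h5 (by rw [← haR, ← hbR]; nlinarith) ?_ (by omega)
          (by omega)
        nlinarith [mul_le_mul_of_nonneg_left this hC]
    have e3 := mul_le_mul_of_nonneg_left e2 (show 0 ≤ ((r ^ 2) ^ h)⁻¹ by positivity)
    linarith
  · push Not at hA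
    have hA1 : (y : ℝ) ≤ x + D := by exact_mod_cast hA.1
    have hA2 : (x : ℝ) ≤ y + D := by exact_mod_cast hA.2
    have e1 := tube_couple (q := r ^ 2) (δ := δ) hq0.le h14 (by nlinarith) (h := h) (L := L) (w := w)
      (x := x) (y := y) (a := a) (b := b) (by omega) h16
    have e2 := bent_le hr0 hr1 h3 h4 h6 (L := L) (w := w) (a := a) (b := b) (by nlinarith)
      (by nlinarith) h12 (by omega) (by omega) h10
    rw [← ha, ← hb] at e1
    have e3 := tilt_le hq0 hq1 h14 h15 (tube L w x y) (measurableSet_Hit (tube L w x y) n n) h17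
    have e4 : Real.exp (C8 (r ^ 2) * δ ^ 2 * (tube L w x y).card) / lam ^ 7
        ≤ Real.exp (C8 (r ^ 2) * δ ^ 2 * ((L + 1) * (2 * w + 1))) / lam ^ 7 := by
      have hc : ((tube L w x y).card : ℝ) ≤ (L + 1) * (2 * w + 1) := by
        exact_mod_cast card_tube L w x y
      have : 0 ≤ C8 (r ^ 2) := by unfold C8; positivity
      gcongr
    linarith

theorem near_sum {r : ℝ} (hr0 : 0 < r) (hr1 : r < 1) {n h L w : ℕ} {lam γ₀ : ℝ}
    (H : TubeData r n h L w lam γ₀) {s : ℕ} (Zs : Finset (ℕ × ℕ))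
    (hZ : ∀ z ∈ Zs, z.1 ≤ n ∧ z.2 ≤ n ∧ z.1 + z.2 = s) :
    ∑ z ∈ Zs, (Pq (r ^ 2)).real {ξ | Near h ξ z.1 z.2 (n - z.1) (n - z.2)}
      ≤ Zs.card * γ₀ + 2 * lam * (2 * L + w + 1) := by
  have hl : 0 < lam := by
    obtain ⟨d₁, d₂, ε₁, ε₂, δ, n₁, n₂, D, h1, h2, h3, h4, h5, h6, h7, h8, h9, h10, h11, h12, h13,
      h14, h15, h16, h17, h18⟩ := H.ex
    exact h17
  have key : ∀ (s : ℕ) (Zs : Finset (ℕ × ℕ)), s ≤ n → (∀ z ∈ Zs, z.1 + z.2 = s) →
      ∑ z ∈ Zs, (Pq (r ^ 2)).real {ξ | Near h ξ z.1 z.2 (n - z.1) (n - z.2)}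
        ≤ Zs.card * γ₀ + 2 * lam * (2 * L + w + 1) := by
    intro s Zs hs hZ
    refine (sum_le_sum fun z hz => near_site hr0 hr1 H (by rw [hZ z hz]; exact hs)).trans ?_
    rw [sum_add_distrib, sum_const, nsmul_eq_mul, ← mul_sum]
    have := hit_count (r ^ 2) L w n s Zs hZ
    gcongr
  by_cases hs : s ≤ n
  · exact key s Zs hs fun z hz => (hZ z hz).2.2
  · have hinj : Set.InjOn (fun z : ℕ × ℕ => (n - z.1, n - z.2)) Zs := by
      intro z hz z' hz' hh
      have h1 := hZ z hz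
      have h2 := hZ z' hz'
      simp only [Prod.mk.injEq] at hh
      exact Prod.ext (by omega) (by omega)
    have := key (2 * n - s) (Zs.image fun z => (n - z.1, n - z.2)) (by omega) (by
      intro z hz
      obtain ⟨z', hz', rfl⟩ := mem_image.1 hz
      have := hZ z' hz'
      simp only; omega)
    rw [sum_image hinj, card_image_of_injOn hinj] at this
    refine le_trans (le_of_eq (sum_congr rfl fun z hz => ?_)) this
    have h1 := hZ z hz
    simp only
    rw [Nat.sub_sub_self h1.1, Nat.sub_sub_self h1.2.1, near_real_rf]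

end Pool.Agent.HideZero
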