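import Pool.Agent.Lib.MP_9debf8_pr.Est

set_option autoImplicit false

/-! Shifted passage times and the variance lower bound. -/

open Finset MeasureTheory MeasureTheory.Measure ProbabilityTheory
open scoped ENNReal

namespace Pool.Agent.HideZero

lemma sq_add_le {Ω : Type} [MeasurableSpace Ω] {μ : Measure Ω} {f g : Ω → ℝ}
    (hf : AEStronglyMeasurable f μ) (hg : AEStronglyMeasurable g μ)
    (hf2 : Integrable (fun ω => f ω ^ 2) μ) (hg2 : Integrable (fun ω => g ω ^ 2) μ) :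
    Integrable (fun ω => (f ω + g ω) ^ 2) μ ∧
      ∫ ω, (f ω + g ω) ^ 2 ∂μ ≤ 2 * ∫ ω, f ω ^ 2 ∂μ + 2 * ∫ ω, g ω ^ 2 ∂μ := by
  have hi : Integrable (fun ω => (f ω + g ω) ^ 2) μ :=
    (memLp_two_iff_integrable_sq (hf.add hg)).1
      (((memLp_two_iff_integrable_sq hf).2 hf2).add ((memLp_two_iff_integrable_sq hg).2 hg2))
  refine ⟨hi, ?_⟩
  rw [← integral_const_mul, ← integral_const_mul,
    ← integral_add (hf2.const_mul _) (hg2.const_mul _)]
  refine integral_mono hi ((hf2.const_mul _).add (hg2.const_mul _)) fun ω => ?_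
  simp only
  nlinarith [sq_nonneg (f ω - g ω)]

/-- Change of the passage time under a horizontal shift of both endpoints. -/
def Dk (n k : ℕ) (ξ : Fld) : ℝ := (Lp (sh (k, 0) ξ) n n : ℝ) - Lp ξ n n

lemma measurable_Dk (n k : ℕ) : Measurable (Dk n k) :=
  (measurable_cast ((measurable_Lp _ _).comp (measurable_sh _))).sub
    (measurable_cast (measurable_Lp _ _))

lemma Dk_eq (n k : ℕ) (ξ : Fld) : Dk n k ξ = Xi n n k ξ - Xi n n k (rf (n + k) n ξ) := by
  have e1 := Lp_sh_rf ξ (M := n + k) (N := n) (x := 0) (y := 0) (a := n + k) (b := n)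
    (x' := 0) (y' := 0) (by omega) (by omega)
  have e2 := Lp_sh_rf ξ (M := n + k) (N := n) (x := 0) (y := 0) (a := n) (b := n)
    (x' := k) (y' := 0) (by omega) (by omega)
  simp only [sh_zero] at e1 e2
  simp only [Dk, Xi, e1, e2]; ring

section

variable {r : ℝ} (hr0 : 0 < r) (hr1 : r < 1)
include hr0 hr1

lemma Lp_facts {m n N : ℕ} (hN : (m + 1) * (n + 1) ≤ N) :
    Integrable (fun ξ => (Lp ξ m n : ℝ) ^ 2) (Pq (r ^ 2)) ∧
      Integrable (fun ξ => ((Lp ξ m n : ℝ) ^ 2) ^ 2) (Pq (r ^ 2)) ∧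
      ∫ ξ, (Lp ξ m n : ℝ) ^ 2 ∂Pq (r ^ 2) ≤ Mo r N ∧
      ∫ ξ, ((Lp ξ m n : ℝ) ^ 2) ^ 2 ∂Pq (r ^ 2) ≤ Mo r N :=
  dom_Mo hr0.le hr1 (B := box m n) (fun _ _ => ⟨by positivity, by nlinarith⟩)
    (by rwa [card_box]) (measurable_cast (measurable_Lp _ _)) (fun _ => by positivity)
    (fun ξ => Lp_le_SS ξ m n)

lemma Dk_sq (n k : ℕ) (c : ℝ) : Integrable (fun ξ => Dk n k ξ ^ 2) (Pq (r ^ 2)) ∧
    ∫ ξ, Dk n k ξ ^ 2 ∂Pq (r ^ 2) ≤ 4 * ∫ ξ, (Xi n n k ξ - c) ^ 2 ∂Pq (r ^ 2) := by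
  obtain ⟨x1, -, -, -⟩ := Xi_facts hr0 hr1 (i := n) (j := n) (k := k) le_rfl
  have mX := measurable_Xi n n k
  have iX := integrable_sq_sub mX x1 c
  have hmp := mp_rf (r ^ 2) (n + k) n
  have mY : Measurable fun ξ => -(Xi n n k (rf (n + k) n ξ) - c) :=
    ((mX.comp (measurable_rf _ _)).sub_const c).neg
  have := sq_add_le (mX.sub_const c).aestronglyMeasurable mY.aestronglyMeasurable iX
    (by simp only [neg_sq]; exact hmp.integrable_comp_of_integrable iX)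
  simp only [neg_sq] at this
  rw [mp_integral hmp (f := fun ξ => (Xi n n k ξ - c) ^ 2) ((mX.sub_const c).pow_const 2)] at this
  have e : ∀ ξ, Xi n n k ξ - c + -(Xi n n k (rf (n + k) n ξ) - c) = Dk n k ξ :=
    fun ξ => by rw [Dk_eq]; ring
  simp only [e] at this
  exact ⟨this.1, by linarith [this.2]⟩

lemma shift_sq (n : ℕ) {j m : ℕ} (hj : j ≤ m) :
    Integrable (fun ξ => ((Lp (sh (0, m) ξ) n n : ℝ) - Lp (sh (j, m - j) ξ) n n) ^ 2) (Pq (r ^ 2)) ∧
    ∫ ξ, ((Lp (sh (0, m) ξ) n n : ℝ) - Lp (sh (j, m - j) ξ) n n) ^ 2 ∂Pq (r ^ 2)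
      ≤ 4 * ∫ ξ, Dk n j ξ ^ 2 ∂Pq (r ^ 2) := by
  obtain ⟨iD, -⟩ := Dk_sq hr0 hr1 n j 0
  have mD := measurable_Dk n j
  have h1 := mp_sh (r ^ 2) (0, m)
  have h2 := (mp_tr (r ^ 2)).comp (mp_sh (r ^ 2) (j, m - j))
  have := sq_add_le (f := fun ξ => -Dk n j (sh (0, m) ξ)) (g := fun ξ => Dk n j (tr (sh (j, m - j) ξ)))
    (mD.comp h1.measurable).neg.aestronglyMeasurable (mD.comp h2.measurable).aestronglyMeasurable
    (by simp only [neg_sq]; exact h1.integrable_comp_of_integrable iD)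
    (h2.integrable_comp_of_integrable iD)
  simp only [neg_sq] at this
  have e1 := mp_integral h1 (f := fun ξ => Dk n j ξ ^ 2) (mD.pow_const 2)
  have e2 := mp_integral h2 (f := fun ξ => Dk n j ξ ^ 2) (mD.pow_const 2)
  simp only [Function.comp] at e2
  rw [e1, e2] at this
  have e : ∀ ξ, -Dk n j (sh (0, m) ξ) + Dk n j (tr (sh (j, m - j) ξ))
      = (Lp (sh (0, m) ξ) n n : ℝ) - Lp (sh (j, m - j) ξ) n n := by
    intro ξ
    simp only [Dk, sh_tr, Lp_tr, sh_sh, zero_add, add_zero, Nat.sub_add_cancel hj]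
    ring
  simp only [e] at this
  exact ⟨this.1, by linarith [this.2]⟩

lemma Dk_le_var (n k : ℕ) :
    ∫ ξ, Dk n k ξ ^ 2 ∂Pq (r ^ 2) ≤ 4 * variance (fun ξ => (Lp ξ n n : ℝ)) (Pq (r ^ 2)) := by
  obtain ⟨x1, -, -, -⟩ := Lp_facts hr0 hr1 (m := n) (n := n) le_rfl
  have mX := measurable_cast (measurable_Lp n n)
  rw [variance_eq_integral mX.aemeasurable]
  set c := ∫ ξ, (Lp ξ n n : ℝ) ∂Pq (r ^ 2)
  have iX := integrable_sq_sub mX x1 c
  have hmp := mp_sh (r ^ 2) (k, 0)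
  have := sq_add_le (f := fun ξ => (Lp (sh (k, 0) ξ) n n : ℝ) - c)
    (g := fun ξ => -((Lp ξ n n : ℝ) - c))
    ((mX.comp hmp.measurable).sub_const c).aestronglyMeasurable
    (mX.sub_const c).neg.aestronglyMeasurable (hmp.integrable_comp_of_integrable iX)
    (by simpa only [neg_sq] using iX)
  simp only [neg_sq] at this
  rw [mp_integral hmp (f := fun ξ => ((Lp ξ n n : ℝ) - c) ^ 2)
    ((mX.sub_const c).pow_const 2)] at this
  have e : ∀ ξ, (Lp (sh (k, 0) ξ) n n : ℝ) - c + -((Lp ξ n n : ℝ) - c) = Dk n k ξ :=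
    fun ξ => by rw [Dk]; ring
  simp only [e] at this
  linarith [this.2]

theorem var_lower {d d' : ℝ} (hd : 0 < d) (hdd : d ≤ d') (hd0 : d' ≤ d0 r) {n₀ : ℕ} {ε : ℝ}
    (hε : Real.exp (-(r ^ 2 * n₀ * d ^ 3 / 8)) ≤ ε) {lam : ℝ} (hl : 0 < lam) {N : ℕ}
    (herr : 4 * lam * ε + Mo r N / lam ≤ 1) {n k i j x y : ℕ} (hx : x + i = n) (hy : y + j = n)
    (hjy : j < y) (hji : j ≤ i) (hn : n₀ ≤ j + 1) (hN : (n + k + 1) * (n + 1) ≤ N)
    (c1 : (n + 1 + k : ℝ) ≤ (n + 1) * (1 + 2 * d)) (c2 : (j + 1 : ℝ) ≤ (i + 1) * (1 - C3 r * d))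
    (c3 : (i + 1 + k : ℝ) ≤ (j + 1) * (1 + 2 * d')) {s : ℝ} (hs0 : 0 ≤ s) (hs : s ^ 2 * k = 1) :
    r / 40 - s * (3 * (k * (36 * d' / (1 - r) ^ 2)) + 16)
      ≤ 2 * s ^ 2 * variance (fun ξ => (Lp ξ n n : ℝ)) (Pq (r ^ 2)) := by
  have hd0' : d ≤ d0 r := hdd.trans hd0
  have hd' : 0 < d' := hd.trans_le hdd
  have hε' : Real.exp (-(r ^ 2 * n₀ * d' ^ 3 / 8)) ≤ ε := by
    refine le_trans (Real.exp_le_exp.2 ?_) hε
    have : r ^ 2 * n₀ * d ^ 3 ≤ r ^ 2 * n₀ * d' ^ 3 := by gcongr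
    linarith
  have hε0 : 0 ≤ ε := (Real.exp_pos _).le.trans hε
  obtain ⟨m1, m2, m3, m4, m5, m6, m7, m8⟩ := model_facts hr0 hr1 hd hd0'
  obtain ⟨g1, g2⟩ := beta_facts hr0 hr1 hd hd0'
  obtain ⟨f1, f2, f3, f4⟩ := d0_facts hr0 hr1 hd0'
  have hN' : (i + k + 1) * (j + 1) ≤ N := le_trans (Nat.mul_le_mul (by omega) (by omega)) hN
  set P := Pq (r ^ 2) with hP
  set Q := Ps (r ^ 2) (r - 3 * d) (r ^ 2 / (r - 3 * d)) with hQ
  let X : Fld → ℝ := Xi n n k
  let Y : Fld → ℝ := fun ξ => Xi i j k (sh (x, y) ξ)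
  let Z : Fld → ℝ := fun ξ => SS (rowset k) (nest (n + 1, n + 1) ξ)
  have mX : Measurable X := measurable_Xi n n k
  have mY : Measurable Y := (measurable_Xi i j k).comp (measurable_sh _)
  have mZ : Measurable Z := (measurable_SS _).comp (measurable_nest _)
  obtain ⟨x1, -, -, -⟩ := Xi_facts hr0 hr1 hN
  obtain ⟨y1, -, y3, -⟩ := Xi_facts hr0 hr1 hN'
  have hsh := mp_sh (r ^ 2) (x, y)
  have y1' : Integrable (fun ξ => Y ξ ^ 2) P := hsh.integrable_comp_of_integrable y1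
  have y3' : ∫ ξ, Y ξ ^ 2 ∂P ≤ Mo r N := by
    rw [← mp_integral hsh ((measurable_Xi i j k).pow_const 2)] at y3; exact y3
  have iX : Integrable X P := integrable_of_sq mX x1
  have iY : Integrable Y P := integrable_of_sq mY y1'
  obtain ⟨z1, z2, z3, -, z5⟩ := Z_facts hr0 hr1 m1 m7 m3 m4 m5 (n + 1) (n + 1) (k := k) (N := N)
    (by nlinarith)
  have iZ : Integrable Z Q := integrable_of_sq mZ z1
  have h11 := mp_sh11 (r ^ 2) (r - 3 * d) (r ^ 2 / (r - 3 * d))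
  have hnest := mp_nest m1 m2 m3 m4 m5 x y
  -- the bad event
  obtain ⟨B₁, hB₁, hB₁2, hB₁3⟩ := low_event hr0 hr1 hd hd0' hε (i := n) (j := n) (k := k) c1
    (by omega)
  set B₂ := nest (x, y) ⁻¹' (ExV (i + 1) (j + 1) ∪ ExV (i + 1 + k) (j + 1)) with hB₂'
  have hV := (measurableSet_ExV (i + 1) (j + 1)).union (measurableSet_ExV (i + 1 + k) (j + 1))
  have hB₂ : MeasurableSet B₂ := measurable_nest _ hV
  have hB₂2 : Q.real B₂ ≤ 2 * ε := by
    rw [hB₂', mp_real hnest hV]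
    have hC : 0 ≤ 1 - C3 r * d := by
      by_contra hc
      have : (i + 1 : ℝ) * (1 - C3 r * d) ≤ 0 :=
        mul_nonpos_of_nonneg_of_nonpos (by positivity) (by linarith)
      linarith [Nat.cast_nonneg (α := ℝ) j]
    have h1 := exV_real hr0 hr1 hd hd0' hε (m := i + 1) (n := j + 1) (by push_cast; linarith)
      (by omega)
    have h2 := exV_real hr0 hr1 hd hd0' hε (m := i + 1 + k) (n := j + 1)
      (by push_cast; nlinarith [Nat.cast_nonneg (α := ℝ) k]) (by omega)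
    linarith [measureReal_union_le (μ := Q) (ExV (i + 1) (j + 1)) (ExV (i + 1 + k) (j + 1))]
  have hYZ : ∀ ξ, ξ ∉ B₂ → Y (sh (1, 1) ξ) ≤ Z ξ := by
    intro ξ hξ
    have := up_det (ξ := nest (x, y) ξ) hξ
    rw [sh_nest, nest_nest, ← add_assoc, ← add_assoc, hx, hy] at this
    simp only [Y, Z, sh_sh, add_comm 1]
    exact this
  have hB : MeasurableSet (B₁ ∪ B₂) := hB₁.union hB₂
  have hB2 : Q.real (B₁ ∪ B₂) ≤ 4 * ε := by linarith [measureReal_union_le (μ := Q) B₁ B₂]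
  -- means
  have mu := mean_up hr0 hr1 hd hd0' hε hl herr (i := n) (j := n) (k := k)
    (by nlinarith [Nat.cast_nonneg (α := ℝ) n]) (by omega) hN
  have ml := mean_low hr0 hr1 hd' hd0 hε' hl herr c3 hn hN'
  rw [← mp_integral hsh (measurable_Xi i j k)] at ml
  set Δ := k * (36 * d' / (1 - r) ^ 2) with hΔ
  have hdiff : k * ((r ^ 2 / (r - 3 * d)) / (1 - r ^ 2 / (r - 3 * d)))
      - k * ((r - 3 * d') / (1 - (r - 3 * d'))) ≤ Δ := by
    obtain ⟨-, d2⟩ := mean_diff hr1 (x := r - 3 * d') (y := r ^ 2 / (r - 3 * d)) (by linarith) m6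
    rw [← mul_sub, hΔ]
    refine mul_le_mul_of_nonneg_left (d2.trans ?_) (by positivity)
    exact div_le_div_of_nonneg_right (by linarith) (by positivity)
  have hdiff2 : k * ((r - 3 * d) / (1 - (r - 3 * d)))
      ≤ k * ((r ^ 2 / (r - 3 * d)) / (1 - r ^ 2 / (r - 3 * d))) := by
    obtain ⟨d1, -⟩ := mean_diff hr1 (x := r - 3 * d) (y := r ^ 2 / (r - 3 * d)) (by linarith) m6
    exact mul_le_mul_of_nonneg_left (by linarith) (by positivity)
  have eY := mp_integral h11 mY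
  have eY2 := mp_integral h11 (mY.pow_const 2)
  have eX := mp_integral h11 mX
  have hXY : ∫ ξ, |X ξ - Y ξ| ∂P ≤ Δ + 6 := by
    have := sand_abs (μ := Q) hB (X := fun ξ => Y (sh (1, 1) ξ)) (Z := fun ξ => X (sh (1, 1) ξ))
      (mY.comp (measurable_sh _)) (h11.integrable_comp_of_integrable y1')
      (h11.integrable_comp_of_integrable iX) (fun _ => Xi_nonneg ..) (fun _ => Xi_nonneg ..)
      (fun ξ hξ => (hYZ ξ fun h => hξ (Or.inr h)).trans (hB₁3 ξ fun h => hξ (Or.inl h))) hl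
    rw [eY, eY2, eX, mp_integral h11 (f := fun ξ => |X ξ - Y ξ|) (mX.sub mY).abs] at this
    have h2 := err_le hl herr hB2 y3'
    linarith
  have hZY : ∫ ξ, |Y (sh (1, 1) ξ) - Z ξ| ∂Q ≤ Δ + 4 := by
    have := sand_abs (μ := Q) hB (X := fun ξ => Y (sh (1, 1) ξ)) (Z := Z)
      (mY.comp (measurable_sh _)) (h11.integrable_comp_of_integrable y1') iZ
      (fun _ => SS_nonneg ..) (fun _ => Xi_nonneg ..)
      (fun ξ hξ => hYZ ξ fun h => hξ (Or.inr h)) hl
    rw [eY, eY2] at this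
    have h2 := err_le hl herr hB2 y3'
    simp only [abs_sub_comm (Y _)]
    linarith
  -- characteristic functions
  have c4 : ‖∫ ξ, Complex.exp (Complex.I * s * Y ξ) ∂P‖ ≤ 1 - r / 40 + s * (Δ + 4) := by
    have := char_close (μ := Q) (X := fun ξ => Y (sh (1, 1) ξ)) (Y := Z)
      (mY.comp (measurable_sh _)) mZ ((h11.integrable_comp_of_integrable iY).sub iZ) hs0
    rw [mp_integral h11 (f := fun ξ => Complex.exp (Complex.I * s * Y ξ)) (by fun_prop)] at this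
    have h2 := z5 s hs
    have h3 := mul_le_mul_of_nonneg_left hZY hs0
    linarith
  have hrf := mp_rf (r ^ 2) (n + k) n
  have mY' : Measurable fun ξ => Y (rf (n + k) n ξ) := mY.comp hrf.measurable
  have mX' : Measurable fun ξ => X (rf (n + k) n ξ) := mX.comp hrf.measurable
  have c5 : ‖∫ ξ, Complex.exp (Complex.I * s * (Y ξ - Y (rf (n + k) n ξ) : ℝ)) ∂P‖
      ≤ ‖∫ ξ, Complex.exp (Complex.I * s * Y ξ) ∂P‖ := by
    have := indep_mul (r ^ 2) {v | y ≤ v.2} (f := fun ξ => Complex.exp (Complex.I * s * Y ξ))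
      (g := fun ξ => Complex.exp (Complex.I * (-(s * Y (rf (n + k) n ξ)) : ℝ)))
      (by fun_prop) (((mY'.const_mul s).neg.complex_ofReal.const_mul _).cexp) (fun ω ω' h => by
        have : sh (x, y) ω = sh (x, y) ω' := by
          funext u; exact h _ (by simp)
        simp only [Y, this]) (fun ω ω' h => by
        have : ∀ a, Lp (sh (x, y) (rf (n + k) n ω)) a j = Lp (sh (x, y) (rf (n + k) n ω')) a j := by
          intro a
          refine Lp_congr_box fun i' _ j' hj' => h _ ?_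
          simp only [Set.mem_ofPred_eq, rho]
          rw [if_pos (by omega)]; omega
        simp only [Y, Xi, this])
    have e : ∀ ξ, Complex.exp (Complex.I * s * (Y ξ - Y (rf (n + k) n ξ) : ℝ))
        = Complex.exp (Complex.I * s * Y ξ)
          * Complex.exp (Complex.I * (-(s * Y (rf (n + k) n ξ)) : ℝ)) := by
      intro ξ; rw [← Complex.exp_add]; push_cast; ring_nf
    simp only [e]
    rw [this, norm_mul]
    refine mul_le_of_le_one_right (norm_nonneg _) ?_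
    refine (norm_integral_le_of_norm_le_const (C := 1) (ae_of_all _ fun ξ => ?_)).trans (by simp)
    rw [Complex.norm_exp_I_mul_ofReal]
  have c6 := char_close (μ := P) (X := Dk n k) (Y := fun ξ => Y ξ - Y (rf (n + k) n ξ))
    (measurable_Dk n k) (mY.sub mY')
    ((integrable_of_sq (measurable_Dk n k) (Dk_sq hr0 hr1 n k 0).1).sub
      (iY.sub (hrf.integrable_comp_of_integrable iY))) hs0
  have c7 : ∫ ξ, |Dk n k ξ - (Y ξ - Y (rf (n + k) n ξ))| ∂P ≤ 2 * (Δ + 6) := by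
    have i1 : Integrable (fun ξ => |X ξ - Y ξ|) P := (iX.sub iY).abs
    have i2 : Integrable (fun ξ => |X (rf (n + k) n ξ) - Y (rf (n + k) n ξ)|) P :=
      hrf.integrable_comp_of_integrable i1
    calc _ ≤ ∫ ξ, (|X ξ - Y ξ| + |X (rf (n + k) n ξ) - Y (rf (n + k) n ξ)|) ∂P := by
          refine integral_mono_of_nonneg (ae_of_all _ fun _ => abs_nonneg _) (i1.add i2)
            (ae_of_all _ fun ξ => ?_)
          simp only [Dk_eq]
          refine le_trans (le_of_eq ?_) (abs_sub _ _)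
          congr 1; simp only [X]; ring
      _ ≤ _ := by
          rw [integral_add i1 i2, mp_integral hrf (f := fun ξ => |X ξ - Y ξ|) (mX.sub mY).abs]
          linarith
  have c8 := char_lower (μ := P) (measurable_Dk n k) (Dk_sq hr0 hr1 n k 0).1 s
  have c9 := Dk_le_var hr0 hr1 n k
  have c10 := mul_le_mul_of_nonneg_left c7 hs0
  have c11 := mul_le_mul_of_nonneg_left c9 (show 0 ≤ s ^ 2 / 2 by positivity)
  nlinarith

end

end Pool.Agent.HideZero
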